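import Mathlib

/-!
# Lefschetz-Chow-Kuenneth decompositions

Definitions for the result `MP_38de51_ag.LefschetzCK` (Murre's conjectures).

`Correspondences C F` records the formal structure carried by the category `C` whose objects are
the smooth projective varieties over a field and whose morphisms are all correspondences with
rational coefficients, together with a Weil homology theory with coefficients in the field `F`.
-/

open CategoryTheory MonoidalCategory TensorProduct

universe w v u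

namespace Pool.Agent.LefCK

/-- Correspondences with rational coefficients and a Weil homology theory. Objects of `C`: smooth
projective varieties over a field; `X ⟶ Y`: the group `CH_*(X × Y)` of cycles of all dimensions;
`X ⊗ Y`: the product variety. -/
structure Correspondences (C : Type u) [Category.{v} C] [Preadditive C] [Linear ℚ C]
    [MonoidalCategory C] (F : Type w) [Field F] where
  /-- `deg X Y d = CH_{dim X - d}(X × Y) = Hom(h(X), h(Y)(d))` -/
  deg : ∀ X Y : C, ℤ → Submodule ℚ (X ⟶ Y)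
  /-- the diagonal has degree 0 -/
  id_mem : ∀ X : C, 𝟙 X ∈ deg X X 0
  /-- degrees add up under composition -/
  comp_mem : ∀ {X Y Z : C} {d e : ℤ} {f : X ⟶ Y} {g : Y ⟶ Z},
    f ∈ deg X Y d → g ∈ deg Y Z e → f ≫ g ∈ deg X Z (d + e)
  /-- degrees add up under exterior products -/
  tensor_mem : ∀ {X Y X' Y' : C} {d e : ℤ} {f : X ⟶ Y} {g : X' ⟶ Y'},
    f ∈ deg X Y d → g ∈ deg X' Y' e → (f ⊗ₘ g) ∈ deg (X ⊗ X') (Y ⊗ Y') (d + e)
  /-- the total homology functor `H_*` -/
  H : C ⥤ ModuleCat.{w} F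
  /-- `H_*` is additive -/
  additive : H.Additive
  /-- the subspace `H_j(X)` of `H_*(X)` -/
  gr : ∀ X : C, ℤ → Submodule F (H.obj X)
  /-- `H_*(X)` is the direct sum of the `H_j(X)` -/
  isInternal : ∀ X : C, DirectSum.IsInternal (gr X)
  /-- a correspondence of degree `d` maps `H_j(X)` to `H_{j-2d}(Y)` -/
  map_gr : ∀ {X Y : C} {d : ℤ} {f : X ⟶ Y}, f ∈ deg X Y d → ∀ (j : ℤ) (x : H.obj X),
    x ∈ gr X j → (H.map f).hom x ∈ gr Y (j - 2 * d)
  /-- the homology of a point is concentrated in degree 0 -/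
  unit_gr : ∀ x : H.obj (𝟙_ C), x ∈ gr (𝟙_ C) 0
  /-- the Kuenneth formula -/
  kunneth : ∀ X Y : C, (H.obj X ⊗[F] H.obj Y) ≃ₗ[F] H.obj (X ⊗ Y)
  /-- exterior products of correspondences act as the tensor product of the actions -/
  kunneth_map : ∀ {X Y X' Y' : C} (f : X ⟶ Y) (g : X' ⟶ Y') (x : H.obj X) (x' : H.obj X'),
    (H.map (f ⊗ₘ g)).hom (kunneth X X' (x ⊗ₜ[F] x')) =
      kunneth Y Y' ((H.map f).hom x ⊗ₜ[F] (H.map g).hom x')
  /-- homological degrees add up -/
  kunneth_gr : ∀ (X Y : C) (i j : ℤ) (x : H.obj X) (y : H.obj Y), x ∈ gr X i → y ∈ gr Y j →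
    kunneth X Y (x ⊗ₜ[F] y) ∈ gr (X ⊗ Y) (i + j)

/-- A variety `X` of dimension `n` with distinguished correspondences `L c : X ⟶ X` of degree
`c` for `c = 0, 1, 2, …`. For `c = 0` think of automorphisms of `X`, for `c ≥ 1` of
the intersection with ample divisor classes (`c = 1`), with products of `c` ample divisor classes,
with top Chern classes of ample vector bundles of rank `c`. -/
structure Pol (C : Type u) [Category.{v} C] where
  /-- the variety -/
  X : C
  /-- its dimension -/
  n : ℤ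
  /-- the distinguished correspondences of degree `c` -/
  L : ℕ → Set (X ⟶ X)

/-- The sum of the degrees of a list of correspondences (each given with its degree). -/
def total {C : Type u} [Category.{v} C] {X : C} (l : List (ℕ × (X ⟶ X))) : ℤ :=
  ((l.map Prod.fst).sum : ℕ)

/-- The leading component of `L₁, …, L_r` on the piece `M_w` of a Chow-Kuenneth decomposition:
`p w ≫ L₁ ≫ p (w - 2c₁) ≫ L₂ ≫ p (w - 2c₁ - 2c₂) ≫ ⋯ ≫ L_r ≫ p (w - 2c₁ - ⋯ - 2c_r)`. -/
def lead {C : Type u} [Category.{v} C] {X : C} (p : ℤ → (X ⟶ X)) :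
    ℤ → List (ℕ × (X ⟶ X)) → (X ⟶ X)
  | w, [] => p w
  | w, a :: l => p w ≫ a.2 ≫ lead p (w - 2 * (a.1 : ℤ)) l

variable {C : Type u} [Category.{v} C] [Preadditive C] [Linear ℚ C]
  [MonoidalCategory C] {F : Type w} [Field F]

/-- A Chow-Kuenneth decomposition `h(X) = ⊕ M_i` (Murre's (A) for `X`), given by the complete
system of orthogonal idempotents `p i` (so `M_i` is the image of `p i`); the condition
`H_*(M_i) = H_i(X)` says that `p i` acts on `H_j(X)` as the identity for `j = i` and as zero for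
`j ≠ i`. -/
structure CK (K : Correspondences C F) (X : C) where
  /-- the projector onto `M_i` -/
  p : ℤ → (X ⟶ X)
  mem : ∀ i, p i ∈ K.deg X X 0
  idem : ∀ i, p i ≫ p i = p i
  orth : ∀ i j, i ≠ j → p i ≫ p j = 0
  finite : (Function.support p).Finite
  sum : ∑ᶠ i, p i = 𝟙 X
  homology : ∀ (i j : ℤ) (x : K.H.obj X), x ∈ K.gr X j →
    (K.H.map (p i)).hom x = if j = i then x else 0

/-- A Lefschetz-Chow-Kuenneth decomposition of `(X, n, L)`: a Chow-Kuenneth decomposition such that
the distinguished correspondences do not lower the weight too much (they map `M_j` into the sum of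
the `M_i(c)` with `i ≥ j - 2c`), and hard Lefschetz holds at the level of Chow motives: for all
`L₁, …, L_r` of positive degrees with sum `s`, the leading component of
`L_r ∘ ⋯ ∘ L₁` is an isomorphism `M_{n+s} → M_{n-s}(s)`. -/
structure LCK (K : Correspondences C F) (P : Pol C) extends CK K P.X where
  mem_L : ∀ (c : ℕ), ∀ L ∈ P.L c, L ∈ K.deg P.X P.X c
  nonneg : ∀ (c : ℕ), ∀ L ∈ P.L c, ∀ i j : ℤ, i < j - 2 * (c : ℤ) → p j ≫ L ≫ p i = 0
  hard : ∀ l : List (ℕ × (P.X ⟶ P.X)), l ≠ [] → (∀ a ∈ l, 0 < a.1 ∧ a.2 ∈ P.L a.1) →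
    ∃ G ∈ K.deg P.X P.X (-total l), lead p (P.n + total l) l ≫ G = p (P.n + total l) ∧
      G ≫ lead p (P.n + total l) l = p (P.n - total l)

/-- `CH_l(X)` -/
def CH (K : Correspondences C F) (X : C) (l : ℤ) : Submodule ℚ (𝟙_ C ⟶ X) :=
  K.deg (𝟙_ C) X (-l)

/-- (B) for `CH_l` and the given decomposition: `CH_l(M_i) = 0` for `i < 2l`. -/
def CK.MurreB {K : Correspondences C F} {X : C} (D : CK K X) (l : ℤ) : Prop :=
  ∀ x ∈ CH K X l, ∀ i : ℤ, i < 2 * l → x ≫ D.p i = 0

/-- (D) for `CH_l` and the given decomposition: `CH_l(M_{2l})_hom = 0`. -/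
def CK.MurreD {K : Correspondences C F} {X : C} (D : CK K X) (l : ℤ) : Prop :=
  ∀ x ∈ CH K X l, K.H.map x = 0 → x ≫ D.p (2 * l) = 0

/-- The smooth zero locus `Y` of codimension `c > 0` of a section of an ample vector bundle of rank
`c` (for instance a smooth ample divisor, or a smooth complete intersection of `c` ample divisors)
in a variety `(X, n, L)`: `Y` has dimension `n - c`, intersection with the class of `Y` is one of
the distinguished correspondences, and the weak Lefschetz theorem holds in homology. -/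
structure ZeroLocus (K : Correspondences C F) (P : Pol C) where
  /-- the subvariety -/
  Y : C
  /-- the codimension -/
  c : ℕ
  pos : 0 < c
  /-- push-forward along the inclusion `r`, `r_* : h(Y) → h(X)` -/
  push : Y ⟶ P.X
  /-- pull-back along the inclusion, `r^* : h(X) → h(Y)(c)` -/
  pull : P.X ⟶ Y
  push_mem : push ∈ K.deg Y P.X 0
  pull_mem : pull ∈ K.deg P.X Y c
  /-- `r_* r^*` is the intersection with the class of `Y` -/
  cls : pull ≫ push ∈ P.L c
  /-- there is a distinguished divisor class on `X` -/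
  divisor : (P.L 1).Nonempty
  /-- weak Lefschetz above the middle dimension -/
  surj : ∀ j : ℤ, P.n - c < j → ∀ y ∈ K.gr Y j, ∃ x ∈ K.gr P.X (j + 2 * (c : ℤ)),
    (K.H.map pull).hom x = y
  /-- weak Lefschetz below the middle dimension -/
  inj : ∀ j : ℤ, j < P.n - c → ∀ y ∈ K.gr Y j, (K.H.map push).hom y = 0 → y = 0

/-- `(Y, n - c, L|Y)`, with the restrictions of the distinguished correspondences. -/
def ZeroLocus.pol {K : Correspondences C F} {P : Pol C} (Z : ZeroLocus K P) : Pol C where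
  X := Z.Y
  n := P.n - Z.c
  L := fun d => {g | g ∈ K.deg Z.Y Z.Y d ∧ ∃ L ∈ P.L d,
    Z.push ≫ L = g ≫ Z.push ∧ Z.pull ≫ g = L ≫ Z.pull}

/-- The weak Lefschetz property for `CH_l(Y)`: `CH_{l+c}(X) → CH_l(Y)` is onto if
`2l > dim Y`. -/
def ZeroLocus.WeakLefschetz {K : Correspondences C F} {P : Pol C} (Z : ZeroLocus K P)
    (l : ℤ) : Prop :=
  P.n - Z.c < 2 * l → ∀ y ∈ CH K Z.Y l, ∃ x ∈ CH K P.X (l + Z.c), x ≫ Z.pull = y

/-- A covering `π : Y → X` such that `H_*(Y)` and `H_*(X)` differ only in degree `n` (for instance a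
cyclic covering branched along a smooth ample divisor): `inc = π^*`, `ret = π_* / deg π`. -/
structure Covering (K : Correspondences C F) (P : Pol C) where
  /-- the covering variety -/
  Y : C
  /-- `π^* : h(X) → h(Y)` -/
  inc : P.X ⟶ Y
  /-- `π_* / deg π : h(Y) → h(X)` -/
  ret : Y ⟶ P.X
  inc_mem : inc ∈ K.deg P.X Y 0
  ret_mem : ret ∈ K.deg Y P.X 0
  inc_ret : inc ≫ ret = 𝟙 P.X
  middle : ∀ j : ℤ, j ≠ P.n → ∀ y ∈ K.gr Y j, (K.H.map (ret ≫ inc)).hom y = y

/-- Weak Lefschetz for `CH_l` of a covering: `CH_l(X) → CH_l(Y)` is onto if `2l > dim Y`. -/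
def Covering.WeakLefschetz {K : Correspondences C F} {P : Pol C} (Z : Covering K P)
    (l : ℤ) : Prop :=
  P.n < 2 * l → ∀ y ∈ CH K Z.Y l, ∃ x ∈ CH K P.X l, x ≫ Z.inc = y

/-- `(Y, n, π^* L)` -/
def Covering.pol {K : Correspondences C F} {P : Pol C} (Z : Covering K P) : Pol C where
  X := Z.Y
  n := P.n
  L := fun d => {g | g ∈ K.deg Z.Y Z.Y d ∧ ∃ L ∈ P.L d,
    Z.inc ≫ g = L ≫ Z.inc ∧ g ≫ Z.ret = Z.ret ≫ L}

/-- A quotient `Y` of `X` (for instance by a finite group `G` acting on `X`): `inc = π^*`,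
`ret = π_* / deg π`, and `π^* π_* / deg π` (the average of the elements of `G`) is a
distinguished correspondence of degree 0. -/
structure Quotient (K : Correspondences C F) (P : Pol C) where
  /-- the quotient variety -/
  Y : C
  /-- `π^* : h(Y) → h(X)` -/
  inc : Y ⟶ P.X
  /-- `π_* / deg π : h(X) → h(Y)` -/
  ret : P.X ⟶ Y
  inc_mem : inc ∈ K.deg Y P.X 0
  ret_mem : ret ∈ K.deg P.X Y 0
  inc_ret : inc ≫ ret = 𝟙 Y
  proj : ret ≫ inc ∈ P.L 0

/-- `(Y, n, L)` for the quotient `Y`, with the correspondences induced by the distinguished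
correspondences. -/
def Quotient.pol {K : Correspondences C F} {P : Pol C} (Z : Quotient K P) : Pol C where
  X := Z.Y
  n := P.n
  L := fun d => {g | g ∈ K.deg Z.Y Z.Y d ∧ ∃ L ∈ P.L d,
    Z.inc ≫ L = g ≫ Z.inc ∧ Z.ret ≫ g = L ≫ Z.ret}

/-- The correspondences generated by the distinguished ones: in degree 0 all polynomials in the
distinguished correspondences of degree 0, in positive degrees all nonzero multiples of products
of distinguished correspondences of positive degree. -/
inductive Gen (P : Pol C) : ℕ → (P.X ⟶ P.X) → Prop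
  | of {c : ℕ} {f : P.X ⟶ P.X} : f ∈ P.L c → Gen P c f
  | one : Gen P 0 (𝟙 P.X)
  | add {f g : P.X ⟶ P.X} : Gen P 0 f → Gen P 0 g → Gen P 0 (f + g)
  | smul {c : ℕ} {f : P.X ⟶ P.X} (q : ℚ) : q ≠ 0 → Gen P c f → Gen P c (q • f)
  | comp {c d : ℕ} {f g : P.X ⟶ P.X} : (c = 0 ↔ d = 0) → Gen P c f → Gen P d g →
      Gen P (c + d) (f ≫ g)

/-- The product `X × X'` with the divisor classes `a L ⊗ 1 + b 1 ⊗ L'` (`a, b > 0`) and the exterior
products of distinguished correspondences of degree 0. -/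
def prodPol (P P' : Pol C) (L : P.X ⟶ P.X) (L' : P'.X ⟶ P'.X) : Pol C where
  X := P.X ⊗ P'.X
  n := P.n + P'.n
  L := fun d => {g | (d = 0 ∧ ∃ f ∈ P.L 0, ∃ f' ∈ P'.L 0, g = (f ⊗ₘ f')) ∨
    (d = 1 ∧ ∃ a b : ℚ, 0 < a ∧ 0 < b ∧ g = a • (L ⊗ₘ 𝟙 P'.X) + b • (𝟙 P.X ⊗ₘ L'))}

/-- The powers `L^a = L ≫ ⋯ ≫ L` (`a` factors). -/
def pow {X : C} (L : X ⟶ X) : ℕ → (X ⟶ X)
  | 0 => 𝟙 X
  | a + 1 => pow L a ≫ L

/-- `X` is a variety of dimension `n` with an ample class `L` whose homology outside the middle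
degree `n` is spanned by algebraic cycles. By the Lefschetz decomposition this means: there are
primitive algebraic cycles `x α` of dimension `d α = (n + ℓ α) / 2` and primitive cycles `ξ α` of
the same dimension (regarded as correspondences from `X` to the point) with intersection numbers
`x α · L^(ℓ α) · ξ β = δ_{αβ}` (all other numbers `x α · L^a · ξ β` are 0 for reasons of dimension
or since the cycles are primitive), such that the `x α · L^a` span `H_j(X)` for `j ≠ n`. Examples:
curves, surfaces with `H_1 = 0`, threefolds with `H_1 = 0` and algebraic `H_2`, complete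
intersections in projective space. -/
structure CyclesOffMiddle (K : Correspondences C F) (P : Pol C) where
  L : P.X ⟶ P.X
  L_mem : L ∈ K.deg P.X P.X 1
  /-- `L` is the only distinguished correspondence -/
  only : ∀ c : ℕ, ∀ g ∈ P.L c, c = 1 ∧ g = L
  /-- the number of Lefschetz strings -/
  r : ℕ
  ℓ : Fin r → ℕ
  d : Fin r → ℤ
  two_d : ∀ α, 2 * d α = P.n + ℓ α
  x : Fin r → (𝟙_ C ⟶ P.X)
  x_mem : ∀ α, x α ∈ CH K P.X (d α)
  ξ : Fin r → (P.X ⟶ 𝟙_ C)
  ξ_mem : ∀ α, ξ α ∈ K.deg P.X (𝟙_ C) (P.n - d α)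
  pairing : ∀ (α β : Fin r) (a : ℕ),
    x α ≫ pow L a ≫ ξ β = if α = β ∧ a = ℓ α then 𝟙 (𝟙_ C) else 0
  span : ∀ j : ℤ, j ≠ P.n → ∀ y ∈ K.gr P.X j, ∑ α, ∑ a ∈ Finset.range (ℓ α + 1),
    (K.H.map ((pow L (ℓ α - a) ≫ ξ α) ≫ (x α ≫ pow L a))).hom y = y

/-- The varieties obtained from the varieties in `W` and the varieties whose homology outside the
middle degree is spanned by algebraic cycles by the operations: change of the distinguished
correspondences, zero loci, coverings, quotients, products. -/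
inductive Iterated (K : Correspondences C F) (W : Pol C → Prop) : Pol C → Prop
  | base {P : Pol C} : W P → Iterated K W P
  | cycles {P : Pol C} : CyclesOffMiddle K P → Iterated K W P
  | gen {P : Pol C} (L' : ℕ → Set (P.X ⟶ P.X)) : Iterated K W P →
      (∀ c, ∀ f ∈ L' c, Gen P c f) → Iterated K W ⟨P.X, P.n, L'⟩
  | zeroLocus {P : Pol C} (Z : ZeroLocus K P) : Iterated K W P → Iterated K W Z.pol
  | covering {P : Pol C} (Z : Covering K P) : Iterated K W P → Iterated K W Z.pol
  | quotient {P : Pol C} (Z : Quotient K P) : Iterated K W P → Iterated K W Z.pol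
  | prod {P P' : Pol C} {L : P.X ⟶ P.X} {L' : P'.X ⟶ P'.X} : Iterated K W P →
      Iterated K W P' → L ∈ P.L 1 → L' ∈ P'.L 1 → Iterated K W (prodPol P P' L L')

end Pool.Agent.LefCK
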