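import Mathlib
import Pool.Agent.LefCK.Defs

/-!
# Lefschetz-Chow-Kuenneth decompositions: basic lemmas
-/

open CategoryTheory MonoidalCategory TensorProduct

universe w v u

namespace Pool.Agent.LefCK

section lead

variable {C : Type u} [Category.{v} C] {X : C}

@[simp] theorem lead_nil (p : ℤ → (X ⟶ X)) (w : ℤ) : lead p w [] = p w := rfl

@[simp] theorem lead_cons (p : ℤ → (X ⟶ X)) (w : ℤ) (a : ℕ × (X ⟶ X)) (l : List (ℕ × (X ⟶ X))) :
    lead p w (a :: l) = p w ≫ a.2 ≫ lead p (w - 2 * (a.1 : ℤ)) l := rfl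

@[simp] theorem total_nil : total ([] : List (ℕ × (X ⟶ X))) = 0 := by simp [total]

@[simp] theorem total_cons (a : ℕ × (X ⟶ X)) (l : List (ℕ × (X ⟶ X))) :
    total (a :: l) = (a.1 : ℤ) + total l := by simp [total]

@[simp] theorem total_append (l l' : List (ℕ × (X ⟶ X))) :
    total (l ++ l') = total l + total l' := by simp [total]

theorem total_replicate (r c : ℕ) (L : X ⟶ X) :
    total (List.replicate r (c, L)) = (r : ℤ) * c := by
  simp [total]

theorem total_nonneg (l : List (ℕ × (X ⟶ X))) : 0 ≤ total l := Int.natCast_nonneg _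

theorem total_pos {l : List (ℕ × (X ⟶ X))} (h : l ≠ []) (hl : ∀ a ∈ l, 0 < a.1) :
    0 < total l := by
  cases l with
  | nil => exact absurd rfl h
  | cons a l =>
    rw [total_cons]
    have := hl a (by simp)
    have := total_nonneg l
    omega

variable {p : ℤ → (X ⟶ X)} (hp : ∀ i, p i ≫ p i = p i)

include hp

theorem p_lead (w : ℤ) (l : List (ℕ × (X ⟶ X))) : p w ≫ lead p w l = lead p w l := by
  cases l with
  | nil => rw [lead_nil, hp]
  | cons a l => rw [lead_cons, ← Category.assoc, hp]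

theorem lead_p (w w' : ℤ) (l : List (ℕ × (X ⟶ X))) (h : w' = w - 2 * total l) :
    lead p w l ≫ p w' = lead p w l := by
  induction l generalizing w with
  | nil =>
    have : w' = w := by simpa using h
    rw [this, lead_nil, hp]
  | cons a l ih =>
    rw [lead_cons, Category.assoc, Category.assoc, ih]
    rw [h, total_cons]; ring

theorem lead_append (w w' : ℤ) (l l' : List (ℕ × (X ⟶ X))) (h : w' = w - 2 * total l) :
    lead p w (l ++ l') = lead p w l ≫ lead p w' l' := by
  induction l generalizing w with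
  | nil =>
    have : w' = w := by simpa using h
    rw [this, List.nil_append, lead_nil, p_lead hp]
  | cons a l ih =>
    rw [List.cons_append, lead_cons, lead_cons, Category.assoc, Category.assoc, ih]
    rw [h, total_cons]; ring

end lead

variable {C : Type u} [Category.{v} C] [Preadditive C] [Linear ℚ C]
  [MonoidalCategory C] {F : Type w} [Field F]

namespace Correspondences

variable (K : Correspondences C F)

theorem comp_mem' {X Y Z : C} {d e k : ℤ} {f : X ⟶ Y} {g : Y ⟶ Z} (hf : f ∈ K.deg X Y d)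
    (hg : g ∈ K.deg Y Z e) (h : d + e = k) : f ≫ g ∈ K.deg X Z k := h ▸ K.comp_mem hf hg

theorem mem_cast {X Y : C} {d k : ℤ} {f : X ⟶ Y} (hf : f ∈ K.deg X Y d) (h : d = k) :
    f ∈ K.deg X Y k := h ▸ hf

@[simp] theorem map_comp_apply {X Y Z : C} (f : X ⟶ Y) (g : Y ⟶ Z) (x : K.H.obj X) :
    (K.H.map (f ≫ g)).hom x = (K.H.map g).hom ((K.H.map f).hom x) := by
  rw [Functor.map_comp, ModuleCat.hom_comp, LinearMap.comp_apply]

@[simp] theorem map_id_apply {X : C} (x : K.H.obj X) :
    (K.H.map (𝟙 X)).hom x = x := by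
  rw [CategoryTheory.Functor.map_id, ModuleCat.hom_id, LinearMap.id_apply]

theorem map_add_apply {X Y : C} (f g : X ⟶ Y) (x : K.H.obj X) :
    (K.H.map (f + g)).hom x = (K.H.map f).hom x + (K.H.map g).hom x := by
  have := K.additive
  rw [Functor.map_add, ModuleCat.hom_add, LinearMap.add_apply]

theorem map_sub_apply {X Y : C} (f g : X ⟶ Y) (x : K.H.obj X) :
    (K.H.map (f - g)).hom x = (K.H.map f).hom x - (K.H.map g).hom x := by
  have := K.additive
  rw [Functor.map_sub, ModuleCat.hom_sub, LinearMap.sub_apply]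

theorem map_zero_apply {X Y : C} (x : K.H.obj X) :
    (K.H.map (0 : X ⟶ Y)).hom x = 0 := by
  have := K.additive
  rw [Functor.map_zero, ModuleCat.hom_zero, LinearMap.zero_apply]

theorem map_sum_apply {X Y : C} {ι : Type*} (s : Finset ι) (f : ι → (X ⟶ Y)) (x : K.H.obj X) :
    (K.H.map (∑ i ∈ s, f i)).hom x = ∑ i ∈ s, (K.H.map (f i)).hom x := by
  have := K.additive
  rw [Functor.map_sum, ModuleCat.hom_sum, LinearMap.sum_apply]

/-- An element of two different `H_i(X)` is zero. -/
theorem gr_eq_zero {X : C} {i j : ℤ} {x : K.H.obj X} (hij : i ≠ j) (hi : x ∈ K.gr X i)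
    (hj : x ∈ K.gr X j) : x = 0 := by
  have h := (K.isInternal X).submodule_iSupIndep.pairwiseDisjoint hij
  exact (Submodule.disjoint_def.1 h) x hi hj

/-- To prove a statement about all elements of `H_*(X)`, it suffices to prove it for homogeneous
elements and sums. -/
theorem gr_induction {X : C} {motive : K.H.obj X → Prop} (zero : motive 0)
    (mem : ∀ (i : ℤ) (x : K.H.obj X), x ∈ K.gr X i → motive x)
    (add : ∀ x y : K.H.obj X, motive x → motive y → motive (x + y)) (x : K.H.obj X) :
    motive x := by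
  have h : x ∈ ⨆ i, K.gr X i := by
    rw [(K.isInternal X).submodule_iSup_eq_top]
    trivial
  exact Submodule.iSup_induction (K.gr X) (motive := motive) h mem zero add

/-- The correspondences of degree 0 form a subring of `End X` (where `f * g = g ≫ f`). -/
def zeroRing (X : C) : Subring (End X) where
  carrier := {f | (f : X ⟶ X) ∈ K.deg X X 0}
  mul_mem' := by
    intro f g hf hg
    exact K.comp_mem' (show (g : X ⟶ X) ∈ K.deg X X 0 from hg) (show (f : X ⟶ X) ∈ _ from hf)
      (add_zero 0)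
  one_mem' := K.id_mem X
  add_mem' := by
    intro f g hf hg
    exact (K.deg X X 0).add_mem hf hg
  zero_mem' := (K.deg X X 0).zero_mem
  neg_mem' := by
    intro f hf
    exact (K.deg X X 0).neg_mem hf

end Correspondences

variable {K : Correspondences C F} {X : C}

namespace CK

variable (D : CK K X)

theorem exists_finset : ∃ s : Finset ℤ, (∀ i, i ∉ s → D.p i = 0) ∧ ∑ i ∈ s, D.p i = 𝟙 X := by
  refine ⟨D.finite.toFinset, fun i hi => ?_, ?_⟩
  · by_contra h
    exact hi (by simpa using h)
  · rw [← D.sum]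
    symm
    apply finsum_eq_sum_of_support_subset
    simp

/-- Constructor with a finite index set. -/
def ofFinset (s : Finset ℤ) (p : ℤ → (X ⟶ X)) (hs : ∀ i, i ∉ s → p i = 0)
    (mem : ∀ i, p i ∈ K.deg X X 0)
    (idem : ∀ i, p i ≫ p i = p i) (orth : ∀ i j, i ≠ j → p i ≫ p j = 0)
    (sum : ∑ i ∈ s, p i = 𝟙 X)
    (homology : ∀ (i j : ℤ) (x : K.H.obj X), x ∈ K.gr X j →
      (K.H.map (p i)).hom x = if j = i then x else 0) : CK K X where
  p := p
  mem := mem
  idem := idem
  orth := orth
  finite := s.finite_toSet.subset (fun i hi => by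
    by_contra h
    exact hi (hs i (by simpa using h)))
  sum := by
    rw [finsum_eq_sum_of_support_subset (s := s), sum]
    intro i hi
    by_contra h
    exact hi (hs i (by simpa using h))
  homology := homology

/-- Insert `1 = ∑ p k`: if all the terms vanish, the composition vanishes. -/
theorem comp_eq_zero {Y Z : C} (f : Y ⟶ X) (g : X ⟶ Z) (h : ∀ k, f ≫ D.p k ≫ g = 0) :
    f ≫ g = 0 := by
  obtain ⟨s, -, hs⟩ := D.exists_finset
  have h1 : f ≫ g = f ≫ (∑ i ∈ s, D.p i) ≫ g := by rw [hs, Category.id_comp]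
  rw [h1, Preadditive.sum_comp, Preadditive.comp_sum]
  exact Finset.sum_eq_zero (fun i _ => h i)

/-- Insert `1 = ∑ p k`: if all the terms but one vanish, the composition is that term. -/
theorem comp_eq {Y Z : C} (f : Y ⟶ X) (g : X ⟶ Z) (j : ℤ) (h : ∀ k, k ≠ j → f ≫ D.p k ≫ g = 0) :
    f ≫ g = f ≫ D.p j ≫ g := by
  obtain ⟨s, hs0, hs⟩ := D.exists_finset
  have h1 : f ≫ g = f ≫ (∑ i ∈ s, D.p i) ≫ g := by rw [hs, Category.id_comp]
  rw [h1, Preadditive.sum_comp, Preadditive.comp_sum]
  refine Finset.sum_eq_single j (fun i _ hi => h i hi) (fun hj => ?_)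
  rw [hs0 j hj, Limits.zero_comp, Limits.comp_zero]

@[reassoc] theorem idem' (i : ℤ) : D.p i ≫ D.p i = D.p i := D.idem i

@[reassoc] theorem orth' {i j : ℤ} (h : i ≠ j) : D.p i ≫ D.p j = 0 := D.orth i j h

theorem homology_self {i : ℤ} {x : K.H.obj X} (hx : x ∈ K.gr X i) :
    (K.H.map (D.p i)).hom x = x := by
  rw [D.homology i i x hx, if_pos rfl]

theorem homology_ne {i j : ℤ} (h : j ≠ i) {x : K.H.obj X} (hx : x ∈ K.gr X j) :
    (K.H.map (D.p i)).hom x = 0 := by
  rw [D.homology i j x hx, if_neg h]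

/-- `H_*(M_i)` is contained in `H_i(X)`. -/
theorem map_p_mem (i : ℤ) (x : K.H.obj X) : (K.H.map (D.p i)).hom x ∈ K.gr X i := by
  induction x using K.gr_induction with
  | zero => rw [map_zero]; exact Submodule.zero_mem _
  | mem j x hx =>
    by_cases h : j = i
    · subst h; rw [D.homology_self hx]; exact hx
    · rw [D.homology_ne h hx]; exact Submodule.zero_mem _
  | add x y hx hy => rw [map_add]; exact Submodule.add_mem _ hx hy

/-- It is enough to know that `p i` acts as zero on `H_j` for `j ≠ i`. -/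
theorem homology_of_pure (s : Finset ℤ) (p : ℤ → (X ⟶ X)) (hs : ∀ i, i ∉ s → p i = 0)
    (sum : ∑ i ∈ s, p i = 𝟙 X)
    (hH : ∀ i j, j ≠ i → ∀ x ∈ K.gr X j, (K.H.map (p i)).hom x = 0)
    (i j : ℤ) (x : K.H.obj X) (hx : x ∈ K.gr X j) :
    (K.H.map (p i)).hom x = if j = i then x else 0 := by
  by_cases hij : j = i
  · subst hij
    rw [if_pos rfl]
    have h1 := congrArg (fun t => (K.H.map t).hom x) sum
    simp only [K.map_id_apply, K.map_sum_apply] at h1
    by_cases hj : j ∈ s
    · rwa [Finset.sum_eq_single_of_mem _ hj (fun k _ hk => hH k j (Ne.symm hk) x hx)] at h1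
    · rw [Finset.sum_eq_zero] at h1
      · rw [hs j hj, ← h1, map_zero]
      · intro k hk
        exact hH k j (by rintro rfl; exact hj hk) x hx
  · rw [if_neg hij, hH i j hij x hx]

end CK


theorem lead_mem {p : ℤ → (X ⟶ X)} (hp : ∀ i, p i ∈ K.deg X X 0) (w : ℤ)
    (l : List (ℕ × (X ⟶ X))) (hl : ∀ a ∈ l, a.2 ∈ K.deg X X (a.1 : ℤ)) :
    lead p w l ∈ K.deg X X (total l) := by
  induction l generalizing w with
  | nil => simpa using hp w
  | cons a l ih =>
    rw [lead_cons, total_cons]
    have h1 := ih (w - 2 * (a.1 : ℤ)) (fun b hb => hl b (List.mem_cons_of_mem _ hb))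
    exact K.comp_mem' (hp w) (K.comp_mem (hl a (by simp)) h1) (by ring)

end Pool.Agent.LefCK
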