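import Mathlib
import Pool.Agent.LefCK.Defs

/-!
# Murre's conjectures in low degrees: definitions

Definitions for the result `MP_38de51_ag.LowDegreeLCK`.
-/

open CategoryTheory MonoidalCategory TensorProduct

universe w v u

namespace Pool.Agent.LefCK

variable {C : Type u} [Category.{v} C] [Preadditive C] [Linear ℚ C]
  [MonoidalCategory C] {F : Type w} [Field F]

/-- Classical facts on cycles of dimension `≥ dim X - 1` and on zero-cycles: there are no cycles of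
negative dimension or of dimension `> dim X`, a homologically trivial cycle of dimension `dim X` is
zero, correspondences `X → Y` act on `Pic⁰` (the homologically trivial cycles of dimension
`dim X - 1`, resp. `dim Y - 1`) through `H_{2 dim X - 1}`, and they act on the Albanese variety
through `H_1`. -/
structure Divisors (K : Correspondences C F) where
  /-- the dimension of a variety -/
  dim : C → ℤ
  low : ∀ (X : C) (l : ℤ), l < 0 → ∀ x ∈ CH K X l, x = 0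
  high : ∀ (X : C) (l : ℤ), dim X < l → ∀ x ∈ CH K X l, x = 0
  fund : ∀ X : C, ∀ x ∈ CH K X (dim X), K.H.map x = 0 → x = 0
  picard : ∀ (X Y : C) (f : X ⟶ Y), f ∈ K.deg X Y (dim X - dim Y) →
    (∀ h ∈ K.gr X (2 * dim X - 1), (K.H.map f).hom h = 0) →
    ∀ x ∈ CH K X (dim X - 1), K.H.map x = 0 → x ≫ f = 0
  albanese : ∀ (X Y : C) (f : X ⟶ Y), dim Y = 1 → f ∈ K.deg X Y 0 →
    (∀ h ∈ K.gr X 1, (K.H.map f).hom h = 0) →
    ∀ x ∈ CH K X 0, K.H.map x = 0 → x ≫ f = 0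

/-- A distinguished ample class `L` (as a correspondence of degree 1) on the variety `P.X` of
dimension `P.n`, and smooth linear sections `Z s` of codimension `s` for `0 < s ≤ n`, whose class
is a multiple of `L ^ s`; `L ^ s = 0` for `s > n`. -/
structure LinearSections (K : Correspondences C F) (D : Divisors K) (P : Pol C) where
  dim_eq : D.dim P.X = P.n
  L : P.X ⟶ P.X
  L_mem : L ∈ P.L 1
  nil : ∀ s : ℕ, P.n < s → pow L s = 0
  Z : ℕ → C
  push : ∀ s : ℕ, Z s ⟶ P.X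
  pull : ∀ s : ℕ, P.X ⟶ Z s
  m : ℕ → ℚ
  push_mem : ∀ s : ℕ, push s ∈ K.deg (Z s) P.X 0
  pull_mem : ∀ s : ℕ, pull s ∈ K.deg P.X (Z s) s
  m_ne : ∀ s : ℕ, m s ≠ 0
  cls : ∀ s : ℕ, 0 < s → (s : ℤ) ≤ P.n → pull s ≫ push s = m s • pow L s
  dim_Z : ∀ s : ℕ, 0 < s → (s : ℤ) ≤ P.n → D.dim (Z s) = P.n - s

/-- The correspondence `f : X → X` of degree 0 is a sum of compositions `X → V_k → X` (of
degrees `c_k`, `-c_k`) such that the group `CH_{l-c_k}(V_k)`, in which the image of `CH_l(X)` lies, is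
zero or consists of cycles of codimension `≤ 1`: `l < c_k` or `dim V_k + c_k ≤ l + 1`. For `f = 1` this
holds if `l ≥ dim X - 1`; by Bloch-Srinivas it holds for `l = dim X - 2` if `CH_0(X_Ω)` is
supported on a curve, for instance if `X` is rationally connected. -/
def ByDivisors {K : Correspondences C F} (D : Divisors K) {X : C} (f : X ⟶ X) (l : ℤ) : Prop :=
  ∃ (r : ℕ) (V : Fin r → C) (c : Fin r → ℤ) (a : ∀ k, X ⟶ V k) (b : ∀ k, V k ⟶ X),
    (∀ k, a k ∈ K.deg X (V k) (c k) ∧ b k ∈ K.deg (V k) X (-c k) ∧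
      (l < c k ∨ D.dim (V k) + c k ≤ l + 1)) ∧ ∑ k, a k ≫ b k = f

/-- `x` lies in `F^ν CH_l(X)`, the sum of the groups `CH_l(M_i)`, `i ≥ 2l + ν`. -/
def CK.Fil {K : Correspondences C F} {X : C} (D : CK K X) (ν l : ℤ) (x : 𝟙_ C ⟶ X) : Prop :=
  x ∈ CH K X l ∧ ∀ i : ℤ, i < 2 * l + ν → x ≫ D.p i = 0

/-- What is proved about a Chow-Kuenneth decomposition `e` of a variety `X` of dimension `n`. -/
structure LowDegree {K : Correspondences C F} (D : Divisors K) {X : C} (e : CK K X) (n : ℤ) :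
    Prop where
  /-- `CH_l(M_i)_hom = 0` for `i ≠ 2l + 1` if the `l`-cycles of `M_i` are controlled by divisors -/
  piece : ∀ l i : ℤ, i ≠ 2 * l + 1 → ByDivisors D (e.p i) l →
    ∀ x ∈ CH K X l, K.H.map (x ≫ e.p i) = 0 → x ≫ e.p i = 0
  /-- If `CH_l(X)` is controlled by divisors for all `l ≥ n - t`, then `CH_l(M_i)_hom = 0` for
  `i ≠ 2l + 1`, `i ≤ n`, `i ≤ l + t`. -/
  low : ∀ t : ℤ, (∀ l, n - t ≤ l → ByDivisors D (𝟙 X) l) → ∀ l i : ℤ, i ≠ 2 * l + 1 → i ≤ n →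
    i ≤ l + t → ∀ x ∈ CH K X l, K.H.map (x ≫ e.p i) = 0 → x ≫ e.p i = 0
  /-- `CH_l(M_i) = 0` for `i > n + l` -/
  bounded : ∀ l i : ℤ, n + l < i → ∀ x ∈ CH K X l, x ≫ e.p i = 0
  /-- If `CH_l(X)` is controlled by divisors for all `l ≥ n - t`, then (B) holds for `CH_l` if
  `l ≤ t + 1` or `l ≥ n - t`. -/
  murreB : ∀ t : ℤ, (∀ l, n - t ≤ l → ByDivisors D (𝟙 X) l) →
    ∀ l : ℤ, l ≤ t + 1 ∨ n - t ≤ l → e.MurreB l
  /-- If `CH_l(X)` is controlled by divisors for all `l ≥ n - t`, then (D) holds for `CH_l` if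
  `l ≤ t` or `l ≥ n - t`. -/
  murreD : ∀ t : ℤ, (∀ l, n - t ≤ l → ByDivisors D (𝟙 X) l) →
    ∀ l : ℤ, l ≤ t ∨ n - t ≤ l → e.MurreD l
  /-- (C) for `CH_l` if `CH_l(X)` is controlled by divisors: every Chow-Kuenneth decomposition `e'`
  gives the same filtration -/
  murreC : ∀ (e' : CK K X) (l : ℤ), ByDivisors D (𝟙 X) l → ∀ (ν : ℤ) (x : 𝟙_ C ⟶ X),
    e'.Fil ν l x ↔ e.Fil ν l x
  /-- `CH_l(X)` is controlled by divisors if `l ≥ n - 1` -/
  top : ∀ l : ℤ, n - 1 ≤ l → ByDivisors D (𝟙 X) l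
  /-- (B) for all cycles if `CH_l(X)` is controlled by divisors for all `l ≥ n - t` and
  `n ≤ 2t + 2` (in particular if `n ≤ 4`, with `t = 1`) -/
  allB : ∀ t : ℤ, (∀ l, n - t ≤ l → ByDivisors D (𝟙 X) l) → n ≤ 2 * t + 2 → ∀ l : ℤ, e.MurreB l
  /-- (B) and (D) for all cycles if `CH_l(X)` is controlled by divisors for all `l ≥ n - t` and
  `n ≤ 2t + 1` (in particular if `n ≤ 3`, with `t = 1`) -/
  allBD : ∀ t : ℤ, (∀ l, n - t ≤ l → ByDivisors D (𝟙 X) l) → n ≤ 2 * t + 1 →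
    ∀ l : ℤ, e.MurreB l ∧ e.MurreD l
  /-- If `CH_l(X)` is controlled by divisors for all `l ≥ n - t`, then `F^1 CH_l` is the group of
  homologically trivial cycles if `l ≤ t` or `l ≥ n - t`. -/
  filOne : ∀ t : ℤ, (∀ l, n - t ≤ l → ByDivisors D (𝟙 X) l) →
    ∀ l : ℤ, l ≤ t ∨ n - t ≤ l → ∀ x : 𝟙_ C ⟶ X,
      e.Fil 1 l x ↔ x ∈ CH K X l ∧ K.H.map x = 0
  /-- `F^2 CH_0` is the kernel of the Albanese map (on cycles of degree 0), the group of the
  zero-cycles of degree 0 which vanish in `CH_0` of every curve -/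
  filTwo : ∀ x : 𝟙_ C ⟶ X, e.Fil 2 0 x ↔ (x ∈ CH K X 0 ∧ K.H.map x = 0) ∧
    ∀ (Y : C) (f : X ⟶ Y), D.dim Y = 1 → f ∈ K.deg X Y 0 → x ≫ f = 0
  /-- `F^2 CH_l = 0` if `CH_l(X)` is controlled by divisors -/
  filDivisors : ∀ l : ℤ, ByDivisors D (𝟙 X) l → ∀ x : 𝟙_ C ⟶ X, e.Fil 2 l x → x = 0
  /-- `F^{n-l+1} CH_l = 0` -/
  filTop : ∀ (l : ℤ) (x : 𝟙_ C ⟶ X), e.Fil (n - l + 1) l x → x = 0

end Pool.Agent.LefCK
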