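import Mathlib
import Pool.Agent.LefCK.Basic
import Pool.Agent.LefCK.LowDefs

/-!
# Murre's conjectures in low degrees: the pieces `M_i`, `i ≤ n`, are summands of `h(Z)`, `dim Z = i`
-/

open CategoryTheory MonoidalCategory TensorProduct

universe w v u

namespace Pool.Agent.LefCK

variable {C : Type u} [Category.{v} C] [Preadditive C] [Linear ℚ C]
  [MonoidalCategory C] {F : Type w} [Field F]
  {K : Correspondences C F} {P : Pol C}

theorem low_pow_mem {X : C} {L : X ⟶ X} (hL : L ∈ K.deg X X 1) (s : ℕ) :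
    pow L s ∈ K.deg X X s := by
  induction s with
  | zero =>
    rw [Nat.cast_zero]
    exact K.id_mem X
  | succ s ih =>
    rw [Nat.cast_succ]
    exact K.comp_mem ih hL

theorem low_pow_succ {X : C} (L : X ⟶ X) (s : ℕ) : pow L (s + 1) = L ≫ pow L s := by
  induction s with
  | zero =>
    show 𝟙 X ≫ L = L ≫ 𝟙 X
    rw [Category.id_comp, Category.comp_id]
  | succ s ih =>
    show pow L (s + 1) ≫ L = L ≫ pow L s ≫ L
    rw [ih, Category.assoc]

theorem low_pow_nonneg (e : LCK K P) {L : P.X ⟶ P.X} (hL : L ∈ P.L 1) (s : ℕ) :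
    ∀ i j : ℤ, i < j - 2 * (s : ℤ) → e.p j ≫ pow L s ≫ e.p i = 0 := by
  induction s with
  | zero =>
    intro i j hij
    show e.p j ≫ 𝟙 _ ≫ e.p i = 0
    rw [Category.id_comp]
    exact e.orth j i (by
      rw [Nat.cast_zero] at hij
      omega)
  | succ s ih =>
    intro i j hij
    rw [low_pow_succ, Category.assoc, ← Category.assoc]
    refine e.toCK.comp_eq_zero _ _ fun k => ?_
    rcases lt_or_ge k (j - 2) with hk | hk
    · have h1 := e.nonneg 1 L hL k j (by
        rw [Nat.cast_one]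
        omega)
      rw [Category.assoc, ← Category.assoc L, ← Category.assoc (e.p j), h1, Limits.zero_comp]
    · have h2 := ih i k (by
        rw [Nat.cast_succ] at hij
        omega)
      rw [h2, Limits.comp_zero]

theorem low_lead (e : LCK K P) {L : P.X ⟶ P.X} (hL : L ∈ P.L 1) (s : ℕ) :
    ∀ w : ℤ, lead e.p w (List.replicate s (1, L)) = e.p w ≫ pow L s ≫ e.p (w - 2 * (s : ℤ)) := by
  induction s with
  | zero =>
    intro w
    show e.p w = e.p w ≫ 𝟙 _ ≫ e.p (w - 2 * ((0 : ℕ) : ℤ))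
    rw [Nat.cast_zero, mul_zero, sub_zero, Category.id_comp, e.idem]
  | succ s ih =>
    intro w
    rw [List.replicate_succ, lead_cons, Nat.cast_one, mul_one, ih (w - 2), low_pow_succ,
      Category.assoc, ← Category.assoc (e.p w) L, ← Category.assoc (e.p w) L]
    have h1 : w - 2 * ((s + 1 : ℕ) : ℤ) = w - 2 - 2 * (s : ℤ) := by
      push_cast
      ring
    rw [h1]
    refine (e.toCK.comp_eq (e.p w ≫ L) (pow L s ≫ e.p (w - 2 - 2 * (s : ℤ))) (w - 2)
      fun k hk => ?_).symm
    rcases lt_or_gt_of_ne hk with hk | hk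
    · have h2 := e.nonneg 1 L hL k w (by
        rw [Nat.cast_one]
        omega)
      rw [Category.assoc, ← Category.assoc L, ← Category.assoc (e.p w), h2, Limits.zero_comp]
    · rw [low_pow_nonneg e hL s _ k (by omega), Limits.comp_zero]

/-- Hard Lefschetz for the powers of one class. -/
theorem low_hard (e : LCK K P) {L : P.X ⟶ P.X} (hL : L ∈ P.L 1) (s : ℕ) (hs : 0 < s) :
    ∃ G ∈ K.deg P.X P.X (-(s : ℤ)),
      (e.p (P.n + s) ≫ pow L s ≫ e.p (P.n - s)) ≫ G = e.p (P.n + s) ∧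
        G ≫ (e.p (P.n + s) ≫ pow L s ≫ e.p (P.n - s)) = e.p (P.n - s) := by
  have ht : total (List.replicate s (1, L)) = (s : ℤ) := by
    rw [total_replicate, Nat.cast_one, mul_one]
  obtain ⟨G, hG, h1, h2⟩ := e.hard (List.replicate s (1, L))
    (by
      intro h
      have := congrArg List.length h
      rw [List.length_replicate, List.length_nil] at this
      omega)
    (fun a ha => by
      rw [List.eq_of_mem_replicate ha]
      exact ⟨one_pos, hL⟩)
  rw [ht] at hG h1 h2
  rw [low_lead e hL] at h1 h2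
  have h3 : P.n + (s : ℤ) - 2 * (s : ℤ) = P.n - s := by ring
  rw [h3] at h1 h2
  exact ⟨G, hG, h1, h2⟩

variable {D : Divisors K}

/-- `M_{n-s}` is a summand of `h(Z s)`. -/
theorem low_factor (e : LCK K P) (S : LinearSections K D P) (s : ℕ) (hs : 0 < s)
    (hn : (s : ℤ) ≤ P.n) : ∃ a ∈ K.deg P.X (S.Z s) 0, ∃ b ∈ K.deg (S.Z s) P.X 0,
      a ≫ b = e.p (P.n - s) ∧ b ≫ e.p (P.n - s) = b := by
  obtain ⟨G, hG, -, h2⟩ := low_hard e S.L_mem s hs
  refine ⟨(S.m s)⁻¹ • (G ≫ e.p (P.n + s) ≫ S.pull s), ?_, S.push s ≫ e.p (P.n - s), ?_, ?_, ?_⟩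
  · refine Submodule.smul_mem _ _ ?_
    exact K.comp_mem' hG (K.comp_mem (e.mem _) (S.pull_mem s)) (by ring)
  · exact K.comp_mem' (S.push_mem s) (e.mem _) (by ring)
  · have h3 : S.pull s ≫ S.push s ≫ e.p (P.n - s) = S.m s • (pow S.L s ≫ e.p (P.n - s)) := by
      rw [← Category.assoc, S.cls s hs hn, Linear.smul_comp]
    rw [Linear.smul_comp, Category.assoc, Category.assoc, h3, Linear.comp_smul, Linear.comp_smul,
      smul_smul, inv_mul_cancel₀ (S.m_ne s), one_smul]
    exact h2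
  · rw [Category.assoc, e.idem]

/-- the pieces outside of `[0, 2n]` are zero -/
theorem low_neg (e : LCK K P) (S : LinearSections K D P) (i : ℤ) (hi : i < 0)
    (hn : i < P.n) : e.p i = 0 := by
  obtain ⟨s, hs⟩ : ∃ s : ℕ, (s : ℤ) = P.n - i := ⟨(P.n - i).toNat, by omega⟩
  obtain ⟨G, hG, -, h2⟩ := low_hard e S.L_mem s (by omega)
  have h3 : P.n - (s : ℤ) = i := by omega
  rw [S.nil s (by omega), h3, Limits.zero_comp, Limits.comp_zero, Limits.comp_zero] at h2
  exact h2.symm

end Pool.Agent.LefCK
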