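import Mathlib
import Pool.Agent.LefCK.LowA

/-!
# Murre's conjectures in low degrees: pieces controlled by divisors
-/

open CategoryTheory MonoidalCategory TensorProduct

universe w v u

namespace Pool.Agent.LefCK

variable {C : Type u} [Category.{v} C] [Preadditive C] [Linear ℚ C]
  [MonoidalCategory C] {F : Type w} [Field F]
  {K : Correspondences C F}

theorem low_map_zero {X Y Z : C} {x : X ⟶ Y} (hx : K.H.map x = 0) (f : Y ⟶ Z) :
    K.H.map (x ≫ f) = 0 := by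
  rw [Functor.map_comp, hx, Limits.zero_comp]

theorem low_map_p {X : C} (e : CK K X) {l i : ℤ} (hi : i ≠ 2 * l) {x : 𝟙_ C ⟶ X}
    (hx : x ∈ CH K X l) : K.H.map (x ≫ e.p i) = 0 := by
  ext h
  show (K.H.map (x ≫ e.p i)).hom h = 0
  rw [K.map_comp_apply]
  have h1 := K.map_gr hx 0 h (K.unit_gr h)
  have h2 : (0 : ℤ) - 2 * -l = 2 * l := by ring
  rw [h2] at h1
  exact e.homology_ne hi.symm h1

theorem low_ch_comp {X Y : C} {l c : ℤ} {x : 𝟙_ C ⟶ X} (hx : x ∈ CH K X l) {f : X ⟶ Y}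
    (hf : f ∈ K.deg X Y c) : x ≫ f ∈ CH K Y (l - c) :=
  K.comp_mem' hx hf (by ring)

theorem low_ch_comp0 {X Y : C} {l : ℤ} {x : 𝟙_ C ⟶ X} (hx : x ∈ CH K X l) {f : X ⟶ Y}
    (hf : f ∈ K.deg X Y 0) : x ≫ f ∈ CH K Y l :=
  K.comp_mem' hx hf (by ring)

variable {D : Divisors K}

/-- a homologically trivial cycle outside of codimension 1 and of codimension `> 1` is zero -/
theorem low_codim {Z : C} {l c : ℤ} (hl : l < c ∨ D.dim Z + c ≤ l + 1)
    (h1 : ¬ (0 ≤ l - c ∧ l - c = D.dim Z - 1)) {y : 𝟙_ C ⟶ Z} (hy : y ∈ CH K Z (l - c))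
    (hy0 : K.H.map y = 0) : y = 0 := by
  rcases lt_or_ge (l - c) 0 with h | h
  · exact D.low Z _ h y hy
  rcases lt_or_ge (D.dim Z) (l - c) with h2 | h2
  · exact D.high Z _ h2 y hy
  have h3 : l - c = D.dim Z := by omega
  rw [h3] at hy
  exact D.fund Z y hy hy0

/-- A piece `M_i` of a Chow-Kuenneth decomposition whose `l`-cycles are controlled by divisors has
no nonzero homologically trivial `l`-cycles, unless `i = 2l + 1`. -/
theorem low_piece {X : C} (e : CK K X) {l i : ℤ} (hi : i ≠ 2 * l + 1)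
    (hD : ByDivisors D (e.p i) l) {x : 𝟙_ C ⟶ X} (hx : x ∈ CH K X l)
    (hx0 : K.H.map (x ≫ e.p i) = 0) : x ≫ e.p i = 0 := by
  obtain ⟨r, V, c, a, b, hk, hsum⟩ := hD
  have hz : x ≫ e.p i ∈ CH K X l := low_ch_comp0 hx (e.mem i)
  have hy : ∀ k, (x ≫ e.p i) ≫ a k ∈ CH K (V k) (l - c k) := fun k => low_ch_comp hz (hk k).1
  have hy0 : ∀ k, K.H.map ((x ≫ e.p i) ≫ a k) = 0 := fun k => low_map_zero hx0 _
  have hexp : ∀ {Y : C} (w : Y ⟶ X), w ≫ e.p i = ∑ k, (w ≫ a k) ≫ b k := by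
    intro Y w
    rw [← hsum, Preadditive.comp_sum]
    exact Finset.sum_congr rfl fun k _ => (Category.assoc _ _ _).symm
  have hkey : ∀ k, ((x ≫ e.p i) ≫ a k) ≫ b k ≫ e.p i = 0 := by
    intro k
    by_cases h1 : 0 ≤ l - c k ∧ l - c k = D.dim (V k) - 1
    · have h2 : ((x ≫ e.p i) ≫ a k) ≫ b k ≫ e.p i =
          (((x ≫ e.p i) ≫ a k) ≫ b k ≫ e.p i) ≫ e.p i := by
        simp only [Category.assoc, e.idem]
      rw [h2, hexp]
      refine Finset.sum_eq_zero fun k' _ => ?_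
      have h3 : (((x ≫ e.p i) ≫ a k) ≫ b k ≫ e.p i) ≫ a k' =
          ((x ≫ e.p i) ≫ a k) ≫ (b k ≫ e.p i ≫ a k') := by
        simp only [Category.assoc]
      have h4 : b k ≫ e.p i ≫ a k' ∈ K.deg (V k) (V k') (c k' - c k) :=
        K.comp_mem' (hk k).2.1 (K.comp_mem (e.mem i) (hk k').1) (by ring)
      have h5 : ((x ≫ e.p i) ≫ a k) ≫ (b k ≫ e.p i ≫ a k') = 0 := by
        by_cases h6 : 0 ≤ l - c k' ∧ l - c k' = D.dim (V k') - 1
        · refine D.picard (V k) (V k') _ (K.mem_cast h4 (by omega)) (fun h hh => ?_) _ ?_ (hy0 k)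
          · have h7 := K.map_gr (hk k).2.1 _ h hh
            have h8 : 2 * D.dim (V k) - 1 - 2 * -c k = 2 * l + 1 := by omega
            rw [h8] at h7
            rw [K.map_comp_apply, K.map_comp_apply, e.homology_ne (Ne.symm hi) h7, map_zero]
          · rw [← h1.2]
            exact hy k
        · refine low_codim (D := D) (hk k').2.2 h6 ?_ (low_map_zero (hy0 k) _)
          have h7 := low_ch_comp (hy k) h4
          have h8 : l - c k - (c k' - c k) = l - c k' := by ring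
          rwa [h8] at h7
      rw [h3, h5, Limits.zero_comp]
    · rw [low_codim (D := D) (hk k).2.2 h1 (hy k) (hy0 k), Limits.zero_comp]
  have h1 : x ≫ e.p i = (x ≫ e.p i) ≫ e.p i := by rw [Category.assoc, e.idem]
  have h2 : (x ≫ e.p i) ≫ e.p i = ∑ k, ((x ≫ e.p i) ≫ a k) ≫ b k := hexp _
  have h3 : x ≫ e.p i = (x ≫ e.p i) ≫ e.p i ≫ e.p i := by rw [e.idem, Category.assoc, e.idem]
  rw [h3, ← Category.assoc, h2, Preadditive.sum_comp]
  refine Finset.sum_eq_zero fun k _ => ?_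
  rw [Category.assoc]
  exact hkey k

theorem ByDivisors.comp {X : C} {f : X ⟶ X} {l : ℤ} (h : ByDivisors D f l) {g : X ⟶ X}
    (hg : g ∈ K.deg X X 0) : ByDivisors D (g ≫ f) l := by
  obtain ⟨r, V, c, a, b, hk, hsum⟩ := h
  refine ⟨r, V, c, fun k => g ≫ a k, b, fun k => ⟨?_, (hk k).2.1, (hk k).2.2⟩, ?_⟩
  · exact K.comp_mem' hg (hk k).1 (zero_add _)
  · rw [← hsum, Preadditive.comp_sum]
    exact Finset.sum_congr rfl fun k _ => Category.assoc _ _ _

theorem low_top_div {X : C} {l : ℤ} (hl : D.dim X - 1 ≤ l) : ByDivisors D (𝟙 X) l := by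
  refine ⟨1, fun _ => X, fun _ => 0, fun _ => 𝟙 X, fun _ => 𝟙 X, fun _ => ⟨K.id_mem X, ?_, ?_⟩, ?_⟩
  · rw [neg_zero]
    exact K.id_mem X
  · right
    show D.dim X + (0 : ℤ) ≤ l + 1
    omega
  · rw [Fin.sum_univ_one, Category.comp_id]

/-- Every Chow-Kuenneth decomposition, if `CH_l(X)` is controlled by divisors. -/
theorem low_ctrl {X : C} (e : CK K X) {l i : ℤ} (hD : ByDivisors D (𝟙 X) l)
    (hi : i ≠ 2 * l + 1) {x : 𝟙_ C ⟶ X} (hx : x ∈ CH K X l)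
    (hx0 : K.H.map (x ≫ e.p i) = 0) : x ≫ e.p i = 0 := by
  refine low_piece (D := D) e hi ?_ hx hx0
  have h1 := hD.comp (e.mem i)
  rwa [Category.comp_id] at h1

variable {P : Pol C}

/-- `M_i` is controlled by divisors for `i ≤ n`, `i ≤ l + 1`. -/
theorem low_main_div (e : LCK K P) (S : LinearSections K D P) {l i : ℤ} (hin : i ≤ P.n)
    (hil : i ≤ l + 1) : ByDivisors D (e.p i) l := by
  rcases eq_or_lt_of_le hin with h | h
  · have h1 := (low_top_div (D := D) (X := P.X) (l := l) (by rw [S.dim_eq]; omega)).comp (e.mem i)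
    rwa [Category.comp_id] at h1
  rcases lt_or_ge i 0 with h0 | h0
  · rw [low_neg e S i h0 h]
    exact ⟨0, fun k => k.elim0, fun k => k.elim0, fun k => k.elim0, fun k => k.elim0,
      fun k => k.elim0, by rw [Fin.sum_univ_zero]⟩
  obtain ⟨s, hs⟩ : ∃ s : ℕ, (s : ℤ) = P.n - i := ⟨(P.n - i).toNat, by omega⟩
  have hs0 : 0 < s := by omega
  have hsn : (s : ℤ) ≤ P.n := by omega
  have hi : P.n - (s : ℤ) = i := by omega
  obtain ⟨a, ha, b, hb, hab, -⟩ := low_factor e S s hs0 hsn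
  rw [hi] at hab
  refine ⟨1, fun _ => S.Z s, fun _ => 0, fun _ => a, fun _ => b, fun _ => ⟨ha, ?_, ?_⟩, ?_⟩
  · rw [neg_zero]
    exact hb
  · right
    show D.dim (S.Z s) + (0 : ℤ) ≤ l + 1
    rw [S.dim_Z s hs0 hsn]
    omega
  · rw [Fin.sum_univ_one, hab]

/-- A homologically trivial cycle in `CH_l(M_i)`, `i ≤ n`, `i ≤ l + 1`, `i ≠ 2l + 1` is zero. -/
theorem low_main (e : LCK K P) (S : LinearSections K D P) {l i : ℤ} (hin : i ≤ P.n)
    (hil : i ≤ l + 1) (hi1 : i ≠ 2 * l + 1) {x : 𝟙_ C ⟶ P.X} (hx : x ∈ CH K P.X l)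
    (hx0 : K.H.map (x ≫ e.p i) = 0) : x ≫ e.p i = 0 :=
  low_piece (D := D) e.toCK hi1 (low_main_div e S hin hil) hx hx0

/-- If `CH_l(X)` is controlled by divisors for `l ≥ n - t`: a homologically trivial cycle in
`CH_l(M_i)`, `i ≤ n`, `i ≤ l + t`, `i ≠ 2l + 1` is zero. -/
theorem low_level (e : LCK K P) (S : LinearSections K D P) {t : ℤ}
    (hT : ∀ l, P.n - t ≤ l → ByDivisors D (𝟙 P.X) l) {l i : ℤ} (hin : i ≤ P.n)
    (hil : i ≤ l + t) (hi1 : i ≠ 2 * l + 1) {x : 𝟙_ C ⟶ P.X} (hx : x ∈ CH K P.X l)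
    (hx0 : K.H.map (x ≫ e.p i) = 0) : x ≫ e.p i = 0 := by
  rcases eq_or_lt_of_le hin with h | h
  · exact low_ctrl e.toCK (hT l (by omega)) hi1 hx hx0
  obtain ⟨s, hs⟩ : ∃ s : ℕ, (s : ℤ) = P.n - i := ⟨(P.n - i).toNat, by omega⟩
  have hi : i = P.n - s := by omega
  subst hi
  obtain ⟨G, hG, -, h2⟩ := low_hard e S.L_mem s (by omega)
  have h3 : (x ≫ e.p (P.n - s) ≫ G) ≫ e.p (P.n + s) = 0 := by
    refine low_ctrl e.toCK (hT (l + s) (by omega)) (by omega) ?_ ?_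
    · rw [← Category.assoc]
      have h4 := low_ch_comp (low_ch_comp0 hx (e.mem (P.n - s))) hG
      rwa [sub_neg_eq_add] at h4
    · rw [← Category.assoc x, Category.assoc]
      exact low_map_zero hx0 _
  have h5 : x ≫ e.p (P.n - s) = ((x ≫ e.p (P.n - s) ≫ G) ≫ e.p (P.n + s)) ≫
      pow S.L s ≫ e.p (P.n - s) := by
    have h6 : (x ≫ e.p (P.n - s) ≫ G) ≫ e.p (P.n + s) ≫ pow S.L s ≫ e.p (P.n - s) =
        x ≫ e.p (P.n - s) ≫ (G ≫ e.p (P.n + s) ≫ pow S.L s ≫ e.p (P.n - s)) := by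
      simp only [Category.assoc]
    rw [Category.assoc _ (e.p (P.n + s)), h6, h2, e.idem]
  rw [h5, h3, Limits.zero_comp]

/-- shift by hard Lefschetz -/
theorem low_shift (e : LCK K P) (S : LinearSections K D P) (s : ℕ) (hs : 0 < s) {l : ℤ}
    {x : 𝟙_ C ⟶ P.X} (hx : x ∈ CH K P.X l)
    (h : ∀ z ∈ CH K P.X (l - s), K.H.map (x ≫ e.p (P.n + s)) = 0 →
      K.H.map (z ≫ e.p (P.n - s)) = 0 → z ≫ e.p (P.n - s) = 0)
    (hx0 : K.H.map (x ≫ e.p (P.n + s)) = 0) : x ≫ e.p (P.n + s) = 0 := by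
  obtain ⟨G, hG, h1, -⟩ := low_hard e S.L_mem s hs
  have hL : pow S.L s ∈ K.deg P.X P.X s := low_pow_mem (e.mem_L 1 S.L S.L_mem) s
  have h2 : (x ≫ e.p (P.n + s) ≫ pow S.L s) ≫ e.p (P.n - s) = 0 := by
    refine h _ ?_ hx0 ?_
    · rw [← Category.assoc]
      exact low_ch_comp (low_ch_comp0 hx (e.mem _)) hL
    · rw [Category.assoc, Category.assoc, ← Category.assoc x]
      exact low_map_zero hx0 _
  have h3 : x ≫ e.p (P.n + s) = ((x ≫ e.p (P.n + s) ≫ pow S.L s) ≫ e.p (P.n - s)) ≫ G := by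
    conv_lhs => rw [← h1]
    simp only [Category.assoc]
  rw [h3, h2, Limits.zero_comp]

end Pool.Agent.LefCK
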