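import Mathlib
import Pool.Agent.LefCK.Basic

/-!
# Varieties with algebraic homology outside the middle: the decomposition (module LCK-AlgA)

`A : CyclesOffMiddle K P`, `n = P.n`. For `a ≤ ℓ α` put `E α a := (L^(ℓ α - a) ≫ ξ α) ≫ (x α ≫ L^a)` (weight `n + ℓ α - 2a`),
`ν := 1 - ∑_α ∑_{a ≤ ℓ α} E α a`, `algP j := ∑ (the E α a of weight j) + (if j = n then ν)`.

PLAN.
`pow_add`: `pow L a ≫ pow L b = pow L (a + b)` (induction on `b`).
`algE_comp`: `E α a ≫ E β b = if α = β ∧ a = b then E α a else 0` for `a ≤ ℓ α`, `b ≤ ℓ β`: the middle factor is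
  `x α ≫ pow L a ≫ pow L (ℓ β - b) ≫ ξ β = x α ≫ pow L (a + (ℓ β - b)) ≫ ξ β`, use `A.pairing`.
`algE_nu`, `nu_algE`: 0. `algE_mem`: degree `(ℓ α - a) + (n - d α) - d α + a = ℓ α + n - 2 d α = 0`
  (cast of the natural subtraction `ℓ α - a` for `a ≤ ℓ α`).
`algE_homology`: for `y ∈ gr X j`, `n + ℓ α - 2a ≠ j`: `H (E α a) y = 0`, because it is in `gr X j` (degree 0) and in
  `gr X (n + ℓ α - 2a)`: `H (L^(ℓ α - a) ≫ ξ α) y ∈ gr (𝟙_ C) 0` by `K.unit_gr`, and `x α ≫ L^a` has degree `-d α + a`, so maps it to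
  `gr X (0 - 2 (-d α + a)) = gr X (n + ℓ α - 2a)`; then `K.gr_eq_zero`.
`exists_algCK`: finite index set: `n` and all `n + ℓ α - 2a`; idempotent/orthogonal from the above (a sum of mutually orthogonal
  idempotents `E α a` with `n + ℓ α - 2a = j`); sum over the index set = `∑ E + ν = 1`; homology by `CK.homology_of_pure`: on
  `gr X j`, `j ≠ i`, the `E`-part of `algP i` is 0 by `algE_homology`, and if `i = n`, `ν` acts as `y - ∑ H (E α a) y = 0` by `A.span`.
-/

open CategoryTheory MonoidalCategory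

universe w v u

namespace Pool.Agent.LefCK

variable {C : Type u} [Category.{v} C] [Preadditive C] [Linear ℚ C]
  [MonoidalCategory C] {F : Type w} [Field F]
  {K : Correspondences C F} {P : Pol C}

theorem pow_add' {X : C} (L : X ⟶ X) (a b : ℕ) : pow L a ≫ pow L b = pow L (a + b) := by
  induction b with
  | zero => simp [pow]
  | succ b ih =>
    rw [← Nat.add_assoc]
    simp only [pow]
    rw [← Category.assoc, ih]

theorem pow_mem {X : C} {L : X ⟶ X} (hL : L ∈ K.deg X X 1) (a : ℕ) :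
    pow L a ∈ K.deg X X (a : ℤ) := by
  induction a with
  | zero => simpa [pow] using K.id_mem X
  | succ a ih => exact K.comp_mem' ih hL (by push_cast; ring)

/-- The idempotent of weight `n + ℓ α - 2a`. -/
def algE (A : CyclesOffMiddle K P) (α : Fin A.r) (a : ℕ) : P.X ⟶ P.X :=
  (pow A.L (A.ℓ α - a) ≫ A.ξ α) ≫ (A.x α ≫ pow A.L a)

/-- The complement of all the `algE α a`, `a ≤ ℓ α`. -/
def algNu (A : CyclesOffMiddle K P) : P.X ⟶ P.X :=
  𝟙 P.X - ∑ α, ∑ a ∈ Finset.range (A.ℓ α + 1), algE A α a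

/-- The decomposition. -/
def algP (A : CyclesOffMiddle K P) (j : ℤ) : P.X ⟶ P.X :=
  (∑ α, ∑ a ∈ Finset.range (A.ℓ α + 1),
    if P.n + A.ℓ α - 2 * (a : ℤ) = j then algE A α a else 0) +
  if j = P.n then algNu A else 0

theorem algE_comp (A : CyclesOffMiddle K P) (α β : Fin A.r) (a b : ℕ) (ha : a ≤ A.ℓ α)
    (hb : b ≤ A.ℓ β) :
    algE A α a ≫ algE A β b = if α = β ∧ a = b then algE A α a else 0 := by
  have hmid : A.x α ≫ pow A.L a ≫ pow A.L (A.ℓ β - b) ≫ A.ξ β =
      if α = β ∧ a = b then 𝟙 (𝟙_ C) else 0 := by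
    have h1 : A.x α ≫ pow A.L a ≫ pow A.L (A.ℓ β - b) ≫ A.ξ β =
        A.x α ≫ pow A.L (a + (A.ℓ β - b)) ≫ A.ξ β := by
      rw [← pow_add', Category.assoc]
    rw [h1, A.pairing]
    by_cases h : α = β
    · subst h
      have h2 : (a + (A.ℓ α - b) = A.ℓ α) ↔ a = b := by omega
      simp only [true_and, h2]
    · simp only [h, false_and]
  have h2 : algE A α a ≫ algE A β b = (pow A.L (A.ℓ α - a) ≫ A.ξ α) ≫
      (A.x α ≫ pow A.L a ≫ pow A.L (A.ℓ β - b) ≫ A.ξ β) ≫ (A.x β ≫ pow A.L b) := by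
    simp only [algE, Category.assoc]
  rw [h2, hmid]
  by_cases h : α = β ∧ a = b
  · obtain ⟨rfl, rfl⟩ := h
    simp [algE]
  · rw [if_neg h, if_neg h, Limits.zero_comp, Limits.comp_zero]

private theorem algSum (A : CyclesOffMiddle K P) (f : Fin A.r → ℕ → (P.X ⟶ P.X)) :
    ∑ α, ∑ a ∈ Finset.range (A.ℓ α + 1), f α a =
      ∑ p ∈ (Finset.univ : Finset (Fin A.r)).sigma (fun α => Finset.range (A.ℓ α + 1)),
        f p.1 p.2 := by
  rw [Finset.sum_sigma]

/-- The index set of the idempotents. -/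
private def algS (A : CyclesOffMiddle K P) : Finset (Σ _ : Fin A.r, ℕ) :=
  (Finset.univ : Finset (Fin A.r)).sigma (fun α => Finset.range (A.ℓ α + 1))

private theorem algS_le (A : CyclesOffMiddle K P) {p : Σ _ : Fin A.r, ℕ} (hp : p ∈ algS A) :
    p.2 ≤ A.ℓ p.1 := by
  have h := (Finset.mem_sigma.1 hp).2
  have h2 := Finset.mem_range.1 h
  omega

private theorem algS_comp (A : CyclesOffMiddle K P) {p q : Σ _ : Fin A.r, ℕ} (hp : p ∈ algS A)
    (hq : q ∈ algS A) :
    algE A p.1 p.2 ≫ algE A q.1 q.2 = if p = q then algE A p.1 p.2 else 0 := by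
  rw [algE_comp A _ _ _ _ (algS_le A hp) (algS_le A hq)]
  have : (p.1 = q.1 ∧ p.2 = q.2) ↔ p = q := by
    constructor
    · rintro ⟨h1, h2⟩
      exact Sigma.ext h1 (heq_of_eq h2)
    · rintro rfl
      exact ⟨rfl, rfl⟩
  simp only [this]

private theorem algNu_eq (A : CyclesOffMiddle K P) :
    algNu A = 𝟙 P.X - ∑ p ∈ algS A, algE A p.1 p.2 := by
  rw [algNu, algSum]
  rfl

private theorem algE_sum (A : CyclesOffMiddle K P) {p : Σ _ : Fin A.r, ℕ} (hp : p ∈ algS A) :
    algE A p.1 p.2 ≫ ∑ q ∈ algS A, algE A q.1 q.2 = algE A p.1 p.2 := by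
  rw [Preadditive.comp_sum, Finset.sum_eq_single_of_mem p hp]
  · rw [algS_comp A hp hp, if_pos rfl]
  · intro q hq hne
    rw [algS_comp A hp hq, if_neg (Ne.symm hne)]

private theorem sum_algE (A : CyclesOffMiddle K P) {p : Σ _ : Fin A.r, ℕ} (hp : p ∈ algS A) :
    (∑ q ∈ algS A, algE A q.1 q.2) ≫ algE A p.1 p.2 = algE A p.1 p.2 := by
  rw [Preadditive.sum_comp, Finset.sum_eq_single_of_mem p hp]
  · rw [algS_comp A hp hp, if_pos rfl]
  · intro q hq hne
    rw [algS_comp A hq hp, if_neg hne]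

theorem algE_nu (A : CyclesOffMiddle K P) (α : Fin A.r) (a : ℕ) (ha : a ≤ A.ℓ α) :
    algE A α a ≫ algNu A = 0 := by
  have hp : (⟨α, a⟩ : Σ _ : Fin A.r, ℕ) ∈ algS A :=
    Finset.mem_sigma.2 ⟨Finset.mem_univ _, Finset.mem_range.2 (by show a < A.ℓ α + 1; omega)⟩
  rw [algNu_eq, Preadditive.comp_sub, Category.comp_id]
  have h := algE_sum A hp
  rw [sub_eq_zero]
  exact h.symm

theorem nu_algE (A : CyclesOffMiddle K P) (α : Fin A.r) (a : ℕ) (ha : a ≤ A.ℓ α) :
    algNu A ≫ algE A α a = 0 := by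
  have hp : (⟨α, a⟩ : Σ _ : Fin A.r, ℕ) ∈ algS A :=
    Finset.mem_sigma.2 ⟨Finset.mem_univ _, Finset.mem_range.2 (by show a < A.ℓ α + 1; omega)⟩
  rw [algNu_eq, Preadditive.sub_comp, Category.id_comp]
  have h := sum_algE A hp
  rw [sub_eq_zero]
  exact h.symm

private theorem nu_nu (A : CyclesOffMiddle K P) : algNu A ≫ algNu A = algNu A := by
  have h : (𝟙 P.X - ∑ p ∈ algS A, algE A p.1 p.2) ≫ algNu A = algNu A := by
    rw [Preadditive.sub_comp, Category.id_comp, Preadditive.sum_comp, Finset.sum_eq_zero, sub_zero]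
    intro p hp
    exact algE_nu A p.1 p.2 (algS_le A hp)
  rw [← algNu_eq] at h
  exact h

private theorem algE_mem (A : CyclesOffMiddle K P) (α : Fin A.r) (a : ℕ) (ha : a ≤ A.ℓ α) :
    algE A α a ∈ K.deg P.X P.X 0 := by
  have h1 := K.comp_mem (pow_mem (K := K) A.L_mem (A.ℓ α - a)) (A.ξ_mem α)
  have h2 : A.x α ∈ K.deg (𝟙_ C) P.X (-(A.d α)) := A.x_mem α
  have h3 := K.comp_mem h2 (pow_mem (K := K) A.L_mem a)
  refine K.comp_mem' h1 h3 ?_
  have h4 := A.two_d α
  rw [Nat.cast_sub ha]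
  linarith

private theorem algNu_mem (A : CyclesOffMiddle K P) : algNu A ∈ K.deg P.X P.X 0 := by
  rw [algNu_eq]
  exact Submodule.sub_mem _ (K.id_mem _)
    (Submodule.sum_mem _ (fun p hp => algE_mem A p.1 p.2 (algS_le A hp)))

private theorem algE_homology (A : CyclesOffMiddle K P) (α : Fin A.r) (a : ℕ) (ha : a ≤ A.ℓ α) (j : ℤ)
    (hj : P.n + A.ℓ α - 2 * (a : ℤ) ≠ j) (y : K.H.obj P.X) (hy : y ∈ K.gr P.X j) :
    (K.H.map (algE A α a)).hom y = 0 := by
  have h1 : (K.H.map (algE A α a)).hom y ∈ K.gr P.X j := by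
    have := K.map_gr (algE_mem A α a ha) j y hy
    simpa using this
  have h2 : (K.H.map (algE A α a)).hom y ∈ K.gr P.X (P.n + A.ℓ α - 2 * (a : ℤ)) := by
    have h3 : A.x α ∈ K.deg (𝟙_ C) P.X (-(A.d α)) := A.x_mem α
    have h4 := K.comp_mem h3 (pow_mem (K := K) A.L_mem a)
    have h5 := K.map_gr h4 0 ((K.H.map (pow A.L (A.ℓ α - a) ≫ A.ξ α)).hom y) (K.unit_gr _)
    have h6 : (0 : ℤ) - 2 * (-(A.d α) + (a : ℤ)) = P.n + A.ℓ α - 2 * (a : ℤ) := by
      have := A.two_d α
      linarith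
    rw [h6] at h5
    rw [algE, K.map_comp_apply]
    exact h5
  exact K.gr_eq_zero hj h2 h1

/-- The part of `algP j` made of the `algE`. -/
private def algQ (A : CyclesOffMiddle K P) (j : ℤ) : P.X ⟶ P.X :=
  ∑ p ∈ algS A, if P.n + A.ℓ p.1 - 2 * (p.2 : ℤ) = j then algE A p.1 p.2 else 0

private theorem algP_eq (A : CyclesOffMiddle K P) (j : ℤ) :
    algP A j = algQ A j + if j = P.n then algNu A else 0 := by
  rw [algP, algSum]
  rfl

private theorem algQ_comp (A : CyclesOffMiddle K P) (i j : ℤ) :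
    algQ A i ≫ algQ A j = if i = j then algQ A i else 0 := by
  have h : ∀ p ∈ algS A, (if P.n + A.ℓ p.1 - 2 * (p.2 : ℤ) = i then algE A p.1 p.2 else 0) ≫
      algQ A j = if i = j then (if P.n + A.ℓ p.1 - 2 * (p.2 : ℤ) = i then algE A p.1 p.2 else 0)
        else 0 := by
    intro p hp
    by_cases hi : P.n + A.ℓ p.1 - 2 * (p.2 : ℤ) = i
    · rw [if_pos hi, algQ, Preadditive.comp_sum, Finset.sum_eq_single_of_mem p hp]
      · by_cases hij : i = j
        · rw [if_pos hij, if_pos (hi.trans hij), algS_comp A hp hp, if_pos rfl]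
        · rw [if_neg hij, if_neg (fun h => hij (hi.symm.trans h)), Limits.comp_zero]
      · intro q hq hne
        by_cases hj : P.n + A.ℓ q.1 - 2 * (q.2 : ℤ) = j
        · rw [if_pos hj, algS_comp A hp hq, if_neg (Ne.symm hne)]
        · rw [if_neg hj, Limits.comp_zero]
    · rw [if_neg hi, Limits.zero_comp, ite_self]
  calc algQ A i ≫ algQ A j
      = ∑ p ∈ algS A, (if P.n + A.ℓ p.1 - 2 * (p.2 : ℤ) = i then algE A p.1 p.2 else 0) ≫
          algQ A j := by
        conv_lhs => rw [algQ]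
        rw [Preadditive.sum_comp]
    _ = ∑ p ∈ algS A, (if i = j then
          (if P.n + A.ℓ p.1 - 2 * (p.2 : ℤ) = i then algE A p.1 p.2 else 0) else 0) :=
        Finset.sum_congr rfl h
    _ = if i = j then algQ A i else 0 := by
        by_cases hij : i = j
        · simp only [if_pos hij]
          rfl
        · simp only [if_neg hij, Finset.sum_const_zero]

private theorem algQ_nu (A : CyclesOffMiddle K P) (i : ℤ) : algQ A i ≫ algNu A = 0 := by
  rw [algQ, Preadditive.sum_comp]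
  refine Finset.sum_eq_zero (fun p hp => ?_)
  by_cases hi : P.n + A.ℓ p.1 - 2 * (p.2 : ℤ) = i
  · rw [if_pos hi, algE_nu A _ _ (algS_le A hp)]
  · rw [if_neg hi, Limits.zero_comp]

private theorem nu_algQ (A : CyclesOffMiddle K P) (i : ℤ) : algNu A ≫ algQ A i = 0 := by
  rw [algQ, Preadditive.comp_sum]
  refine Finset.sum_eq_zero (fun p hp => ?_)
  by_cases hi : P.n + A.ℓ p.1 - 2 * (p.2 : ℤ) = i
  · rw [if_pos hi, nu_algE A _ _ (algS_le A hp)]
  · rw [if_neg hi, Limits.comp_zero]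

private theorem algP_comp (A : CyclesOffMiddle K P) (i j : ℤ) :
    algP A i ≫ algP A j = if i = j then algP A i else 0 := by
  rw [algP_eq, algP_eq, Preadditive.add_comp, Preadditive.comp_add, Preadditive.comp_add,
    algQ_comp]
  have h1 : algQ A i ≫ (if j = P.n then algNu A else 0) = 0 := by
    by_cases h : j = P.n
    · rw [if_pos h, algQ_nu]
    · rw [if_neg h, Limits.comp_zero]
  have h2 : (if i = P.n then algNu A else 0) ≫ algQ A j = 0 := by
    by_cases h : i = P.n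
    · rw [if_pos h, nu_algQ]
    · rw [if_neg h, Limits.zero_comp]
  rw [h1, h2, add_zero, zero_add]
  by_cases hij : i = j
  · subst hij
    rw [if_pos rfl, if_pos rfl]
    by_cases h : i = P.n
    · rw [if_pos h, nu_nu]
    · rw [if_neg h, Limits.comp_zero]
  · rw [if_neg hij, if_neg hij, zero_add]
    by_cases h : i = P.n
    · have h' : ¬ j = P.n := fun h' => hij (h.trans h'.symm)
      rw [if_neg h', Limits.comp_zero]
    · rw [if_neg h, Limits.zero_comp]

private theorem algP_mem (A : CyclesOffMiddle K P) (j : ℤ) : algP A j ∈ K.deg P.X P.X 0 := by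
  rw [algP_eq]
  refine Submodule.add_mem _ (Submodule.sum_mem _ (fun p hp => ?_)) ?_
  · by_cases h : P.n + A.ℓ p.1 - 2 * (p.2 : ℤ) = j
    · rw [if_pos h]
      exact algE_mem A _ _ (algS_le A hp)
    · rw [if_neg h]
      exact Submodule.zero_mem _
  · by_cases h : j = P.n
    · rw [if_pos h]
      exact algNu_mem A
    · rw [if_neg h]
      exact Submodule.zero_mem _

/-- The index set of the decomposition. -/
private def algI (A : CyclesOffMiddle K P) : Finset ℤ :=
  insert P.n ((algS A).image (fun p => P.n + A.ℓ p.1 - 2 * (p.2 : ℤ)))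

private theorem algP_zero (A : CyclesOffMiddle K P) (i : ℤ) (hi : i ∉ algI A) :
    algP A i = 0 := by
  have h1 : i ≠ P.n := by
    rintro rfl
    exact hi (Finset.mem_insert_self _ _)
  rw [algP_eq, if_neg h1, add_zero, algQ]
  refine Finset.sum_eq_zero (fun p hp => if_neg (fun h => hi ?_))
  exact Finset.mem_insert_of_mem (Finset.mem_image.2 ⟨p, hp, h⟩)

private theorem algP_sum (A : CyclesOffMiddle K P) : ∑ i ∈ algI A, algP A i = 𝟙 P.X := by
  have h1 : ∑ i ∈ algI A, algQ A i = ∑ p ∈ algS A, algE A p.1 p.2 := by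
    simp only [algQ]
    rw [Finset.sum_comm]
    refine Finset.sum_congr rfl (fun p hp => ?_)
    rw [Finset.sum_ite_eq, if_pos]
    exact Finset.mem_insert_of_mem (Finset.mem_image.2 ⟨p, hp, rfl⟩)
  have h2 : ∑ i ∈ algI A, (if i = P.n then algNu A else 0) = algNu A := by
    rw [Finset.sum_ite_eq', if_pos (show P.n ∈ algI A from Finset.mem_insert_self _ _)]
  calc ∑ i ∈ algI A, algP A i
      = ∑ i ∈ algI A, (algQ A i + if i = P.n then algNu A else 0) :=
        Finset.sum_congr rfl (fun i _ => algP_eq A i)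
    _ = 𝟙 P.X := by
        rw [Finset.sum_add_distrib, h1, h2, algNu_eq]
        abel

private theorem algP_homology (A : CyclesOffMiddle K P) (i j : ℤ) (hij : j ≠ i)
    (y : K.H.obj P.X) (hy : y ∈ K.gr P.X j) : (K.H.map (algP A i)).hom y = 0 := by
  rw [algP_eq, K.map_add_apply]
  have h1 : (K.H.map (algQ A i)).hom y = 0 := by
    rw [algQ, K.map_sum_apply]
    refine Finset.sum_eq_zero (fun p hp => ?_)
    by_cases h : P.n + A.ℓ p.1 - 2 * (p.2 : ℤ) = i
    · rw [if_pos h]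
      exact algE_homology A _ _ (algS_le A hp) j (fun h' => hij (h'.symm.trans h)) y hy
    · rw [if_neg h, K.map_zero_apply]
  rw [h1, zero_add]
  by_cases h : i = P.n
  · rw [if_pos h, algNu, K.map_sub_apply, K.map_id_apply, K.map_sum_apply]
    have h2 := A.span j (fun h' => hij (h'.trans h.symm)) y hy
    rw [sub_eq_zero]
    refine h2.symm.trans ?_
    refine Finset.sum_congr rfl (fun α _ => ?_)
    rw [K.map_sum_apply]
    rfl
  · rw [if_neg h, K.map_zero_apply]

theorem exists_algCK (A : CyclesOffMiddle K P) : ∃ D : CK K P.X, ∀ j, D.p j = algP A j := by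
  refine ⟨CK.ofFinset (algI A) (algP A) (algP_zero A) (algP_mem A) ?_ ?_ (algP_sum A) ?_,
    fun j => rfl⟩
  · intro i
    rw [algP_comp, if_pos rfl]
  · intro i j hij
    rw [algP_comp, if_neg hij]
  · exact CK.homology_of_pure (algI A) (algP A) (algP_zero A) (algP_sum A) (algP_homology A)

end Pool.Agent.LefCK
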