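import Mathlib
import Pool.Agent.LefCK.AlgA

/-!
# Varieties with algebraic homology outside the middle: LCK (module LCK-AlgB)

Notation of AlgA: `E α a = (L^(ℓ α - a) ≫ ξ α) ≫ (x α ≫ L^a)`, `a ≤ ℓ α`, of weight `n + ℓ α - 2a`.

PLAN. The LCK has `toCK` = the CK of `exists_algCK`; all distinguished correspondences are `(1, L)` (`A.only`).
* `nonneg`, `i < j - 2`: `algP j ≫ L ≫ algP i = 0`:
  `E α a ≫ L ≫ E β b`: middle factor `x α ≫ pow L (a + 1 + (ℓ β - b)) ≫ ξ β`, nonzero only if `α = β`, `b = a + 1`: weight `j - 2`. So 0.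
  `ν ≫ L ≫ E α a` (`j = n`, `i = n + ℓ α - 2a < n - 2`, so `a ≥ 1`): `ν ≫ L ≫ pow L (ℓ α - a) ≫ ξ α = ν ≫ pow L (ℓ α - (a-1)) ≫ ξ α = 0`, because
    `ν ≫ E α (a-1) = 0` (`nu_algE`) and `E α (a-1) ≫ pow L (ℓ α - (a-1)) ≫ ξ α = pow L (ℓ α - (a-1)) ≫ ξ α`
    (`x α ≫ pow L (a-1) ≫ pow L (ℓ α - (a-1)) ≫ ξ α = 𝟙`); note `L ≫ pow L b = pow L (b+1)` (`pow_add'` with `pow L 1 = L`).
  `E α a ≫ L ≫ ν` (`i = n`, `j = n + ℓ α - 2a > n + 2`, so `a + 1 ≤ ℓ α`): `x α ≫ pow L (a+1) ≫ ν = 0` as `E α (a+1) ≫ ν = 0` and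
    `(x α ≫ pow L (a+1)) = x α ≫ pow L (a+1) ≫ E α (a+1)`. `ν ≫ L ≫ ν` does not occur (`i = j = n`).
* `hard`: `l` is `List.replicate s (1, L)` with `s ≥ 1`, `total l = s`. Claim (induction on `t ≤ s`, with
  `algP (n+s-2k) ≫ L ≫ algP (n+s-2k-2)` etc.; or use `nonneg` and `CK.comp_eq` to see `lead p w l = p w ≫ pow L s ≫ p (w - 2s)`; this is the easiest: by
  induction on `s`, inserting `∑ p k` between `L` and the rest: `p w ≫ L ≫ p k = 0` for `k < w - 2` and
  `p k ≫ pow L s ≫ p (w - 2 - 2s) = 0` for `w - 2 < k`): `lead p w (replicate s (1,L)) = p w ≫ pow L s ≫ p (w - 2s)`. With `w = n + s` (so `ν` does not occur, `s ≥ 1`):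
  `= ∑_{α, a : ℓ α - 2a = s} (L^(ℓ α - a) ≫ ξ α) ≫ (x α ≫ L^(a+s))`, and
  `G := ∑_{α, a : ℓ α - 2a = s} (L^(ℓ α - a - s) ≫ ξ α) ≫ (x α ≫ L^a)`, degree `-s`; `lead ≫ G = ∑ E α a = p (n+s)`, `G ≫ lead = ∑ E α (a+s) = p (n-s)` by `A.pairing`.
-/

open CategoryTheory MonoidalCategory

universe w v u

namespace Pool.Agent.LefCK

variable {C : Type u} [Category.{v} C] [Preadditive C] [Linear ℚ C]
  [MonoidalCategory C] {F : Type w} [Field F]
  {K : Correspondences C F} {P : Pol C}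

section aux

variable (A : CyclesOffMiddle K P)

private theorem mid (α β : Fin A.r) (u v : ℕ) :
    (A.x α ≫ pow A.L u) ≫ (pow A.L v ≫ A.ξ β) =
      if α = β ∧ u + v = A.ℓ α then 𝟙 (𝟙_ C) else 0 := by
  rw [Category.assoc, ← Category.assoc (pow A.L u), pow_add', A.pairing]

private theorem mid_comp {Y Z : C} (f : Y ⟶ 𝟙_ C) (g : 𝟙_ C ⟶ Z) (α β : Fin A.r) (u v : ℕ) :
    (f ≫ (A.x α ≫ pow A.L u)) ≫ ((pow A.L v ≫ A.ξ β) ≫ g) =
      if α = β ∧ u + v = A.ℓ α then f ≫ g else 0 := by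
  have h1 : (f ≫ (A.x α ≫ pow A.L u)) ≫ ((pow A.L v ≫ A.ξ β) ≫ g) =
      f ≫ (((A.x α ≫ pow A.L u) ≫ (pow A.L v ≫ A.ξ β)) ≫ g) := by
    simp only [Category.assoc]
  rw [h1, mid]
  split_ifs
  · rw [Category.id_comp]
  · rw [Limits.zero_comp, Limits.comp_zero]

private theorem L_pow (L : P.X ⟶ P.X) (k : ℕ) : L ≫ pow L k = pow L (k + 1) := by
  have h : pow L 1 = L := by
    change 𝟙 P.X ≫ L = L
    rw [Category.id_comp]
  rw [add_comm k 1, ← pow_add' L 1 k, h]

private theorem x_pow_E {α β : Fin A.r} {k b : ℕ} (hb : b ≤ A.ℓ β) :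
    (A.x α ≫ pow A.L k) ≫ algE A β b = if α = β ∧ k = b then A.x α ≫ pow A.L k else 0 := by
  have h := mid_comp A (𝟙 (𝟙_ C)) (A.x β ≫ pow A.L b) α β k (A.ℓ β - b)
  rw [Category.id_comp, Category.id_comp] at h
  unfold algE
  rw [h]
  by_cases hab : α = β
  · subst hab
    by_cases hk : k = b
    · subst hk
      rw [if_pos ⟨rfl, by omega⟩, if_pos ⟨rfl, rfl⟩]
    · rw [if_neg (fun h => hk (by omega)), if_neg (fun h => hk h.2)]
  · rw [if_neg (fun h => hab h.1), if_neg (fun h => hab h.1)]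

private theorem E_pow_xi {α β : Fin A.r} {k b : ℕ} :
    algE A β b ≫ (pow A.L k ≫ A.ξ α) =
      if β = α ∧ b + k = A.ℓ β then pow A.L (A.ℓ β - b) ≫ A.ξ β else 0 := by
  have h := mid_comp A (pow A.L (A.ℓ β - b) ≫ A.ξ β) (𝟙 (𝟙_ C)) β α b k
  rw [Category.comp_id, Category.comp_id] at h
  exact h

private theorem nu_xi {α : Fin A.r} {k : ℕ} (hk : k ≤ A.ℓ α) :
    algNu A ≫ (pow A.L k ≫ A.ξ α) = 0 := by
  have h := E_pow_xi A (α := α) (β := α) (k := k) (b := A.ℓ α - k)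
  rw [if_pos ⟨rfl, by omega⟩, Nat.sub_sub_self hk] at h
  rw [← h, ← Category.assoc, nu_algE A α _ (Nat.sub_le _ _), Limits.zero_comp]

private theorem x_nu {α : Fin A.r} {k : ℕ} (hk : k ≤ A.ℓ α) :
    (A.x α ≫ pow A.L k) ≫ algNu A = 0 := by
  have h := x_pow_E A (α := α) (β := α) (k := k) (b := k) hk
  rw [if_pos ⟨rfl, rfl⟩] at h
  rw [← h, Category.assoc, algE_nu A α k hk, Limits.comp_zero]

private theorem algP_comp_eq_zero {Z : C} (g : P.X ⟶ Z) (j : ℤ)
    (h1 : ∀ α a, a ≤ A.ℓ α → P.n + A.ℓ α - 2 * (a : ℤ) = j → algE A α a ≫ g = 0)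
    (h2 : j = P.n → algNu A ≫ g = 0) : algP A j ≫ g = 0 := by
  unfold algP
  rw [Preadditive.add_comp, Preadditive.sum_comp]
  have h3 : (∑ α, (∑ a ∈ Finset.range (A.ℓ α + 1),
      if P.n + A.ℓ α - 2 * (a : ℤ) = j then algE A α a else 0) ≫ g) = 0 := by
    apply Finset.sum_eq_zero
    intro α _
    rw [Preadditive.sum_comp]
    apply Finset.sum_eq_zero
    intro a ha
    split_ifs with hj
    · exact h1 α a (Nat.lt_succ_iff.1 (Finset.mem_range.1 ha)) hj
    · exact Limits.zero_comp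
  rw [h3, zero_add]
  split_ifs with hj
  · exact h2 hj
  · exact Limits.zero_comp

private theorem comp_algP_eq_zero {Z : C} (f : Z ⟶ P.X) (i : ℤ)
    (h1 : ∀ α a, a ≤ A.ℓ α → P.n + A.ℓ α - 2 * (a : ℤ) = i → f ≫ algE A α a = 0)
    (h2 : i = P.n → f ≫ algNu A = 0) : f ≫ algP A i = 0 := by
  unfold algP
  rw [Preadditive.comp_add, Preadditive.comp_sum]
  have h3 : (∑ α, f ≫ (∑ a ∈ Finset.range (A.ℓ α + 1),
      if P.n + A.ℓ α - 2 * (a : ℤ) = i then algE A α a else 0)) = 0 := by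
    apply Finset.sum_eq_zero
    intro α _
    rw [Preadditive.comp_sum]
    apply Finset.sum_eq_zero
    intro a ha
    split_ifs with hj
    · exact h1 α a (Nat.lt_succ_iff.1 (Finset.mem_range.1 ha)) hj
    · exact Limits.comp_zero
  rw [h3, zero_add]
  split_ifs with hj
  · exact h2 hj
  · exact Limits.comp_zero

private theorem algP_nonneg (i j : ℤ) (hij : i < j - 2) :
    algP A j ≫ A.L ≫ algP A i = 0 := by
  apply algP_comp_eq_zero
  · intro α a ha hj
    have h0 : algE A α a ≫ A.L ≫ algP A i =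
        ((pow A.L (A.ℓ α - a) ≫ A.ξ α) ≫ (A.x α ≫ pow A.L (a + 1))) ≫ algP A i := by
      unfold algE
      change _ = ((pow A.L (A.ℓ α - a) ≫ A.ξ α) ≫ (A.x α ≫ (pow A.L a ≫ A.L))) ≫ algP A i
      simp only [Category.assoc]
    rw [h0]
    apply comp_algP_eq_zero
    · intro β b hb hi
      rw [Category.assoc, x_pow_E A hb, if_neg, Limits.comp_zero]
      rintro ⟨rfl, rfl⟩
      push_cast at hi
      omega
    · intro hi
      rw [Category.assoc, x_nu A (by omega), Limits.comp_zero]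
  · intro hj
    rw [← Category.assoc]
    apply comp_algP_eq_zero
    · intro α a ha hi
      have h0 : (algNu A ≫ A.L) ≫ algE A α a =
          (algNu A ≫ (pow A.L (A.ℓ α - a + 1) ≫ A.ξ α)) ≫ (A.x α ≫ pow A.L a) := by
        rw [← L_pow]
        unfold algE
        simp only [Category.assoc]
      rw [h0, nu_xi A (by omega), Limits.zero_comp]
    · intro hi
      omega

end aux

section generic

variable {X : C} (D : CK K X) (L : X ⟶ X)

private theorem p_pow_p (hn : ∀ i j : ℤ, i < j - 2 → D.p j ≫ L ≫ D.p i = 0)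
    (hL : ∀ k : ℕ, L ≫ pow L k = pow L (k + 1)) (s : ℕ) :
    ∀ i k : ℤ, i < k - 2 * (s : ℤ) → D.p k ≫ pow L s ≫ D.p i = 0 := by
  induction s with
  | zero =>
    intro i k h
    change D.p k ≫ 𝟙 X ≫ D.p i = 0
    rw [Category.id_comp]
    apply D.orth
    intro h'
    rw [h'] at h
    simp at h
  | succ s ih =>
    intro i k h
    rw [← hL s]
    have h0 : D.p k ≫ (L ≫ pow L s) ≫ D.p i = (D.p k ≫ L) ≫ (pow L s ≫ D.p i) := by
      simp only [Category.assoc]
    rw [h0]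
    apply D.comp_eq_zero
    intro m
    rcases lt_or_ge m (k - 2) with hm | hm
    · have h1 : (D.p k ≫ L) ≫ D.p m ≫ pow L s ≫ D.p i =
          (D.p k ≫ L ≫ D.p m) ≫ pow L s ≫ D.p i := by simp only [Category.assoc]
      rw [h1, hn m k hm, Limits.zero_comp]
    · rw [ih i m (by push_cast at h; omega), Limits.comp_zero]

private theorem lead_replicate (hn : ∀ i j : ℤ, i < j - 2 → D.p j ≫ L ≫ D.p i = 0)
    (hL : ∀ k : ℕ, L ≫ pow L k = pow L (k + 1)) (s : ℕ) :
    ∀ w w' : ℤ, w' = w - 2 * (s : ℤ) →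
      lead D.p w (List.replicate s (1, L)) = D.p w ≫ pow L s ≫ D.p w' := by
  induction s with
  | zero =>
    intro w w' h
    have h' : w' = w := by simpa using h
    subst h'
    change D.p w' = D.p w' ≫ 𝟙 X ≫ D.p w'
    rw [Category.id_comp, D.idem]
  | succ s ih =>
    intro w w' h
    rw [List.replicate_succ, lead_cons, ih (w - 2 * ((1 : ℕ) : ℤ)) w'
      (by rw [h]; push_cast; ring), ← hL s]
    have h0 : D.p w ≫ (L ≫ pow L s) ≫ D.p w' = (D.p w ≫ L) ≫ (pow L s ≫ D.p w') := by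
      simp only [Category.assoc]
    rw [h0, D.comp_eq (D.p w ≫ L) (pow L s ≫ D.p w') (w - 2 * ((1 : ℕ) : ℤ))]
    · simp only [Category.assoc]
    · intro m hm
      rcases lt_or_ge m (w - 2) with hm' | hm'
      · have h1 : (D.p w ≫ L) ≫ D.p m ≫ pow L s ≫ D.p w' =
            (D.p w ≫ L ≫ D.p m) ≫ pow L s ≫ D.p w' := by simp only [Category.assoc]
        rw [h1, hn m w hm', Limits.zero_comp]
      · rw [p_pow_p D L hn hL s w' m (by push_cast at h hm; omega), Limits.comp_zero]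

private theorem sum_comp_diag {ι : Type*} [DecidableEq ι] (S : Finset ι) {Y₁ Y₂ Y₃ : C}
    (f : ι → (Y₁ ⟶ Y₂)) (g : ι → (Y₂ ⟶ Y₃)) (h : ι → (Y₁ ⟶ Y₃))
    (hfg : ∀ α ∈ S, ∀ β ∈ S, f α ≫ g β = if α = β then h α else 0) :
    (∑ α ∈ S, f α) ≫ (∑ β ∈ S, g β) = ∑ α ∈ S, h α := by
  rw [Preadditive.sum_comp]
  apply Finset.sum_congr rfl
  intro α hα
  rw [Preadditive.comp_sum, Finset.sum_congr rfl (fun β hβ => hfg α hα β hβ),
    Finset.sum_ite_eq, if_pos hα]

end generic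

section hard

variable (A : CyclesOffMiddle K P)

private theorem algP_pos (s : ℕ) (hs : 1 ≤ s) :
    algP A (P.n + s) = ∑ α ∈ Finset.univ.filter
      (fun α : Fin A.r => A.ℓ α = 2 * ((A.ℓ α - s) / 2) + s),
        algE A α ((A.ℓ α - s) / 2) := by
  unfold algP
  rw [if_neg (by omega), add_zero, Finset.sum_filter]
  apply Finset.sum_congr rfl
  intro α _
  split_ifs with h
  · rw [Finset.sum_eq_single_of_mem ((A.ℓ α - s) / 2) (Finset.mem_range.2 (by omega))]
    · rw [if_pos (by omega)]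
    · intro b _ hb
      rw [if_neg (by omega)]
  · apply Finset.sum_eq_zero
    intro b hb
    rw [if_neg (by omega)]

private theorem algP_neg (s : ℕ) (hs : 1 ≤ s) :
    algP A (P.n - s) = ∑ α ∈ Finset.univ.filter
      (fun α : Fin A.r => A.ℓ α = 2 * ((A.ℓ α - s) / 2) + s),
        algE A α ((A.ℓ α - s) / 2 + s) := by
  unfold algP
  rw [if_neg (by omega), add_zero, Finset.sum_filter]
  apply Finset.sum_congr rfl
  intro α _
  split_ifs with h
  · rw [Finset.sum_eq_single_of_mem ((A.ℓ α - s) / 2 + s) (Finset.mem_range.2 (by omega))]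
    · rw [if_pos (by push_cast; omega)]
    · intro b _ hb
      rw [if_neg (by omega)]
  · apply Finset.sum_eq_zero
    intro b hb
    have := Finset.mem_range.1 hb
    rw [if_neg (by omega)]

end hard

theorem cyclesOffMiddle (A : CyclesOffMiddle K P) : Nonempty (LCK K P) := by
  obtain ⟨D, hD⟩ := exists_algCK A
  have hn : ∀ i j : ℤ, i < j - 2 → D.p j ≫ A.L ≫ D.p i = 0 := by
    intro i j hij
    rw [hD, hD]
    exact algP_nonneg A i j hij
  refine ⟨{ toCK := D, mem_L := ?_, nonneg := ?_, hard := ?_ }⟩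
  · intro c g hg
    obtain ⟨rfl, rfl⟩ := A.only c g hg
    exact_mod_cast A.L_mem
  · intro c g hg i j hij
    obtain ⟨rfl, rfl⟩ := A.only c g hg
    exact hn i j (by simpa using hij)
  · intro l hl hmem
    have hrep : l = List.replicate l.length (1, A.L) := by
      apply List.eq_replicate_of_mem
      intro b hb
      obtain ⟨h1, h2⟩ := A.only b.1 b.2 (hmem b hb).2
      exact Prod.ext h1 h2
    set s := l.length with hs
    have hs1 : 1 ≤ s := List.length_pos_iff.2 hl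
    have htot : total l = (s : ℤ) := by
      rw [hrep, total_replicate]
      simp
    have hlead : lead D.p (P.n + total l) l =
        D.p (P.n + (s : ℤ)) ≫ pow A.L s ≫ D.p (P.n - (s : ℤ)) := by
      rw [htot]
      conv_lhs => rw [hrep]
      exact lead_replicate D A.L hn (fun k => L_pow A.L k) s _ _ (by ring)
    rw [hlead, htot, hD, hD, algP_pos A s hs1, algP_neg A s hs1]
    set S := Finset.univ.filter
      (fun α : Fin A.r => A.ℓ α = 2 * ((A.ℓ α - s) / 2) + s) with hS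
    have hmemS : ∀ α ∈ S, A.ℓ α = 2 * ((A.ℓ α - s) / 2) + s := by
      intro α hα
      exact (Finset.mem_filter.1 hα).2
    have hE1 : ∀ α ∈ S, algE A α ((A.ℓ α - s) / 2) =
        (pow A.L ((A.ℓ α - s) / 2 + s) ≫ A.ξ α) ≫ (A.x α ≫ pow A.L ((A.ℓ α - s) / 2)) := by
      intro α hα
      have := hmemS α hα
      unfold algE
      rw [show A.ℓ α - (A.ℓ α - s) / 2 = (A.ℓ α - s) / 2 + s by omega]
    have hE2 : ∀ α ∈ S, algE A α ((A.ℓ α - s) / 2 + s) =
        (pow A.L ((A.ℓ α - s) / 2) ≫ A.ξ α) ≫ (A.x α ≫ pow A.L ((A.ℓ α - s) / 2 + s)) := by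
      intro α hα
      have := hmemS α hα
      unfold algE
      rw [show A.ℓ α - ((A.ℓ α - s) / 2 + s) = (A.ℓ α - s) / 2 by omega]
    have hM : (∑ α ∈ S, algE A α ((A.ℓ α - s) / 2)) ≫ pow A.L s ≫
        (∑ α ∈ S, algE A α ((A.ℓ α - s) / 2 + s)) =
        ∑ α ∈ S, (pow A.L ((A.ℓ α - s) / 2 + s) ≫ A.ξ α) ≫
          (A.x α ≫ pow A.L ((A.ℓ α - s) / 2 + s)) := by
      rw [← Category.assoc, Preadditive.sum_comp]
      apply sum_comp_diag
      intro α hα β hβ
      rw [hE1 α hα, hE2 β hβ]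
      have h1 : ((pow A.L ((A.ℓ α - s) / 2 + s) ≫ A.ξ α) ≫
          (A.x α ≫ pow A.L ((A.ℓ α - s) / 2))) ≫ pow A.L s =
          (pow A.L ((A.ℓ α - s) / 2 + s) ≫ A.ξ α) ≫
          (A.x α ≫ pow A.L ((A.ℓ α - s) / 2 + s)) := by
        rw [← pow_add' A.L ((A.ℓ α - s) / 2) s]
        simp only [Category.assoc]
      rw [h1, mid_comp]
      by_cases hab : α = β
      · subst hab
        have := hmemS α hα
        rw [if_pos ⟨rfl, by omega⟩, if_pos rfl]
      · rw [if_neg (fun h => hab h.1), if_neg hab]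
    rw [hM]
    refine ⟨∑ α ∈ S, (pow A.L ((A.ℓ α - s) / 2) ≫ A.ξ α) ≫
      (A.x α ≫ pow A.L ((A.ℓ α - s) / 2)), ?_, ?_, ?_⟩
    · apply Submodule.sum_mem
      intro α hα
      have h1 := hmemS α hα
      have h2 := A.two_d α
      have h3 : pow A.L ((A.ℓ α - s) / 2) ∈ K.deg P.X P.X (((A.ℓ α - s) / 2 : ℕ) : ℤ) :=
        pow_mem A.L_mem _
      have h4 : A.x α ∈ K.deg (𝟙_ C) P.X (-(A.d α)) := A.x_mem α
      refine K.comp_mem' (K.comp_mem h3 (A.ξ_mem α)) (K.comp_mem h4 h3) ?_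
      omega
    · apply sum_comp_diag
      intro α hα β hβ
      rw [mid_comp, hE1 α hα]
      by_cases hab : α = β
      · subst hab
        have := hmemS α hα
        rw [if_pos ⟨rfl, by omega⟩, if_pos rfl]
      · rw [if_neg (fun h => hab h.1), if_neg hab]
    · apply sum_comp_diag
      intro α hα β hβ
      rw [mid_comp, hE2 α hα]
      by_cases hab : α = β
      · subst hab
        have := hmemS α hα
        rw [if_pos ⟨rfl, by omega⟩, if_pos rfl]
      · rw [if_neg (fun h => hab h.1), if_neg hab]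

end Pool.Agent.LefCK
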