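import Mathlib
import Pool.Agent.LefCK.Basic

/-!
# Coverings: the decomposition (module LCK-CovA)

Notation `π = ret ≫ inc : Y ⟶ Y` (idempotent as `inc ≫ ret = 1`), `ν = 1 - π`;
`q j = ret ≫ e.p j ≫ inc` for `j ≠ n`, `q n = ret ≫ e.p n ≫ inc + (1 - π)`.

PLAN. `inc ≫ ν = 0`, `ν ≫ ret = 0`, `(ret ≫ f ≫ inc) ≫ (ret ≫ g ≫ inc) = ret ≫ (f ≫ g) ≫ inc`; so
idempotent, orthogonal; sum over `s` (from `e.toCK.exists_finset`) together with `n`:
`∑ ret ≫ e.p j ≫ inc = ret ≫ 𝟙 ≫ inc = π`. Degrees 0: clear. Homology (`CK.homology_of_pure`):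
for `y ∈ gr Y j`, `j ≠ i`: `H ret y ∈ gr X j`, killed by `e.p i`; and for `i = n`, `j ≠ n`: `H ν y = y - H π y = 0` by `Z.middle`.
-/

open CategoryTheory MonoidalCategory

universe w v u

namespace Pool.Agent.LefCK

variable {C : Type u} [Category.{v} C] [Preadditive C] [Linear ℚ C]
  [MonoidalCategory C] {F : Type w} [Field F]
  {K : Correspondences C F} {P : Pol C}

/-- The projectors of the covering. -/
def covP (e : LCK K P) (Z : Covering K P) (j : ℤ) : Z.Y ⟶ Z.Y :=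
  Z.ret ≫ e.p j ≫ Z.inc + if j = P.n then 𝟙 Z.Y - Z.ret ≫ Z.inc else 0

private theorem inc_nu (Z : Covering K P) : Z.inc ≫ (𝟙 Z.Y - Z.ret ≫ Z.inc) = 0 := by
  rw [Preadditive.comp_sub, Category.comp_id, ← Category.assoc, Z.inc_ret, Category.id_comp,
    sub_self]

private theorem nu_ret (Z : Covering K P) : (𝟙 Z.Y - Z.ret ≫ Z.inc) ≫ Z.ret = 0 := by
  rw [Preadditive.sub_comp, Category.id_comp, Category.assoc, Z.inc_ret, Category.comp_id,
    sub_self]

private theorem nu_nu (Z : Covering K P) :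
    (𝟙 Z.Y - Z.ret ≫ Z.inc) ≫ (𝟙 Z.Y - Z.ret ≫ Z.inc) = 𝟙 Z.Y - Z.ret ≫ Z.inc := by
  rw [Preadditive.comp_sub, Category.comp_id, ← Category.assoc, nu_ret, Limits.zero_comp, sub_zero]

private theorem covP_comp (e : LCK K P) (Z : Covering K P) (i j : ℤ) :
    covP e Z i ≫ covP e Z j = Z.ret ≫ (e.p i ≫ e.p j) ≫ Z.inc +
      if i = P.n ∧ j = P.n then 𝟙 Z.Y - Z.ret ≫ Z.inc else 0 := by
  have h1 : (Z.ret ≫ e.p i ≫ Z.inc) ≫ (Z.ret ≫ e.p j ≫ Z.inc) =
      Z.ret ≫ (e.p i ≫ e.p j) ≫ Z.inc := by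
    simp only [Category.assoc]
    rw [← Category.assoc Z.inc, Z.inc_ret, Category.id_comp]
  have h2 : ∀ j : ℤ, (Z.ret ≫ e.p i ≫ Z.inc) ≫
      (if j = P.n then 𝟙 Z.Y - Z.ret ≫ Z.inc else 0) = 0 := by
    intro j
    split_ifs
    · simp only [Category.assoc]
      rw [inc_nu, Limits.comp_zero, Limits.comp_zero]
    · rw [Limits.comp_zero]
  have h3 : ∀ i : ℤ, (if i = P.n then 𝟙 Z.Y - Z.ret ≫ Z.inc else 0) ≫
      (Z.ret ≫ e.p j ≫ Z.inc) = 0 := by
    intro i
    split_ifs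
    · rw [← Category.assoc, nu_ret, Limits.zero_comp]
    · rw [Limits.zero_comp]
  have h4 : (if i = P.n then 𝟙 Z.Y - Z.ret ≫ Z.inc else 0) ≫
      (if j = P.n then 𝟙 Z.Y - Z.ret ≫ Z.inc else 0) =
      if i = P.n ∧ j = P.n then 𝟙 Z.Y - Z.ret ≫ Z.inc else 0 := by
    by_cases hi : i = P.n <;> by_cases hj : j = P.n
    · simp only [hi, hj, if_true, and_self]; exact nu_nu Z
    · simp [hj]
    · simp [hi]
    · simp [hi]
  unfold covP
  rw [Preadditive.add_comp, Preadditive.comp_add, Preadditive.comp_add, h1, h2, h3, h4]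
  simp

theorem exists_covCK (e : LCK K P) (Z : Covering K P) :
    ∃ D : CK K Z.Y, ∀ j, D.p j = covP e Z j := by
  classical
  obtain ⟨s, hs0, hs1⟩ := e.toCK.exists_finset
  have hz : ∀ i, i ∉ insert P.n s → covP e Z i = 0 := by
    intro i hi
    rw [Finset.mem_insert, not_or] at hi
    unfold covP
    rw [hs0 i hi.2, if_neg hi.1]
    simp
  have hsum : ∑ i ∈ insert P.n s, covP e Z i = 𝟙 Z.Y := by
    unfold covP
    rw [Finset.sum_add_distrib, Finset.sum_ite_eq' (insert P.n s) P.n,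
      if_pos (Finset.mem_insert_self _ _)]
    have h1 : ∑ i ∈ insert P.n s, e.p i = 𝟙 P.X := by
      rw [← hs1]
      symm
      apply Finset.sum_subset (Finset.subset_insert _ _)
      intro i _ hi
      exact hs0 i hi
    rw [← Preadditive.comp_sum, ← Preadditive.sum_comp, h1, Category.id_comp]
    abel
  have hpure : ∀ i j, j ≠ i → ∀ x ∈ K.gr Z.Y j, (K.H.map (covP e Z i)).hom x = 0 := by
    intro i j hij x hx
    unfold covP
    rw [K.map_add_apply, K.map_comp_apply, K.map_comp_apply]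
    have h1 : (K.H.map Z.ret).hom x ∈ K.gr P.X j := by
      have := K.map_gr Z.ret_mem j x hx
      simpa using this
    rw [e.toCK.homology_ne hij h1, map_zero, zero_add]
    split_ifs with hi
    · rw [K.map_sub_apply, K.map_id_apply, Z.middle j (by rw [← hi]; exact hij) x hx, sub_self]
    · exact K.map_zero_apply x
  refine ⟨CK.ofFinset (insert P.n s) (covP e Z) hz ?_ ?_ ?_ hsum
    (CK.homology_of_pure _ _ hz hsum hpure), fun j => rfl⟩
  · intro i
    unfold covP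
    have h1 : Z.ret ≫ Z.inc ∈ K.deg Z.Y Z.Y 0 := K.comp_mem' Z.ret_mem Z.inc_mem (by ring)
    refine Submodule.add_mem _ ?_ ?_
    · exact K.comp_mem' Z.ret_mem (K.comp_mem (e.mem i) Z.inc_mem) (by ring)
    · split_ifs
      · exact Submodule.sub_mem _ (K.id_mem _) h1
      · exact Submodule.zero_mem _
  · intro i
    rw [covP_comp, e.idem]
    unfold covP
    simp only [and_self]
  · intro i j hij
    rw [covP_comp, e.orth i j hij, if_neg (by rintro ⟨rfl, rfl⟩; exact hij rfl)]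
    simp

end Pool.Agent.LefCK
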