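import Mathlib
import Pool.Agent.LefCK.CovA

/-!
# Coverings: (N), hard Lefschetz, (B) and (D) (module LCK-CovB)

Notation `π = ret ≫ inc`, `ν = 1 - π`, `n = P.n`, `q = covP e Z`. For `g ∈ Z.pol.L d` there is `L ∈ P.L d` with
`inc ≫ g = L ≫ inc`, `g ≫ ret = ret ≫ L`; so `inc ≫ g ≫ ν = 0`, `ν ≫ g ≫ ret = 0`.

PLAN. Let `D` be from `exists_covCK`; the LCK has the CK `D`.
* `nonneg` (`i < j - 2d ≤ j`, so `i ≠ j`): `q j ≫ g ≫ q i` = `ret ≫ e.p j ≫ L ≫ e.p i ≫ inc` + mixed terms (0 by the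
  above) + (`ν ≫ g ≫ ν`, only if `i = j = n`); and `e.p j ≫ L ≫ e.p i = 0`.
* `hard`: for `l` on `Y` choose `l'` on `X` (`List.Forall₂`). Show by induction, for every `w`:
  `inc ≫ lead q w l = lead e.p w l' ≫ inc` (base: `inc ≫ q w = e.p w ≫ inc`), and, if `w ≠ n` or `w' ≠ n`
  (`w' = w - 2 * total l`), `lead q w l = ret ≫ lead e.p w l' ≫ inc`: if `w ≠ n` then `q w = ret ≫ e.p w ≫ inc`
  and use the first formula; in the end `w = n + i ≠ n`, `i = total l > 0` (`total_pos`), so only this case is needed. With `G'` from `e.hard l'`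
  (same `total`): `G := ret ≫ G' ≫ inc`; `lead q w l ≫ G = ret ≫ lead e.p w l' ≫ G' ≫ inc = q (n+i)`, and
  `G ≫ lead q w l = ret ≫ G' ≫ (inc ≫ ret) ≫ lead e.p w l' ≫ inc = ret ≫ e.p (n-i) ≫ inc = q (n-i)`.
* (B) ⇐: `y ∈ CH_l(Y)`, `i < 2l`: `y ≫ ret ≫ e.p i = 0`. If `i = n`: `n < 2l`, `y = x ≫ inc`, so `y ≫ ν = 0`.
  (B) ⇒: `n < 2l`: `y ≫ q n = 0` and `y ≫ ret ≫ e.p n = 0`, so `y ≫ ν = 0`, `y = (y ≫ ret) ≫ inc`.
* (D), `n` odd, so `2l ≠ n`: `y ≫ q (2l) = ((y ≫ ret) ≫ e.p (2l)) ≫ inc = 0`.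
-/

open CategoryTheory MonoidalCategory

universe w v u

namespace Pool.Agent.LefCK

variable {C : Type u} [Category.{v} C] [Preadditive C] [Linear ℚ C]
  [MonoidalCategory C] {F : Type w} [Field F]
  {K : Correspondences C F} {P : Pol C}

private theorem covb_inc_nu (Z : Covering K P) : Z.inc ≫ (𝟙 Z.Y - Z.ret ≫ Z.inc) = 0 := by
  rw [Preadditive.comp_sub, Category.comp_id, ← Category.assoc, Z.inc_ret, Category.id_comp,
    sub_self]

private theorem covb_nu_ret (Z : Covering K P) : (𝟙 Z.Y - Z.ret ≫ Z.inc) ≫ Z.ret = 0 := by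
  rw [Preadditive.sub_comp, Category.id_comp, Category.assoc, Z.inc_ret, Category.comp_id,
    sub_self]

private theorem covb_inc_q (e : LCK K P) (Z : Covering K P) (w : ℤ) :
    Z.inc ≫ covP e Z w = e.p w ≫ Z.inc := by
  unfold covP
  rw [Preadditive.comp_add]
  have h1 : Z.inc ≫ Z.ret ≫ e.p w ≫ Z.inc = e.p w ≫ Z.inc := by
    rw [← Category.assoc, Z.inc_ret, Category.id_comp]
  rw [h1]
  split_ifs with h
  · rw [covb_inc_nu, add_zero]
  · rw [Limits.comp_zero, add_zero]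

private theorem covb_q_ret (e : LCK K P) (Z : Covering K P) (w : ℤ) :
    covP e Z w ≫ Z.ret = Z.ret ≫ e.p w := by
  unfold covP
  rw [Preadditive.add_comp]
  have h1 : (Z.ret ≫ e.p w ≫ Z.inc) ≫ Z.ret = Z.ret ≫ e.p w := by
    rw [Category.assoc, Category.assoc, Z.inc_ret, Category.comp_id]
  rw [h1]
  split_ifs with h
  · rw [covb_nu_ret, add_zero]
  · rw [Limits.zero_comp, add_zero]

private theorem covb_q_ne (e : LCK K P) (Z : Covering K P) {w : ℤ} (h : w ≠ P.n) :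
    covP e Z w = Z.ret ≫ e.p w ≫ Z.inc := by
  unfold covP
  rw [if_neg h, add_zero]

private theorem covb_list (e : LCK K P) (Z : Covering K P) (l : List (ℕ × (Z.Y ⟶ Z.Y)))
    (hl : ∀ a ∈ l, 0 < a.1 ∧ a.2 ∈ Z.pol.L a.1) :
    ∃ l' : List (ℕ × (P.X ⟶ P.X)), total l' = total l ∧ (l ≠ [] → l' ≠ []) ∧
      (∀ a ∈ l', 0 < a.1 ∧ a.2 ∈ P.L a.1) ∧
      ∀ w, Z.inc ≫ lead (covP e Z) w l = lead e.p w l' ≫ Z.inc := by
  induction l with
  | nil =>
    refine ⟨[], by simp, fun h => absurd rfl h, by simp, fun w => ?_⟩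
    rw [lead_nil, lead_nil, covb_inc_q]
  | cons a l ih =>
    obtain ⟨l', h1, h2, h3, h4⟩ := ih (fun b hb => hl b (List.mem_cons_of_mem _ hb))
    obtain ⟨ha, hmem, L, hL, hL1, hL2⟩ := hl a (by simp)
    refine ⟨(a.1, L) :: l', ?_, fun _ => by simp, ?_, fun w => ?_⟩
    · rw [total_cons, total_cons, h1]
    · intro b hb
      rcases List.mem_cons.1 hb with rfl | hb
      · exact ⟨ha, hL⟩
      · exact h3 b hb
    · rw [lead_cons, lead_cons]
      calc Z.inc ≫ covP e Z w ≫ a.2 ≫ lead (covP e Z) (w - 2 * (a.1 : ℤ)) l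
          = (Z.inc ≫ covP e Z w) ≫ a.2 ≫ lead (covP e Z) (w - 2 * (a.1 : ℤ)) l := by
            rw [Category.assoc]
        _ = e.p w ≫ (Z.inc ≫ a.2) ≫ lead (covP e Z) (w - 2 * (a.1 : ℤ)) l := by
            rw [covb_inc_q]; simp only [Category.assoc]
        _ = e.p w ≫ L ≫ Z.inc ≫ lead (covP e Z) (w - 2 * (a.1 : ℤ)) l := by
            rw [hL1]; simp only [Category.assoc]
        _ = _ := by
            rw [h4]; simp only [Category.assoc]

private theorem covb_weak (e : LCK K P) (Z : Covering K P) (D : CK K Z.Y)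
    (hD : ∀ j, D.p j = covP e Z j) (l : ℤ) (hB : e.toCK.MurreB l)
    (hBq : ∀ x ∈ CH K Z.Y l, ∀ i : ℤ, i < 2 * l → x ≫ D.p i = 0) :
    Z.WeakLefschetz l := by
  intro hl y hy
  have hy' : y ≫ Z.ret ∈ CH K P.X l := K.comp_mem' hy Z.ret_mem (add_zero _)
  refine ⟨y ≫ Z.ret, hy', ?_⟩
  have h1 := hBq y hy P.n hl
  have h2 := hB (y ≫ Z.ret) hy' P.n hl
  have h3 : y ≫ covP e Z P.n = 0 := by
    rw [← hD]
    exact h1
  unfold covP at h3
  rw [if_pos rfl, Preadditive.comp_add] at h3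
  have h4 : y ≫ Z.ret ≫ e.p P.n ≫ Z.inc = 0 := by
    have : y ≫ Z.ret ≫ e.p P.n ≫ Z.inc = ((y ≫ Z.ret) ≫ e.p P.n) ≫ Z.inc := by
      simp only [Category.assoc]
    rw [this, h2, Limits.zero_comp]
  rw [h4, zero_add, Preadditive.comp_sub, Category.comp_id, sub_eq_zero] at h3
  rw [Category.assoc, ← h3]

private theorem covb_B (e : LCK K P) (Z : Covering K P) (D : CK K Z.Y)
    (hD : ∀ j, D.p j = covP e Z j) (l : ℤ) (hB : e.toCK.MurreB l) (hW : Z.WeakLefschetz l)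
    (y : 𝟙_ C ⟶ Z.Y) (hy : y ∈ CH K Z.Y l) (i : ℤ) (hi : i < 2 * l) :
    y ≫ D.p i = 0 := by
  have hy' : y ≫ Z.ret ∈ CH K P.X l := K.comp_mem' hy Z.ret_mem (add_zero _)
  have h2 := hB (y ≫ Z.ret) hy' i hi
  have h4 : y ≫ Z.ret ≫ e.p i ≫ Z.inc = 0 := by
    have : y ≫ Z.ret ≫ e.p i ≫ Z.inc = ((y ≫ Z.ret) ≫ e.p i) ≫ Z.inc := by
      simp only [Category.assoc]
    rw [this, h2, Limits.zero_comp]
  rw [hD]
  unfold covP
  rw [Preadditive.comp_add, h4, zero_add]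
  split_ifs with h
  · obtain ⟨x, hx, hxy⟩ := hW (by omega) y hy
    rw [← hxy, Category.assoc, covb_inc_nu, Limits.comp_zero]
  · rw [Limits.comp_zero]

private theorem covb_D (e : LCK K P) (Z : Covering K P) (D : CK K Z.Y)
    (hD : ∀ j, D.p j = covP e Z j) (l : ℤ) (hDe : e.toCK.MurreD l) (hne : 2 * l ≠ P.n)
    (y : 𝟙_ C ⟶ Z.Y) (hy : y ∈ CH K Z.Y l) (hy0 : K.H.map y = 0) :
    y ≫ D.p (2 * l) = 0 := by
  have hy' : y ≫ Z.ret ∈ CH K P.X l := K.comp_mem' hy Z.ret_mem (add_zero _)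
  have hadd := K.additive
  have h0 : K.H.map (y ≫ Z.ret) = 0 := by
    rw [Functor.map_comp, hy0, Limits.zero_comp]
  have h2 := hDe (y ≫ Z.ret) hy' h0
  rw [hD, covb_q_ne e Z hne]
  have : y ≫ Z.ret ≫ e.p (2 * l) ≫ Z.inc = ((y ≫ Z.ret) ≫ e.p (2 * l)) ≫ Z.inc := by
    simp only [Category.assoc]
  rw [this, h2, Limits.zero_comp]

theorem covering (e : LCK K P) (Z : Covering K P) : ∃ q : LCK K Z.pol, ∀ l : ℤ,
    (e.toCK.MurreB l → (q.toCK.MurreB l ↔ Z.WeakLefschetz l)) ∧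
    (2 * l ≠ P.n → e.toCK.MurreD l → q.toCK.MurreD l) := by
  obtain ⟨D, hD⟩ := exists_covCK e Z
  have hDp : D.p = covP e Z := funext hD
  have hnonneg : ∀ (c : ℕ) (g : Z.Y ⟶ Z.Y), g ∈ K.deg Z.Y Z.Y (c : ℤ) →
      (∃ L ∈ P.L c, Z.inc ≫ g = L ≫ Z.inc ∧ g ≫ Z.ret = Z.ret ≫ L) → ∀ i j : ℤ,
      i < j - 2 * (c : ℤ) → D.p j ≫ g ≫ D.p i = 0 := by
    rintro c g hg ⟨L, hL, hL1, hL2⟩ i j hij
    have hz := e.nonneg c L hL i j hij
    rw [hD, hD]
    by_cases hj : j = P.n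
    · have hi : i ≠ P.n := by
        have : (0 : ℤ) ≤ c := Int.natCast_nonneg c
        omega
      rw [covb_q_ne e Z hi]
      calc covP e Z j ≫ g ≫ Z.ret ≫ e.p i ≫ Z.inc
          = covP e Z j ≫ (g ≫ Z.ret) ≫ e.p i ≫ Z.inc := by rw [Category.assoc]
        _ = (covP e Z j ≫ Z.ret) ≫ L ≫ e.p i ≫ Z.inc := by
            rw [hL2]; simp only [Category.assoc]
        _ = Z.ret ≫ (e.p j ≫ L ≫ e.p i) ≫ Z.inc := by
            rw [covb_q_ret]; simp only [Category.assoc]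
        _ = 0 := by rw [hz, Limits.zero_comp, Limits.comp_zero]
    · rw [covb_q_ne e Z hj]
      calc (Z.ret ≫ e.p j ≫ Z.inc) ≫ g ≫ covP e Z i
          = Z.ret ≫ e.p j ≫ (Z.inc ≫ g) ≫ covP e Z i := by simp only [Category.assoc]
        _ = Z.ret ≫ e.p j ≫ L ≫ (Z.inc ≫ covP e Z i) := by
            rw [hL1]; simp only [Category.assoc]
        _ = Z.ret ≫ (e.p j ≫ L ≫ e.p i) ≫ Z.inc := by
            rw [covb_inc_q]; simp only [Category.assoc]
        _ = 0 := by rw [hz, Limits.zero_comp, Limits.comp_zero]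
  have hhard : ∀ l : List (ℕ × (Z.Y ⟶ Z.Y)), l ≠ [] →
      (∀ a ∈ l, 0 < a.1 ∧ a.2 ∈ Z.pol.L a.1) →
      ∃ G ∈ K.deg Z.Y Z.Y (-total l),
        lead D.p (P.n + total l) l ≫ G = D.p (P.n + total l) ∧
        G ≫ lead D.p (P.n + total l) l = D.p (P.n - total l) := by
    intro l hne hl
    obtain ⟨l', h1, h2, h3, h4⟩ := covb_list e Z l hl
    obtain ⟨G', hG', hG1, hG2⟩ := e.hard l' (h2 hne) h3
    rw [h1] at hG' hG1 hG2
    have hpos : 0 < total l := total_pos hne (fun a ha => (hl a ha).1)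
    have hw : P.n + total l ≠ P.n := by omega
    have hw' : P.n - total l ≠ P.n := by omega
    have hlead : lead (covP e Z) (P.n + total l) l =
        Z.ret ≫ lead e.p (P.n + total l) l' ≫ Z.inc := by
      have hidem : ∀ i, covP e Z i ≫ covP e Z i = covP e Z i := by
        intro i
        rw [← hD]
        exact D.idem i
      rw [← p_lead hidem, covb_q_ne e Z hw]
      calc (Z.ret ≫ e.p (P.n + total l) ≫ Z.inc) ≫ lead (covP e Z) (P.n + total l) l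
          = Z.ret ≫ e.p (P.n + total l) ≫ Z.inc ≫ lead (covP e Z) (P.n + total l) l := by
            simp only [Category.assoc]
        _ = Z.ret ≫ (e.p (P.n + total l) ≫ lead e.p (P.n + total l) l') ≫ Z.inc := by
            rw [h4]; simp only [Category.assoc]
        _ = _ := by rw [p_lead e.idem]
    refine ⟨Z.ret ≫ G' ≫ Z.inc, ?_, ?_, ?_⟩
    · exact K.comp_mem' Z.ret_mem (K.comp_mem' hG' Z.inc_mem (add_zero _)) (zero_add _)
    · rw [hDp, hlead, covb_q_ne e Z hw]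
      calc (Z.ret ≫ lead e.p (P.n + total l) l' ≫ Z.inc) ≫ Z.ret ≫ G' ≫ Z.inc
          = Z.ret ≫ lead e.p (P.n + total l) l' ≫ (Z.inc ≫ Z.ret) ≫ G' ≫ Z.inc := by
            simp only [Category.assoc]
        _ = Z.ret ≫ (lead e.p (P.n + total l) l' ≫ G') ≫ Z.inc := by
            rw [Z.inc_ret, Category.id_comp]; simp only [Category.assoc]
        _ = _ := by rw [hG1]
    · rw [hDp, covb_q_ne e Z hw']
      calc (Z.ret ≫ G' ≫ Z.inc) ≫ lead (covP e Z) (P.n + total l) l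
          = Z.ret ≫ G' ≫ Z.inc ≫ lead (covP e Z) (P.n + total l) l := by
            simp only [Category.assoc]
        _ = Z.ret ≫ (G' ≫ lead e.p (P.n + total l) l') ≫ Z.inc := by
            rw [h4]; simp only [Category.assoc]
        _ = _ := by rw [hG2]
  refine ⟨{ toCK := D, mem_L := fun c g hg => hg.1, nonneg := fun c g hg => hnonneg c g hg.1 hg.2, hard := hhard }, fun l => ⟨?_, ?_⟩⟩
  · intro hB
    exact ⟨fun hBq => covb_weak e Z D hD l hB (fun y hy i hi => hBq y hy i hi),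
      fun hW y hy i hi => covb_B e Z D hD l hB hW y hy i hi⟩
  · intro hne hDe y hy hy0
    exact covb_D e Z D hD l hDe hne y hy hy0

end Pool.Agent.LefCK
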