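import Mathlib
import Pool.Agent.LefCK.Basic

/-!
# Change of the distinguished correspondences (module LCK-GenA)

A Lefschetz-Chow-Kuenneth decomposition for the distinguished correspondences `P.L` is also one for
every family of correspondences generated by them (predicate `Gen`).
-/

open CategoryTheory MonoidalCategory

universe w v u

namespace Pool.Agent.LefCK

variable {C : Type u} [Category.{v} C] [Preadditive C] [Linear ℚ C]
  [MonoidalCategory C] {F : Type w} [Field F]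
  {K : Correspondences C F} {P : Pol C}

private theorem gen_mem (e : LCK K P) {c : ℕ} {f : P.X ⟶ P.X} (h : Gen P c f) :
    f ∈ K.deg P.X P.X c := by
  induction h with
  | of hf => exact e.mem_L _ _ hf
  | one => simpa using K.id_mem P.X
  | add _ _ h1 h2 => exact Submodule.add_mem _ h1 h2
  | smul q _ _ h1 => exact Submodule.smul_mem _ q h1
  | comp _ _ _ h1 h2 => exact K.comp_mem' h1 h2 (by push_cast; ring)

private theorem gen_nonneg (e : LCK K P) {c : ℕ} {f : P.X ⟶ P.X} (h : Gen P c f) :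
    ∀ i j : ℤ, i < j - 2 * (c : ℤ) → e.p j ≫ f ≫ e.p i = 0 := by
  induction h with
  | of hf => exact e.nonneg _ _ hf
  | one =>
    intro i j hij
    rw [Category.id_comp]
    exact e.orth _ _ (by push_cast at hij; omega)
  | add _ _ h1 h2 =>
    intro i j hij
    rw [Preadditive.add_comp, Preadditive.comp_add, h1 i j hij, h2 i j hij, add_zero]
  | smul q _ _ h1 =>
    intro i j hij
    rw [Linear.smul_comp, Linear.comp_smul, h1 i j hij, smul_zero]
  | @comp c d f g _ _ _ h1 h2 =>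
    intro i j hij
    have h3 : (e.p j ≫ f) ≫ (g ≫ e.p i) = 0 := by
      apply e.toCK.comp_eq_zero
      intro k
      rcases lt_or_ge k (j - 2 * (c : ℤ)) with hk | hk
      · have h4 : (e.p j ≫ f) ≫ e.toCK.p k ≫ g ≫ e.p i =
            (e.p j ≫ f ≫ e.p k) ≫ g ≫ e.p i := by
          simp only [Category.assoc]
        rw [h4, h1 k j hk, Limits.zero_comp]
      · have h4 : (e.p j ≫ f) ≫ e.toCK.p k ≫ g ≫ e.p i =
            e.p j ≫ f ≫ (e.p k ≫ g ≫ e.p i) := by
          simp only [Category.assoc]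
        rw [h4, h2 i k (by push_cast at hij; omega), Limits.comp_zero, Limits.comp_zero]
    simpa only [Category.assoc] using h3

private theorem gen_lead (e : LCK K P) {c : ℕ} {f : P.X ⟶ P.X} (h : Gen P c f) :
    0 < c → ∃ q : ℚ, q ≠ 0 ∧ ∃ l : List (ℕ × (P.X ⟶ P.X)), (∀ a ∈ l, 0 < a.1 ∧ a.2 ∈ P.L a.1) ∧
      total l = c ∧ ∀ w, e.p w ≫ f ≫ e.p (w - 2 * (c : ℤ)) = q • lead e.p w l := by
  induction h with
  | @of c f hf =>
    intro hc
    refine ⟨1, one_ne_zero, [(c, f)], ?_, by simp, fun w => ?_⟩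
    · intro a ha
      rw [List.mem_singleton] at ha
      subst ha
      exact ⟨hc, hf⟩
    · rw [one_smul, lead_cons, lead_nil]
  | one => intro hc; exact absurd hc (lt_irrefl 0)
  | add _ _ _ _ => intro hc; exact absurd hc (lt_irrefl 0)
  | @smul c f q hq _ h1 =>
    intro hc
    obtain ⟨r, hr, l, hl, ht, hw⟩ := h1 hc
    refine ⟨q * r, mul_ne_zero hq hr, l, hl, ht, fun w => ?_⟩
    rw [Linear.smul_comp, Linear.comp_smul, hw w, smul_smul]
  | @comp c d f g hcd hf hg h1 h2 =>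
    intro hc
    have hc0 : 0 < c := by
      rcases Nat.eq_zero_or_pos c with h0 | h0
      · have := hcd.1 h0
        omega
      · exact h0
    have hd0 : 0 < d := by
      rcases Nat.eq_zero_or_pos d with h0 | h0
      · have := hcd.2 h0
        omega
      · exact h0
    obtain ⟨q, hq, l, hl, ht, hw⟩ := h1 hc0
    obtain ⟨q', hq', l', hl', ht', hw'⟩ := h2 hd0
    refine ⟨q * q', mul_ne_zero hq hq', l ++ l', ?_, ?_, fun w => ?_⟩
    · intro a ha
      rcases List.mem_append.1 ha with ha | ha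
      · exact hl a ha
      · exact hl' a ha
    · rw [total_append, ht, ht']; push_cast; ring
    · have e1 : w - 2 * ((c + d : ℕ) : ℤ) = w - 2 * (c : ℤ) - 2 * (d : ℤ) := by push_cast; ring
      have h3 : (e.p w ≫ f) ≫ (g ≫ e.p (w - 2 * (c : ℤ) - 2 * (d : ℤ))) =
          (e.p w ≫ f) ≫ e.toCK.p (w - 2 * (c : ℤ)) ≫ g ≫ e.p (w - 2 * (c : ℤ) - 2 * (d : ℤ)) := by
        apply e.toCK.comp_eq
        intro k hk
        rcases lt_or_ge k (w - 2 * (c : ℤ)) with hk1 | hk1
        · have h4 : (e.p w ≫ f) ≫ e.toCK.p k ≫ g ≫ e.p (w - 2 * (c : ℤ) - 2 * (d : ℤ)) =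
              (e.p w ≫ f ≫ e.p k) ≫ g ≫ e.p (w - 2 * (c : ℤ) - 2 * (d : ℤ)) := by
            simp only [Category.assoc]
          rw [h4, gen_nonneg e hf k w hk1, Limits.zero_comp]
        · have h4 : (e.p w ≫ f) ≫ e.toCK.p k ≫ g ≫ e.p (w - 2 * (c : ℤ) - 2 * (d : ℤ)) =
              e.p w ≫ f ≫ (e.p k ≫ g ≫ e.p (w - 2 * (c : ℤ) - 2 * (d : ℤ))) := by
            simp only [Category.assoc]
          rw [h4, gen_nonneg e hg _ k (by omega), Limits.comp_zero, Limits.comp_zero]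
      have h5 : (e.p w ≫ f) ≫ e.toCK.p (w - 2 * (c : ℤ)) ≫ g ≫
            e.p (w - 2 * (c : ℤ) - 2 * (d : ℤ)) =
          (e.p w ≫ f ≫ e.p (w - 2 * (c : ℤ))) ≫
            (e.p (w - 2 * (c : ℤ)) ≫ g ≫ e.p (w - 2 * (c : ℤ) - 2 * (d : ℤ))) := by
        simp only [Category.assoc]
        rw [e.toCK.idem'_assoc]
      have h6 : e.p w ≫ (f ≫ g) ≫ e.p (w - 2 * (c : ℤ) - 2 * (d : ℤ)) =
          (e.p w ≫ f) ≫ (g ≫ e.p (w - 2 * (c : ℤ) - 2 * (d : ℤ))) := by
        simp only [Category.assoc]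
      rw [e1, h6, h3, h5, hw w, hw' (w - 2 * (c : ℤ)), Linear.smul_comp, Linear.comp_smul,
        smul_smul, lead_append e.idem w (w - 2 * (c : ℤ)) l l' (by rw [ht])]

private theorem gen_list (e : LCK K P) (l' : List (ℕ × (P.X ⟶ P.X)))
    (h : ∀ a ∈ l', 0 < a.1 ∧ Gen P a.1 a.2) :
    ∃ q : ℚ, q ≠ 0 ∧ ∃ l : List (ℕ × (P.X ⟶ P.X)), (∀ a ∈ l, 0 < a.1 ∧ a.2 ∈ P.L a.1) ∧
      total l = total l' ∧ ∀ w, lead e.p w l' = q • lead e.p w l := by
  induction l' with
  | nil => exact ⟨1, one_ne_zero, [], by simp, rfl, fun w => by rw [one_smul]⟩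
  | cons a l' ih =>
    obtain ⟨q', hq', l, hl, ht, hw⟩ := ih (fun b hb => h b (List.mem_cons_of_mem _ hb))
    obtain ⟨ha, hga⟩ := h a (by simp)
    obtain ⟨q, hq, m, hm, hmt, hmw⟩ := gen_lead e hga ha
    refine ⟨q * q', mul_ne_zero hq hq', m ++ l, ?_, ?_, fun w => ?_⟩
    · intro b hb
      rcases List.mem_append.1 hb with hb | hb
      · exact hm b hb
      · exact hl b hb
    · rw [total_append, total_cons, hmt, ht]
    · have h1 : lead e.p w (a :: l') =
          (e.p w ≫ a.2 ≫ e.p (w - 2 * (a.1 : ℤ))) ≫ lead e.p (w - 2 * (a.1 : ℤ)) l' := by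
        rw [lead_cons]
        simp only [Category.assoc]
        rw [p_lead e.idem]
      rw [h1, hmw w, hw (w - 2 * (a.1 : ℤ)), Linear.smul_comp, Linear.comp_smul, smul_smul,
        lead_append e.idem w (w - 2 * (a.1 : ℤ)) m l (by rw [hmt])]

theorem gen (e : LCK K P) (L' : ℕ → Set (P.X ⟶ P.X)) (h : ∀ c, ∀ f ∈ L' c, Gen P c f) :
    Nonempty (LCK K ⟨P.X, P.n, L'⟩) := by
  refine ⟨{ toCK := e.toCK, mem_L := ?_, nonneg := ?_, hard := ?_ }⟩
  · intro c f hf
    exact gen_mem e (h c f hf)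
  · intro c f hf i j hij
    exact gen_nonneg e (h c f hf) i j hij
  · intro l' hl' hl
    obtain ⟨q, hq, l, hlP, ht, hw⟩ := gen_list e l' (fun a ha => ⟨(hl a ha).1, h _ _ (hl a ha).2⟩)
    have hne : l ≠ [] := by
      rintro rfl
      have h1 := total_pos hl' (fun a ha => (hl a ha).1)
      rw [← ht, total_nil] at h1
      exact lt_irrefl _ h1
    obtain ⟨G, hG, h1, h2⟩ := e.hard l hne hlP
    refine ⟨q⁻¹ • G, Submodule.smul_mem _ _ (ht ▸ hG), ?_, ?_⟩
    · show lead e.p (P.n + total l') l' ≫ (q⁻¹ • G) = e.p (P.n + total l')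
      rw [hw, ← ht, Linear.smul_comp, Linear.comp_smul, smul_smul, mul_inv_cancel₀ hq, one_smul, h1]
    · show (q⁻¹ • G) ≫ lead e.p (P.n + total l') l' = e.p (P.n - total l')
      rw [hw, ← ht, Linear.smul_comp, Linear.comp_smul, smul_smul, inv_mul_cancel₀ hq, one_smul, h2]

end Pool.Agent.LefCK
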