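import Mathlib

/-!
# Mixed hard Lefschetz for the product of two projective spaces (module LCK-Desc, polynomials)

`ind i j p` is the set of the `x` with `x ≤ i`, `x ≤ p`, `p - x ≤ j` (the monomials `s^x t^(p-x)` of
degree `p` with `s`-degree `≤ i` and `t`-degree `≤ j`); `lin l` is the product of the polynomials
`a X + b`, `(a, b) ∈ l`.

PLAN. Let `r = l.length`, `2p + r = i + j`. The square matrix `T y x = coef (lin l) (y - x)`
(`y ∈ ind i j (p+r)`, `x ∈ ind i j p`) is invertible.
(1) The two index sets have the same cardinality: `x ↦ i - x` is a bijection (check `x ≤ i`,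
  `i - x ≤ p + r = i + j - p` iff `p - x ≤ j`, `p + r - (i - x) ≤ j` iff `x ≤ p`).
(2) Injectivity: let `f : ℕ → ℚ` with `∑_{x ∈ ind i j p} coef (lin l) (y - x) * f x = 0` for all
  `y ∈ ind i j (p+r)`. Then `f = 0` on `ind i j p`. Let `φ = ∑_{x ∈ ind i j p} C (f x) * X ^ x`,
  `h = lin l * φ`. Assume `φ ≠ 0`, so `h ≠ 0` (`lin l ≠ 0`, all `a > 0`). The support of `φ` is in `ind i j p =
  [p - j, min i p]` (an interval of `N` integers), that of `h` is in `[p - j, min i p + r]` (`N + r` integers)
  minus `ind i j (p+r) = [p + r - j, min i (p+r)]` (`N` integers, contained in the former interval: check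
  with `omega`; note `coeff h y = ∑ coef.. * f x = 0` there). So `h` has at most `r` nonzero coefficients.
  `h(-X)` (`h.comp (-X)`) has at least `r` positive roots with multiplicity, the numbers `b/a`
  (`roots` of `lin l` composed with `-X`; `Polynomial.roots_mul`, `Polynomial.roots_le_of_dvd` / `Multiset.countP_le_of_le`).
  Descartes (`Polynomial.roots_countP_pos_le_signVariations` in `Mathlib/Algebra/Polynomial/RuleOfSigns.lean`): the number of positive
  roots is `≤ signVariations ≤ (number of nonzero coefficients) - 1 ≤ r - 1` if `r ≥ 1`, contradiction. (For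
  `r = 0`: `lin l = 1`, the matrix is the identity, `ind i j (p+r) = ind i j p`.)
  Alternatively avoid Descartes: prove directly by induction on the number of nonzero terms, with
  Rolle, that a nonzero real polynomial with `≤ r` nonzero terms has `≤ r - 1` positive roots with multiplicity.
  Lemma needed: `signVariations P ≤ P.support.card - 1` (the list of nonzero coefficients has length
  `support.card`, `List.length_destutter_le` ; or from `signVariations_le_eraseLead_succ` by
  induction on `P.support.card` (`Polynomial.card_support_eraseLead'`), starting at monomials).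
(3) Conclude: a square matrix with injective `mulVec` is invertible. E.g. with an equivalence
  `σ : ind i j p ≃ ind i j (p+r)` (finsets coerced to types) consider
  `M : Matrix (ind i j p) (ind i j p) ℚ`, `M x z = coef (lin l) (σ x - z)`; `Matrix.mulVec` injective → `IsUnit M`
  (`Matrix.mulVec_injective_iff_isUnit`), and let `S x (σ z) = M⁻¹ x z`, extended by 0.
-/

open Polynomial

namespace Pool.Agent.LefCK

/-- index set -/
def ind (i j p : ℕ) : Finset ℕ := (Finset.range (p + 1)).filter (fun x => x ≤ i ∧ p - x ≤ j)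

/-- product of linear polynomials -/
noncomputable def lin (l : List (ℚ × ℚ)) : ℚ[X] := (l.map (fun t => C t.1 * X + C t.2)).prod

/-- coefficient of index `y - x`, zero if `y < x` -/
noncomputable def coef (g : ℚ[X]) (y x : ℕ) : ℚ := if x ≤ y then g.coeff (y - x) else 0

private theorem mem_ind {i j p x : ℕ} : x ∈ ind i j p ↔ x ≤ p ∧ x ≤ i ∧ p - x ≤ j := by
  unfold ind
  rw [Finset.mem_filter, Finset.mem_range, Nat.lt_succ_iff]

private theorem card_ind (i j p r : ℕ) (h : 2 * p + r = i + j) :
    (ind i j p).card = (ind i j (p + r)).card := by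
  refine Finset.card_nbij' (fun x => i - x) (fun x => i - x) ?_ ?_ ?_ ?_
  · intro x hx
    rw [Finset.mem_coe, mem_ind] at *
    dsimp only
    omega
  · intro x hx
    rw [Finset.mem_coe, mem_ind] at *
    dsimp only
    omega
  · intro x hx
    rw [Finset.mem_coe, mem_ind] at hx
    dsimp only
    omega
  · intro x hx
    rw [Finset.mem_coe, mem_ind] at hx
    dsimp only
    omega

private theorem lin_cons (t : ℚ × ℚ) (l : List (ℚ × ℚ)) : lin (t :: l) = (C t.1 * X + C t.2) * lin l := by
  unfold lin
  rw [List.map_cons, List.prod_cons]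

private theorem lin_ne (l : List (ℚ × ℚ)) (hl : ∀ t ∈ l, 0 < t.1 ∧ 0 < t.2) : lin l ≠ 0 := by
  induction l with
  | nil =>
    unfold lin
    rw [List.map_nil, List.prod_nil]
    exact one_ne_zero
  | cons t l ih =>
    rw [lin_cons]
    refine mul_ne_zero ?_ (ih fun u hu => hl u (List.mem_cons_of_mem _ hu))
    intro h0
    have h1 := congrArg (fun q : ℚ[X] => q.coeff 1) h0
    simp only [coeff_add, coeff_C_mul, coeff_X_one, mul_one, coeff_zero] at h1
    rw [coeff_C_of_ne_zero one_ne_zero, add_zero] at h1
    exact (hl t List.mem_cons_self).1.ne' h1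

private theorem comp_ne {P : ℚ[X]} (h : P ≠ 0) : P.comp (-X) ≠ 0 := by
  intro h0
  apply h
  have h1 : (P.comp (-X)).comp (-X) = P := by
    rw [comp_assoc]
    have : (-X : ℚ[X]).comp (-X) = X := by
      rw [neg_comp, X_comp, neg_neg]
    rw [this, comp_X]
  rw [← h1, h0, zero_comp]

private theorem roots_ge (l : List (ℚ × ℚ)) (hl : ∀ t ∈ l, 0 < t.1 ∧ 0 < t.2) (P : ℚ[X])
    (hP : P ≠ 0) : l.length ≤ ((lin l * P).comp (-X)).roots.countP (0 < ·) := by
  induction l generalizing P with
  | nil => exact Nat.zero_le _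
  | cons t l ih =>
    have ht := hl t List.mem_cons_self
    have hl' : ∀ u ∈ l, 0 < u.1 ∧ 0 < u.2 := fun u hu => hl u (List.mem_cons_of_mem _ hu)
    have hne : lin (t :: l) * P ≠ 0 := mul_ne_zero (lin_ne _ hl) hP
    have hne2 := comp_ne hne
    have e1 : (lin (t :: l) * P).comp (-X)
        = (C (-t.1) * X + C t.2) * ((lin l * P).comp (-X)) := by
      rw [lin_cons, mul_assoc, mul_comp]
      congr 1
      rw [add_comp, mul_comp, C_comp, X_comp, C_comp, C_neg]
      ring
    rw [e1] at hne2 ⊢
    rw [roots_mul hne2, roots_C_mul_X_add_C _ (neg_ne_zero.mpr ht.1.ne'), Multiset.countP_add]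
    have h2 : Multiset.countP (0 < ·) ({-((-t.1)⁻¹ * t.2)} : Multiset ℚ) = 1 := by
      rw [← Multiset.cons_zero, Multiset.countP_cons_of_pos, Multiset.countP_zero]
      rw [inv_neg, neg_mul, neg_neg]
      exact mul_pos (inv_pos.mpr ht.1) ht.2
    rw [h2, List.length_cons, Nat.add_comm]
    exact Nat.add_le_add_left (ih hl' P hP) 1

private theorem sv_le (P : ℚ[X]) : P ≠ 0 → P.signVariations + 1 ≤ P.support.card := by
  induction hn : P.support.card using Nat.strong_induction_on generalizing P with
  | _ n ih =>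
    intro hP
    by_cases h0 : P.eraseLead = 0
    · have h1 : P = monomial P.natDegree P.leadingCoeff := by
        conv_lhs => rw [← P.eraseLead_add_monomial_natDegree_leadingCoeff, h0, zero_add]
      have h2 : P.signVariations = 0 := by
        rw [h1]
        exact signVariations_monomial _ _
      rw [h2, ← hn, zero_add]
      exact Finset.card_pos.mpr (nonempty_support_iff.mpr hP)
    · have hc : P.eraseLead.support.card + 1 = n := by
        rw [← hn]
        exact card_support_eraseLead_add_one hP
      have h1 := ih P.eraseLead.support.card (by omega) P.eraseLead rfl h0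
      have h2 := signVariations_le_eraseLead_succ (P := P)
      omega

private theorem supp_comp (P : ℚ[X]) : (P.comp (-X)).support.card ≤ P.support.card := by
  refine Finset.card_le_card ?_
  intro n hn
  rw [mem_support_iff] at hn ⊢
  intro h0
  apply hn
  have e1 : (-X : ℚ[X]) = C (-1) * X := by
    rw [C_neg, C_1, neg_one_mul]
  rw [e1, comp_C_mul_X_coeff, h0, zero_mul]

private theorem inj (i j p : ℕ) (l : List (ℚ × ℚ)) (hl : ∀ t ∈ l, 0 < t.1 ∧ 0 < t.2)
    (h : 2 * p + l.length = i + j) (f : ℕ → ℚ)
    (hf : ∀ y ∈ ind i j (p + l.length), ∑ x ∈ ind i j p, coef (lin l) y x * f x = 0) :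
    ∀ x ∈ ind i j p, f x = 0 := by
  classical
  set φ : ℚ[X] := ∑ x ∈ ind i j p, monomial x (f x) with hφ
  have cφ : ∀ x ∈ ind i j p, φ.coeff x = f x := by
    intro x hx
    rw [hφ, finsetSum_coeff, Finset.sum_eq_single x]
    · rw [coeff_monomial, if_pos rfl]
    · intro z _ hz
      rw [coeff_monomial, if_neg hz]
    · intro hx'
      exact absurd hx hx'
  by_contra hcon
  push Not at hcon
  obtain ⟨x₀, hx₀, hfx⟩ := hcon
  have hφ0 : φ ≠ 0 := by
    intro h0
    apply hfx
    rw [← cφ x₀ hx₀, h0, coeff_zero]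
  have ch : ∀ y, (lin l * φ).coeff y = ∑ x ∈ ind i j p, coef (lin l) y x * f x := by
    intro y
    rw [hφ, Finset.mul_sum, finsetSum_coeff]
    refine Finset.sum_congr rfl fun x _ => ?_
    unfold coef
    split_ifs with hxy
    · obtain ⟨d, rfl⟩ := Nat.exists_eq_add_of_le hxy
      rw [Nat.add_sub_cancel_left, Nat.add_comm x d, coeff_mul_monomial]
    · rw [zero_mul]
      rw [← C_mul_X_pow_eq_monomial, ← mul_assoc, coeff_mul_X_pow', if_neg hxy]
  have hne : lin l * φ ≠ 0 := mul_ne_zero (lin_ne l hl) hφ0
  have hdl : (lin l).natDegree ≤ l.length := by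
    clear hφ0 hφ cφ ch hne hf hfx h
    induction l with
    | nil =>
      unfold lin
      rw [List.map_nil, List.prod_nil, natDegree_one]
      exact Nat.zero_le _
    | cons t l ih =>
      rw [lin_cons, List.length_cons]
      refine (natDegree_mul_le).trans ?_
      have h1 : (C t.1 * X + C t.2 : ℚ[X]).natDegree ≤ 1 := natDegree_linear_le
      have h2 := ih fun u hu => hl u (List.mem_cons_of_mem _ hu)
      omega
  have hsupp : (lin l * φ).support
      ⊆ (Finset.Icc (p - j) (min i p + l.length)) \ ind i j (p + l.length) := by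
    intro y hy
    rw [mem_support_iff] at hy
    rw [Finset.mem_sdiff]
    constructor
    · rw [ch] at hy
      obtain ⟨x, hx, hxy⟩ := Finset.exists_ne_zero_of_sum_ne_zero hy
      have h1 : coef (lin l) y x ≠ 0 := left_ne_zero_of_mul hxy
      unfold coef at h1
      rw [mem_ind] at hx
      split_ifs at h1 with hle
      · have h2 : y - x ≤ l.length := by
          by_contra hlt
          push Not at hlt
          exact h1 (coeff_eq_zero_of_natDegree_lt (lt_of_le_of_lt hdl hlt))
        rw [Finset.mem_Icc]
        rcases le_total i p with hip | hip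
        · rw [min_eq_left hip]; omega
        · rw [min_eq_right hip]; omega
      · exact absurd rfl h1
    · intro hmem
      exact hy (by rw [ch]; exact hf y hmem)
  have hsub : ind i j (p + l.length) ⊆ Finset.Icc (p - j) (min i p + l.length) := by
    intro y hy
    rw [mem_ind] at hy
    rw [Finset.mem_Icc]
    rcases le_total i p with hip | hip
    · rw [min_eq_left hip]; omega
    · rw [min_eq_right hip]; omega
  have hind : ind i j p = Finset.Icc (p - j) (min i p) := by
    ext x
    rw [mem_ind, Finset.mem_Icc, le_min_iff]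
    omega
  have hx0 := hx₀
  rw [hind, Finset.mem_Icc] at hx0
  have hcard : (lin l * φ).support.card ≤ l.length := by
    refine (Finset.card_le_card hsupp).trans ?_
    rw [Finset.card_sdiff_of_subset hsub, ← card_ind i j p l.length h, hind, Nat.card_Icc, Nat.card_Icc]
    omega
  have h1 := roots_ge l hl φ hφ0
  have h2 : ((lin l * φ).comp (-X)).roots.countP (0 < ·) ≤ ((lin l * φ).comp (-X)).signVariations :=
    roots_countP_pos_le_signVariations _
  have h3 := sv_le _ (comp_ne hne)
  have h4 := supp_comp (lin l * φ)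
  omega

theorem toeplitz_inv (i j p : ℕ) (l : List (ℚ × ℚ)) (hl : ∀ t ∈ l, 0 < t.1 ∧ 0 < t.2)
    (h : 2 * p + l.length = i + j) :
    ∃ S : ℕ → ℕ → ℚ,
      (∀ x ∈ ind i j p, ∀ z ∈ ind i j p,
        ∑ y ∈ ind i j (p + l.length), S x y * coef (lin l) y z = if x = z then 1 else 0) ∧
      (∀ y ∈ ind i j (p + l.length), ∀ y' ∈ ind i j (p + l.length),
        ∑ x ∈ ind i j p, coef (lin l) y x * S x y' = if y = y' then 1 else 0) := by
  classical
  have e : ind i j p ≃ ind i j (p + l.length) := Finset.equivOfCardEq (card_ind i j p _ h)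
  let M : Matrix (ind i j p) (ind i j p) ℚ := Matrix.of fun x z => coef (lin l) (e x).1 z.1
  have hM : IsUnit M := by
    rw [← Matrix.mulVec_injective_iff_isUnit]
    intro v w hvw
    rw [← sub_eq_zero]
    set u := v - w with hu
    have hu0 : M.mulVec u = 0 := by
      rw [hu, Matrix.mulVec_sub, sub_eq_zero]
      exact hvw
    let f : ℕ → ℚ := fun x => if hx : x ∈ ind i j p then u ⟨x, hx⟩ else 0
    have hf : ∀ y ∈ ind i j (p + l.length), ∑ x ∈ ind i j p, coef (lin l) y x * f x = 0 := by
      intro y hy
      have h1 := congrFun hu0 (e.symm ⟨y, hy⟩)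
      rw [Pi.zero_apply] at h1
      rw [← h1, ← Finset.sum_coe_sort]
      change _ = ∑ z, M (e.symm ⟨y, hy⟩) z * u z
      refine Finset.sum_congr rfl fun z _ => ?_
      have h2 : f z.1 = u z := by
        change (if hx : z.1 ∈ ind i j p then u ⟨z.1, hx⟩ else 0) = u z
        rw [dif_pos z.2]
      have h3 : M (e.symm ⟨y, hy⟩) z = coef (lin l) y z.1 := by
        change coef (lin l) (e (e.symm ⟨y, hy⟩)).1 z.1 = _
        rw [Equiv.apply_symm_apply]
      rw [h2, h3]
    have h4 := inj i j p l hl h f hf
    funext z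
    have h5 := h4 z.1 z.2
    change (if hx : z.1 ∈ ind i j p then u ⟨z.1, hx⟩ else 0) = 0 at h5
    rw [dif_pos z.2] at h5
    exact h5
  obtain ⟨N, hMN, hNM⟩ := isUnit_iff_exists.mp hM
  refine ⟨fun x y => if hx : x ∈ ind i j p then
    (if hy : y ∈ ind i j (p + l.length) then N ⟨x, hx⟩ (e.symm ⟨y, hy⟩) else 0) else 0, ?_, ?_⟩
  · intro x hx z hz
    have h1 := congrFun (congrFun hNM ⟨x, hx⟩) ⟨z, hz⟩
    rw [Matrix.mul_apply, Matrix.one_apply] at h1
    have h2 : (if (⟨x, hx⟩ : ind i j p) = ⟨z, hz⟩ then (1 : ℚ) else 0) = if x = z then 1 else 0 := by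
      simp only [Subtype.mk.injEq]
    rw [h2] at h1
    rw [← h1, ← Finset.sum_coe_sort, ← e.sum_comp]
    refine Finset.sum_congr rfl fun w _ => ?_
    dsimp only
    rw [dif_pos hx, dif_pos (e w).2]
    change N ⟨x, hx⟩ (e.symm (e w)) * _ = _
    rw [Equiv.symm_apply_apply]
    rfl
  · intro y hy y' hy'
    have h1 := congrFun (congrFun hMN (e.symm ⟨y, hy⟩)) (e.symm ⟨y', hy'⟩)
    rw [Matrix.mul_apply, Matrix.one_apply] at h1
    have h2 : (if e.symm ⟨y, hy⟩ = e.symm ⟨y', hy'⟩ then (1 : ℚ) else 0) = if y = y' then 1 else 0 := by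
      simp only [EmbeddingLike.apply_eq_iff_eq, Subtype.mk.injEq]
    rw [h2] at h1
    rw [← h1, ← Finset.sum_coe_sort]
    refine Finset.sum_congr rfl fun w _ => ?_
    dsimp only
    rw [dif_pos w.2, dif_pos hy']
    change _ = coef (lin l) (e (e.symm ⟨y, hy⟩)).1 w.1 * _
    rw [Equiv.apply_symm_apply]

end Pool.Agent.LefCK
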