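import Mathlib

/-!
# The weight projectors of a product, in terms of matrix units (definition)
-/

namespace Pool.Agent.LefCK

/-- The projector onto weight `w` of a product, in terms of matrix units. -/
def prodT {R R' B : Type*} [Ring R] [Ring R'] [Ring B] (τ : R → R' → B) (N N' : ℕ)
    (U : ℕ → ℕ → ℕ → R) (U' : ℕ → ℕ → ℕ → R') (w : ℤ) : B :=
  ∑ i ∈ Finset.range (N + 1), ∑ j ∈ Finset.range (N' + 1),
    ∑ x ∈ Finset.range (i + 1), ∑ y ∈ Finset.range (j + 1),
      if (i : ℤ) - 2 * x + (j - 2 * y) = w then τ (U i x x) (U' j y y) else 0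

end Pool.Agent.LefCK
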