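import Mathlib
import Pool.Agent.LefCK.Desc
import Pool.Agent.LefCK.PDefs

/-!
# Hard Lefschetz for products (module LCK-PInv, ring theory)

Two rings `R`, `R'` with systems of matrix units `U`, `U'` as in `matrixUnits`, a ring `B` with a
biadditive multiplicative map `τ : R → R' → B`; `G l := ∏ (a • τ F 1 + b • τ 1 F')` over `(a, b) ∈ l`,
`T w := ∑_{i ≤ N, j ≤ N'} ∑_{x ≤ i, y ≤ j, (i - 2x) + (j - 2y) = w} τ (U i x x) (U' j y y)` (the projector
onto weight `w`).

PLAN. `r := l.length`.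
(1) `G l = ∑_{s ≤ r} (lin l).coeff s • τ (F ^ s) (F' ^ (r - s))`, by induction on `l` (`τ F 1 * τ (F^s) (F'^t) =
  τ (F^(s+1)) (F'^t)` etc.; `coeff` of `(C a * X + C b) * g`).
(2) `F ^ s * U i x b = if x + s ≤ i then U i (x+s) b else 0` for `x, b ≤ i`; same for `U'`. Hence
  `G l * τ (U i x x') (U' j y y') = ∑_{s ≤ r} [x+s ≤ i] [y+r-s ≤ j] coeff s • τ (U i (x+s) x') (U' j (y+r-s) y')`.
  For `x + y = p`: this is `∑_{z ∈ ind i j (p+r)} coef (lin l) z x • τ (U i z x') (U' j (p+r-z) y')` (`z = x + s`).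
(3) `k := ∑_{i ≤ N, j ≤ N'} ∑_{p : 2p + r = i + j} ∑_{x ∈ ind i j p, z ∈ ind i j (p+r)} S x z • τ (U i x z) (U' j (p-x) (p+r-z))`
  with `S = S^{i,j,p}` from `toeplitz_inv` (write the sum over `p` as: if `r ≤ i + j` and `(i+j-r) % 2 = 0`, with
  `p = (i+j-r)/2`, else 0).
(4) Products of units: `τ (U i x z) (U' j y t) * τ (U i' ..) (U' j' ..)` is zero unless the middle indices agree.
  `T r = ∑_{i,j} ∑_{x ∈ ind i j p} τ (U i x x) (U' j (p-x) (p-x))` (as `i - 2x + j - 2y = r` iff `x + y = p`), and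
  `T (-r) = ∑_{i,j} ∑_{z ∈ ind i j (p+r)} τ (U i z z) (U' j (p+r-z) (p+r-z))`.
  `k * G l * T r = T r`: for `x' ∈ ind i j p`, `G l * τ (U i x' x') (U' j y' y') = ∑_z coef z x' • τ (U i z x') (U' j (p+r-z) y')`,
  and `k * (that) = ∑_x (∑_z S x z * coef z x') • τ (U i x x') (U' j (p-x) y') = τ (U i x' x') (U' j y' y')`.
  `G l * k * T (-r) = T (-r)`: `k * T (-r) = k`, and `G l * k = ∑ (∑_x coef z x * S x z') • τ (U i z z') (..) = T (-r)`.
(5) degree of `k`: `(x - z) + ((p - x) - (p + r - z)) = -r`.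
Suggestion: introduce the units `V i j x y x' y' := τ (U i x x') (U' j y y')` and prove lemmas for them first.
-/

open Polynomial

namespace Pool.Agent.LefCK

private theorem pinv_coeff_zero (l : List (ℚ × ℚ)) {s : ℕ} (hs : l.length < s) :
    (lin l).coeff s = 0 := by
  have h1 : ∀ l : List (ℚ × ℚ), (lin l).natDegree ≤ l.length := by
    intro l
    induction l with
    | nil => simp [lin]
    | cons t l ih =>
      have h2 : lin (t :: l) = (C t.1 * X + C t.2) * lin l := by simp [lin]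
      rw [h2, List.length_cons]
      refine Polynomial.natDegree_mul_le.trans ?_
      have h3 : (C t.1 * X + C t.2 : ℚ[X]).natDegree ≤ 1 := Polynomial.natDegree_linear_le
      omega
  exact Polynomial.coeff_eq_zero_of_natDegree_lt (lt_of_le_of_lt (h1 l) hs)

private theorem pinv_word {B : Type*} [Ring B] [Algebra ℚ B] (P Q : B) (W : ℕ → ℕ → B)
    (hP : ∀ a b, P * W a b = W (a + 1) b) (hQ : ∀ a b, Q * W a b = W a (b + 1))
    (l : List (ℚ × ℚ)) :
    (l.map (fun t => t.1 • P + t.2 • Q)).prod * W 0 0 =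
      ∑ s ∈ Finset.range (l.length + 1), (lin l).coeff s • W s (l.length - s) := by
  induction l with
  | nil => simp [lin]
  | cons t l ih =>
    rw [List.map_cons, List.prod_cons, mul_assoc, ih, Finset.mul_sum]
    have h2 : lin (t :: l) = (C t.1 * X + C t.2) * lin l := by simp [lin]
    have h3 : ∀ s, (lin (t :: l)).coeff s = t.1 * (X * lin l).coeff s + t.2 * (lin l).coeff s := by
      intro s
      rw [h2, add_mul, mul_assoc, Polynomial.coeff_add, Polynomial.coeff_C_mul,
        Polynomial.coeff_C_mul]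
    have e1 : ∀ s ∈ Finset.range (l.length + 1),
        (t.1 • P + t.2 • Q) * ((lin l).coeff s • W s (l.length - s)) =
        (t.1 * (lin l).coeff s) • W (s + 1) (l.length - s) +
          (t.2 * (lin l).coeff s) • W s (l.length - s + 1) := by
      intro s _
      rw [add_mul, smul_mul_smul_comm, smul_mul_smul_comm, hP, hQ]
    rw [Finset.sum_congr rfl e1, Finset.sum_add_distrib, List.length_cons]
    have e2 : ∑ s ∈ Finset.range (l.length + 1 + 1),
        (lin (t :: l)).coeff s • W s (l.length + 1 - s) =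
        ∑ s ∈ Finset.range (l.length + 1 + 1),
          (t.1 * (X * lin l).coeff s) • W s (l.length + 1 - s) +
        ∑ s ∈ Finset.range (l.length + 1 + 1),
          (t.2 * (lin l).coeff s) • W s (l.length + 1 - s) := by
      rw [← Finset.sum_add_distrib]
      refine Finset.sum_congr rfl (fun s _ => ?_)
      rw [h3, add_smul]
    rw [e2]
    congr 1
    · rw [Finset.sum_range_succ' _ (l.length + 1), Polynomial.coeff_X_mul_zero, mul_zero, zero_smul,
        add_zero]
      refine Finset.sum_congr rfl (fun s _ => ?_)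
      rw [Polynomial.coeff_X_mul, Nat.add_sub_add_right]
    · rw [Finset.sum_range_succ _ (l.length + 1), pinv_coeff_zero l (Nat.lt_succ_self _), mul_zero,
        zero_smul, add_zero]
      refine Finset.sum_congr rfl (fun s hs => ?_)
      have : l.length + 1 - s = l.length - s + 1 := by
        have := Finset.mem_range.1 hs
        omega
      rw [this]

private theorem pinv_reindex {B : Type*} [Ring B] [Algebra ℚ B] (W : ℕ → ℕ → B) {i j : ℕ}
    (hW : ∀ a b, ¬ (a ≤ i ∧ b ≤ j) → W a b = 0) (l : List (ℚ × ℚ)) (x y : ℕ) :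
    ∑ s ∈ Finset.range (l.length + 1), (lin l).coeff s • W (x + s) (y + (l.length - s)) =
      ∑ z ∈ ind i j (x + y + l.length), coef (lin l) z x • W z (x + y + l.length - z) := by
  have e1 : ∑ z ∈ ind i j (x + y + l.length), coef (lin l) z x • W z (x + y + l.length - z) =
      ∑ z ∈ Finset.range (x + y + l.length + 1),
        coef (lin l) z x • W z (x + y + l.length - z) := by
    unfold ind
    rw [Finset.sum_filter]
    refine Finset.sum_congr rfl (fun z _ => ?_)
    split_ifs with h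
    · rfl
    · rw [hW _ _ h, smul_zero]
  rw [e1]
  have e2 : ∑ s ∈ Finset.range (l.length + 1),
      (lin l).coeff s • W (x + s) (y + (l.length - s)) =
      ∑ z ∈ (Finset.range (l.length + 1)).image (fun s => x + s),
        coef (lin l) z x • W z (x + y + l.length - z) := by
    rw [Finset.sum_image (fun a _ b _ h => Nat.add_left_cancel h)]
    refine Finset.sum_congr rfl (fun s hs => ?_)
    have hs' := Finset.mem_range.1 hs
    unfold coef
    rw [if_pos (Nat.le_add_right x s), Nat.add_sub_cancel_left]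
    congr 2
    omega
  rw [e2]
  refine Finset.sum_subset ?_ ?_
  · intro z hz
    obtain ⟨s, hs, rfl⟩ := Finset.mem_image.1 hz
    have hs' := Finset.mem_range.1 hs
    rw [Finset.mem_range]
    omega
  · intro z _ hz2
    have h1 : coef (lin l) z x = 0 := by
      unfold coef
      split_ifs with h
      · apply pinv_coeff_zero
        by_contra hcon
        apply hz2
        rw [Finset.mem_image]
        exact ⟨z - x, Finset.mem_range.2 (by omega), by omega⟩
      · rfl
    rw [h1, zero_smul]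

private theorem pinv_mm {B : Type*} [Ring B] [Algebra ℚ B] (I J : Finset ℕ)
    (e f g : ℕ → ℕ → B) (S T : ℕ → ℕ → ℚ)
    (h : ∀ x ∈ I, ∀ z ∈ J, ∀ z' ∈ J, ∀ x' ∈ I, e x z * f z' x' = if z = z' then g x x' else 0)
    (hST : ∀ x ∈ I, ∀ x' ∈ I, ∑ z ∈ J, S x z * T z x' = if x = x' then 1 else 0) :
    (∑ x ∈ I, ∑ z ∈ J, S x z • e x z) * (∑ x' ∈ I, ∑ z' ∈ J, T z' x' • f z' x') =
      ∑ x ∈ I, g x x := by
  rw [Finset.sum_mul]
  refine Finset.sum_congr rfl (fun x hx => ?_)
  rw [Finset.mul_sum]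
  have e1 : ∀ x' ∈ I, (∑ z ∈ J, S x z • e x z) * (∑ z' ∈ J, T z' x' • f z' x') =
      if x = x' then g x x' else 0 := by
    intro x' hx'
    rw [Finset.sum_mul]
    have e2 : ∀ z ∈ J, (S x z • e x z) * (∑ z' ∈ J, T z' x' • f z' x') =
        (S x z * T z x') • g x x' := by
      intro z hz
      rw [Finset.mul_sum, Finset.sum_eq_single z]
      · rw [smul_mul_smul_comm, h x hx z hz z hz x' hx', if_pos rfl]
      · intro z' hz' hne
        rw [smul_mul_smul_comm, h x hx z hz z' hz' x' hx', if_neg (Ne.symm hne), smul_zero]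
      · intro hz'
        exact absurd hz hz'
    rw [Finset.sum_congr rfl e2, ← Finset.sum_smul, hST x hx x' hx']
    split_ifs
    · rw [one_smul]
    · rw [zero_smul]
  rw [Finset.sum_congr rfl e1, Finset.sum_ite_eq I x, if_pos hx]

private theorem pinv_orth {B ι : Type*} [Ring B] [DecidableEq ι] (s : Finset ι)
    (K M : ι → B) (h : ∀ a ∈ s, ∀ b ∈ s, a ≠ b → K a * M b = 0) :
    (∑ a ∈ s, K a) * (∑ b ∈ s, M b) = ∑ a ∈ s, K a * M a := by
  rw [Finset.sum_mul]
  refine Finset.sum_congr rfl (fun a ha => ?_)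
  rw [Finset.mul_sum, Finset.sum_eq_single a]
  · intro b hb hne
    exact h a ha b hb (Ne.symm hne)
  · intro h'
    exact absurd ha h'

private theorem pinv_diag {B : Type*} [Ring B] (i j m : ℕ) (f : ℕ → ℕ → B) :
    ∑ x ∈ Finset.range (i + 1), ∑ y ∈ Finset.range (j + 1), (if x + y = m then f x y else 0) =
      ∑ x ∈ ind i j m, f x (m - x) := by
  have e1 : ∀ x ∈ Finset.range (i + 1),
      ∑ y ∈ Finset.range (j + 1), (if x + y = m then f x y else 0) =
      if x ≤ m ∧ m - x ≤ j then f x (m - x) else 0 := by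
    intro x _
    split_ifs with h
    · rw [Finset.sum_eq_single (m - x)]
      · rw [if_pos (by omega)]
      · intro y _ hy
        rw [if_neg (by omega)]
      · intro hy
        rw [Finset.mem_range] at hy
        omega
    · refine Finset.sum_eq_zero (fun y hy => ?_)
      rw [Finset.mem_range] at hy
      rw [if_neg (by omega)]
  rw [Finset.sum_congr rfl e1, ← Finset.sum_filter]
  refine Finset.sum_congr ?_ (fun _ _ => rfl)
  ext x
  unfold ind
  simp only [Finset.mem_filter, Finset.mem_range]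
  omega

theorem prodInv {R R' B : Type*} [Ring R] [Ring R'] [Ring B] [Algebra ℚ B]
    (τ : R → R' → B) (τ_add_left : ∀ x y z, τ (x + y) z = τ x z + τ y z)
    (τ_add_right : ∀ x y z, τ x (y + z) = τ x y + τ x z)
    (τ_mul : ∀ x y x' y', τ x x' * τ y y' = τ (x * y) (x' * y')) (τ_one : τ 1 1 = 1)
    (A : ℤ → AddSubgroup R) (A' : ℤ → AddSubgroup R') (E : ℤ → Submodule ℚ B)
    (hE : ∀ (d e : ℤ) (x : R) (y : R'), x ∈ A d → y ∈ A' e → τ x y ∈ E (d + e))
    (F : R) (F' : R') (N N' : ℕ) (U : ℕ → ℕ → ℕ → R) (U' : ℕ → ℕ → ℕ → R')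
    (U1 : ∀ i a b : ℕ, a ≤ i → b ≤ i → U i a b ∈ A ((a : ℤ) - b))
    (U2 : ∀ i a b j c d : ℕ, a ≤ i → b ≤ i → c ≤ j → d ≤ j →
        U i a b * U j c d = if i = j ∧ b = c then U i a d else 0)
    (U3 : ∀ i a b : ℕ, a < i → b ≤ i → F * U i a b = U i (a + 1) b)
    (U4 : ∀ i b : ℕ, b ≤ i → F * U i i b = 0)
    (U1' : ∀ i a b : ℕ, a ≤ i → b ≤ i → U' i a b ∈ A' ((a : ℤ) - b))
    (U2' : ∀ i a b j c d : ℕ, a ≤ i → b ≤ i → c ≤ j → d ≤ j →
        U' i a b * U' j c d = if i = j ∧ b = c then U' i a d else 0)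
    (U3' : ∀ i a b : ℕ, a < i → b ≤ i → F' * U' i a b = U' i (a + 1) b)
    (U4' : ∀ i b : ℕ, b ≤ i → F' * U' i i b = 0)
    (l : List (ℚ × ℚ)) (hl : ∀ t ∈ l, 0 < t.1 ∧ 0 < t.2) :
    ∃ k ∈ E (-(l.length : ℤ)),
      k * (l.map (fun t => t.1 • τ F 1 + t.2 • τ 1 F')).prod * prodT τ N N' U U' l.length =
        prodT τ N N' U U' l.length ∧
      (l.map (fun t => t.1 • τ F 1 + t.2 • τ 1 F')).prod * k * prodT τ N N' U U' (-l.length) =
        prodT τ N N' U U' (-l.length) := by
  set r : ℕ := l.length with hr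
  set G : B := (l.map (fun t => t.1 • τ F 1 + t.2 • τ 1 F')).prod with hG
  have τ0l : ∀ y, τ 0 y = 0 := by
    intro y
    have h := τ_add_left 0 0 y
    rw [add_zero] at h
    exact left_eq_add.1 h
  have τ0r : ∀ x, τ x 0 = 0 := by
    intro x
    have h := τ_add_right x 0 0
    rw [add_zero] at h
    exact left_eq_add.1 h
  -- units of the product
  set V : ℕ → ℕ → ℕ → ℕ → ℕ → ℕ → B := fun i j x y a b => τ (U i x a) (U' j y b) with hV
  have VV : ∀ i j x y a b i' j' a' b' x' y' : ℕ, x ≤ i → y ≤ j → a ≤ i → b ≤ j → a' ≤ i' →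
      b' ≤ j' → x' ≤ i' → y' ≤ j' →
      V i j x y a b * V i' j' a' b' x' y' =
        if i = i' ∧ j = j' ∧ a = a' ∧ b = b' then V i j x y x' y' else 0 := by
    intro i j x y a b i' j' a' b' x' y' h1 h2 h3 h4 h5 h6 h7 h8
    simp only [hV]
    rw [τ_mul, U2 i x a i' a' x' h1 h3 h5 h7, U2' j y b j' b' y' h2 h4 h6 h8]
    by_cases c1 : i = i' ∧ a = a'
    · by_cases c2 : j = j' ∧ b = b'
      · rw [if_pos c1, if_pos c2, if_pos ⟨c1.1, c2.1, c1.2, c2.2⟩]
      · rw [if_neg c2, τ0r, if_neg (fun h => c2 ⟨h.2.1, h.2.2.2⟩)]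
    · rw [if_neg c1, τ0l, if_neg (fun h => c1 ⟨h.1, h.2.2.1⟩)]
  -- action of `G`
  have GV : ∀ i j x y a b : ℕ, x ≤ i → y ≤ j → a ≤ i → b ≤ j →
      G * V i j x y a b = ∑ z ∈ ind i j (x + y + r), coef (lin l) z x •
        V i j z (x + y + r - z) a b := by
    intro i j x y a b h1 h2 h3 h4
    set W : ℕ → ℕ → B := fun z t =>
      τ (if z ≤ i then U i z a else 0) (if t ≤ j then U' j t b else 0) with hW
    have hP : ∀ z t, τ F 1 * W z t = W (z + 1) t := by
      intro z t
      simp only [hW]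
      rw [τ_mul, one_mul]
      congr 1
      by_cases c : z < i
      · rw [if_pos c.le, if_pos (by omega : z + 1 ≤ i), U3 i z a c h3]
      · by_cases c2 : z = i
        · subst c2
          rw [if_pos le_rfl, if_neg (by omega : ¬ z + 1 ≤ z), U4 z a h3]
        · rw [if_neg (by omega : ¬ z ≤ i), if_neg (by omega : ¬ z + 1 ≤ i), mul_zero]
    have hQ : ∀ z t, τ 1 F' * W z t = W z (t + 1) := by
      intro z t
      simp only [hW]
      rw [τ_mul, one_mul]
      congr 1
      by_cases c : t < j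
      · rw [if_pos c.le, if_pos (by omega : t + 1 ≤ j), U3' j t b c h4]
      · by_cases c2 : t = j
        · subst c2
          rw [if_pos le_rfl, if_neg (by omega : ¬ t + 1 ≤ t), U4' t b h4]
        · rw [if_neg (by omega : ¬ t ≤ j), if_neg (by omega : ¬ t + 1 ≤ j), mul_zero]
    have hW0 : ∀ z t, ¬ (z ≤ i ∧ t ≤ j) → W z t = 0 := by
      intro z t h
      simp only [hW]
      by_cases c : z ≤ i
      · rw [if_neg (fun c2 => h ⟨c, c2⟩), τ0r]
      · rw [if_neg c, τ0l]
    have hWV : ∀ z t, z ≤ i → t ≤ j → W z t = V i j z t a b := by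
      intro z t c1 c2
      simp only [hW, hV]
      rw [if_pos c1, if_pos c2]
    have h5 := pinv_word (τ F 1) (τ 1 F') (fun z t => W (x + z) (y + t))
      (fun z t => by
        show τ F 1 * W (x + z) (y + t) = W (x + (z + 1)) (y + t)
        rw [hP, add_assoc])
      (fun z t => by
        show τ 1 F' * W (x + z) (y + t) = W (x + z) (y + (t + 1))
        rw [hQ, add_assoc]) l
    rw [← hG] at h5
    have h6 : G * W x y = ∑ s ∈ Finset.range (l.length + 1),
        (lin l).coeff s • W (x + s) (y + (l.length - s)) := h5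
    rw [← hWV x y h1 h2, h6, pinv_reindex W hW0 l x y]
    refine Finset.sum_congr rfl (fun z hz => ?_)
    unfold ind at hz
    rw [Finset.mem_filter] at hz
    rw [hWV _ _ hz.2.1 hz.2.2]
  -- the inverse matrices
  have hS : ∀ i j : ℕ, ∃ S : ℕ → ℕ → ℚ, 2 * ((i + j - r) / 2) + r = i + j →
      (∀ x ∈ ind i j ((i + j - r) / 2), ∀ z ∈ ind i j ((i + j - r) / 2),
        ∑ y ∈ ind i j ((i + j - r) / 2 + r), S x y * coef (lin l) y z = if x = z then 1 else 0) ∧
      (∀ y ∈ ind i j ((i + j - r) / 2 + r), ∀ y' ∈ ind i j ((i + j - r) / 2 + r),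
        ∑ x ∈ ind i j ((i + j - r) / 2), coef (lin l) y x * S x y' = if y = y' then 1 else 0) := by
    intro i j
    by_cases hc : 2 * ((i + j - r) / 2) + r = i + j
    · obtain ⟨S, h1, h2⟩ := toeplitz_inv i j ((i + j - r) / 2) l hl hc
      exact ⟨S, fun _ => ⟨h1, h2⟩⟩
    · exact ⟨fun _ _ => 0, fun h => absurd h hc⟩
  choose S hS using hS
  set p : ℕ → ℕ → ℕ := fun i j => (i + j - r) / 2 with hp
  have hind : ∀ {i j m x : ℕ}, x ∈ ind i j m → x ≤ m ∧ x ≤ i ∧ m - x ≤ j := by
    intro i j m x hx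
    unfold ind at hx
    rw [Finset.mem_filter, Finset.mem_range] at hx
    exact ⟨by omega, hx.2.1, hx.2.2⟩
  set K : ℕ × ℕ → B := fun c => if 2 * p c.1 c.2 + r = c.1 + c.2 then
    ∑ x ∈ ind c.1 c.2 (p c.1 c.2), ∑ z ∈ ind c.1 c.2 (p c.1 c.2 + r), S c.1 c.2 x z •
      V c.1 c.2 x (p c.1 c.2 - x) z (p c.1 c.2 + r - z) else 0 with hK
  set P : ℕ × ℕ → B := fun c => if 2 * p c.1 c.2 + r = c.1 + c.2 then
    ∑ x ∈ ind c.1 c.2 (p c.1 c.2), V c.1 c.2 x (p c.1 c.2 - x) x (p c.1 c.2 - x) else 0 with hPd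
  set Q : ℕ × ℕ → B := fun c => if 2 * p c.1 c.2 + r = c.1 + c.2 then
    ∑ z ∈ ind c.1 c.2 (p c.1 c.2 + r), V c.1 c.2 z (p c.1 c.2 + r - z) z (p c.1 c.2 + r - z)
      else 0 with hQd
  set M : ℕ × ℕ → B := fun c => if 2 * p c.1 c.2 + r = c.1 + c.2 then
    ∑ x ∈ ind c.1 c.2 (p c.1 c.2), ∑ z ∈ ind c.1 c.2 (p c.1 c.2 + r), coef (lin l) z x •
      V c.1 c.2 z (p c.1 c.2 + r - z) x (p c.1 c.2 - x) else 0 with hM
  set s : Finset (ℕ × ℕ) := Finset.range (N + 1) ×ˢ Finset.range (N' + 1) with hs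
  have hTr : prodT τ N N' U U' (r : ℤ) = ∑ c ∈ s, P c := by
    rw [hs, Finset.sum_product]
    unfold prodT
    refine Finset.sum_congr rfl (fun i _ => Finset.sum_congr rfl (fun j _ => ?_))
    simp only [hPd]
    by_cases hc : 2 * p i j + r = i + j
    · rw [if_pos hc, ← pinv_diag i j (p i j) (fun x y => V i j x y x y)]
      refine Finset.sum_congr rfl (fun x _ => Finset.sum_congr rfl (fun y _ => ?_))
      by_cases h : x + y = p i j
      · rw [if_pos h, if_pos (by omega)]
      · rw [if_neg h, if_neg (by omega)]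
    · rw [if_neg hc]
      refine Finset.sum_eq_zero (fun x _ => Finset.sum_eq_zero (fun y _ => ?_))
      rw [if_neg]
      intro h
      apply hc
      simp only [hp]
      omega
  have hTs : prodT τ N N' U U' (-(r : ℤ)) = ∑ c ∈ s, Q c := by
    rw [hs, Finset.sum_product]
    unfold prodT
    refine Finset.sum_congr rfl (fun i _ => Finset.sum_congr rfl (fun j _ => ?_))
    simp only [hQd]
    by_cases hc : 2 * p i j + r = i + j
    · rw [if_pos hc, ← pinv_diag i j (p i j + r) (fun x y => V i j x y x y)]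
      refine Finset.sum_congr rfl (fun x _ => Finset.sum_congr rfl (fun y _ => ?_))
      by_cases h : x + y = p i j + r
      · rw [if_pos h, if_pos (by omega)]
      · rw [if_neg h, if_neg (by omega)]
    · rw [if_neg hc]
      refine Finset.sum_eq_zero (fun x hx => Finset.sum_eq_zero (fun y hy => ?_))
      rw [Finset.mem_range] at hx hy
      rw [if_neg]
      intro h
      apply hc
      simp only [hp]
      omega
  have hGP : ∀ c, G * P c = M c := by
    intro c
    simp only [hPd, hM]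
    split_ifs with hc
    · rw [Finset.mul_sum]
      refine Finset.sum_congr rfl (fun x hx => ?_)
      obtain ⟨x1, x2, x3⟩ := hind hx
      rw [GV _ _ _ _ _ _ x2 x3 x2 x3]
      have : x + (p c.1 c.2 - x) + r = p c.1 c.2 + r := by omega
      rw [this]
    · rw [mul_zero]
  have hGK : ∀ c, G * K c = Q c := by
    intro c
    simp only [hK, hQd]
    split_ifs with hc
    · rw [Finset.mul_sum]
      have e1 : ∀ x ∈ ind c.1 c.2 (p c.1 c.2), G * ∑ z ∈ ind c.1 c.2 (p c.1 c.2 + r),
          S c.1 c.2 x z • V c.1 c.2 x (p c.1 c.2 - x) z (p c.1 c.2 + r - z) =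
          ∑ z ∈ ind c.1 c.2 (p c.1 c.2 + r), ∑ z' ∈ ind c.1 c.2 (p c.1 c.2 + r),
            (coef (lin l) z' x * S c.1 c.2 x z) •
              V c.1 c.2 z' (p c.1 c.2 + r - z') z (p c.1 c.2 + r - z) := by
        intro x hx
        obtain ⟨x1, x2, x3⟩ := hind hx
        rw [Finset.mul_sum]
        refine Finset.sum_congr rfl (fun z hz => ?_)
        obtain ⟨z1, z2, z3⟩ := hind hz
        rw [mul_smul_comm, GV _ _ _ _ _ _ x2 x3 z2 z3, Finset.smul_sum]
        have : x + (p c.1 c.2 - x) + r = p c.1 c.2 + r := by omega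
        rw [this]
        refine Finset.sum_congr rfl (fun z' _ => ?_)
        rw [smul_smul, mul_comm]
      rw [Finset.sum_congr rfl e1, Finset.sum_comm]
      refine Finset.sum_congr rfl (fun z hz => ?_)
      rw [Finset.sum_comm]
      have e2 : ∀ z' ∈ ind c.1 c.2 (p c.1 c.2 + r), ∑ x ∈ ind c.1 c.2 (p c.1 c.2),
          (coef (lin l) z' x * S c.1 c.2 x z) •
              V c.1 c.2 z' (p c.1 c.2 + r - z') z (p c.1 c.2 + r - z) =
          if z' = z then V c.1 c.2 z' (p c.1 c.2 + r - z') z (p c.1 c.2 + r - z) else 0 := by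
        intro z' hz'
        rw [← Finset.sum_smul, (hS c.1 c.2 hc).2 z' hz' z hz]
        split_ifs
        · rw [one_smul]
        · rw [zero_smul]
      rw [Finset.sum_congr rfl e2, Finset.sum_ite_eq' _ z, if_pos hz]
    · rw [mul_zero]
  have hKM : ∀ c, K c * M c = P c := by
    intro c
    simp only [hK, hM, hPd]
    split_ifs with hc
    · refine pinv_mm (ind c.1 c.2 (p c.1 c.2)) (ind c.1 c.2 (p c.1 c.2 + r))
        (fun x z => V c.1 c.2 x (p c.1 c.2 - x) z (p c.1 c.2 + r - z))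
        (fun z x => V c.1 c.2 z (p c.1 c.2 + r - z) x (p c.1 c.2 - x))
        (fun x x' => V c.1 c.2 x (p c.1 c.2 - x) x' (p c.1 c.2 - x'))
        (fun x z => S c.1 c.2 x z) (fun z x => coef (lin l) z x) ?_ (hS c.1 c.2 hc).1
      intro x hx z hz z' hz' x' hx'
      obtain ⟨x1, x2, x3⟩ := hind hx
      obtain ⟨y1, y2, y3⟩ := hind hx'
      obtain ⟨z1, z2, z3⟩ := hind hz
      obtain ⟨w1, w2, w3⟩ := hind hz'
      rw [VV _ _ _ _ _ _ _ _ _ _ _ _ x2 x3 z2 z3 w2 w3 y2 y3]
      by_cases h : z = z'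
      · subst h
        rw [if_pos ⟨rfl, rfl, rfl, rfl⟩, if_pos rfl]
      · rw [if_neg (fun h' => h h'.2.2.1), if_neg h]
    · rw [mul_zero]
  have hKM0 : ∀ c d, c ≠ d → K c * M d = 0 := by
    intro c d hne
    simp only [hK, hM]
    split_ifs with hc hd
    · rw [Finset.sum_mul]
      refine Finset.sum_eq_zero (fun x hx => ?_)
      rw [Finset.sum_mul]
      refine Finset.sum_eq_zero (fun z hz => ?_)
      rw [Finset.mul_sum]
      refine Finset.sum_eq_zero (fun x' hx' => ?_)
      rw [Finset.mul_sum]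
      refine Finset.sum_eq_zero (fun z' hz' => ?_)
      obtain ⟨x1, x2, x3⟩ := hind hx
      obtain ⟨y1, y2, y3⟩ := hind hx'
      obtain ⟨z1, z2, z3⟩ := hind hz
      obtain ⟨w1, w2, w3⟩ := hind hz'
      rw [smul_mul_smul_comm, VV _ _ _ _ _ _ _ _ _ _ _ _ x2 x3 z2 z3 w2 w3 y2 y3, if_neg,
        smul_zero]
      intro h
      exact hne (Prod.ext h.1 h.2.1)
    · rw [mul_zero]
    · rw [zero_mul]
    · rw [zero_mul]
  have hKQ : ∀ c, K c * Q c = K c := by
    intro c
    simp only [hK, hQd]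
    split_ifs with hc
    · rw [Finset.sum_mul]
      refine Finset.sum_congr rfl (fun x hx => ?_)
      rw [Finset.sum_mul]
      refine Finset.sum_congr rfl (fun z hz => ?_)
      rw [Finset.mul_sum, Finset.sum_eq_single z]
      · obtain ⟨x1, x2, x3⟩ := hind hx
        obtain ⟨z1, z2, z3⟩ := hind hz
        rw [smul_mul_assoc, VV _ _ _ _ _ _ _ _ _ _ _ _ x2 x3 z2 z3 z2 z3 z2 z3,
          if_pos ⟨rfl, rfl, rfl, rfl⟩]
      · intro z' hz' hne
        obtain ⟨x1, x2, x3⟩ := hind hx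
        obtain ⟨z1, z2, z3⟩ := hind hz
        obtain ⟨w1, w2, w3⟩ := hind hz'
        rw [smul_mul_assoc, VV _ _ _ _ _ _ _ _ _ _ _ _ x2 x3 z2 z3 w2 w3 w2 w3,
          if_neg (fun h => hne h.2.2.1.symm), smul_zero]
      · intro h
        exact absurd hz h
    · rw [mul_zero]
  have hKQ0 : ∀ c d, c ≠ d → K c * Q d = 0 := by
    intro c d hne
    simp only [hK, hQd]
    split_ifs with hc hd
    · rw [Finset.sum_mul]
      refine Finset.sum_eq_zero (fun x hx => ?_)
      rw [Finset.sum_mul]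
      refine Finset.sum_eq_zero (fun z hz => ?_)
      rw [Finset.mul_sum]
      refine Finset.sum_eq_zero (fun z' hz' => ?_)
      obtain ⟨x1, x2, x3⟩ := hind hx
      obtain ⟨z1, z2, z3⟩ := hind hz
      obtain ⟨w1, w2, w3⟩ := hind hz'
      rw [smul_mul_assoc, VV _ _ _ _ _ _ _ _ _ _ _ _ x2 x3 z2 z3 w2 w3 w2 w3, if_neg,
        smul_zero]
      intro h
      exact hne (Prod.ext h.1 h.2.1)
    · rw [mul_zero]
    · rw [zero_mul]
    · rw [zero_mul]
  refine ⟨∑ c ∈ s, K c, ?_, ?_, ?_⟩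
  · refine Submodule.sum_mem _ (fun c _ => ?_)
    simp only [hK]
    split_ifs with hc
    · refine Submodule.sum_mem _ (fun x hx => Submodule.sum_mem _ (fun z hz =>
        Submodule.smul_mem _ _ ?_))
      obtain ⟨x1, x2, x3⟩ := hind hx
      obtain ⟨z1, z2, z3⟩ := hind hz
      have h1 := hE _ _ _ _ (U1 c.1 x z x2 z2) (U1' c.2 (p c.1 c.2 - x) (p c.1 c.2 + r - z) x3 z3)
      have h2 : ((x : ℤ) - z) + (((p c.1 c.2 - x : ℕ) : ℤ) - ((p c.1 c.2 + r - z : ℕ) : ℤ)) =
          -(r : ℤ) := by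
        rw [Nat.cast_sub x1, Nat.cast_sub z1]
        push_cast
        ring
      rw [h2] at h1
      exact h1
    · exact Submodule.zero_mem _
  · rw [hTr, mul_assoc, Finset.mul_sum, Finset.sum_congr rfl (fun c _ => hGP c),
      pinv_orth s K M (fun a _ b _ h => hKM0 a b h)]
    exact Finset.sum_congr rfl (fun c _ => hKM c)
  · rw [hTs, mul_assoc, pinv_orth s K Q (fun a _ b _ h => hKQ0 a b h),
      Finset.sum_congr rfl (fun c _ => hKQ c), Finset.mul_sum]
    exact Finset.sum_congr rfl (fun c _ => hGK c)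

end Pool.Agent.LefCK
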