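import Mathlib
import Pool.Agent.LefCK.PDefs

/-!
# Weight projectors of a product (module LCK-PInvE, ring theory); plan below
-/

namespace Pool.Agent.LefCK

/-- The projector onto weight `w` is the sum of the products of the projectors.

PLAN. Let `Q w` be the right hand side. By the weights of the units, `Q w * τ (U i x x) (U' j y y)` is
`τ (U i x x) (U' j y y)` if `(i - 2x) + (j - 2y) = w` and 0 otherwise (only the term `c = i - 2x` survives:
`ε c * U i x x = ε c * ε (i-2x) * U i x x`); sum over all units (`τ 1 1 = 1`). The bound `M` makes the sum over `c` long enough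
(`|i - 2x| ≤ N ≤ M`). -/
theorem prodT_eq {R R' B : Type*} [Ring R] [Ring R'] [Ring B]
    (τ : R → R' → B) (τ_add_left : ∀ x y z, τ (x + y) z = τ x z + τ y z)
    (τ_add_right : ∀ x y z, τ x (y + z) = τ x y + τ x z)
    (τ_mul : ∀ x y x' y', τ x x' * τ y y' = τ (x * y) (x' * y')) (τ_one : τ 1 1 = 1)
    (ε : ℤ → R) (ε' : ℤ → R') (N N' : ℕ) (U : ℕ → ℕ → ℕ → R) (U' : ℕ → ℕ → ℕ → R')
    (orth : ∀ i j, i ≠ j → ε i * ε j = 0) (orth' : ∀ i j, i ≠ j → ε' i * ε' j = 0)
    (U5 : ∀ i a b : ℕ, a ≤ i → b ≤ i → ε ((i : ℤ) - 2 * a) * U i a b = U i a b)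
    (U5' : ∀ i a b : ℕ, a ≤ i → b ≤ i → ε' ((i : ℤ) - 2 * a) * U' i a b = U' i a b)
    (U6 : ∑ i ∈ Finset.range (N + 1), ∑ a ∈ Finset.range (i + 1), U i a a = 1)
    (U6' : ∑ i ∈ Finset.range (N' + 1), ∑ a ∈ Finset.range (i + 1), U' i a a = 1)
    (M : Finset ℤ) (hM : Finset.Icc (-(N : ℤ)) N ⊆ M) (w : ℤ) :
    ∑ c ∈ M, τ (ε c) (ε' (w - c)) = prodT τ N N' U U' w := by
  have hz1 : ∀ z, τ 0 z = 0 := by
    intro z
    have h := τ_add_left 0 0 z
    rw [add_zero] at h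
    exact left_eq_add.1 h
  have hz2 : ∀ x, τ x 0 = 0 := by
    intro x
    have h := τ_add_right x 0 0
    rw [add_zero] at h
    exact left_eq_add.1 h
  have hs1 : ∀ (s : Finset ℕ) (f : ℕ → R) (z : R'), τ (∑ i ∈ s, f i) z = ∑ i ∈ s, τ (f i) z := by
    intro s f z
    exact map_sum (AddMonoidHom.mk' (fun x => τ x z) (fun x y => τ_add_left x y z)) f s
  have hs2 : ∀ (s : Finset ℕ) (f : ℕ → R') (x : R), τ x (∑ i ∈ s, f i) = ∑ i ∈ s, τ x (f i) := by
    intro s f x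
    exact map_sum (AddMonoidHom.mk' (fun z => τ x z) (fun y z => τ_add_right x y z)) f s
  have key : ∀ i ∈ Finset.range (N + 1), ∀ j : ℕ, ∀ x ∈ Finset.range (i + 1),
      ∀ y ∈ Finset.range (j + 1),
      (∑ c ∈ M, τ (ε c) (ε' (w - c))) * τ (U i x x) (U' j y y) =
        if (i : ℤ) - 2 * x + (j - 2 * y) = w then τ (U i x x) (U' j y y) else 0 := by
    intro i hi j x hx y hy
    rw [Finset.mem_range] at hi hx hy
    have hU := U5 i x x (by omega) (by omega)
    have hU' := U5' j y y (by omega) (by omega)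
    have hmem : (i : ℤ) - 2 * x ∈ M := hM (Finset.mem_Icc.2 ⟨by omega, by omega⟩)
    rw [Finset.sum_mul, Finset.sum_eq_single_of_mem ((i : ℤ) - 2 * x) hmem]
    · rw [τ_mul, hU]
      by_cases h : (i : ℤ) - 2 * x + (j - 2 * y) = w
      · rw [if_pos h, show w - ((i : ℤ) - 2 * x) = (j : ℤ) - 2 * y by omega, hU']
      · rw [if_neg h, ← hU', ← mul_assoc, orth' _ _ (by omega), zero_mul, hz2]
    · intro c _ hc
      rw [τ_mul, ← hU, ← mul_assoc, orth _ _ hc, zero_mul, hz1]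
  have h1 : (∑ c ∈ M, τ (ε c) (ε' (w - c))) =
      (∑ c ∈ M, τ (ε c) (ε' (w - c))) * τ 1 1 := by rw [τ_one, mul_one]
  rw [h1]
  conv_lhs => rw [← U6, ← U6']
  unfold prodT
  rw [hs1, Finset.mul_sum]
  refine Finset.sum_congr rfl fun i hi => ?_
  rw [hs2, Finset.mul_sum]
  refine Finset.sum_congr rfl fun j hj => ?_
  rw [hs1, Finset.mul_sum]
  refine Finset.sum_congr rfl fun x hx => ?_
  rw [hs2, Finset.mul_sum]
  refine Finset.sum_congr rfl fun y hy => ?_
  exact key i hi j x hx y hy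

end Pool.Agent.LefCK
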