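import Mathlib

/-!
# Hard Lefschetz data in a ring (auxiliary definitions)

`A d`: the elements of degree `d`; `ε i`: projector onto weight `i`; `F` lowers the weight by 2;
`k i` inverts `F ^ i : (weight i) → (weight -i)`.
-/

namespace Pool.Agent.LefCK

structure HLData (R : Type*) [Ring R] where
  A : ℤ → AddSubgroup R
  one_mem : (1 : R) ∈ A 0
  mul_mem : ∀ (d e : ℤ) (x y : R), x ∈ A d → y ∈ A e → x * y ∈ A (d + e)
  ε : ℤ → R
  N : ℕ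
  F : R
  k : ℕ → R
  ε_mem : ∀ i, ε i ∈ A 0
  F_mem : F ∈ A 1
  k_mem : ∀ i : ℕ, k i ∈ A (-(i : ℤ))
  idem : ∀ i, ε i * ε i = ε i
  orth : ∀ i j, i ≠ j → ε i * ε j = 0
  hN : ∀ i : ℤ, (N : ℤ) < |i| → ε i = 0
  sum : ∑ i ∈ Finset.Icc (-(N : ℤ)) N, ε i = 1
  hF : ∀ i, F * ε i = ε (i - 2) * F
  k1 : ∀ i : ℕ, k i * F ^ i * ε i = ε i
  k2 : ∀ i : ℕ, F ^ i * k i * ε (-(i : ℤ)) = ε (-(i : ℤ))
  k3 : ∀ i : ℕ, ε i * k i = k i
  k4 : ∀ i : ℕ, k i * ε (-(i : ℤ)) = k i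

namespace HLData

variable {R : Type*} [Ring R] (D : HLData R)

/-- the projector onto the primitive part of weight `i` -/
def pr (i : ℕ) : R := D.ε i - D.F * D.k (i + 2) * D.F ^ (i + 1) * D.ε i

/-- the matrix units `weight (i - 2b) → weight (i - 2a)` (for `a, b ≤ i`) -/
def U (i a b : ℕ) : R := D.F ^ a * D.pr i * D.k i * D.F ^ (i - b) * D.ε ((i : ℤ) - 2 * b)

end HLData

end Pool.Agent.LefCK
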