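import Mathlib
import Pool.Agent.LefCK.MUDefs

/-!
# The primitive projectors (module LCK-MUA, pure ring theory)

PLAN. `F_pow_ε`: induction on `a` from `hF`. `k2` in the form `F ^ i * k i * ε (-i) = ε (-i)`, and
`k i * ε (-i) = k i`, so `F ^ i * k i = ε (-i)` (`F_pow_k`); similarly `k i * F ^ i * ε i = ε i`.
`F_pow_pr`: `F ^ (i+1) * pr i = F ^ (i+1) * ε i - (F ^ (i+2) * k (i+2)) * F ^ (i+1) * ε i`
 and `F ^ (i+1) * ε i = ε (i - 2(i+1)) * F ^ (i+1) = ε (-(i+2)) * F ^ (i+1)`.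
`pr_F`: `F * ε (i+2) - F * (k (i+2) * F ^ (i+2) * ε (i+2)) = 0` (`ε i * F * ε (i+2) = F * ε (i+2)`).
`ε_pr`: `ε i * F * k (i+2) = F * ε (i+2) * k (i+2) = F * k (i+2)` by `k3`.
`pr_pr`: expand, `(F k F^(i+1) ε i) (F k F^(i+1) ε i) = F k (F^(i+2) k) F^(i+1) ε i = F k F^(i+1) ε i` where `ε i * F * k (i+2) =
F * k (i+2)`, and `F ^ (i+2) * k (i+2) = ε (-(i+2))`, `ε (-(i+2)) * F ^ (i+1) * ε i = F ^ (i+1) * ε i`.
-/

namespace Pool.Agent.LefCK.HLData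

variable {R : Type*} [Ring R] (D : HLData R)

theorem F_pow_ε (a : ℕ) (w w' : ℤ) (h : w' = w - 2 * a) : D.F ^ a * D.ε w = D.ε w' * D.F ^ a := by
  induction a generalizing w with
  | zero =>
    have : w' = w := by simpa using h
    subst this
    simp
  | succ a ih =>
    rw [pow_succ, mul_assoc, D.hF, ← mul_assoc, ih (w - 2) (by rw [h]; push_cast; ring), mul_assoc]

theorem F_pow_k (i : ℕ) : D.F ^ i * D.k i = D.ε (-(i : ℤ)) := by
  rw [← D.k4 i, ← mul_assoc, D.k2]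

private theorem ε_F (i : ℕ) : D.ε i * D.F = D.F * D.ε ((i : ℤ) + 2) := by
  rw [D.hF]
  congr 2
  ring

private theorem k3' (i : ℕ) : D.ε ((i : ℤ) + 2) * D.k (i + 2) = D.k (i + 2) := by
  have h := D.k3 (i + 2)
  push_cast at h
  exact h

private theorem ε_F_k (i : ℕ) : D.ε i * (D.F * D.k (i + 2)) = D.F * D.k (i + 2) := by
  rw [← mul_assoc, ε_F, mul_assoc, k3']

private theorem F_k_succ (i : ℕ) :
    D.F ^ (i + 1) * (D.F * D.k (i + 2)) = D.ε (-((i : ℤ) + 2)) := by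
  rw [← mul_assoc, ← pow_succ, F_pow_k]
  push_cast
  rfl

private theorem ε_F_ε (i : ℕ) : D.ε (-((i : ℤ) + 2)) * (D.F ^ (i + 1) * D.ε i) =
    D.F ^ (i + 1) * D.ε i := by
  rw [D.F_pow_ε (i + 1) i (-((i : ℤ) + 2)) (by push_cast; ring), ← mul_assoc, D.idem]

theorem ε_pr (i : ℕ) : D.ε i * D.pr i = D.pr i := by
  unfold pr
  rw [mul_sub, D.idem, ← mul_assoc, ← mul_assoc, ε_F_k]

theorem pr_ε (i : ℕ) : D.pr i * D.ε i = D.pr i := by
  unfold pr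
  rw [sub_mul, D.idem, mul_assoc _ (D.ε i) (D.ε i), D.idem]

theorem F_pow_pr (i : ℕ) : D.F ^ (i + 1) * D.pr i = 0 := by
  unfold pr
  rw [mul_sub, mul_assoc (D.F * D.k (i + 2)), ← mul_assoc (D.F ^ (i + 1)) (D.F * D.k (i + 2)),
    F_k_succ, ε_F_ε, sub_self]

theorem pr_F (i : ℕ) : D.pr i * D.F * D.ε ((i : ℤ) + 2) = 0 := by
  have h1 : D.ε i * (D.F * D.ε ((i : ℤ) + 2)) = D.F * D.ε ((i : ℤ) + 2) := by
    rw [← mul_assoc, ε_F, mul_assoc, D.idem]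
  have h2 : D.k (i + 2) * (D.F ^ (i + 1) * (D.F * D.ε ((i : ℤ) + 2))) = D.ε ((i : ℤ) + 2) := by
    have h := D.k1 (i + 2)
    push_cast at h
    rw [← mul_assoc (D.F ^ (i + 1)), ← pow_succ, ← mul_assoc]
    exact h
  unfold pr
  rw [mul_assoc, sub_mul, h1, mul_assoc, h1, mul_assoc, mul_assoc, h2, sub_self]

theorem pr_pr (i : ℕ) : D.pr i * D.pr i = D.pr i := by
  have h : D.pr i * (D.F * D.k (i + 2)) = 0 := by
    rw [← k3', ← mul_assoc, ← mul_assoc, pr_F, zero_mul]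
  have h2 : D.pr i * (D.F * D.k (i + 2) * D.F ^ (i + 1) * D.ε i) = 0 := by
    rw [mul_assoc (D.F * D.k (i + 2)), ← mul_assoc, h, zero_mul]
  calc D.pr i * D.pr i = D.pr i * (D.ε i - D.F * D.k (i + 2) * D.F ^ (i + 1) * D.ε i) := rfl
    _ = D.pr i := by rw [mul_sub, h2, sub_zero, pr_ε]

end Pool.Agent.LefCK.HLData
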