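import Mathlib
import Pool.Agent.LefCK.MUA

/-!
# Products of the matrix units (module LCK-MUB, pure ring theory)

`U i a b = F ^ a * pr i * k i * F ^ (i - b) * ε (i - 2b)`, for `a, b ≤ i`.

PLAN.
`ε_U`: `ε (i - 2a) * F ^ a = F ^ a * ε i`, `ε_pr`. `U_ε`: `idem`.
`F_U`: definition, `pow_succ'`. `F_U_self`: `F ^ (i+1) * pr i = 0`.
`U_mem`: `F ^ a ∈ A a` (induction), `pr i ∈ A 0`, `k i ∈ A (-i)`, `F ^ (i-b) ∈ A (i-b)`: total `a - b`.
`U_zero`: for `i > N` `ε i = 0`, so `pr i = 0`.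
`U_mul_U`: if `i - 2b ≠ j - 2c` then `U i a b * U j c d = U i a b * ε (i-2b) * ε (j-2c) * U j c d = 0` (and it is not the case that `i = j ∧ b = c`).
 Otherwise the product is `F^a * pr i * k i * F^(i-b) * (F^c * pr j) * k j * F^(j-d) * ε (j-2d)` (`ε (j-2c) * F^c * pr j = F^c * pr j`), the middle is
 `k i * F ^ (i-b+c) * pr j`. Case `i = j`, `b = c`: `k i * F ^ i * ε i * pr i = pr i`, `pr i * pr i = pr i`. Case `j > i`: `c - b = (j-i)/2 =: t > 0`,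
 `i - b + c = i + t`; `pr i * (k i * F ^ i) * F ^ t * pr j`: `F ^ t * pr j = ε (j - 2t) * F ^ t * pr j = ε i * F^t * pr j` and `k i * F ^ i * ε i = ε i`, so it is
 `pr i * F ^ t * pr j = (pr i * F * ε (i+2)) * F ^ (t-1) * pr j = 0` by `pr_F` (weight of `F^(t-1) * pr j` is `j - 2(t-1) = i + 2`).
 Case `j < i`: `b - c = (i-j)/2 =: t > 0`, `i - b + c = i - t = j + t ≥ j + 1`, so `F ^ (j+t) * pr j = F ^ (t-1) * F ^ (j+1) * pr j = 0`.
-/

namespace Pool.Agent.LefCK.HLData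

variable {R : Type*} [Ring R] (D : HLData R)

theorem ε_U (i a b : ℕ) : D.ε ((i : ℤ) - 2 * a) * D.U i a b = D.U i a b := by
  have h1 := D.F_pow_ε a (i : ℤ) ((i : ℤ) - 2 * a) rfl
  have h2 := D.ε_pr i
  unfold U
  calc D.ε ((i : ℤ) - 2 * a) * (D.F ^ a * D.pr i * D.k i * D.F ^ (i - b) * D.ε ((i : ℤ) - 2 * b))
      = (D.ε ((i : ℤ) - 2 * a) * D.F ^ a) * D.pr i * D.k i * D.F ^ (i - b)
          * D.ε ((i : ℤ) - 2 * b) := by simp only [mul_assoc]
    _ = (D.F ^ a * D.ε i) * D.pr i * D.k i * D.F ^ (i - b) * D.ε ((i : ℤ) - 2 * b) := by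
        rw [h1]
    _ = D.F ^ a * (D.ε i * D.pr i) * D.k i * D.F ^ (i - b) * D.ε ((i : ℤ) - 2 * b) := by
        simp only [mul_assoc]
    _ = _ := by rw [h2]

theorem U_ε (i a b : ℕ) : D.U i a b * D.ε ((i : ℤ) - 2 * b) = D.U i a b := by
  unfold U
  rw [mul_assoc, D.idem]

theorem F_U (i a b : ℕ) : D.F * D.U i a b = D.U i (a + 1) b := by
  unfold U
  rw [pow_succ' D.F a]
  simp only [mul_assoc]

theorem F_U_self (i b : ℕ) : D.F * D.U i i b = 0 := by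
  rw [D.F_U]
  unfold U
  rw [D.F_pow_pr]
  simp

private theorem mub_pow_mem (a : ℕ) : D.F ^ a ∈ D.A (a : ℤ) := by
  induction a with
  | zero => simpa using D.one_mem
  | succ a ih =>
    have := D.mul_mem (a : ℤ) 1 (D.F ^ a) D.F ih D.F_mem
    rw [pow_succ]
    simpa using this

private theorem mub_pr_mem (i : ℕ) : D.pr i ∈ D.A 0 := by
  unfold pr
  refine (D.A 0).sub_mem (D.ε_mem _) ?_
  have h1 := D.mul_mem _ _ _ _ D.F_mem (D.k_mem (i + 2))
  have h2 := D.mul_mem _ _ _ _ h1 (D.mub_pow_mem (i + 1))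
  have h3 := D.mul_mem _ _ _ _ h2 (D.ε_mem i)
  have e : (1 : ℤ) + -((i + 2 : ℕ) : ℤ) + ((i + 1 : ℕ) : ℤ) + 0 = 0 := by push_cast; ring
  rw [e] at h3
  exact h3

theorem U_mem (i a b : ℕ) (hb : b ≤ i) : D.U i a b ∈ D.A ((a : ℤ) - b) := by
  unfold U
  have h1 := D.mul_mem _ _ _ _ (D.mub_pow_mem a) (D.mub_pr_mem i)
  have h2 := D.mul_mem _ _ _ _ h1 (D.k_mem i)
  have h3 := D.mul_mem _ _ _ _ h2 (D.mub_pow_mem (i - b))
  have h4 := D.mul_mem _ _ _ _ h3 (D.ε_mem ((i : ℤ) - 2 * b))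
  have e : (a : ℤ) + 0 + -(i : ℤ) + ((i - b : ℕ) : ℤ) + 0 = (a : ℤ) - b := by
    rw [Nat.cast_sub hb]; ring
  rw [e] at h4
  exact h4

theorem U_zero (i a b : ℕ) (h : D.N < i) : D.U i a b = 0 := by
  have h1 : D.ε (i : ℤ) = 0 := by
    apply D.hN
    rw [abs_of_nonneg (by positivity)]
    exact_mod_cast h
  have h2 : D.pr i = 0 := by
    rw [← D.ε_pr i, h1, zero_mul]
  unfold U
  rw [h2]
  simp

/-- the middle factor -/
private theorem mub_mid (i j b c : ℕ) (hb : b ≤ i) (hc : c ≤ j)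
    (hw : (i : ℤ) - 2 * b = (j : ℤ) - 2 * c) :
    D.pr i * D.k i * D.F ^ (i - b) * (D.F ^ c * D.pr j) =
      if i = j ∧ b = c then D.pr i else 0 := by
  rcases lt_trichotomy i j with hij | hij | hij
  · -- j > i
    obtain ⟨t, ht⟩ : ∃ t : ℕ, c = b + (t + 1) := ⟨c - b - 1, by omega⟩
    have hj : j = i + 2 * (t + 1) := by omega
    have hne : ¬ (i = j ∧ b = c) := by omega
    rw [if_neg hne]
    have e1 : D.F ^ (i - b) * (D.F ^ c * D.pr j) = D.F ^ i * (D.F ^ (t + 1) * D.pr j) := by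
      rw [← mul_assoc, ← mul_assoc, ← pow_add, ← pow_add]
      congr 2
      omega
    have e2 : D.F ^ (t + 1) * D.pr j = D.ε (i : ℤ) * (D.F ^ (t + 1) * D.pr j) := by
      have h := D.F_pow_ε (t + 1) (j : ℤ) (i : ℤ) (by push_cast [hj]; ring)
      rw [← mul_assoc, ← h, mul_assoc, D.ε_pr]
    have e3 : D.F ^ (t + 1) * D.pr j = D.F * D.ε ((i : ℤ) + 2) * (D.F ^ t * D.pr j) := by
      have h := D.F_pow_ε t (j : ℤ) ((i : ℤ) + 2) (by push_cast [hj]; ring)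
      rw [pow_succ', mul_assoc, mul_assoc]
      congr 1
      rw [← mul_assoc, ← h, mul_assoc, D.ε_pr]
    have k1 := D.k1 i
    have p1 := D.pr_F i
    calc D.pr i * D.k i * D.F ^ (i - b) * (D.F ^ c * D.pr j)
        = D.pr i * D.k i * (D.F ^ (i - b) * (D.F ^ c * D.pr j)) := by simp only [mul_assoc]
      _ = D.pr i * D.k i * (D.F ^ i * (D.F ^ (t + 1) * D.pr j)) := by rw [e1]
      _ = D.pr i * D.k i * (D.F ^ i * (D.ε (i : ℤ) * (D.F ^ (t + 1) * D.pr j))) := by rw [← e2]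
      _ = D.pr i * (D.k i * D.F ^ i * D.ε (i : ℤ)) * (D.F ^ (t + 1) * D.pr j) := by
          simp only [mul_assoc]
      _ = D.pr i * D.ε (i : ℤ) * (D.F ^ (t + 1) * D.pr j) := by rw [k1]
      _ = D.pr i * (D.F * D.ε ((i : ℤ) + 2) * (D.F ^ t * D.pr j)) := by rw [D.pr_ε, e3]
      _ = (D.pr i * D.F * D.ε ((i : ℤ) + 2)) * (D.F ^ t * D.pr j) := by simp only [mul_assoc]
      _ = 0 := by rw [p1, zero_mul]
  · subst hij
    have hbc : b = c := by omega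
    subst hbc
    rw [if_pos ⟨rfl, rfl⟩]
    have e1 : D.F ^ (i - b) * (D.F ^ b * D.pr i) = D.F ^ i * D.ε (i : ℤ) * D.pr i := by
      rw [← mul_assoc, ← pow_add, mul_assoc, D.ε_pr]
      congr 2
      omega
    have k1 := D.k1 i
    calc D.pr i * D.k i * D.F ^ (i - b) * (D.F ^ b * D.pr i)
        = D.pr i * D.k i * (D.F ^ (i - b) * (D.F ^ b * D.pr i)) := by simp only [mul_assoc]
      _ = D.pr i * (D.k i * D.F ^ i * D.ε (i : ℤ)) * D.pr i := by
          rw [e1]; simp only [mul_assoc]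
      _ = D.pr i * D.pr i := by rw [k1, D.pr_ε]
      _ = D.pr i := D.pr_pr i
  · -- j < i
    obtain ⟨t, ht⟩ : ∃ t : ℕ, i - b + c = t + (j + 1) := ⟨i - b + c - (j + 1), by omega⟩
    have hne : ¬ (i = j ∧ b = c) := by omega
    rw [if_neg hne]
    have e1 : D.F ^ (i - b) * (D.F ^ c * D.pr j) = D.F ^ t * (D.F ^ (j + 1) * D.pr j) := by
      rw [← mul_assoc, ← mul_assoc, ← pow_add, ← pow_add, ht]
    rw [mul_assoc (D.pr i * D.k i), e1, D.F_pow_pr]
    simp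

theorem U_mul_U (i a b j c d : ℕ) (ha : a ≤ i) (hb : b ≤ i) (hc : c ≤ j) (hd : d ≤ j) :
    D.U i a b * D.U j c d = if i = j ∧ b = c then D.U i a d else 0 := by
  by_cases hw : (i : ℤ) - 2 * b = (j : ℤ) - 2 * c
  · have hmid := D.mub_mid i j b c hb hc hw
    have h1 := D.F_pow_ε c (j : ℤ) ((j : ℤ) - 2 * c) rfl
    have e1 : D.ε ((i : ℤ) - 2 * b) * (D.F ^ c * D.pr j) = D.F ^ c * D.pr j := by
      rw [hw, ← mul_assoc, ← h1, mul_assoc, D.ε_pr]
    have e2 : D.U i a b * D.U j c d = D.F ^ a *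
        (D.pr i * D.k i * D.F ^ (i - b) * (D.F ^ c * D.pr j)) *
        (D.k j * D.F ^ (j - d) * D.ε ((j : ℤ) - 2 * d)) := by
      unfold U
      calc D.F ^ a * D.pr i * D.k i * D.F ^ (i - b) * D.ε ((i : ℤ) - 2 * b) *
            (D.F ^ c * D.pr j * D.k j * D.F ^ (j - d) * D.ε ((j : ℤ) - 2 * d))
          = D.F ^ a * D.pr i * D.k i * D.F ^ (i - b) *
            (D.ε ((i : ℤ) - 2 * b) * (D.F ^ c * D.pr j)) *
            (D.k j * D.F ^ (j - d) * D.ε ((j : ℤ) - 2 * d)) := by simp only [mul_assoc]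
        _ = D.F ^ a * D.pr i * D.k i * D.F ^ (i - b) * (D.F ^ c * D.pr j) *
            (D.k j * D.F ^ (j - d) * D.ε ((j : ℤ) - 2 * d)) := by rw [e1]
        _ = _ := by simp only [mul_assoc]
    rw [e2, hmid]
    by_cases h : i = j ∧ b = c
    · rw [if_pos h, if_pos h]
      obtain ⟨rfl, rfl⟩ := h
      unfold U
      simp only [mul_assoc]
    · rw [if_neg h, if_neg h]
      simp
  · have hne : ¬ (i = j ∧ b = c) := by
      rintro ⟨rfl, rfl⟩
      exact hw rfl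
    rw [if_neg hne]
    calc D.U i a b * D.U j c d
        = (D.U i a b * D.ε ((i : ℤ) - 2 * b)) * (D.ε ((j : ℤ) - 2 * c) * D.U j c d) := by
          rw [D.U_ε, D.ε_U]
      _ = D.U i a b * (D.ε ((i : ℤ) - 2 * b) * D.ε ((j : ℤ) - 2 * c)) * D.U j c d := by
          simp only [mul_assoc]
      _ = 0 := by rw [D.orth _ _ hw]; simp

end Pool.Agent.LefCK.HLData
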