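import Mathlib
import Pool.Agent.LefCK.MUA

/-!
# Completeness of the matrix units (module LCK-MUC, pure ring theory)

PLAN.
`complete_pos` (for `w : ℕ`, any `M` with `N < w + 2M`): `∑_{a < M} F ^ a * pr (w+2a) * k (w+2a) * F ^ (w+a) * ε w = ε w`.
 Induction on `M` (for all `w`), `M = 0`: `N < w`, `ε w = 0`. Step: `Finset.sum_range_succ'`: the term `a = 0` is
 `pr w * (k w * F ^ w * ε w) = pr w * ε w = pr w`; for `a + 1`: with `w' = w + 2` (`w + 2(a+1) = w' + 2a`),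
 `F ^ (w+a+1) * ε w = F ^ (w'+a) * ε w' * (k w' * F ^ (w+1) * ε w)`: indeed `F ^ w' * k w' = ε (-w')` (`F_pow_k`) and
 `F ^ (w+1) * ε w = ε (-w') * F ^ (w+1)` (weight `w - 2(w+1) = -w-2`), and `ε w' * k w' = k w'` (`k3`). So the sum over the other terms is
 `F * (∑_a F ^ a * pr (w'+2a) * k (w'+2a) * F ^ (w'+a) * ε w') * k w' * F ^ (w+1) * ε w = F * ε w' * k w' * F ^ (w+1) * ε w = F * k (w+2) * F ^ (w+1) * ε w`.
 Total: `pr w + F * k (w+2) * F ^ (w+1) * ε w = ε w` by the definition of `pr`.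
`complete_neg`: multiply `complete_pos` by `F ^ w` on the left and by `k w` on the right (`ε w * k w = k w`, `F ^ w * k w = ε (-w)`,
 `F ^ (w+a) * ε w * k w = F ^ a * F ^ w * k w = F ^ a * ε (-w)`): `∑_{a < M} F ^ (w+a) * pr (w+2a) * k (w+2a) * F ^ a * ε (-w) = ε (-w)`.
`complete`: put `Σ = ∑_{i ≤ N} ∑_{a ≤ i} U i a a`. `U i a a = U i a a * ε (i - 2a)`. Show `Σ * ε v = ε v` for every integer `v` with
 `|v| ≤ N`: only the terms with `i - 2a = v` survive; if `v = w ≥ 0` these are `i = w + 2a`, `U (w+2a) a a * ε w = F ^ a * pr (w+2a) * k (w+2a) * F ^ (w+a) * ε w`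
 (`(w+2a) - a = w + a`), `a < M` with e.g. `M = N + 1` (terms with `w + 2a > N` vanish since `pr = 0` there, as `ε = 0`); if `v = -w < 0` then `i = w + 2a'`,
 `a = w + a'`, `U i a a * ε (-w) = F ^ (w+a') * pr i * k i * F ^ a' * ε (-w)`. Then `Σ = Σ * 1 = Σ * ∑_{v ∈ Icc (-N) N} ε v = ∑ ε v = 1`.
-/

namespace Pool.Agent.LefCK.HLData

variable {R : Type*} [Ring R] (D : HLData R)

private theorem ε_zero (w : ℕ) (h : D.N < w) : D.ε w = 0 :=
  D.hN w (by rw [abs_of_nonneg (Int.natCast_nonneg w)]; exact_mod_cast h)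

private theorem pr_zero (w : ℕ) (h : D.N < w) : D.pr w = 0 := by
  unfold pr
  rw [ε_zero D w h, mul_zero, sub_zero]

private theorem step (w a : ℕ) : D.F ^ (w + (a + 1)) * D.ε w =
    D.F ^ (w + 2 + a) * D.ε ((w + 2 : ℕ) : ℤ) * (D.k (w + 2) * D.F ^ (w + 1) * D.ε w) := by
  have h1 : D.F ^ (w + 2 + a) * D.ε ((w + 2 : ℕ) : ℤ) * (D.k (w + 2) * D.F ^ (w + 1) * D.ε w) =
      D.F ^ a * (D.F ^ (w + 2) * (D.ε ((w + 2 : ℕ) : ℤ) * D.k (w + 2))) *
        (D.F ^ (w + 1) * D.ε w) := by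
    rw [show w + 2 + a = a + (w + 2) by ring, pow_add]
    simp only [mul_assoc]
  have h2 : D.F ^ (w + 1) * D.ε w = D.ε (-((w + 2 : ℕ) : ℤ)) * D.F ^ (w + 1) :=
    D.F_pow_ε (w + 1) w _ (by push_cast; ring)
  rw [h1, D.k3, D.F_pow_k, mul_assoc, h2, ← mul_assoc (D.ε _) (D.ε _), D.idem, ← h2,
    ← mul_assoc, ← pow_add, show w + (a + 1) = a + (w + 1) by ring]

theorem complete_pos (M w : ℕ) (h : D.N < w + 2 * M) :
    ∑ a ∈ Finset.range M, D.F ^ a * D.pr (w + 2 * a) * D.k (w + 2 * a) * D.F ^ (w + a) * D.ε w =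
      D.ε w := by
  induction M generalizing w with
  | zero =>
    rw [Finset.range_zero, Finset.sum_empty, ε_zero D w (by omega)]
  | succ M ih =>
    have h0 := ih (w + 2) (by omega)
    rw [Finset.sum_range_succ']
    have h1 : D.F ^ 0 * D.pr (w + 2 * 0) * D.k (w + 2 * 0) * D.F ^ (w + 0) * D.ε w = D.pr w := by
      rw [pow_zero, one_mul, mul_zero, add_zero]
      rw [mul_assoc (D.pr w), mul_assoc (D.pr w), D.k1, D.pr_ε]
    have h2 : ∀ a ∈ Finset.range M, D.F ^ (a + 1) * D.pr (w + 2 * (a + 1)) *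
        D.k (w + 2 * (a + 1)) * D.F ^ (w + (a + 1)) * D.ε w =
        D.F * (D.F ^ a * D.pr (w + 2 + 2 * a) * D.k (w + 2 + 2 * a) * D.F ^ (w + 2 + a) *
          D.ε ((w + 2 : ℕ) : ℤ)) * (D.k (w + 2) * D.F ^ (w + 1) * D.ε w) := by
      intro a _
      rw [mul_assoc _ (D.F ^ (w + (a + 1))), step, show w + 2 * (a + 1) = w + 2 + 2 * a by ring,
        pow_succ']
      simp only [mul_assoc]
    rw [h1, Finset.sum_congr rfl h2, ← Finset.sum_mul, ← Finset.mul_sum, h0]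
    have h3 : D.F * D.ε ((w + 2 : ℕ) : ℤ) * (D.k (w + 2) * D.F ^ (w + 1) * D.ε w) =
        D.F * D.k (w + 2) * D.F ^ (w + 1) * D.ε w := by
      rw [mul_assoc D.F, ← mul_assoc (D.ε _), ← mul_assoc (D.ε _), D.k3]
      simp only [mul_assoc]
    rw [h3]
    unfold pr
    abel

theorem complete_neg (M w : ℕ) (h : D.N < w + 2 * M) :
    ∑ a ∈ Finset.range M, D.F ^ (w + a) * D.pr (w + 2 * a) * D.k (w + 2 * a) * D.F ^ a *
      D.ε (-(w : ℤ)) = D.ε (-(w : ℤ)) := by
  have h0 := D.complete_pos M w h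
  have h1 : D.F ^ w * D.ε w * D.k w = D.ε (-(w : ℤ)) := by
    rw [mul_assoc, D.k3, D.F_pow_k]
  have h3 : D.F ^ w * (∑ a ∈ Finset.range M, D.F ^ a * D.pr (w + 2 * a) * D.k (w + 2 * a) *
      D.F ^ (w + a) * D.ε w) * D.k w = D.ε (-(w : ℤ)) := by
    rw [h0, h1]
  refine Eq.trans ?_ h3
  rw [Finset.mul_sum, Finset.sum_mul]
  refine Finset.sum_congr rfl fun a _ => ?_
  have h2 : D.F ^ w * (D.F ^ a * D.pr (w + 2 * a) * D.k (w + 2 * a) * D.F ^ (w + a) * D.ε w) *
      D.k w = D.F ^ w * D.F ^ a * D.pr (w + 2 * a) * D.k (w + 2 * a) *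
        (D.F ^ (w + a) * (D.ε w * D.k w)) := by
    simp only [mul_assoc]
  have h4 : D.F ^ (w + a) * D.k w = D.F ^ a * D.ε (-(w : ℤ)) := by
    rw [show w + a = a + w by ring, pow_add, mul_assoc, D.F_pow_k]
  rw [h2, D.k3, h4, ← pow_add]
  simp only [mul_assoc]

private theorem U_mul (i a b : ℕ) (v : ℤ) (h : (i : ℤ) - 2 * b ≠ v) : D.U i a b * D.ε v = 0 := by
  unfold U
  rw [mul_assoc, D.orth _ _ h, mul_zero]

private theorem U_mul' (i a b : ℕ) (v : ℤ) (h : (i : ℤ) - 2 * b = v) :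
    D.U i a b * D.ε v = D.F ^ a * D.pr i * D.k i * D.F ^ (i - b) * D.ε v := by
  unfold U
  rw [mul_assoc, h, D.idem]

private theorem sum_pos (w : ℕ) :
    (∑ i ∈ Finset.range (D.N + 1), ∑ a ∈ Finset.range (i + 1), D.U i a a) * D.ε w = D.ε w := by
  refine Eq.trans ?_ (D.complete_pos (D.N + 1) w (by omega))
  simp only [Finset.sum_mul]
  rw [Finset.sum_sigma']
  symm
  refine Finset.sum_bij_ne_zero (fun a _ _ => ⟨w + 2 * a, a⟩) ?_ ?_ ?_ ?_
  · intro a ha hne
    have h1 : w + 2 * a ≤ D.N := by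
      by_contra hc
      exact hne (by rw [pr_zero D _ (not_le.mp hc)]; simp)
    simp only [Finset.mem_sigma, Finset.mem_range]
    omega
  · intro a _ _ b _ _ hab
    simp only [Sigma.mk.injEq] at hab
    omega
  · rintro ⟨i, a⟩ hia hne
    simp only [Finset.mem_sigma, Finset.mem_range] at hia
    have h1 : (i : ℤ) - 2 * a = w := by
      by_contra hc
      exact hne (U_mul D i a a w hc)
    have h2 : i = w + 2 * a := by omega
    subst h2
    refine ⟨a, Finset.mem_range.mpr (by omega), ?_, rfl⟩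
    intro h0
    apply hne
    simp only
    rw [U_mul' D _ a a w h1, show w + 2 * a - a = w + a by omega]
    exact h0
  · intro a ha hne
    simp only
    rw [U_mul' D (w + 2 * a) a a w (by push_cast; ring), show w + 2 * a - a = w + a by omega]

private theorem sum_neg (w : ℕ) :
    (∑ i ∈ Finset.range (D.N + 1), ∑ a ∈ Finset.range (i + 1), D.U i a a) * D.ε (-(w : ℤ)) =
      D.ε (-(w : ℤ)) := by
  refine Eq.trans ?_ (D.complete_neg (D.N + 1) w (by omega))
  simp only [Finset.sum_mul]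
  rw [Finset.sum_sigma']
  symm
  refine Finset.sum_bij_ne_zero (fun a _ _ => ⟨w + 2 * a, w + a⟩) ?_ ?_ ?_ ?_
  · intro a ha hne
    have h1 : w + 2 * a ≤ D.N := by
      by_contra hc
      exact hne (by rw [pr_zero D _ (not_le.mp hc)]; simp)
    simp only [Finset.mem_sigma, Finset.mem_range]
    omega
  · intro a _ _ b _ _ hab
    simp only [Sigma.mk.injEq] at hab
    omega
  · rintro ⟨i, a⟩ hia hne
    simp only [Finset.mem_sigma, Finset.mem_range] at hia
    have h1 : (i : ℤ) - 2 * a = -(w : ℤ) := by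
      by_contra hc
      exact hne (U_mul D i a a _ hc)
    obtain ⟨b, rfl⟩ : ∃ b, a = w + b := ⟨a - w, by omega⟩
    have h2 : i = w + 2 * b := by omega
    subst h2
    refine ⟨b, Finset.mem_range.mpr (by omega), ?_, rfl⟩
    intro h0
    apply hne
    simp only
    rw [U_mul' D _ _ _ _ h1, show w + 2 * b - (w + b) = b by omega]
    exact h0
  · intro a ha hne
    simp only
    rw [U_mul' D (w + 2 * a) _ (w + a) (-(w : ℤ)) (by push_cast; ring),
      show w + 2 * a - (w + a) = a by omega]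

theorem complete :
    ∑ i ∈ Finset.range (D.N + 1), ∑ a ∈ Finset.range (i + 1), D.U i a a = 1 := by
  have h1 : ∀ v : ℤ, (∑ i ∈ Finset.range (D.N + 1), ∑ a ∈ Finset.range (i + 1), D.U i a a) *
      D.ε v = D.ε v := by
    intro v
    rcases Int.eq_nat_or_neg v with ⟨w, rfl | rfl⟩
    · exact sum_pos D w
    · exact sum_neg D w
  calc ∑ i ∈ Finset.range (D.N + 1), ∑ a ∈ Finset.range (i + 1), D.U i a a
      = (∑ i ∈ Finset.range (D.N + 1), ∑ a ∈ Finset.range (i + 1), D.U i a a) *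
          ∑ v ∈ Finset.Icc (-(D.N : ℤ)) D.N, D.ε v := by rw [D.sum, mul_one]
    _ = ∑ v ∈ Finset.Icc (-(D.N : ℤ)) D.N, D.ε v := by
        rw [Finset.mul_sum]
        exact Finset.sum_congr rfl fun v _ => h1 v
    _ = 1 := D.sum

end Pool.Agent.LefCK.HLData
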