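import Mathlib
import Pool.Agent.LefCK.MUB
import Pool.Agent.LefCK.MUC

/-!
# Matrix units from hard Lefschetz (assembly)
-/

namespace Pool.Agent.LefCK

theorem matrixUnits {R : Type*} [Ring R] (D : HLData R) :
    ∃ U : ℕ → ℕ → ℕ → R,
      (∀ i a b : ℕ, a ≤ i → b ≤ i → U i a b ∈ D.A ((a : ℤ) - b)) ∧
      (∀ i a b j c d : ℕ, a ≤ i → b ≤ i → c ≤ j → d ≤ j →
        U i a b * U j c d = if i = j ∧ b = c then U i a d else 0) ∧
      (∀ i a b : ℕ, a ≤ i → b ≤ i → D.ε ((i : ℤ) - 2 * a) * U i a b = U i a b) ∧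
      (∀ i a b : ℕ, a < i → b ≤ i → D.F * U i a b = U i (a + 1) b) ∧
      (∀ i b : ℕ, b ≤ i → D.F * U i i b = 0) ∧
      (∑ i ∈ Finset.range (D.N + 1), ∑ a ∈ Finset.range (i + 1), U i a a = 1) :=
  ⟨D.U, fun i a b _ hb => D.U_mem i a b hb, D.U_mul_U, fun i a b _ _ => D.ε_U i a b,
    fun i a b _ _ => D.F_U i a b, fun i b _ => D.F_U_self i b, D.complete⟩

end Pool.Agent.LefCK
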