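import Mathlib
import Pool.Agent.LefCK.Basic
import Pool.Agent.LefCK.MU

/-!
# The leading part of a divisor class, and its matrix units (module LCK-ProdF)

`leadOp D L = ∑_j p j ≫ L ≫ p (j-2)`. In `End X` the multiplication is `f * g = g ≫ f` (`End.mul_def`), so in the ring
`End X` the element `F := leadOp D L` satisfies `F * p j = p (j - 2) * F = (p j ≫ L ≫ p (j-2))`.

PLAN.
`p_leadOp`, `leadOp_p`: only one term survives.
`exists_units`: apply `matrixUnits` (to an `HLData (End P.X)`) with `A d` := the additive subgroup of `K.deg P.X P.X d`, `ε i := e.p (n + i)`,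
`F := leadOp e.toCK L`, `N` with `e.p (n + i) = 0` for `|i| > N` (the support is finite). `lead e.p (n+w) (replicate r (1, L)) =
F ^ r * ε w` (induction on `r`, `pow_succ`): so for `i ≥ 1`, `e.hard (replicate i (1, L))` gives `G`, and
`k i := ε i * G * ε (-i)` (in `End`), `k 0 := ε 0`. Check `k1`..`k4`. `F ∈ A 1`: sum of compositions, `e.mem_L`.
-/

open CategoryTheory MonoidalCategory TensorProduct

universe w v u

namespace Pool.Agent.LefCK

variable {C : Type u} [Category.{v} C] [Preadditive C] [Linear ℚ C]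
  [MonoidalCategory C] {F : Type w} [Field F]
  {K : Correspondences C F}

/-- The leading part `∑_j p j ≫ L ≫ p (j - 2)` of `L`. -/
noncomputable def leadOp {X : C} (D : CK K X) (L : X ⟶ X) : X ⟶ X :=
  ∑ j ∈ D.finite.toFinset, D.p j ≫ L ≫ D.p (j - 2)

theorem p_leadOp {X : C} (D : CK K X) (L : X ⟶ X) (j : ℤ) :
    D.p j ≫ leadOp D L = D.p j ≫ L ≫ D.p (j - 2) := by
  unfold leadOp
  rw [Preadditive.comp_sum]
  by_cases hj : j ∈ D.finite.toFinset
  · rw [Finset.sum_eq_single j]
    · rw [D.idem'_assoc]
    · intro i _ hi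
      rw [D.orth'_assoc (Ne.symm hi), Limits.zero_comp]
    · intro h
      exact absurd hj h
  · have h0 : D.p j = 0 := by
      by_contra h
      exact hj (by simpa using h)
    simp [h0]

theorem leadOp_p {X : C} (D : CK K X) (L : X ⟶ X) (j : ℤ) :
    leadOp D L ≫ D.p (j - 2) = D.p j ≫ L ≫ D.p (j - 2) := by
  unfold leadOp
  rw [Preadditive.sum_comp]
  by_cases hj : j ∈ D.finite.toFinset
  · rw [Finset.sum_eq_single j]
    · rw [Category.assoc, Category.assoc, D.idem']
    · intro i _ hi
      rw [Category.assoc, Category.assoc, D.orth' (by omega), Limits.comp_zero, Limits.comp_zero]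
    · intro h
      exact absurd hj h
  · have h0 : D.p j = 0 := by
      by_contra h
      exact hj (by simpa using h)
    rw [h0, Limits.zero_comp]
    refine Finset.sum_eq_zero (fun i hi => ?_)
    have hij : i ≠ j := by
      rintro rfl
      exact hj hi
    rw [Category.assoc, Category.assoc, D.orth' (by omega), Limits.comp_zero, Limits.comp_zero]

private theorem prodF37_leadOp_mem {X : C} (D : CK K X) (L : X ⟶ X) (hL : L ∈ K.deg X X 1) :
    leadOp D L ∈ K.deg X X 1 := by
  unfold leadOp
  refine Submodule.sum_mem _ (fun i _ => ?_)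
  exact K.comp_mem' (D.mem i) (K.comp_mem hL (D.mem (i - 2))) (by ring)

private theorem prodF37_lead {X : C} (D : CK K X) (L : X ⟶ X) (r : ℕ) (w : ℤ) :
    (show End X from lead D.p w (List.replicate r (1, L))) =
      (show End X from leadOp D L) ^ r * (show End X from D.p w) := by
  induction r generalizing w with
  | zero =>
    rw [pow_zero, one_mul]
    rfl
  | succ r ih =>
    rw [pow_succ, mul_assoc]
    have h1 : (show End X from leadOp D L) * (show End X from D.p w) =
        (show End X from D.p (w - 2)) * (show End X from D.p w ≫ L) := by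
      show D.p w ≫ leadOp D L = (D.p w ≫ L) ≫ D.p (w - 2)
      rw [p_leadOp, Category.assoc]
    rw [h1, ← mul_assoc]
    have h2 := ih (w - 2)
    rw [← h2]
    show lead D.p w (List.replicate (r + 1) (1, L)) =
      (D.p w ≫ L) ≫ lead D.p (w - 2) (List.replicate r (1, L))
    rw [List.replicate_succ, lead_cons, Category.assoc]
    norm_num

private theorem prodF37_hF {X : C} (D : CK K X) (L : X ⟶ X) (j : ℤ) :
    (show End X from leadOp D L) * (show End X from D.p j) =
      (show End X from D.p (j - 2)) * (show End X from leadOp D L) := by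
  show D.p j ≫ leadOp D L = leadOp D L ≫ D.p (j - 2)
  rw [p_leadOp, leadOp_p]

private theorem prodF37_inv {P : Pol C} (e : LCK K P) (L : P.X ⟶ P.X) (hL : L ∈ P.L 1) (i : ℕ) :
    ∃ G : End P.X, (show P.X ⟶ P.X from G) ∈ K.deg P.X P.X (-(i : ℤ)) ∧
      G * ((show End P.X from leadOp e.toCK L) ^ i *
        (show End P.X from e.p (P.n + i))) = (show End P.X from e.p (P.n + i)) ∧
      ((show End P.X from leadOp e.toCK L) ^ i *
        (show End P.X from e.p (P.n + i))) * G = (show End P.X from e.p (P.n + (-(i : ℤ)))) := by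
  rcases Nat.eq_zero_or_pos i with rfl | hi
  · refine ⟨(show End P.X from e.p (P.n + ((0 : ℕ) : ℤ))), ?_, ?_, ?_⟩
    · simpa using e.mem (P.n + ((0 : ℕ) : ℤ))
    · rw [pow_zero, one_mul]
      exact e.idem _
    · rw [pow_zero, one_mul]
      have h := e.idem (P.n + ((0 : ℕ) : ℤ))
      have h2 : P.n + (-((0 : ℕ) : ℤ)) = P.n + ((0 : ℕ) : ℤ) := by simp
      rw [h2]
      exact h
  · have hne : List.replicate i ((1 : ℕ), L) ≠ [] := by
      intro h
      have := congrArg List.length h
      simp at this
      omega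
    obtain ⟨G, hG, h1, h2⟩ := e.hard (List.replicate i (1, L)) hne (by
      intro a ha
      rw [List.eq_of_mem_replicate ha]
      exact ⟨Nat.one_pos, hL⟩)
    have ht : total (List.replicate i ((1 : ℕ), L)) = (i : ℤ) := by
      rw [total_replicate]; simp
    rw [ht] at hG h1 h2
    have hl := prodF37_lead e.toCK L i (P.n + i)
    refine ⟨G, hG, ?_, ?_⟩
    · rw [← hl]
      exact h1
    · rw [← hl]
      exact h2

private theorem prodF37_bound {X : C} (D : CK K X) (n : ℤ) :
    ∃ N : ℕ, ∀ i : ℤ, (N : ℤ) < |i| → D.p (n + i) = 0 := by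
  obtain ⟨s, hs, -⟩ := D.exists_finset
  refine ⟨∑ i ∈ s, (i - n).natAbs, fun i hi => hs _ (fun hmem => ?_)⟩
  have h1 : (n + i - n).natAbs ≤ ∑ i ∈ s, (i - n).natAbs :=
    Finset.single_le_sum (f := fun i : ℤ => (i - n).natAbs) (fun _ _ => Nat.zero_le _) hmem
  have h2 : ((n + i - n).natAbs : ℤ) = |i| := by
    rw [Int.natCast_natAbs]
    congr 1
    ring
  have h3 : (((n + i - n).natAbs : ℕ) : ℤ) ≤ ((∑ i ∈ s, (i - n).natAbs : ℕ) : ℤ) := by
    exact_mod_cast h1
  rw [h2] at h3
  exact absurd hi (not_lt.mpr h3)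

private theorem prodF37_sum {X : C} (D : CK K X) (n : ℤ) (N : ℕ)
    (hN : ∀ i : ℤ, (N : ℤ) < |i| → D.p (n + i) = 0) :
    ∑ i ∈ Finset.Icc (-(N : ℤ)) N, D.p (n + i) = 𝟙 X := by
  rw [← D.sum]
  have h1 : ∑ᶠ i, D.p i = ∑ᶠ i, D.p (n + i) := by
    rw [← finsum_comp_equiv (Equiv.addLeft n)]
    rfl
  rw [h1]
  symm
  apply finsum_eq_sum_of_support_subset
  intro i hi
  by_contra h
  apply hi
  apply hN
  rw [Finset.coe_Icc, Set.mem_Icc, not_and_or] at h
  rw [lt_abs]
  rcases h with h | h
  · right; linarith
  · left; linarith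

theorem exists_units {P : Pol C} (e : LCK K P) (L : P.X ⟶ P.X) (hL : L ∈ P.L 1) :
    ∃ (N : ℕ) (U : ℕ → ℕ → ℕ → End P.X),
      (∀ i : ℤ, (N : ℤ) < |i| → e.p (P.n + i) = 0) ∧
      (∀ i a b : ℕ, a ≤ i → b ≤ i → (U i a b : P.X ⟶ P.X) ∈ K.deg P.X P.X ((a : ℤ) - b)) ∧
      (∀ i a b j c d : ℕ, a ≤ i → b ≤ i → c ≤ j → d ≤ j →
        U i a b * U j c d = if i = j ∧ b = c then U i a d else 0) ∧
      (∀ i a b : ℕ, a ≤ i → b ≤ i →
        (show End P.X from e.p (P.n + ((i : ℤ) - 2 * a))) * U i a b = U i a b) ∧
      (∀ i a b : ℕ, a < i → b ≤ i →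
        (show End P.X from leadOp e.toCK L) * U i a b = U i (a + 1) b) ∧
      (∀ i b : ℕ, b ≤ i → (show End P.X from leadOp e.toCK L) * U i i b = 0) ∧
      (∑ i ∈ Finset.range (N + 1), ∑ a ∈ Finset.range (i + 1), U i a a = 1) := by
  obtain ⟨N, hN⟩ := prodF37_bound e.toCK P.n
  have hsum := prodF37_sum e.toCK P.n N hN
  choose G hG hG1 hG2 using prodF37_inv e L hL
  have hidem : ∀ i : ℤ, (show End P.X from e.p i) * (show End P.X from e.p i) =
      (show End P.X from e.p i) := fun i => e.idem i
  have horth : ∀ i j : ℤ, i ≠ j → (show End P.X from e.p i) * (show End P.X from e.p j) = 0 :=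
    fun i j h => e.orth j i (Ne.symm h)
  have hFp : ∀ j : ℤ, (show End P.X from leadOp e.toCK L) * (show End P.X from e.p j) =
      (show End P.X from e.p (j - 2)) * (show End P.X from leadOp e.toCK L) :=
    fun j => prodF37_hF e.toCK L j
  have hFpow : ∀ (r : ℕ) (j : ℤ), (show End P.X from leadOp e.toCK L) ^ r *
      (show End P.X from e.p j) = (show End P.X from e.p (j - 2 * r)) *
        (show End P.X from leadOp e.toCK L) ^ r := by
    intro r
    induction r with
    | zero => intro j; simp
    | succ r ih =>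
      intro j
      have hj : j - 2 - 2 * (r : ℤ) = j - 2 * ((r + 1 : ℕ) : ℤ) := by push_cast; ring
      rw [pow_succ, mul_assoc, hFp, ← mul_assoc, ih, hj, mul_assoc]
  have hFmem : leadOp e.toCK L ∈ K.deg P.X P.X 1 :=
    prodF37_leadOp_mem e.toCK L (by simpa using e.mem_L 1 L hL)
  have hA : ∀ i : ℕ, (show End P.X from e.p (P.n + (-(i : ℤ)))) *
      ((show End P.X from leadOp e.toCK L) ^ i * (show End P.X from e.p (P.n + i))) =
      (show End P.X from leadOp e.toCK L) ^ i * (show End P.X from e.p (P.n + i)) := by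
    intro i
    have hj : P.n + (i : ℤ) - 2 * (i : ℤ) = P.n + (-(i : ℤ)) := by ring
    rw [hFpow, hj, ← mul_assoc, hidem]
  let D : HLData (End P.X) :=
    { A := fun d => (K.deg P.X P.X d).toAddSubgroup
      one_mem := K.id_mem P.X
      mul_mem := fun d e' x y hx hy => K.comp_mem' hy hx (add_comm _ _)
      ε := fun i => e.p (P.n + i)
      N := N
      F := leadOp e.toCK L
      k := fun i => (show End P.X from e.p (P.n + i)) * G i *
        (show End P.X from e.p (P.n + (-(i : ℤ))))
      ε_mem := fun i => e.mem _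
      F_mem := hFmem
      k_mem := fun i => K.comp_mem' (e.mem _)
        (K.comp_mem' (hG i) (e.mem _) rfl) (by ring)
      idem := fun i => hidem _
      orth := fun i j h => horth _ _ (by intro h'; exact h (by linarith))
      hN := hN
      sum := hsum
      hF := fun i => by
        have hj : P.n + i - 2 = P.n + (i - 2) := by ring
        have := hFp (P.n + i)
        rw [hj] at this
        exact this
      k1 := fun i => by
        have h1 := hG1 i
        have h2 := hA i
        show (show End P.X from e.p (P.n + i)) * G i *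
          (show End P.X from e.p (P.n + (-(i : ℤ)))) *
          (show End P.X from leadOp e.toCK L) ^ i * (show End P.X from e.p (P.n + i)) =
          (show End P.X from e.p (P.n + i))
        rw [mul_assoc, mul_assoc, h2, mul_assoc, h1, hidem]
      k2 := fun i => by
        have h1 := hG2 i
        show (show End P.X from leadOp e.toCK L) ^ i * ((show End P.X from e.p (P.n + i)) * G i *
          (show End P.X from e.p (P.n + (-(i : ℤ))))) *
          (show End P.X from e.p (P.n + (-(i : ℤ)))) =
          (show End P.X from e.p (P.n + (-(i : ℤ))))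
        rw [mul_assoc, mul_assoc _ _ (show End P.X from e.p (P.n + (-(i : ℤ)))), hidem,
          ← mul_assoc, ← mul_assoc, h1, hidem]
      k3 := fun i => by
        show (show End P.X from e.p (P.n + i)) * ((show End P.X from e.p (P.n + i)) * G i *
          (show End P.X from e.p (P.n + (-(i : ℤ))))) = _
        rw [← mul_assoc, ← mul_assoc, hidem]
      k4 := fun i => by
        show ((show End P.X from e.p (P.n + i)) * G i *
          (show End P.X from e.p (P.n + (-(i : ℤ))))) *
          (show End P.X from e.p (P.n + (-(i : ℤ)))) = _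
        rw [mul_assoc, hidem] }
  obtain ⟨U, h1, h2, h3, h4, h5, h6⟩ := matrixUnits D
  exact ⟨N, U, hN, h1, h2, h3, h4, h5, h6⟩

end Pool.Agent.LefCK
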