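import Mathlib
import Pool.Agent.LefCK.Basic

/-!
# The product decomposition (module LCK-ProdCK)

PLAN. `prodP D D' w = ∑_{c} p c ⊗ p' (w - c)`.
`prodP_eq`: both sums can be restricted to the support of `D.p` (`MonoidalPreadditive.zero_tensor`), `Finset.sum_subset`.
`prodP_mul_pure`: `(p a ⊗ p' b) ≫ prodP w` is `p a ⊗ p' b` if `a + b = w`, else 0, and on the other side.
`exists_prodCK`: degrees by `K.tensor_mem` (0 + 0). Idempotent and orthogonal: from
`tensor_comp` and `D.orth`, `D'.orth`. Sum: over the finite set `T` of the `a + b`, `a ∈ s`, `b ∈ s'` (e.g. image of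
`s ×ˢ s'`): `∑_{w ∈ T} ∑_{c ∈ s} p c ⊗ p' (w - c) = ∑_{c ∈ s} p c ⊗ ∑_{b ∈ s'} p' b = 𝟙 ⊗ₘ 𝟙`
(`Finset.sum_comm`, reindex `b = w - c`). Zero outside `T`. Homology: by `CK.homology_of_pure` it suffices that `prodP w` kills
`z ∈ gr (X ⊗ X') j`, `j ≠ w`. Write `z = kunneth t` (`K.kunneth` is an equivalence); `t` is a sum of `x ⊗ₜ y` with `x ∈ gr X a`,
`y ∈ gr X' b` (`TensorProduct.induction_on`, `K.gr_induction`). Simplest: show that for every `z` (no degree assumption) `H (prodP w) z ∈ gr (X ⊗ X') w`, because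
`H (p c ⊗ p' (w-c)) (kunneth (x ⊗ y)) = kunneth (H (p c) x ⊗ H (p' (w-c)) y)` (`K.kunneth_map`) lies in `gr (c + (w - c))`
(`CK.map_p_mem`, `K.kunneth_gr`), additivity; and for `z ∈ gr j` also `H (prodP w) z ∈ gr j` (degree 0, `K.map_gr`); so it is zero
for `j ≠ w` by `K.gr_eq_zero`.
-/

open CategoryTheory MonoidalCategory TensorProduct

universe w v u

namespace Pool.Agent.LefCK

variable {C : Type u} [Category.{v} C] [Preadditive C] [Linear ℚ C]
  [MonoidalCategory C] [MonoidalPreadditive C] {F : Type w} [Field F]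
  {K : Correspondences C F} {X X' : C}

/-- The projector onto `⊕_{a + b = w} M_a ⊗ M'_b`. -/
noncomputable def prodP (D : CK K X) (D' : CK K X') (w : ℤ) : X ⊗ X' ⟶ X ⊗ X' :=
  ∑ c ∈ D.finite.toFinset, (D.p c ⊗ₘ D'.p (w - c))

theorem prodP_eq (D : CK K X) (D' : CK K X') (w : ℤ) (M : Finset ℤ)
    (hM : ∀ i, i ∉ M → D.p i = 0) : prodP D D' w = ∑ c ∈ M, (D.p c ⊗ₘ D'.p (w - c)) := by
  unfold prodP
  refine Finset.sum_subset ?_ ?_
  · intro c hc
    by_contra h
    have := hM c h
    rw [Set.Finite.mem_toFinset, Function.mem_support] at hc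
    exact hc this
  · intro c _ hc
    rw [Set.Finite.mem_toFinset, Function.mem_support, not_not] at hc
    rw [hc, MonoidalPreadditive.zero_tensor]

omit [Linear ℚ C] [MonoidalPreadditive C] in
private theorem tcomp {Y Z W Y' Z' W' : C} (f : Y ⟶ Z) (g : Z ⟶ W) (f' : Y' ⟶ Z')
    (g' : Z' ⟶ W') : (f ⊗ₘ f') ≫ (g ⊗ₘ g') = (f ≫ g) ⊗ₘ (f' ≫ g') :=
  MonoidalCategory.tensorHom_comp_tensorHom f f' g g'

theorem pure_comp_prodP (D : CK K X) (D' : CK K X') (a b w : ℤ) :
    (D.p a ⊗ₘ D'.p b) ≫ prodP D D' w = if a + b = w then (D.p a ⊗ₘ D'.p b) else 0 := by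
  classical
  obtain ⟨s, hs, -⟩ := D.exists_finset
  rw [prodP_eq D D' w (insert a s) (fun i hi => hs i (fun h => hi (Finset.mem_insert_of_mem h)))]
  rw [Preadditive.comp_sum, Finset.sum_eq_single a]
  · rw [tcomp, D.idem]
    by_cases h : a + b = w
    · rw [if_pos h, show w - a = b by omega, D'.idem]
    · rw [if_neg h, D'.orth b (w - a) (by omega), MonoidalPreadditive.tensor_zero]
  · intro c _ hc
    rw [tcomp, D.orth a c (Ne.symm hc), MonoidalPreadditive.zero_tensor]
  · intro h
    exact absurd (Finset.mem_insert_self a s) h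

theorem prodP_comp_pure (D : CK K X) (D' : CK K X') (a b w : ℤ) :
    prodP D D' w ≫ (D.p a ⊗ₘ D'.p b) = if a + b = w then (D.p a ⊗ₘ D'.p b) else 0 := by
  classical
  obtain ⟨s, hs, -⟩ := D.exists_finset
  rw [prodP_eq D D' w (insert a s) (fun i hi => hs i (fun h => hi (Finset.mem_insert_of_mem h)))]
  rw [Preadditive.sum_comp, Finset.sum_eq_single a]
  · rw [tcomp, D.idem]
    by_cases h : a + b = w
    · rw [if_pos h, show w - a = b by omega, D'.idem]
    · rw [if_neg h, D'.orth (w - a) b (by omega), MonoidalPreadditive.tensor_zero]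
  · intro c _ hc
    rw [tcomp, D.orth c a hc, MonoidalPreadditive.zero_tensor]
  · intro h
    exact absurd (Finset.mem_insert_self a s) h

theorem exists_prodCK (D : CK K X) (D' : CK K X') :
    ∃ E : CK K (X ⊗ X'), ∀ w, E.p w = prodP D D' w := by
  classical
  obtain ⟨s, hs, hsum⟩ := D.exists_finset
  obtain ⟨s', hs', hsum'⟩ := D'.exists_finset
  have hP : ∀ w, prodP D D' w = ∑ c ∈ s, (D.p c ⊗ₘ D'.p (w - c)) :=
    fun w => prodP_eq D D' w s hs
  set T : Finset ℤ := (s ×ˢ s').image (fun t => t.1 + t.2) with hT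
  have hT0 : ∀ w, w ∉ T → prodP D D' w = 0 := by
    intro w hw
    rw [hP]
    refine Finset.sum_eq_zero fun c hc => ?_
    have : w - c ∉ s' := by
      intro h
      apply hw
      rw [hT, Finset.mem_image]
      exact ⟨(c, w - c), Finset.mem_product.2 ⟨hc, h⟩, by simp⟩
    rw [hs' _ this, MonoidalPreadditive.tensor_zero]
  have hTsum : ∑ w ∈ T, prodP D D' w = 𝟙 (X ⊗ X') := by
    rw [Finset.sum_congr rfl fun w _ => hP w, Finset.sum_comm]
    have h1 : ∀ c ∈ s, ∑ w ∈ T, (D.p c ⊗ₘ D'.p (w - c)) = (D.p c ⊗ₘ 𝟙 X') := by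
      intro c hc
      rw [← tensor_sum]
      congr 1
      rw [← hsum']
      symm
      have h2 : ∑ b ∈ s', D'.p b = ∑ w ∈ s'.image (fun b => c + b), D'.p (w - c) := by
        rw [Finset.sum_image]
        · refine Finset.sum_congr rfl fun b _ => ?_
          congr 1
          omega
        · intro x _ y _ hxy
          simpa using hxy
      rw [h2]
      refine Finset.sum_subset ?_ ?_
      · intro w hw
        rw [Finset.mem_image] at hw
        obtain ⟨b, hb, rfl⟩ := hw
        rw [hT, Finset.mem_image]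
        exact ⟨(c, b), Finset.mem_product.2 ⟨hc, hb⟩, rfl⟩
      · intro w _ hw
        apply hs'
        intro h
        apply hw
        rw [Finset.mem_image]
        exact ⟨w - c, h, by omega⟩
    rw [Finset.sum_congr rfl h1, ← sum_tensor, hsum]
    exact MonoidalCategory.id_tensorHom_id _ _
  have hmem : ∀ w, prodP D D' w ∈ K.deg (X ⊗ X') (X ⊗ X') 0 := by
    intro w
    rw [hP]
    refine Submodule.sum_mem _ fun c _ => ?_
    have := K.tensor_mem (D.mem c) (D'.mem (w - c))
    rwa [add_zero] at this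
  have hidem : ∀ w, prodP D D' w ≫ prodP D D' w = prodP D D' w := by
    intro w
    conv_lhs => rw [hP w, ← hP w]
    rw [show prodP D D' w ≫ prodP D D' w = (∑ c ∈ s, (D.p c ⊗ₘ D'.p (w - c))) ≫ prodP D D' w by
      rw [← hP w]]
    rw [Preadditive.sum_comp]
    have : ∀ c ∈ s, (D.p c ⊗ₘ D'.p (w - c)) ≫ prodP D D' w = (D.p c ⊗ₘ D'.p (w - c)) := by
      intro c _
      rw [pure_comp_prodP, if_pos (by omega)]
    rw [Finset.sum_congr rfl this, ← hP w]
  have horth : ∀ w w', w ≠ w' → prodP D D' w ≫ prodP D D' w' = 0 := by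
    intro w w' hww
    rw [hP w, Preadditive.sum_comp]
    refine Finset.sum_eq_zero fun c _ => ?_
    rw [pure_comp_prodP, if_neg (by omega)]
  have hgr : ∀ (w : ℤ) (t : K.H.obj X ⊗[F] K.H.obj X'),
      (K.H.map (prodP D D' w)).hom (K.kunneth X X' t) ∈ K.gr (X ⊗ X') w := by
    intro w t
    induction t using TensorProduct.induction_on with
    | zero => rw [map_zero, map_zero]; exact Submodule.zero_mem _
    | tmul x y =>
      rw [hP w, K.map_sum_apply]
      refine Submodule.sum_mem _ fun c _ => ?_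
      rw [K.kunneth_map]
      have := K.kunneth_gr X X' c (w - c) _ _ (D.map_p_mem c x) (D'.map_p_mem (w - c) y)
      rwa [show c + (w - c) = w by omega] at this
    | add t t' h h' => rw [map_add, map_add]; exact Submodule.add_mem _ h h'
  refine ⟨CK.ofFinset T (prodP D D') hT0 hmem hidem horth hTsum ?_, fun w => rfl⟩
  refine CK.homology_of_pure T (prodP D D') hT0 hTsum ?_
  intro i j hij x hx
  have h1 : (K.H.map (prodP D D' i)).hom x ∈ K.gr (X ⊗ X') i := by
    have := hgr i ((K.kunneth X X').symm x)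
    rwa [LinearEquiv.apply_symm_apply] at this
  have h2 : (K.H.map (prodP D D' i)).hom x ∈ K.gr (X ⊗ X') j := by
    have := K.map_gr (hmem i) j x hx
    rwa [mul_zero, sub_zero] at this
  exact K.gr_eq_zero hij h2 h1

end Pool.Agent.LefCK
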