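import Mathlib
import Pool.Agent.LefCK.ProdCK

/-!
# Triangularity for products (module LCK-ProdN)

PLAN. `nonneg_tensor`: `prodP j ≫ (f ⊗ f') ≫ prodP i = ∑_{a} ∑_{c} (p a ≫ f ≫ p c) ⊗ (p' (j-a) ≫ f' ≫ p' (i-c))`
(`tensor_comp`); if `c ≥ a - 2d` and `i - c ≥ j - a - 2d'` then `i ≥ j - 2(d+d')`, contradiction, so every term is 0.
`prodPol_mem`: `d = 0`: `K.tensor_mem`; `d = 1`: sum of scalar multiples.
`prodPol_nonneg`: `d = 0`: `nonneg_tensor` with `d = d' = 0`; `d = 1`: `L ⊗ 1` (degrees 1, 0) and `1 ⊗ L'` (0, 1), where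
`p j ≫ 𝟙 ≫ p i = 0` for `i < j`; additivity.
-/

open CategoryTheory MonoidalCategory TensorProduct

universe w v u

namespace Pool.Agent.LefCK

variable {C : Type u} [Category.{v} C] [Preadditive C] [Linear ℚ C]
  [MonoidalCategory C] [MonoidalPreadditive C] {F : Type w} [Field F]
  {K : Correspondences C F}

private theorem tcompN {Y Z W Y' Z' W' : C} (f : Y ⟶ Z) (g : Z ⟶ W) (f' : Y' ⟶ Z')
    (g' : Z' ⟶ W') : (f ⊗ₘ f') ≫ (g ⊗ₘ g') = (f ≫ g) ⊗ₘ (f' ≫ g') :=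
  MonoidalCategory.tensorHom_comp_tensorHom f f' g g'

theorem nonneg_tensor {X X' : C} (D : CK K X) (D' : CK K X') (f : X ⟶ X) (f' : X' ⟶ X')
    (d d' : ℤ) (hf : ∀ i j, i < j - 2 * d → D.p j ≫ f ≫ D.p i = 0)
    (hf' : ∀ i j, i < j - 2 * d' → D'.p j ≫ f' ≫ D'.p i = 0) (i j : ℤ)
    (h : i < j - 2 * (d + d')) : prodP D D' j ≫ (f ⊗ₘ f') ≫ prodP D D' i = 0 := by
  unfold prodP
  rw [Preadditive.sum_comp]
  refine Finset.sum_eq_zero fun a _ => ?_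
  rw [Preadditive.comp_sum, Preadditive.comp_sum]
  refine Finset.sum_eq_zero fun c _ => ?_
  rw [tcompN, tcompN]
  by_cases h1 : c < a - 2 * d
  · rw [hf c a h1, MonoidalPreadditive.zero_tensor]
  · rw [hf' (i - c) (j - a) (by omega), MonoidalPreadditive.tensor_zero]

variable {P P' : Pol C} (e : LCK K P) (e' : LCK K P') {L : P.X ⟶ P.X} {L' : P'.X ⟶ P'.X}
  (hL : L ∈ P.L 1) (hL' : L' ∈ P'.L 1)

include e e' hL hL'

theorem prodPol_mem (d : ℕ) (g : P.X ⊗ P'.X ⟶ P.X ⊗ P'.X) (hg : g ∈ (prodPol P P' L L').L d) :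
    g ∈ K.deg (P.X ⊗ P'.X) (P.X ⊗ P'.X) d := by
  rcases hg with ⟨rfl, f, hf, f', hf', rfl⟩ | ⟨rfl, a, b, -, -, rfl⟩
  · exact K.mem_cast (K.tensor_mem (e.mem_L 0 f hf) (e'.mem_L 0 f' hf')) (by simp)
  · refine Submodule.add_mem _ (Submodule.smul_mem _ _ ?_) (Submodule.smul_mem _ _ ?_)
    · exact K.mem_cast (K.tensor_mem (e.mem_L 1 L hL) (K.id_mem P'.X)) (by simp)
    · exact K.mem_cast (K.tensor_mem (K.id_mem P.X) (e'.mem_L 1 L' hL')) (by simp)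

theorem prodPol_nonneg (d : ℕ) (g : P.X ⊗ P'.X ⟶ P.X ⊗ P'.X)
    (hg : g ∈ (prodPol P P' L L').L d) (i j : ℤ) (h : i < j - 2 * (d : ℤ)) :
    prodP e.toCK e'.toCK j ≫ g ≫ prodP e.toCK e'.toCK i = 0 := by
  have hid : ∀ {X : C} (D : CK K X) (i j : ℤ), i < j - 2 * 0 → D.p j ≫ 𝟙 X ≫ D.p i = 0 := by
    intro X D i j hij
    rw [Category.id_comp, D.orth j i (by omega)]
  rcases hg with ⟨rfl, f, hf, f', hf', rfl⟩ | ⟨rfl, a, b, -, -, rfl⟩
  · refine nonneg_tensor e.toCK e'.toCK f f' 0 0 ?_ ?_ i j (by simpa using h)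
    · intro i j hij
      exact e.nonneg 0 f hf i j (by simpa using hij)
    · intro i j hij
      exact e'.nonneg 0 f' hf' i j (by simpa using hij)
  · have h1 : prodP e.toCK e'.toCK j ≫ (L ⊗ₘ 𝟙 P'.X) ≫ prodP e.toCK e'.toCK i = 0 := by
      refine nonneg_tensor e.toCK e'.toCK L (𝟙 P'.X) 1 0 ?_ (hid e'.toCK) i j (by simpa using h)
      intro i j hij
      exact e.nonneg 1 L hL i j (by simpa using hij)
    have h2 : prodP e.toCK e'.toCK j ≫ (𝟙 P.X ⊗ₘ L') ≫ prodP e.toCK e'.toCK i = 0 := by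
      refine nonneg_tensor e.toCK e'.toCK (𝟙 P.X) L' 0 1 (hid e.toCK) ?_ i j (by simpa using h)
      intro i j hij
      exact e'.nonneg 1 L' hL' i j (by simpa using hij)
    rw [Preadditive.add_comp, Preadditive.comp_add, Linear.smul_comp, Linear.smul_comp,
      Linear.comp_smul, Linear.comp_smul, h1, h2, smul_zero, smul_zero, add_zero]

end Pool.Agent.LefCK
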