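import Mathlib
import Pool.Agent.LefCK.ProdN
import Pool.Agent.LefCK.ProdF

/-!
# Leading components on products (module LCK-ProdL)

`prodF e e' L L' t = t.1 • (F ⊗ 1) + t.2 • (1 ⊗ F')` with `F = leadOp e.toCK L`, `F' = leadOp e'.toCK L'`.

PLAN. Write `Q w = prodP e.toCK e'.toCK w`.
(1) `Q w ≫ (a • (L ⊗ 1) + b • (1 ⊗ L')) ≫ Q (w - 2) = Q w ≫ prodF (a, b) = prodF (a, b) ≫ Q (w-2)`: expand `Q w` and `Q (w-2)`; for `L ⊗ 1`:
  `(p c ⊗ p' (w-c)) ≫ (L ⊗ 1) ≫ (p c' ⊗ p' (w-2-c')) = (p c ≫ L ≫ p c') ⊗ (p' (w-c) ≫ p' (w-2-c'))` is zero unless `c' = c - 2`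
  (`D'.orth`), so the sum is `∑_c (p c ≫ L ≫ p (c-2)) ⊗ p' (w-c) = Q w ≫ (F ⊗ 1)` (`p_leadOp`); it is also `(F ⊗ 1) ≫ Q (w-2)`
  (`leadOp_p`). Same for `1 ⊗ L'`.
(2) `prodF t` and `prodF t'` commute: `(F ⊗ 1) ≫ (1 ⊗ F') = F ⊗ F' = (1 ⊗ F') ≫ (F ⊗ 1)`.
(3) `lead Q w l = Q w ≫ (composition of the prodF)`, by induction on the list (`List.Forall₂` or `List.map`), then to the form
  of the statement: in `End`, `f * g = g ≫ f`, so `(l.map prodF).prod * Q w = Q w ≫ (..)`.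
  Induction: `lead Q w (g :: l) = Q w ≫ g ≫ lead Q (w-2) l`, `lead Q (w-2) l = Q (w-2) ≫ Π_l` (`Π_l` the product in `End`), so it is
  `(Q w ≫ g ≫ Q (w-2)) ≫ Π_l = Q w ≫ prodF t ≫ Π_l`, and `prodF t ≫ Π_l = Π_l * prodF t = prodF t * Π_l` by (2)
  (`Commute.list_prod_right`).
-/

open CategoryTheory MonoidalCategory TensorProduct

universe w v u

namespace Pool.Agent.LefCK

variable {C : Type u} [Category.{v} C] [Preadditive C] [Linear ℚ C]
  [MonoidalCategory C] [MonoidalPreadditive C] {F : Type w} [Field F]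
  {K : Correspondences C F}

/-- `a (F ⊗ 1) + b (1 ⊗ F')` as an element of the ring `End (X ⊗ X')`. -/
noncomputable def prodF {X X' : C} (D : CK K X) (D' : CK K X') (L : X ⟶ X) (L' : X' ⟶ X')
    (t : ℚ × ℚ) : End (X ⊗ X') :=
  t.1 • (show End (X ⊗ X') from (leadOp D L ⊗ₘ 𝟙 X')) +
    t.2 • (show End (X ⊗ X') from (𝟙 X ⊗ₘ leadOp D' L'))

private theorem tcompL {Y Z W Y' Z' W' : C} (f : Y ⟶ Z) (g : Z ⟶ W) (f' : Y' ⟶ Z')
    (g' : Z' ⟶ W') : (f ⊗ₘ f') ≫ (g ⊗ₘ g') = (f ≫ g) ⊗ₘ (f' ≫ g') :=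
  MonoidalCategory.tensorHom_comp_tensorHom f f' g g'

private theorem termA {X X' : C} (D : CK K X) (D' : CK K X') (L : X ⟶ X) (w c : ℤ) :
    (D.p c ⊗ₘ D'.p (w - c)) ≫ (L ⊗ₘ 𝟙 X') ≫ prodP D D' (w - 2) =
      (D.p c ⊗ₘ D'.p (w - c)) ≫ (leadOp D L ⊗ₘ 𝟙 X') := by
  classical
  obtain ⟨s, hs, -⟩ := D.exists_finset
  rw [prodP_eq D D' (w - 2) (insert (c - 2) s)
    (fun i hi => hs i (fun h => hi (Finset.mem_insert_of_mem h)))]
  rw [← Category.assoc, tcompL, Category.comp_id, Preadditive.comp_sum,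
    Finset.sum_eq_single (c - 2)]
  · rw [tcompL, tcompL, p_leadOp, Category.comp_id, Category.assoc,
      show w - 2 - (c - 2) = w - c by omega, D'.idem]
  · intro c' _ hc'
    rw [tcompL, D'.orth (w - c) (w - 2 - c') (by omega), MonoidalPreadditive.tensor_zero]
  · intro h
    exact absurd (Finset.mem_insert_self _ s) h

private theorem termB {X X' : C} (D : CK K X) (D' : CK K X') (L' : X' ⟶ X') (w c : ℤ) :
    (D.p c ⊗ₘ D'.p (w - c)) ≫ (𝟙 X ⊗ₘ L') ≫ prodP D D' (w - 2) =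
      (D.p c ⊗ₘ D'.p (w - c)) ≫ (𝟙 X ⊗ₘ leadOp D' L') := by
  classical
  obtain ⟨s, hs, -⟩ := D.exists_finset
  rw [prodP_eq D D' (w - 2) (insert c s)
    (fun i hi => hs i (fun h => hi (Finset.mem_insert_of_mem h)))]
  rw [← Category.assoc, tcompL, Category.comp_id, Preadditive.comp_sum,
    Finset.sum_eq_single c]
  · rw [tcompL, tcompL, p_leadOp, Category.comp_id, Category.assoc, D.idem,
      show w - 2 - c = w - c - 2 by omega]
  · intro c' _ hc'
    rw [tcompL, D.orth c c' (Ne.symm hc'), MonoidalPreadditive.zero_tensor]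
  · intro h
    exact absurd (Finset.mem_insert_self _ s) h

private theorem stepA {X X' : C} (D : CK K X) (D' : CK K X') (L : X ⟶ X) (w : ℤ) :
    prodP D D' w ≫ (L ⊗ₘ 𝟙 X') ≫ prodP D D' (w - 2) =
      prodP D D' w ≫ (leadOp D L ⊗ₘ 𝟙 X') := by
  conv_lhs => rw [show prodP D D' w = ∑ c ∈ D.finite.toFinset, (D.p c ⊗ₘ D'.p (w - c)) from rfl]
  conv_rhs => rw [show prodP D D' w = ∑ c ∈ D.finite.toFinset, (D.p c ⊗ₘ D'.p (w - c)) from rfl]
  rw [Preadditive.sum_comp, Preadditive.sum_comp]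
  exact Finset.sum_congr rfl fun c _ => termA D D' L w c

private theorem stepB {X X' : C} (D : CK K X) (D' : CK K X') (L' : X' ⟶ X') (w : ℤ) :
    prodP D D' w ≫ (𝟙 X ⊗ₘ L') ≫ prodP D D' (w - 2) =
      prodP D D' w ≫ (𝟙 X ⊗ₘ leadOp D' L') := by
  conv_lhs => rw [show prodP D D' w = ∑ c ∈ D.finite.toFinset, (D.p c ⊗ₘ D'.p (w - c)) from rfl]
  conv_rhs => rw [show prodP D D' w = ∑ c ∈ D.finite.toFinset, (D.p c ⊗ₘ D'.p (w - c)) from rfl]
  rw [Preadditive.sum_comp, Preadditive.sum_comp]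
  exact Finset.sum_congr rfl fun c _ => termB D D' L' w c

private theorem comm_lin {Z : C} (A B : Z ⟶ Z) (h : B ≫ A = A ≫ B) (a b c d : ℚ) :
    (a • A + b • B) ≫ (c • A + d • B) = (c • A + d • B) ≫ (a • A + b • B) := by
  simp only [Preadditive.add_comp, Preadditive.comp_add, Linear.smul_comp, Linear.comp_smul, h]
  simp only [smul_add, smul_smul]
  rw [mul_comm a c, mul_comm b d, mul_comm b c, mul_comm a d]
  abel

private theorem prodF_comm {X X' : C} (D : CK K X) (D' : CK K X') (L : X ⟶ X) (L' : X' ⟶ X')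
    (t t' : ℚ × ℚ) : Commute (prodF D D' L L' t) (prodF D D' L L' t') := by
  show prodF D D' L L' t * prodF D D' L L' t' = prodF D D' L L' t' * prodF D D' L L' t
  rw [End.mul_def, End.mul_def]
  unfold prodF
  refine comm_lin (leadOp D L ⊗ₘ 𝟙 X') (𝟙 X ⊗ₘ leadOp D' L') ?_ _ _ _ _
  rw [tcompL, tcompL, Category.comp_id, Category.id_comp, Category.comp_id, Category.id_comp]

theorem lead_prod {X X' : C} (D : CK K X) (D' : CK K X') (L : X ⟶ X) (L' : X' ⟶ X')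
    (l : List (ℚ × ℚ)) (w : ℤ) :
    (show End (X ⊗ X') from lead (prodP D D') w
      (l.map (fun t => ((1 : ℕ), t.1 • (L ⊗ₘ 𝟙 X') + t.2 • (𝟙 X ⊗ₘ L'))))) =
      (l.map (prodF D D' L L')).prod * (show End (X ⊗ X') from prodP D D' w) := by
  induction l generalizing w with
  | nil =>
    rw [List.map_nil, lead_nil, List.map_nil, List.prod_nil, one_mul]
  | cons t l ih =>
    rw [List.map_cons, lead_cons, List.map_cons, List.prod_cons]
    have hih : lead (prodP D D') (w - 2 * (((1 : ℕ), t.1 • (L ⊗ₘ 𝟙 X') +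
        t.2 • (𝟙 X ⊗ₘ L')).1 : ℤ))
        (l.map (fun t => ((1 : ℕ), t.1 • (L ⊗ₘ 𝟙 X') + t.2 • (𝟙 X ⊗ₘ L')))) =
        prodP D D' (w - 2) ≫ ((l.map (prodF D D' L L')).prod : End (X ⊗ X')) := by
      have := ih (w - 2)
      rw [End.mul_def] at this
      simpa using this
    rw [hih]
    have hcomm : prodF D D' L L' t * (l.map (prodF D D' L L')).prod =
        (l.map (prodF D D' L L')).prod * prodF D D' L L' t := by
      refine Commute.list_prod_right _ _ ?_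
      intro y hy
      rw [List.mem_map] at hy
      obtain ⟨t', -, rfl⟩ := hy
      exact prodF_comm D D' L L' t t'
    rw [hcomm, End.mul_def, End.mul_def]
    have hstep : prodP D D' w ≫ (t.1 • (L ⊗ₘ 𝟙 X') + t.2 • (𝟙 X ⊗ₘ L')) ≫
        prodP D D' (w - 2) = prodP D D' w ≫ prodF D D' L L' t := by
      unfold prodF
      rw [Preadditive.add_comp, Preadditive.comp_add, Linear.smul_comp, Linear.smul_comp,
        Linear.comp_smul, Linear.comp_smul, stepA, stepB]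
      rw [Preadditive.comp_add, Linear.comp_smul, Linear.comp_smul]
    show prodP D D' w ≫ (t.1 • (L ⊗ₘ 𝟙 X') + t.2 • (𝟙 X ⊗ₘ L')) ≫ prodP D D' (w - 2) ≫
      ((l.map (prodF D D' L L')).prod : End (X ⊗ X')) = prodP D D' w ≫ prodF D D' L L' t ≫
      ((l.map (prodF D D' L L')).prod : End (X ⊗ X'))
    rw [← Category.assoc (prodP D D' w) (prodF D D' L L' t), ← hstep, Category.assoc,
      Category.assoc]

end Pool.Agent.LefCK
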