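import Mathlib

/-!
# Gram-Schmidt for idempotents (module LCK-GS, pure ring theory)

PLAN. Induction on the finite set `I` with `Finset.induction_on_min` (or induction_on_max for the
order dual; the new element `a` is SMALLER than all elements of `I`), for fixed `m`
(`m ∉ I` is needed for `insert a I`). Prove the statement
with all the properties at once. Empty set: `q m = 1`, `q j = 0` otherwise.
Step: let `q` be given for `I`, `B := q m`, `a < k` for all `k ∈ I`, `a ≠ m`. Put
`q' a := B * w a`, `q' m := B - B * w a`, `q' j := q j` otherwise.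
Facts: `w a * q j = 0` for `j ∈ I` (by the last property: `q j = ∑ w k * r k`, `k ∈ I`,
`w a * w k = 0` as `a < k`), hence `w a * B = w a * (1 - ∑_{j ∈ I} q j) = w a`. From this:
`q' a * q' a = B * (w a * B) * w a = B * w a`; `w a * q' a = w a * B * w a = w a`;
`w i * q' a = (w i * B) * w a = 0` for `i ∈ I`; `w a * q' m = w a * B - w a * B * w a = 0`;
`q' m * w i = B * w i - B * (w a * w i) = 0` for `i ∈ I`; `q' m * w a = 0`; `q' a * w a = q' a`;
`q' a = B * w a = w a - ∑_{j ∈ I} q j * w a` and `q j = ∑_{k ∈ I, j ≤ k} w k * r k`, so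
`q' a ∈ ∑_{k ∈ insert a I} w k * R`. Orthogonality: all products among `q' a, q' m, q j (j ∈ I)` by
the same rules. Sum: clear.
-/

namespace Pool.Agent.LefCK

private def GSpan {R : Type*} [Ring R] (w : ℤ → R) (A : Finset ℤ) (x : R) : Prop :=
  ∃ r : ℤ → R, x = ∑ k ∈ A, w k * r k

private theorem GSpan.neg {R : Type*} [Ring R] {w : ℤ → R} {A : Finset ℤ} {x : R}
    (h : GSpan w A x) : GSpan w A (-x) := by
  obtain ⟨r, rfl⟩ := h
  refine ⟨fun k => - r k, ?_⟩
  rw [← Finset.sum_neg_distrib]
  exact Finset.sum_congr rfl fun k _ => by rw [mul_neg]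

private theorem GSpan.add {R : Type*} [Ring R] {w : ℤ → R} {A : Finset ℤ} {x y : R}
    (h : GSpan w A x) (h' : GSpan w A y) : GSpan w A (x + y) := by
  obtain ⟨r, rfl⟩ := h
  obtain ⟨r', rfl⟩ := h'
  refine ⟨fun k => r k + r' k, ?_⟩
  rw [← Finset.sum_add_distrib]
  exact Finset.sum_congr rfl fun k _ => by rw [mul_add]

private theorem GSpan.mul {R : Type*} [Ring R] {w : ℤ → R} {A : Finset ℤ} {x : R}
    (h : GSpan w A x) (y : R) : GSpan w A (x * y) := by
  obtain ⟨r, rfl⟩ := h
  refine ⟨fun k => r k * y, ?_⟩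
  rw [Finset.sum_mul]
  exact Finset.sum_congr rfl fun k _ => by rw [mul_assoc]

private theorem GSpan.zero {R : Type*} [Ring R] (w : ℤ → R) (A : Finset ℤ) : GSpan w A 0 :=
  ⟨fun _ => 0, by simp⟩

private theorem GSpan.self {R : Type*} [Ring R] (w : ℤ → R) {A : Finset ℤ} {k : ℤ} (hk : k ∈ A) :
    GSpan w A (w k) := by
  refine ⟨fun j => if j = k then 1 else 0, ?_⟩
  rw [Finset.sum_eq_single_of_mem k hk]
  · simp
  · intro j _ hj
    simp [hj]

private theorem GSpan.mono {R : Type*} [Ring R] {w : ℤ → R} {A A' : Finset ℤ} (hA : A ⊆ A')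
    {x : R} (h : GSpan w A x) : GSpan w A' x := by
  obtain ⟨r, rfl⟩ := h
  refine ⟨fun k => if k ∈ A then r k else 0, ?_⟩
  rw [← Finset.sum_subset hA]
  · exact Finset.sum_congr rfl fun k hk => by simp only [if_pos hk]
  · intro k _ hk
    simp only [if_neg hk, mul_zero]

private theorem GSpan.sum {R : Type*} [Ring R] {w : ℤ → R} {A : Finset ℤ} (S : Finset ℤ)
    (x : ℤ → R) (h : ∀ j ∈ S, GSpan w A (x j)) : GSpan w A (∑ j ∈ S, x j) := by
  induction S using Finset.induction_on with
  | empty => rw [Finset.sum_empty]; exact GSpan.zero w A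
  | insert a S ha ih =>
    rw [Finset.sum_insert ha]
    exact (h a (Finset.mem_insert_self a S)).add (ih fun j hj => h j (Finset.mem_insert_of_mem hj))

theorem gramSchmidt {R : Type*} [Ring R] (I : Finset ℤ) (m : ℤ) (hm : m ∉ I) (w : ℤ → R)
    (hw : ∀ i ∈ I, w i * w i = w i) (hw' : ∀ i ∈ I, ∀ j ∈ I, i < j → w i * w j = 0) :
    ∃ q : ℤ → R, (∀ j, j ∉ insert m I → q j = 0) ∧ (∑ j ∈ insert m I, q j = 1) ∧
      (∀ j, q j * q j = q j) ∧ (∀ i j, i ≠ j → q i * q j = 0) ∧
      (∀ j ∈ I, w j * q j = w j) ∧ (∀ i ∈ I, ∀ j, j ≠ i → w i * q j = 0) ∧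
      (∀ i ∈ I, q m * w i = 0) ∧ (∀ j ∈ I, q j * w j = q j) ∧
      (∀ j ∈ I, ∃ r : ℤ → R, q j = ∑ k ∈ I.filter (fun k => j ≤ k), w k * r k) := by
  induction I using Finset.induction_on_min with
  | empty =>
    refine ⟨fun j => if j = m then 1 else 0, ?_, ?_, ?_, ?_, ?_, ?_, ?_, ?_, ?_⟩
    · intro j hj
      rw [Finset.mem_insert, not_or] at hj
      simp only
      rw [if_neg hj.1]
    · simp
    · intro j
      by_cases h : j = m
      · simp [h]
      · simp [h]
    · intro i j hij
      by_cases h : i = m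
      · have h2 : ¬ j = m := fun h3 => hij (h.trans h3.symm)
        simp [h, h2]
      · simp [h]
    · intro j hj
      exact absurd hj (Finset.notMem_empty j)
    · intro j hj
      exact absurd hj (Finset.notMem_empty j)
    · intro j hj
      exact absurd hj (Finset.notMem_empty j)
    · intro j hj
      exact absurd hj (Finset.notMem_empty j)
    · intro j hj
      exact absurd hj (Finset.notMem_empty j)
  | insert a I ha ih =>
    have hma : m ≠ a := fun h => hm (h ▸ Finset.mem_insert_self a I)
    have hmI : m ∉ I := fun h => hm (Finset.mem_insert_of_mem h)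
    have haI : a ∉ I := fun h => lt_irrefl a (ha a h)
    obtain ⟨q, P1, P2, P3, P4, P5, P6, P7, P8, P9⟩ := ih hmI
      (fun i hi => hw i (Finset.mem_insert_of_mem hi))
      (fun i hi j hj => hw' i (Finset.mem_insert_of_mem hi) j (Finset.mem_insert_of_mem hj))
    have P9' : ∀ j ∈ I, GSpan w (I.filter (fun k => j ≤ k)) (q j) := P9
    have hwaa : w a * w a = w a := hw a (Finset.mem_insert_self a I)
    have hwak : ∀ k ∈ I, w a * w k = 0 := fun k hk =>
      hw' a (Finset.mem_insert_self a I) k (Finset.mem_insert_of_mem hk) (ha k hk)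
    have F1 : ∀ j, j ≠ m → w a * q j = 0 := by
      intro j hj
      by_cases hjI : j ∈ I
      · obtain ⟨r, hr⟩ := P9 j hjI
        rw [hr, Finset.mul_sum]
        apply Finset.sum_eq_zero
        intro k hk
        rw [← mul_assoc, hwak k (Finset.mem_filter.1 hk).1, zero_mul]
      · rw [P1 j (fun h => (Finset.mem_insert.1 h).elim hj hjI), mul_zero]
    have hB : q m = 1 - ∑ j ∈ I, q j := by
      rw [← P2, Finset.sum_insert hmI]
      abel
    have F2 : w a * q m = w a := by
      rw [hB, mul_sub, mul_one, Finset.mul_sum, Finset.sum_eq_zero, sub_zero]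
      intro j hj
      exact F1 j (fun h => hmI (h ▸ hj))
    have F4 : ∀ i ∈ I, w i * q m = 0 := fun i hi => P6 i hi m (fun h => hmI (h ▸ hi))
    have F5 : ∀ j, j ≠ m → q m * q j = 0 := fun j hj => P4 m j (fun h => hj h.symm)
    have F6 : ∀ j, j ≠ m → q j * q m = 0 := fun j hj => P4 j m hj
    have F7 : q m * w a * q m = q m * w a := by rw [mul_assoc, F2]
    have F8 : q m * w a * (q m * w a) = q m * w a := by
      rw [← mul_assoc, F7, mul_assoc, hwaa]
    have F9 : q m * (q m * w a) = q m * w a := by rw [← mul_assoc, P3]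
    have F10 : w a * (q m * w a) = w a := by rw [← mul_assoc, F2, hwaa]
    set q' : ℤ → R := fun j => if j = a then q m * w a else if j = m then q m - q m * w a else q j
      with hq'
    have Qa : q' a = q m * w a := by rw [hq']; simp
    have Qm : q' m = q m - q m * w a := by rw [hq']; simp [hma]
    have Qo : ∀ j, j ≠ a → j ≠ m → q' j = q j := by
      intro j h1 h2
      rw [hq']
      simp [h1, h2]
    have QI : ∀ j ∈ I, q' j = q j := fun j hj =>
      Qo j (fun h => haI (h ▸ hj)) (fun h => hmI (h ▸ hj))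
    refine ⟨q', ?_, ?_, ?_, ?_, ?_, ?_, ?_, ?_, ?_⟩
    · intro j hj
      rw [Finset.mem_insert, Finset.mem_insert, not_or, not_or] at hj
      rw [Qo j hj.2.1 hj.1]
      exact P1 j (fun h => (Finset.mem_insert.1 h).elim hj.1 hj.2.2)
    · rw [Finset.sum_insert hm, Finset.sum_insert haI, Qa, Qm, Finset.sum_congr rfl QI, hB]
      noncomm_ring
    · intro j
      by_cases h1 : j = a
      · rw [h1, Qa, F8]
      · by_cases h2 : j = m
        · rw [h2, Qm, sub_mul, mul_sub, mul_sub, P3, F9, F7, F8]
          abel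
        · rw [Qo j h1 h2, P3]
    · intro i j hij
      by_cases i1 : i = a
      · rw [i1, Qa]
        by_cases j2 : j = m
        · rw [j2, Qm, mul_sub, F7, F8, sub_self]
        · rw [Qo j (fun h => hij (i1.trans h.symm)) j2, mul_assoc, F1 j j2, mul_zero]
      · by_cases i2 : i = m
        · rw [i2, Qm]
          by_cases j1 : j = a
          · rw [j1, Qa, sub_mul, F9, F8, sub_self]
          · have j2 : j ≠ m := fun h => hij (i2.trans h.symm)
            rw [Qo j j1 j2, sub_mul, F5 j j2, mul_assoc, F1 j j2, mul_zero, sub_zero]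
        · rw [Qo i i1 i2]
          by_cases j1 : j = a
          · rw [j1, Qa, ← mul_assoc, F6 i i2, zero_mul]
          · by_cases j2 : j = m
            · rw [j2, Qm, mul_sub, ← mul_assoc, F6 i i2, zero_mul, sub_zero]
            · rw [Qo j j1 j2, P4 i j hij]
    · intro j hj
      rcases Finset.mem_insert.1 hj with h | h
      · rw [h, Qa, F10]
      · rw [QI j h, P5 j h]
    · intro i hi j hji
      rcases Finset.mem_insert.1 hi with h | h
      · rw [h] at hji ⊢
        by_cases j2 : j = m
        · rw [j2, Qm, mul_sub, F2, F10, sub_self]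
        · rw [Qo j hji j2, F1 j j2]
      · by_cases j1 : j = a
        · rw [j1, Qa, ← mul_assoc, F4 i h, zero_mul]
        · by_cases j2 : j = m
          · rw [j2, Qm, mul_sub, ← mul_assoc, F4 i h, zero_mul, sub_zero]
          · rw [Qo j j1 j2, P6 i h j hji]
    · intro i hi
      rcases Finset.mem_insert.1 hi with h | h
      · rw [h, Qm, sub_mul, mul_assoc, hwaa, sub_self]
      · rw [Qm, sub_mul, P7 i h, mul_assoc, hwak i h, mul_zero, sub_zero]
    · intro j hj
      rcases Finset.mem_insert.1 hj with h | h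
      · rw [h, Qa, mul_assoc, hwaa]
      · rw [QI j h, P8 j h]
    · intro j hj
      rcases Finset.mem_insert.1 hj with h | h
      · have e1 : q' j = w a + - ∑ i ∈ I, q i * w a := by
          rw [h, Qa, hB, sub_mul, one_mul, Finset.sum_mul, sub_eq_add_neg]
        rw [h] at e1 ⊢
        have g : GSpan w ((insert a I).filter (fun k => a ≤ k)) (w a + - ∑ i ∈ I, q i * w a) := by
          refine (GSpan.self w (Finset.mem_filter.2 ⟨Finset.mem_insert_self a I, le_rfl⟩)).add
            (GSpan.neg (GSpan.sum I _ fun i hi => ?_))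
          refine GSpan.mono ?_ ((P9' i hi).mul (w a))
          intro k hk
          rw [Finset.mem_filter] at hk ⊢
          exact ⟨Finset.mem_insert_of_mem hk.1, (ha k hk.1).le⟩
        rw [e1]
        exact g
      · rw [QI j h]
        have g : GSpan w ((insert a I).filter (fun k => j ≤ k)) (q j) := by
          refine GSpan.mono ?_ (P9' j h)
          intro k hk
          rw [Finset.mem_filter] at hk ⊢
          exact ⟨Finset.mem_insert_of_mem hk.1, hk.2⟩
        exact g

end Pool.Agent.LefCK
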