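import Mathlib
import Pool.Agent.LefCK.Basic
import Pool.Agent.LefCK.GS

/-!
# Quotients: the decomposition (module LCK-QuoA)

Notation: `π = ret ≫ inc ∈ P.L 0` (`Z.proj`), idempotent as `inc ≫ ret = 1`; `e.p j ≫ π ≫ e.p i = 0` for `i < j` by
`e.nonneg 0`. `ρ j := e.p j ≫ π ≫ e.p j`, `w j := inc ≫ ρ j ≫ ret : Y ⟶ Y`, degree 0.

PLAN.
(1) `ρ j ≫ ρ j = ρ j`: `e.p j ≫ π ≫ π ≫ e.p j = ρ j`, insert `e.p k` (`e.toCK.comp_eq`): `e.p j ≫ π ≫ e.p k = 0` for
 `k < j`, `e.p k ≫ π ≫ e.p j = 0` for `j < k`.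
(2) `w j ≫ w i = inc ≫ ρ j ≫ π ≫ ρ i ≫ ret`; it is 0 for `i < j` and `w j ≫ w j = w j` (`ρ j ≫ π ≫ ρ j = ρ j ≫ ρ j ≫ ρ j`).
(3) `gramSchmidt` in `K.zeroRing Z.Y` with `I = s` from `e.toCK.exists_finset` and any `m ∉ s`
 (`Infinite.exists_notMem_finset`), `w i * w j = w j ≫ w i` (`End.mul_def`).
(4) `B := q m` is 0. We have `w j * B = 0`, i.e. `B ≫ w j = 0`, for all `j ∈ s`. Put `β := B ≫ inc : Y ⟶ X`; `β ≫ π = β`.
 `B ≫ w j ≫ inc = β ≫ ρ j ≫ π = 0`, compose with `e.p j`: `β ≫ ρ j ≫ π ≫ e.p j = β ≫ ρ j ≫ ρ j = β ≫ ρ j = 0`, i.e.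
 `β ≫ e.p j ≫ π ≫ e.p j = 0`, for all `j` (for `j ∉ s` trivial). Then `β ≫ e.p j = β ≫ π ≫ e.p j =
 ∑_{k ≤ j} β ≫ e.p k ≫ π ≫ e.p j = ∑_{k < j} ...` — so by strong induction on `j` (bounded below on `s`; e.g. induct on
 `(s.filter (· < j)).card`, or `Finset`/`Int` induction from a lower bound) `β ≫ e.p j = 0` for all `j`, hence `β = 0`,
 `B = B ≫ inc ≫ ret = 0`.
 (Here `k` runs over all integers: `e.p k ≫ π ≫ e.p j = 0` for `j < k`.)
(5) CK: index set `s` (`q m = 0` can be dropped from the sum). Homology (`CK.homology_of_pure` or directly): on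
 `gr Y i`, `i ≠ j`: `q j = w j ≫ q j` (`q j * w j = q j`) and `H (w j) y = 0` because `H inc y ∈ gr X i` is killed by `e.p j`.
(6) `q_right`: `q j = w j ≫ q j` is `q j * w j = q j`; `q_left`: `q j ≫ w j = w j` is `w j * q j = w j`;
 `q_left_ne` : `q j ≫ w i = 0` for `i ≠ j`; `q_fac`: `q j = ∑_{k ≥ j} r k ≫ w k`. For `j ∉ s`, `w j = 0`, `q j = 0`.
-/

open CategoryTheory MonoidalCategory

universe w v u

namespace Pool.Agent.LefCK

variable {C : Type u} [Category.{v} C] [Preadditive C] [Linear ℚ C]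
  [MonoidalCategory C] {F : Type w} [Field F]
  {K : Correspondences C F} {P : Pol C}

/-- The almost orthogonal idempotents of the quotient. -/
def quoW (e : LCK K P) (Z : Quotient K P) (j : ℤ) : Z.Y ⟶ Z.Y :=
  Z.inc ≫ (e.p j ≫ (Z.ret ≫ Z.inc) ≫ e.p j) ≫ Z.ret

/-- The decomposition of the quotient. -/
structure QuoSplit (e : LCK K P) (Z : Quotient K P) extends CK K Z.Y where
  q_right : ∀ j, p j = quoW e Z j ≫ p j
  q_left : ∀ j, p j ≫ quoW e Z j = quoW e Z j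
  q_left_ne : ∀ i j, i ≠ j → p j ≫ quoW e Z i = 0
  q_fac : ∀ j, ∃ (I : Finset ℤ) (r : ℤ → (Z.Y ⟶ Z.Y)),
    (∀ k ∈ I, j ≤ k) ∧ p j = ∑ k ∈ I, r k ≫ quoW e Z k

private theorem low_zero (e : LCK K P) (Z : Quotient K P) {i j : ℤ} (h : i < j) :
    e.p j ≫ (Z.ret ≫ Z.inc) ≫ e.p i = 0 :=
  e.nonneg 0 _ Z.proj i j (by simpa using h)

private theorem proj_idem (Z : Quotient K P) :
    (Z.ret ≫ Z.inc) ≫ (Z.ret ≫ Z.inc) = Z.ret ≫ Z.inc := by
  rw [Category.assoc, ← Category.assoc Z.inc, Z.inc_ret, Category.id_comp]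

private theorem key (e : LCK K P) (Z : Quotient K P) (j : ℤ) :
    e.p j ≫ (Z.ret ≫ Z.inc) ≫ e.p j ≫ (Z.ret ≫ Z.inc) ≫ e.p j =
      e.p j ≫ (Z.ret ≫ Z.inc) ≫ e.p j := by
  have h1 : e.p j ≫ (Z.ret ≫ Z.inc) ≫ e.p j =
      (e.p j ≫ (Z.ret ≫ Z.inc)) ≫ ((Z.ret ≫ Z.inc) ≫ e.p j) := by
    conv_lhs => rw [← proj_idem Z]
    simp only [Category.assoc]
  have h2 := e.toCK.comp_eq (e.p j ≫ (Z.ret ≫ Z.inc)) ((Z.ret ≫ Z.inc) ≫ e.p j) j (by
    intro k hk
    rcases lt_or_gt_of_ne hk with h | h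
    · have h3 := low_zero e Z h
      have h4 : (e.p j ≫ (Z.ret ≫ Z.inc)) ≫ e.p k ≫ ((Z.ret ≫ Z.inc) ≫ e.p j) =
          (e.p j ≫ (Z.ret ≫ Z.inc) ≫ e.p k) ≫ ((Z.ret ≫ Z.inc) ≫ e.p j) := by
        simp only [Category.assoc]
      rw [h4, h3, Limits.zero_comp]
    · have h3 := low_zero e Z h
      rw [h3, Limits.comp_zero])
  have h4 : e.p j ≫ (Z.ret ≫ Z.inc) ≫ e.p j ≫ (Z.ret ≫ Z.inc) ≫ e.p j =
      (e.p j ≫ (Z.ret ≫ Z.inc)) ≫ e.p j ≫ ((Z.ret ≫ Z.inc) ≫ e.p j) := by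
    simp only [Category.assoc]
  exact h4.trans (h2.symm.trans h1.symm)

private theorem quoW_mem (e : LCK K P) (Z : Quotient K P) (j : ℤ) :
    quoW e Z j ∈ K.deg Z.Y Z.Y 0 := by
  have h1 : Z.ret ≫ Z.inc ∈ K.deg P.X P.X 0 := K.comp_mem' Z.ret_mem Z.inc_mem (add_zero 0)
  have h2 : e.p j ≫ (Z.ret ≫ Z.inc) ≫ e.p j ∈ K.deg P.X P.X 0 :=
    K.comp_mem' (e.mem j) (K.comp_mem' h1 (e.mem j) (add_zero 0)) (add_zero 0)
  exact K.comp_mem' Z.inc_mem (K.comp_mem' h2 Z.ret_mem (add_zero 0)) (add_zero 0)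

private theorem quoW_quoW (e : LCK K P) (Z : Quotient K P) (j i : ℤ) :
    quoW e Z j ≫ quoW e Z i = Z.inc ≫ e.p j ≫ (Z.ret ≫ Z.inc) ≫
      (e.p j ≫ (Z.ret ≫ Z.inc) ≫ e.p i) ≫ (Z.ret ≫ Z.inc) ≫ e.p i ≫ Z.ret := by
  simp only [quoW, Category.assoc]

private theorem quoW_lt (e : LCK K P) (Z : Quotient K P) {i j : ℤ} (h : i < j) :
    quoW e Z j ≫ quoW e Z i = 0 := by
  rw [quoW_quoW, low_zero e Z h]
  simp only [Limits.zero_comp, Limits.comp_zero]

private theorem quoW_self (e : LCK K P) (Z : Quotient K P) (j : ℤ) :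
    quoW e Z j ≫ quoW e Z j = quoW e Z j := by
  have h1 : quoW e Z j ≫ quoW e Z j = Z.inc ≫
      (e.p j ≫ (Z.ret ≫ Z.inc) ≫ e.p j ≫ (Z.ret ≫ Z.inc) ≫ e.p j) ≫
        (Z.ret ≫ Z.inc) ≫ e.p j ≫ Z.ret := by
    simp only [quoW, Category.assoc]
  have h2 : Z.inc ≫ (e.p j ≫ (Z.ret ≫ Z.inc) ≫ e.p j) ≫
        (Z.ret ≫ Z.inc) ≫ e.p j ≫ Z.ret = Z.inc ≫
      (e.p j ≫ (Z.ret ≫ Z.inc) ≫ e.p j ≫ (Z.ret ≫ Z.inc) ≫ e.p j) ≫ Z.ret := by
    simp only [Category.assoc]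
  rw [h1, key, h2, key]
  rfl

private theorem quoW_zero (e : LCK K P) (Z : Quotient K P) {j : ℤ} (h : e.p j = 0) :
    quoW e Z j = 0 := by
  simp only [quoW, h, Limits.zero_comp, Limits.comp_zero]

private theorem rem_zero (e : LCK K P) (Z : Quotient K P) (B : Z.Y ⟶ Z.Y)
    (hB : ∀ j, B ≫ quoW e Z j = 0) : B = 0 := by
  obtain ⟨s, hs, -⟩ := e.toCK.exists_finset
  obtain ⟨b, hb⟩ := s.bddBelow
  have hβ : (B ≫ Z.inc) ≫ (Z.ret ≫ Z.inc) = B ≫ Z.inc := by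
    rw [Category.assoc, ← Category.assoc Z.inc, Z.inc_ret, Category.id_comp]
  have main : ∀ n : ℕ, ∀ j : ℤ, j < b + n → (B ≫ Z.inc) ≫ e.p j = 0 := by
    intro n
    induction n with
    | zero =>
      intro j hj
      have h1 : j ∉ s := by
        intro h
        have h5 : b ≤ j := hb (Finset.mem_coe.2 h)
        simp only [Nat.cast_zero, add_zero] at hj
        exact absurd hj (not_lt.2 h5)
      rw [hs j h1, Limits.comp_zero]
    | succ n ih =>
      intro j hj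
      have h1 : (B ≫ Z.inc) ≫ e.p j = (B ≫ Z.inc) ≫ ((Z.ret ≫ Z.inc) ≫ e.p j) := by
        rw [← Category.assoc (B ≫ Z.inc), hβ]
      have h2 := e.toCK.comp_eq (B ≫ Z.inc) ((Z.ret ≫ Z.inc) ≫ e.p j) j (by
        intro k hk
        rcases lt_or_gt_of_ne hk with h | h
        · have h3 := ih k (by push_cast at hj; omega)
          rw [← Category.assoc, h3, Limits.zero_comp]
        · rw [low_zero e Z h, Limits.comp_zero])
      have h3 : (B ≫ quoW e Z j) ≫ Z.inc ≫ e.p j = (B ≫ Z.inc) ≫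
          (e.p j ≫ (Z.ret ≫ Z.inc) ≫ e.p j ≫ (Z.ret ≫ Z.inc) ≫ e.p j) := by
        simp only [quoW, Category.assoc]
      rw [hB j, Limits.zero_comp, key] at h3
      rw [h1, h2, ← h3]
  have h0 : ∀ j : ℤ, (B ≫ Z.inc) ≫ e.p j = 0 := by
    intro j
    exact main (j - b + 1).toNat j (by omega)
  have h1 : (B ≫ Z.inc) ≫ Z.ret = 0 := by
    apply e.toCK.comp_eq_zero
    intro k
    rw [← Category.assoc, h0 k, Limits.zero_comp]
  rw [Category.assoc, Z.inc_ret, Category.comp_id] at h1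
  exact h1

theorem exists_quoSplit (e : LCK K P) (Z : Quotient K P) : Nonempty (QuoSplit e Z) := by
  obtain ⟨s, hs, -⟩ := e.toCK.exists_finset
  obtain ⟨m, hm⟩ := Infinite.exists_notMem_finset s
  obtain ⟨q, hq0, hqsum, hqi, hqo, hwq, hwqn, hqm, hqw, hqf⟩ :=
    gramSchmidt (R := K.zeroRing Z.Y) s m hm (fun j => ⟨quoW e Z j, quoW_mem e Z j⟩)
      (fun i _ => Subtype.ext (quoW_self e Z i))
      (fun i _ j _ hij => Subtype.ext (quoW_lt e Z hij))
  have hW : ∀ j, j ∉ s → quoW e Z j = 0 := fun j hj => quoW_zero e Z (hs j hj)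
  obtain ⟨Q, hQ⟩ : ∃ Q : ℤ → (Z.Y ⟶ Z.Y), ∀ j, Q j = (q j).1 := ⟨fun j => (q j).1, fun _ => rfl⟩
  have hm0 : (Q m) = 0 := by
    apply rem_zero e Z
    intro j
    by_cases hj : j ∈ s
    · have h1 := hwqn j hj m (by rintro rfl; exact hm hj)
      rw [hQ]
      exact congrArg Subtype.val h1
    · rw [hW j hj, Limits.comp_zero]
  have hz : ∀ j, j ∉ s → (Q j) = 0 := by
    intro j hj
    by_cases hjm : j = m
    · rw [hjm]; exact hm0
    · have h1 := hq0 j (by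
        rw [Finset.mem_insert]
        rintro (h | h)
        · exact hjm h
        · exact hj h)
      rw [hQ, h1]
      rfl
  have hR : ∀ j, (Q j) =
      quoW e Z j ≫ (Q j) := by
    intro j
    by_cases hj : j ∈ s
    · rw [hQ]
      exact (congrArg Subtype.val (hqw j hj)).symm
    · rw [hz j hj, Limits.comp_zero]
  have hsum : ∑ j ∈ insert m s, (Q j) = 𝟙 Z.Y := by
    have h1 := congrArg (K.zeroRing Z.Y).subtype hqsum
    rw [map_sum, map_one] at h1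
    simp only [hQ]
    exact h1
  have hpure : ∀ i j, j ≠ i → ∀ x ∈ K.gr Z.Y j,
      (K.H.map (Q i)).hom x = 0 := by
    intro i j hij x hx
    rw [hR i, K.map_comp_apply]
    have h1 : (K.H.map Z.inc).hom x ∈ K.gr P.X j := by
      have h2 := K.map_gr Z.inc_mem j x hx
      simpa using h2
    have h3 : (K.H.map (quoW e Z i)).hom x = 0 := by
      unfold quoW
      rw [K.map_comp_apply, K.map_comp_apply, K.map_comp_apply, e.toCK.homology_ne hij h1,
        map_zero, map_zero]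
    rw [h3, map_zero]
  have hz' : ∀ i, i ∉ insert m s → (Q i) = 0 := by
    intro i hi
    exact hz i (fun h => hi (Finset.mem_insert_of_mem h))
  refine ⟨{ CK.ofFinset (K := K) (insert m s) (fun j => (Q j))
      hz' (fun i => (hQ i).symm ▸ (q i).2)
      (fun i => by
        simp only [hQ]
        exact congrArg Subtype.val (hqi i))
      (fun i j hij => by
        simp only [hQ]
        exact congrArg Subtype.val (hqo j i (Ne.symm hij))) hsum
      (fun i j x hx => CK.homology_of_pure (insert m s) _ hz' hsum hpure i j x hx) with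
    q_right := hR
    q_left := ?_
    q_left_ne := ?_
    q_fac := ?_ }⟩
  · intro j
    by_cases hj : j ∈ s
    · change Q j ≫ quoW e Z j = quoW e Z j
      rw [hQ]
      exact congrArg Subtype.val (hwq j hj)
    · rw [hW j hj, Limits.comp_zero]
  · intro i j hij
    by_cases hi : i ∈ s
    · change Q j ≫ quoW e Z i = 0
      rw [hQ]
      exact congrArg Subtype.val (hwqn i hi j (Ne.symm hij))
    · rw [hW i hi, Limits.comp_zero]
  · intro j
    by_cases hj : j ∈ s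
    · obtain ⟨r, hr⟩ := hqf j hj
      refine ⟨s.filter (fun k => j ≤ k), fun k => (r k).1,
        fun k hk => (Finset.mem_filter.1 hk).2, ?_⟩
      have h1 := congrArg (K.zeroRing Z.Y).subtype hr
      rw [map_sum] at h1
      change Q j = _
      rw [hQ]
      exact h1
    · refine ⟨∅, fun _ => 0, by simp, ?_⟩
      change Q j = _
      rw [Finset.sum_empty]
      exact hz j hj

end Pool.Agent.LefCK
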