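import Mathlib
import Pool.Agent.LefCK.QuoA

/-!
# Quotients: (N), hard Lefschetz, (B) and (D) (module LCK-QuoB)

Notation: `π = ret ≫ inc ∈ P.L 0`, `ρ j = e.p j ≫ π ≫ e.p j`, `w j = quoW e Z j = inc ≫ ρ j ≫ ret`, `q j = T.p j`
(`T : QuoSplit e Z`), (N) = `e.nonneg`. For `g ∈ Z.pol.L d` there is `L ∈ P.L d` with `inc ≫ L = g ≫ inc`, `ret ≫ g = L ≫ ret`;
so `π ≫ L = ret ≫ g ≫ inc = L ≫ π`.

PLAN.
* (N) for `Y`: `q j ≫ g ≫ q i`, `i < j - 2d`: `q j = ∑_{k ≥ j} r k ≫ w k`, `q i = w i ≫ q i`; `w k ≫ g ≫ w i =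
  inc ≫ ρ k ≫ ret ≫ g ≫ inc ≫ ρ i ≫ ret`, and `ret ≫ g ≫ inc = L ≫ π`; `e.p k ≫ L ≫ π ≫ e.p i = 0` for `i < k - 2d`:
  insert `e.p k'`: `k' < k - 2d` or `i < k'`.
* Leading components: `γ w := q w ≫ inc ≫ e.p w`, `η w := e.p w ≫ ret ≫ q w`. Triangularity:
  (t1) `q j ≫ inc ≫ e.p i = 0` for `i < j`: `q j = ∑_{k ≥ j} r k ≫ inc ≫ ρ k ≫ ret`, `ret ≫ inc = π`,
  `e.p k ≫ π ≫ e.p i = 0` for `i < k`. (t2) `e.p j ≫ ret ≫ q i = 0` for `i < j`: `q i = w i ≫ q i`, same.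
  (l1) `γ w ≫ η w = q w`: `q w = q w ≫ (inc ≫ ret) ≫ q w`, insert `e.p k`, use (t1), (t2).
  (l2) `η w ≫ γ w = ρ w`: `e.p w ≫ (ret ≫ inc) ≫ e.p w`, insert `q k`, use (t2), (t1).
  (l3) `η w ≫ g ≫ q (w-2d) = e.p w ≫ L ≫ η (w-2d)` (both are `e.p w ≫ ret ≫ g ≫ q (w-2d)`), so for related lists
  `η w ≫ lead q w l = lead e.p w l' ≫ η w'` (`w' = w - 2 total l`); (l4) similarly `lead q w l ≫ γ w' = γ w ≫ lead e.p w l'`.
* hard: `w = n + i`, `w' = n - i`, `Φ = lead e.p w l'`, `G'` from `e.hard l'` (replace `G'` by `e.p w' ≫ G' ≫ e.p w`), `G := γ w' ≫ G' ≫ η w`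
  of degree `-i`. `lead q w l ≫ γ w' ≫ G' ≫ η w = γ w ≫ Φ ≫ G' ≫ η w = γ w ≫ e.p w ≫ η w = q w` by (l4), (l1);
  `γ w' ≫ G' ≫ η w ≫ lead q w l = γ w' ≫ G' ≫ Φ ≫ η w' = γ w' ≫ η w' = q w'` by (l3), (l1).
* (B): `y ∈ CH_l(Y)`, `i < 2l`: `y ≫ q i = y ≫ w i ≫ q i`, and `(y ≫ inc) ≫ e.p i = 0` as `y ≫ inc ∈ CH_l(X)`.
  (D): same with `i = 2l`, `K.H.map (y ≫ inc) = 0`.
-/

open CategoryTheory MonoidalCategory

universe w v u

namespace Pool.Agent.LefCK

variable {C : Type u} [Category.{v} C] [Preadditive C] [Linear ℚ C]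
  [MonoidalCategory C] {F : Type w} [Field F]
  {K : Correspondences C F} {P : Pol C}

/-- the component of the inclusion -/
private def quoB_ga {e : LCK K P} {Z : Quotient K P} (T : QuoSplit e Z) (w : ℤ) : Z.Y ⟶ P.X :=
  T.p w ≫ Z.inc ≫ e.p w

/-- the component of the retraction -/
private def quoB_et {e : LCK K P} {Z : Quotient K P} (T : QuoSplit e Z) (w : ℤ) : P.X ⟶ Z.Y :=
  e.p w ≫ Z.ret ≫ T.p w

private theorem quoB_proj (e : LCK K P) (Z : Quotient K P) {i j : ℤ} (h : i < j) :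
    e.p j ≫ Z.ret ≫ Z.inc ≫ e.p i = 0 := by
  have h1 := e.nonneg 0 _ Z.proj i j (by simpa using h)
  simpa only [Category.assoc] using h1

private theorem quoB_t1 {e : LCK K P} {Z : Quotient K P} (T : QuoSplit e Z) {i j : ℤ}
    (h : i < j) : T.p j ≫ Z.inc ≫ e.p i = 0 := by
  obtain ⟨I, r, hI, hr⟩ := T.q_fac j
  rw [hr, Preadditive.sum_comp]
  apply Finset.sum_eq_zero
  intro k hk
  unfold quoW
  simp only [Category.assoc]
  rw [quoB_proj e Z (lt_of_lt_of_le h (hI k hk))]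
  simp

private theorem quoB_t2 {e : LCK K P} {Z : Quotient K P} (T : QuoSplit e Z) {i j : ℤ}
    (h : i < j) : e.p j ≫ Z.ret ≫ T.p i = 0 := by
  rw [T.q_right i]
  unfold quoW
  simp only [Category.assoc]
  have h1 := congrArg (fun t => t ≫ Z.ret ≫ Z.inc ≫ e.p i ≫ Z.ret ≫ T.p i) (quoB_proj e Z h)
  simpa only [Category.assoc, Limits.zero_comp] using h1

private theorem quoB_l1 {e : LCK K P} {Z : Quotient K P} (T : QuoSplit e Z) (w : ℤ) :
    quoB_ga T w ≫ quoB_et T w = T.p w := by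
  have h1 := e.toCK.comp_eq (T.p w ≫ Z.inc) (Z.ret ≫ T.p w) w (by
    intro k hk
    rcases lt_or_gt_of_ne hk with h | h
    · have h2 := congrArg (fun t => t ≫ Z.ret ≫ T.p w) (quoB_t1 T h)
      simpa only [Category.assoc, Limits.zero_comp] using h2
    · rw [Category.assoc, quoB_t2 T h]
      simp)
  have h2 : (T.p w ≫ Z.inc) ≫ Z.ret ≫ T.p w = T.p w := by
    rw [Category.assoc, ← Category.assoc Z.inc, Z.inc_ret, Category.id_comp, T.idem]
  rw [h2] at h1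
  unfold quoB_ga quoB_et
  have h3 := e.idem w
  simp only [Category.assoc] at h1 ⊢
  rw [← Category.assoc (e.p w) (e.p w), h3]
  exact h1.symm

private theorem quoB_nonneg {e : LCK K P} {Z : Quotient K P} (T : QuoSplit e Z) (d : ℕ)
    (g : Z.Y ⟶ Z.Y) (L : P.X ⟶ P.X) (hL : L ∈ P.L d) (_h1 : Z.inc ≫ L = g ≫ Z.inc)
    (h2 : Z.ret ≫ g = L ≫ Z.ret) (i j : ℤ) (hij : i < j - 2 * (d : ℤ)) :
    T.p j ≫ g ≫ T.p i = 0 := by
  have key : ∀ k, j ≤ k → e.p k ≫ Z.ret ≫ g ≫ Z.inc ≫ e.p i = 0 := by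
    intro k hk
    have h3 : e.p k ≫ Z.ret ≫ g ≫ Z.inc ≫ e.p i = (e.p k ≫ L) ≫ (Z.ret ≫ Z.inc ≫ e.p i) := by
      rw [← Category.assoc Z.ret, h2]
      simp only [Category.assoc]
    rw [h3]
    apply e.toCK.comp_eq_zero
    intro k'
    by_cases h4 : k' < k - 2 * (d : ℤ)
    · have h5 := e.nonneg d L hL k' k h4
      have h6 := congrArg (fun t => t ≫ Z.ret ≫ Z.inc ≫ e.p i) h5
      simpa only [Category.assoc, Limits.zero_comp] using h6
    · rw [quoB_proj e Z (show i < k' by omega)]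
      simp
  obtain ⟨I, r, hI, hr⟩ := T.q_fac j
  rw [hr, T.q_right i, Preadditive.sum_comp]
  apply Finset.sum_eq_zero
  intro k hk
  unfold quoW
  have h7 := congrArg (fun t => t ≫ Z.ret ≫ Z.inc ≫ e.p i ≫ Z.ret ≫ T.p i) (key k (hI k hk))
  simp only [Category.assoc, Limits.zero_comp] at h7
  simp only [Category.assoc]
  rw [h7]
  simp

private theorem quoB_l3 {e : LCK K P} {Z : Quotient K P} (T : QuoSplit e Z) (d : ℕ)
    (g : Z.Y ⟶ Z.Y) (L : P.X ⟶ P.X) (hL : L ∈ P.L d) (h1 : Z.inc ≫ L = g ≫ Z.inc)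
    (h2 : Z.ret ≫ g = L ≫ Z.ret) (w : ℤ) :
    quoB_et T w ≫ g ≫ T.p (w - 2 * (d : ℤ)) = e.p w ≫ L ≫ quoB_et T (w - 2 * (d : ℤ)) := by
  have h3 := T.toCK.comp_eq (e.p w ≫ Z.ret) (g ≫ T.p (w - 2 * (d : ℤ))) w (by
    intro k hk
    rcases lt_or_gt_of_ne hk with h | h
    · have h4 := congrArg (fun t => t ≫ g ≫ T.p (w - 2 * (d : ℤ))) (quoB_t2 T h)
      simpa only [Category.assoc, Limits.zero_comp] using h4
    · rw [quoB_nonneg T d g L hL h1 h2 _ k (by omega)]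
      simp)
  have h5 := e.toCK.comp_eq (e.p w ≫ L) (Z.ret ≫ T.p (w - 2 * (d : ℤ))) (w - 2 * (d : ℤ)) (by
    intro k hk
    rcases lt_or_gt_of_ne hk with h | h
    · have h4 := congrArg (fun t => t ≫ Z.ret ≫ T.p (w - 2 * (d : ℤ))) (e.nonneg d L hL k w h)
      simpa only [Category.assoc, Limits.zero_comp] using h4
    · rw [quoB_t2 T h]
      simp)
  unfold quoB_et
  simp only [Category.assoc] at h3 h5 ⊢
  rw [← h3, ← h5, ← Category.assoc Z.ret, h2, Category.assoc]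

private theorem quoB_l4 {e : LCK K P} {Z : Quotient K P} (T : QuoSplit e Z) (d : ℕ)
    (g : Z.Y ⟶ Z.Y) (L : P.X ⟶ P.X) (hL : L ∈ P.L d) (h1 : Z.inc ≫ L = g ≫ Z.inc)
    (h2 : Z.ret ≫ g = L ≫ Z.ret) (w : ℤ) :
    T.p w ≫ g ≫ quoB_ga T (w - 2 * (d : ℤ)) = quoB_ga T w ≫ L ≫ e.p (w - 2 * (d : ℤ)) := by
  have h3 := T.toCK.comp_eq (T.p w ≫ g) (Z.inc ≫ e.p (w - 2 * (d : ℤ))) (w - 2 * (d : ℤ)) (by
    intro k hk
    rcases lt_or_gt_of_ne hk with h | h
    · have h4 := congrArg (fun t => t ≫ Z.inc ≫ e.p (w - 2 * (d : ℤ)))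
        (quoB_nonneg T d g L hL h1 h2 k w h)
      simpa only [Category.assoc, Limits.zero_comp] using h4
    · rw [quoB_t1 T h]
      simp)
  have h5 := e.toCK.comp_eq (T.p w ≫ Z.inc) (L ≫ e.p (w - 2 * (d : ℤ))) w (by
    intro k hk
    rcases lt_or_gt_of_ne hk with h | h
    · have h4 := congrArg (fun t => t ≫ L ≫ e.p (w - 2 * (d : ℤ))) (quoB_t1 T h)
      simpa only [Category.assoc, Limits.zero_comp] using h4
    · rw [e.nonneg d L hL _ k (by omega)]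
      simp)
  unfold quoB_ga
  simp only [Category.assoc] at h3 h5 ⊢
  rw [← h3, ← h5, ← Category.assoc Z.inc, h1, Category.assoc]

private theorem quoB_list {e : LCK K P} {Z : Quotient K P} (T : QuoSplit e Z)
    (l : List (ℕ × (Z.Y ⟶ Z.Y))) (hl : ∀ a ∈ l, 0 < a.1 ∧ a.2 ∈ Z.pol.L a.1) :
    ∃ l' : List (ℕ × (P.X ⟶ P.X)), total l' = total l ∧ (l ≠ [] → l' ≠ []) ∧
      (∀ b ∈ l', 0 < b.1 ∧ b.2 ∈ P.L b.1) ∧ ∀ w w' : ℤ, w' = w - 2 * total l →
        quoB_et T w ≫ lead T.p w l = lead e.p w l' ≫ quoB_et T w' ∧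
        lead T.p w l ≫ quoB_ga T w' = quoB_ga T w ≫ lead e.p w l' := by
  have hTi : ∀ w, T.p w ≫ T.p w = T.p w := T.idem
  have hei : ∀ w, e.p w ≫ e.p w = e.p w := e.idem
  have hetT : ∀ w, quoB_et T w ≫ T.p w = quoB_et T w := by
    intro w
    unfold quoB_et
    rw [Category.assoc, Category.assoc, hTi]
  have heet : ∀ w, e.p w ≫ quoB_et T w = quoB_et T w := by
    intro w
    unfold quoB_et
    rw [← Category.assoc, hei]
  have hTga : ∀ w, T.p w ≫ quoB_ga T w = quoB_ga T w := by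
    intro w
    unfold quoB_ga
    rw [← Category.assoc, hTi]
  have hgae : ∀ w, quoB_ga T w ≫ e.p w = quoB_ga T w := by
    intro w
    unfold quoB_ga
    rw [Category.assoc, Category.assoc, hei]
  induction l with
  | nil =>
    refine ⟨[], by simp, fun h => absurd rfl h, by simp, ?_⟩
    intro w w' hw
    have hw' : w' = w := by simpa using hw
    subst hw'
    rw [lead_nil, lead_nil, hetT, heet, hTga, hgae]
    exact ⟨rfl, rfl⟩
  | cons a l ih =>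
    obtain ⟨l', h1, _, h3, h4⟩ := ih (fun b hb => hl b (List.mem_cons_of_mem _ hb))
    obtain ⟨ha1, ha2⟩ := hl a (by simp)
    obtain ⟨_, L, hL, hL1, hL2⟩ := ha2
    refine ⟨(a.1, L) :: l', by rw [total_cons, total_cons, h1], fun _ => by simp, ?_, ?_⟩
    · intro b hb
      rcases List.mem_cons.1 hb with rfl | hb
      · exact ⟨ha1, hL⟩
      · exact h3 b hb
    · intro w w' hw
      obtain ⟨h5, h6⟩ := h4 (w - 2 * (a.1 : ℤ)) w' (by rw [hw, total_cons]; ring)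
      have h7 := quoB_l3 T a.1 a.2 L hL hL1 hL2 w
      have h8 := quoB_l4 T a.1 a.2 L hL hL1 hL2 w
      rw [lead_cons, lead_cons]
      constructor
      · calc quoB_et T w ≫ T.p w ≫ a.2 ≫ lead T.p (w - 2 * (a.1 : ℤ)) l
            = quoB_et T w ≫ a.2 ≫ lead T.p (w - 2 * (a.1 : ℤ)) l := by
              rw [← Category.assoc (quoB_et T w), hetT]
          _ = quoB_et T w ≫ a.2 ≫ T.p (w - 2 * (a.1 : ℤ)) ≫
              lead T.p (w - 2 * (a.1 : ℤ)) l := by rw [p_lead hTi]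
          _ = (quoB_et T w ≫ a.2 ≫ T.p (w - 2 * (a.1 : ℤ))) ≫
              lead T.p (w - 2 * (a.1 : ℤ)) l := by simp only [Category.assoc]
          _ = e.p w ≫ L ≫ quoB_et T (w - 2 * (a.1 : ℤ)) ≫
              lead T.p (w - 2 * (a.1 : ℤ)) l := by rw [h7]; simp only [Category.assoc]
          _ = (e.p w ≫ L ≫ lead e.p (w - 2 * (a.1 : ℤ)) l') ≫ quoB_et T w' := by
              rw [h5]; simp only [Category.assoc]
      · calc (T.p w ≫ a.2 ≫ lead T.p (w - 2 * (a.1 : ℤ)) l) ≫ quoB_ga T w'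
            = T.p w ≫ a.2 ≫ lead T.p (w - 2 * (a.1 : ℤ)) l ≫ quoB_ga T w' := by
              simp only [Category.assoc]
          _ = (T.p w ≫ a.2 ≫ quoB_ga T (w - 2 * (a.1 : ℤ))) ≫
              lead e.p (w - 2 * (a.1 : ℤ)) l' := by rw [h6]; simp only [Category.assoc]
          _ = quoB_ga T w ≫ L ≫ e.p (w - 2 * (a.1 : ℤ)) ≫
              lead e.p (w - 2 * (a.1 : ℤ)) l' := by rw [h8]; simp only [Category.assoc]
          _ = quoB_ga T w ≫ L ≫ lead e.p (w - 2 * (a.1 : ℤ)) l' := by rw [p_lead hei]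
          _ = (quoB_ga T w ≫ e.p w) ≫ L ≫ lead e.p (w - 2 * (a.1 : ℤ)) l' := by rw [hgae]
          _ = quoB_ga T w ≫ e.p w ≫ L ≫ lead e.p (w - 2 * (a.1 : ℤ)) l' := by
              simp only [Category.assoc]

private theorem quoB_hard {e : LCK K P} {Z : Quotient K P} (T : QuoSplit e Z)
    (l : List (ℕ × (Z.Y ⟶ Z.Y))) (hne : l ≠ [])
    (hl : ∀ a ∈ l, 0 < a.1 ∧ a.2 ∈ Z.pol.L a.1) :
    ∃ G ∈ K.deg Z.Y Z.Y (-total l), lead T.p (P.n + total l) l ≫ G = T.p (P.n + total l) ∧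
      G ≫ lead T.p (P.n + total l) l = T.p (P.n - total l) := by
  obtain ⟨l', h1, h2, h3, h4⟩ := quoB_list T l hl
  obtain ⟨G', hG', h5, h6⟩ := e.hard l' (h2 hne) h3
  rw [h1] at hG' h5 h6
  obtain ⟨h7, h8⟩ := h4 (P.n + total l) (P.n - total l) (by ring)
  have hga : ∀ w, quoB_ga T w ∈ K.deg Z.Y P.X 0 := fun w =>
    K.comp_mem' (T.mem w) (K.comp_mem Z.inc_mem (e.mem w)) (by ring)
  have het : ∀ w, quoB_et T w ∈ K.deg P.X Z.Y 0 := fun w =>
    K.comp_mem' (e.mem w) (K.comp_mem Z.ret_mem (T.mem w)) (by ring)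
  have hgae : ∀ w, quoB_ga T w ≫ e.p w = quoB_ga T w := by
    intro w
    unfold quoB_ga
    rw [Category.assoc, Category.assoc, e.idem]
  refine ⟨quoB_ga T (P.n - total l) ≫ G' ≫ quoB_et T (P.n + total l),
    K.comp_mem' (hga _) (K.comp_mem hG' (het _)) (by ring), ?_, ?_⟩
  · calc lead T.p (P.n + total l) l ≫ quoB_ga T (P.n - total l) ≫ G' ≫ quoB_et T (P.n + total l)
        = (lead T.p (P.n + total l) l ≫ quoB_ga T (P.n - total l)) ≫ G' ≫
            quoB_et T (P.n + total l) := by simp only [Category.assoc]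
      _ = quoB_ga T (P.n + total l) ≫ (lead e.p (P.n + total l) l' ≫ G') ≫
            quoB_et T (P.n + total l) := by rw [h8]; simp only [Category.assoc]
      _ = (quoB_ga T (P.n + total l) ≫ e.p (P.n + total l)) ≫ quoB_et T (P.n + total l) := by
            rw [h5]; simp only [Category.assoc]
      _ = T.p (P.n + total l) := by rw [hgae, quoB_l1]
  · calc (quoB_ga T (P.n - total l) ≫ G' ≫ quoB_et T (P.n + total l)) ≫
          lead T.p (P.n + total l) l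
        = quoB_ga T (P.n - total l) ≫ G' ≫ quoB_et T (P.n + total l) ≫
            lead T.p (P.n + total l) l := by simp only [Category.assoc]
      _ = quoB_ga T (P.n - total l) ≫ (G' ≫ lead e.p (P.n + total l) l') ≫
            quoB_et T (P.n - total l) := by rw [h7]; simp only [Category.assoc]
      _ = (quoB_ga T (P.n - total l) ≫ e.p (P.n - total l)) ≫ quoB_et T (P.n - total l) := by
            rw [h6]; simp only [Category.assoc]
      _ = T.p (P.n - total l) := by rw [hgae, quoB_l1]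

private theorem quoB_B {e : LCK K P} {Z : Quotient K P} (T : QuoSplit e Z)
    (l : ℤ) (h : e.toCK.MurreB l) : T.toCK.MurreB l := by
  intro y hy i hi
  have h1 : y ≫ Z.inc ∈ CH K P.X l := K.comp_mem' hy Z.inc_mem (by ring)
  have h2 := h _ h1 i hi
  rw [T.q_right i]
  unfold quoW
  have h3 := congrArg (fun t => t ≫ Z.ret ≫ Z.inc ≫ e.p i ≫ Z.ret ≫ T.p i) h2
  simpa only [Category.assoc, Limits.zero_comp] using h3

private theorem quoB_D {e : LCK K P} {Z : Quotient K P} (T : QuoSplit e Z)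
    (l : ℤ) (h : e.toCK.MurreD l) : T.toCK.MurreD l := by
  intro y hy hy0
  have h1 : y ≫ Z.inc ∈ CH K P.X l := K.comp_mem' hy Z.inc_mem (by ring)
  have h2 := h _ h1 (by rw [Functor.map_comp, hy0, Limits.zero_comp])
  rw [T.q_right (2 * l)]
  unfold quoW
  have h3 := congrArg (fun t => t ≫ Z.ret ≫ Z.inc ≫ e.p (2 * l) ≫ Z.ret ≫ T.p (2 * l)) h2
  simpa only [Category.assoc, Limits.zero_comp] using h3

theorem quotient (e : LCK K P) (Z : Quotient K P) : ∃ q : LCK K Z.pol, ∀ l : ℤ,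
    (e.toCK.MurreB l → q.toCK.MurreB l) ∧ (e.toCK.MurreD l → q.toCK.MurreD l) := by
  obtain ⟨T⟩ := exists_quoSplit e Z
  refine ⟨⟨T.toCK, ?_, ?_, ?_⟩, fun l => ⟨fun h => quoB_B T l h, fun h => quoB_D T l h⟩⟩
  · intro c L hL
    exact hL.1
  · intro c g hg i j hij
    obtain ⟨_, L, hL, h1, h2⟩ := hg
    exact quoB_nonneg T c g L hL h1 h2 i j hij
  · intro l hne hl
    exact quoB_hard T l hne hl

end Pool.Agent.LefCK
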