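import Mathlib
import Pool.Agent.LefCK.Basic

/-!
# Triangular systems of maps between `X` and a zero locus `Y ⊂ X` (auxiliary definitions)

`n := P.n`, `c := Z.c`, `m := n - c = dim Y`. The compositions `w j := v j ≫ u j : Y ⟶ Y` are
idempotents of degree 0 with `w j ≫ w i = 0` for `i < j`.
-/

open CategoryTheory MonoidalCategory

universe w v u

namespace Pool.Agent.LefCK

variable {C : Type u} [Category.{v} C] [Preadditive C] [Linear ℚ C]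
  [MonoidalCategory C] {F : Type w} [Field F]
  {K : Correspondences C F} {P : Pol C}

structure Sys (e : LCK K P) (Z : ZeroLocus K P) where
  u : ℤ → (P.X ⟶ Z.Y)
  v : ℤ → (Z.Y ⟶ P.X)
  x : ℤ → (P.X ⟶ P.X)
  y : ℤ → (P.X ⟶ P.X)
  δ : ℤ → ℤ
  u_eq : ∀ j, u j = x j ≫ e.p (j + 2 * (Z.c : ℤ)) ≫ Z.pull
  v_eq : ∀ j, v j = Z.push ≫ e.p j ≫ y j
  x_mem : ∀ j, x j ∈ K.deg P.X P.X (δ j - Z.c)
  u_mem : ∀ j, u j ∈ K.deg P.X Z.Y (δ j)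
  v_mem : ∀ j, v j ∈ K.deg Z.Y P.X (-δ j)
  uvu : ∀ j, u j ≫ v j ≫ u j = u j
  vuv : ∀ j, v j ≫ u j ≫ v j = v j
  tri : ∀ i j, i < j → u j ≫ v i = 0
  high : ∀ j, P.n - Z.c < j → u j = e.p (j + 2 * (Z.c : ℤ)) ≫ Z.pull ∧
    u j ≫ v j = e.p (j + 2 * (Z.c : ℤ)) ∧ δ j = Z.c
  low : ∀ j, j < P.n - Z.c → v j = Z.push ≫ e.p j ∧ u j ≫ v j = e.p j ∧ δ j = 0
  mid : u (P.n - Z.c) = 0 ∧ v (P.n - Z.c) = 0
  zero : ∀ j, e.p j = 0 → e.p (j + 2 * (Z.c : ℤ)) = 0 → u j = 0 ∧ v j = 0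

/-- The result of the Gram-Schmidt process: the decomposition `q` of `Y`. -/
structure Split {e : LCK K P} {Z : ZeroLocus K P} (S : Sys e Z) where
  q : ℤ → (Z.Y ⟶ Z.Y)
  s : Finset ℤ
  q_mem : ∀ j, q j ∈ K.deg Z.Y Z.Y 0
  q_zero : ∀ j, j ∉ s → q j = 0
  sum : ∑ j ∈ s, q j = 𝟙 Z.Y
  idem : ∀ j, q j ≫ q j = q j
  orth : ∀ i j, i ≠ j → q i ≫ q j = 0
  qv : ∀ j, q j ≫ S.v j = S.v j
  qv_ne : ∀ i j, j ≠ i → q j ≫ S.v i = 0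
  uq : ∀ j, S.u j ≫ q (P.n - Z.c) = 0
  vuq : ∀ j, j ≠ P.n - Z.c → S.v j ≫ S.u j ≫ q j = q j
  fac : ∀ j, j ≠ P.n - Z.c → ∃ (I : Finset ℤ) (r : ℤ → (Z.Y ⟶ P.X)),
    (∀ k ∈ I, j ≤ k) ∧ (∀ k, r k ∈ K.deg Z.Y P.X (-S.δ k)) ∧ q j = ∑ k ∈ I, r k ≫ S.u k

end Pool.Agent.LefCK
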