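import Mathlib
import Pool.Agent.LefCK.GS
import Pool.Agent.LefCK.SysDefs

/-!
# Existence of the decomposition of `Y` (module LCK-SplitA)

PLAN. `m := P.n - Z.c`, `I` := the finite set of all `j ≠ m` with `e.p j ≠ 0` or
`e.p (j + 2c) ≠ 0` (e.g. `(s ∪ s.image (· - 2c)).erase m` with `s` from `e.toCK.exists_finset`; every
finite `I` with `m ∉ I` and `j ∉ I → j = m ∨ (S.u j = 0 ∧ S.v j = 0)` is fine, use
`S.zero`). Apply `gramSchmidt` in the ring `R := K.zeroRing Z.Y` (subring of `End Z.Y`, in which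
`f * g = g ≫ f`: `End.mul_def`) to `w j := ⟨S.v j ≫ S.u j, _⟩` (degree `-δ + δ = 0`).
`w j * w j = w j` by `uvu`; `w i * w j = w j ≫ w i = v j ≫ (u j ≫ v i) ≫ u i = 0` for `i < j` by `tri`.
Translation of the properties of `q`: `qv`: `q j ≫ v j = q j ≫ v j ≫ u j ≫ v j = (w j * q j) ≫ v j =
v j` for `j ∈ I`, and `v j = 0` otherwise; `qv_ne` similarly; `uq`: `u j ≫ q m = u j ≫ v j ≫ u j ≫ q m
= u j ≫ (q m * w j) = 0`; `vuq` is `q j * w j = q j` (`j ∈ I`; for `j ∉ I`, `j ≠ m`: `q j = 0`);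
`fac`: `q j = ∑ w k * r k = ∑ r k ≫ v k ≫ u k`, so the new `r k` is `r k ≫ v k` (for `j ∉ insert m I`
take the empty set and `r = 0`).
-/

open CategoryTheory MonoidalCategory

universe w v u

namespace Pool.Agent.LefCK

variable {C : Type u} [Category.{v} C] [Preadditive C] [Linear ℚ C]
  [MonoidalCategory C] {F : Type w} [Field F]
  {K : Correspondences C F} {P : Pol C}

/-- the underlying morphism of an element of the ring of correspondences of degree 0 -/
private def mor {X : C} (a : K.zeroRing X) : X ⟶ X := a.1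

private theorem mor_ext {X : C} {a b : K.zeroRing X} (h : mor a = mor b) : a = b := Subtype.ext h

private theorem mor_mul {X : C} (a b : K.zeroRing X) : mor (a * b) = mor b ≫ mor a := rfl

private theorem mor_zero {X : C} : mor (0 : K.zeroRing X) = 0 := rfl

private theorem mor_one {X : C} : mor (1 : K.zeroRing X) = 𝟙 X := rfl

private theorem mor_mem {X : C} (a : K.zeroRing X) : mor a ∈ K.deg X X 0 := a.2

private theorem mor_sum {X : C} {ι : Type*} (s : Finset ι) (f : ι → K.zeroRing X) :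
    mor (∑ i ∈ s, f i) = ∑ i ∈ s, mor (f i) := by
  classical
  induction s using Finset.induction_on with
  | empty => simp [mor_zero]
  | insert a s ha ih =>
    rw [Finset.sum_insert ha, Finset.sum_insert ha, ← ih]
    rfl

theorem exists_split {e : LCK K P} {Z : ZeroLocus K P} (S : Sys e Z) : Nonempty (Split S) := by
  classical
  obtain ⟨s0, hs0, -⟩ := e.toCK.exists_finset
  obtain ⟨m, hm⟩ : ∃ m : ℤ, m = P.n - Z.c := ⟨_, rfl⟩
  obtain ⟨I, hI⟩ : ∃ I : Finset ℤ, I = (s0 ∪ s0.image (fun j => j - 2 * (Z.c : ℤ))).erase m :=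
    ⟨_, rfl⟩
  have hmI : m ∉ I := by simp [hI]
  have hI2 : ∀ j, j ∉ I → S.u j = 0 ∧ S.v j = 0 := by
    intro j hj
    by_cases hjm : j = m
    · subst hjm
      rw [hm]
      exact S.mid
    · have h1 : j ∉ s0 := fun h => hj (by
        rw [hI]; exact Finset.mem_erase.2 ⟨hjm, Finset.mem_union_left _ h⟩)
      have h2 : j + 2 * (Z.c : ℤ) ∉ s0 := fun h => hj (by
        rw [hI]
        exact Finset.mem_erase.2 ⟨hjm, Finset.mem_union_right _
          (Finset.mem_image.2 ⟨_, h, by ring⟩)⟩)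
      exact S.zero j (hs0 _ h1) (hs0 _ h2)
  have hmem : ∀ j, S.v j ≫ S.u j ∈ K.deg Z.Y Z.Y 0 :=
    fun j => K.comp_mem' (S.v_mem j) (S.u_mem j) (by ring)
  obtain ⟨w, hw⟩ : ∃ w : ℤ → K.zeroRing Z.Y, ∀ j, mor (w j) = S.v j ≫ S.u j :=
    ⟨fun j => ⟨S.v j ≫ S.u j, hmem j⟩, fun j => rfl⟩
  have hww : ∀ i ∈ I, w i * w i = w i := by
    intro i _
    apply mor_ext
    rw [mor_mul, hw]
    simp only [Category.assoc]
    rw [S.uvu]
  have hww' : ∀ i ∈ I, ∀ j ∈ I, i < j → w i * w j = 0 := by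
    intro i _ j _ hij
    apply mor_ext
    rw [mor_mul, hw, hw, mor_zero]
    simp only [Category.assoc]
    rw [← Category.assoc (S.u j), S.tri i j hij, Limits.zero_comp, Limits.comp_zero]
  obtain ⟨q, hq0, hq1, hqq, hqo, hwq, hwq', hqm, hqw, hfac⟩ := gramSchmidt I m hmI w hww hww'
  have hv0 : ∀ j, j ∉ I → S.v j = 0 := fun j hj => (hI2 j hj).2
  have hu0 : ∀ j, j ∉ I → S.u j = 0 := fun j hj => (hI2 j hj).1
  refine ⟨{ q := fun j => mor (q j), s := insert m I, q_mem := fun j => mor_mem (q j),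
            q_zero := fun j hj => by rw [hq0 j hj]; rfl,
            sum := by rw [← mor_sum, hq1]; rfl,
            idem := fun j => by rw [← mor_mul, hqq],
            orth := fun i j hij => by rw [← mor_mul, hqo j i (Ne.symm hij)]; rfl,
            qv := ?_, qv_ne := ?_, uq := ?_, vuq := ?_, fac := ?_ }⟩
  · intro j
    by_cases hj : j ∈ I
    · have h := congrArg mor (hwq j hj)
      rw [mor_mul, hw] at h
      calc mor (q j) ≫ S.v j = mor (q j) ≫ S.v j ≫ S.u j ≫ S.v j := by rw [S.vuv]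
        _ = (mor (q j) ≫ S.v j ≫ S.u j) ≫ S.v j := by simp only [Category.assoc]
        _ = S.v j := by rw [h, Category.assoc, S.vuv]
    · rw [hv0 j hj, Limits.comp_zero]
  · intro i j hij
    by_cases hi : i ∈ I
    · have h := congrArg mor (hwq' i hi j hij)
      rw [mor_mul, hw, mor_zero] at h
      calc mor (q j) ≫ S.v i = mor (q j) ≫ S.v i ≫ S.u i ≫ S.v i := by rw [S.vuv]
        _ = (mor (q j) ≫ S.v i ≫ S.u i) ≫ S.v i := by simp only [Category.assoc]
        _ = 0 := by rw [h, Limits.zero_comp]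
    · rw [hv0 i hi, Limits.comp_zero]
  · intro j
    rw [← hm]
    by_cases hj : j ∈ I
    · have h := congrArg mor (hqm j hj)
      rw [mor_mul, hw, mor_zero, Category.assoc] at h
      calc S.u j ≫ mor (q m) = (S.u j ≫ S.v j ≫ S.u j) ≫ mor (q m) := by rw [S.uvu]
        _ = S.u j ≫ S.v j ≫ S.u j ≫ mor (q m) := by simp only [Category.assoc]
        _ = 0 := by rw [h, Limits.comp_zero]
    · rw [hu0 j hj, Limits.zero_comp]
  · intro j hjm
    rw [← hm] at hjm
    by_cases hj : j ∈ I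
    · have h := congrArg mor (hqw j hj)
      rw [mor_mul, hw, Category.assoc] at h
      exact h
    · rw [hv0 j hj, Limits.zero_comp, hq0 j (by simp [hjm, hj])]
      rfl
  · intro j hjm
    rw [← hm] at hjm
    by_cases hj : j ∈ I
    · obtain ⟨r, hr⟩ := hfac j hj
      refine ⟨I.filter (fun k => j ≤ k), fun k => mor (r k) ≫ S.v k,
        fun k hk => (Finset.mem_filter.1 hk).2,
        fun k => K.comp_mem' (mor_mem (r k)) (S.v_mem k) (by ring), ?_⟩
      rw [hr, mor_sum]
      refine Finset.sum_congr rfl (fun k _ => ?_)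
      rw [mor_mul, hw, Category.assoc]
    · refine ⟨∅, fun _ => 0, by simp, fun k => Submodule.zero_mem _, ?_⟩
      rw [hq0 j (by simp [hjm, hj]), mor_zero, Finset.sum_empty]

end Pool.Agent.LefCK
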