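import Mathlib
import Pool.Agent.LefCK.SysDefs

/-!
# Homology of the pieces of `Y` (module LCK-SplitH)

PLAN. Notation `m = P.n - Z.c`, `c = Z.c`, `w j = S.v j ≫ S.u j`, `H f = (K.H.map f).hom`.
Step 1: `H (S.v j) y = 0` for `y ∈ gr Y i`, `i ≠ j`: `v j = push ≫ e.p j ≫ y j` (`S.v_eq`), `H push y ∈ gr X i`
  (`K.map_gr Z.push_mem`, degree 0), and `e.p j` kills it (`CK.homology_ne`).
Step 2: `H (w j) y = y` for `y ∈ gr Y j`, `j ≠ m`.
  `j > m`: `y = H pull x`, `x ∈ gr X (j+2c)` (`Z.surj`); `x = H (e.p (j+2c)) x`, so `y = H (u j) x`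
  (`S.high`), and `H (w j) y = H (u j ≫ v j ≫ u j) x = H (u j) x = y` (`S.uvu`).
  `j < m`: `H (w j) y ∈ gr Y j` (degree 0) and
  `H push (H (w j) y - y) = 0`: both `H push (H (w j) y)` and `H push y` are in `gr X j`, where `e.p j` is
  the identity, and `w j ≫ push ≫ e.p j = v j ≫ (u j ≫ v j) = v j = push ≫ e.p j` (`S.low`, `S.vuv`).
  Conclude with `Z.inj`.
Step 3: for `j ≠ m`: `H (q j) y = 0` for `y ∈ gr Y i`, `i ≠ j`, as `q j = v j ≫ u j ≫ q j` (`vuq`); for
  `y ∈ gr Y j`: `H (w j) (H (q j) y) = H (q j ≫ v j ≫ u j) y = H (w j) y = y` (`qv`), and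
  `H (q j) y ∈ gr Y j`, so `H (q j) y = H (w j) (H (q j) y) = y` by Step 2.
Step 4: `j = m`, `y ∈ gr Y i`: `y = ∑_{k ∈ s} H (q k) y` (`T.sum`). Use `CK.homology_of_pure`:
  it remains to see `H (q m) y = 0` for `y ∈ gr Y i`, `i ≠ m`: `H (q i) y = y` by Step 3, and
  `q i ≫ q m = 0`.
-/

open CategoryTheory MonoidalCategory

universe w v u

namespace Pool.Agent.LefCK

variable {C : Type u} [Category.{v} C] [Preadditive C] [Linear ℚ C]
  [MonoidalCategory C] {F : Type w} [Field F]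
  {K : Correspondences C F} {P : Pol C} {e : LCK K P} {Z : ZeroLocus K P} {S : Sys e Z}

/-- Push-forward preserves the homological degree. -/
private theorem sh_push {i : ℤ} {y : K.H.obj Z.Y} (hy : y ∈ K.gr Z.Y i) :
    (K.H.map Z.push).hom y ∈ K.gr P.X i := by
  have h := K.map_gr Z.push_mem i y hy
  rwa [mul_zero, sub_zero] at h

private theorem sh_deg0 {X Y : C} {f : X ⟶ Y} (hf : f ∈ K.deg X Y 0) {i : ℤ} {y : K.H.obj X}
    (hy : y ∈ K.gr X i) : (K.H.map f).hom y ∈ K.gr Y i := by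
  have h := K.map_gr hf i y hy
  rwa [mul_zero, sub_zero] at h

/-- Step 1. -/
private theorem sh_v_ne (S : Sys e Z) {i j : ℤ} (hij : i ≠ j) {y : K.H.obj Z.Y}
    (hy : y ∈ K.gr Z.Y i) : (K.H.map (S.v j)).hom y = 0 := by
  rw [S.v_eq j, K.map_comp_apply, K.map_comp_apply,
    e.toCK.homology_ne hij (sh_push hy), map_zero]

/-- Step 2. -/
private theorem sh_w_self (S : Sys e Z) {j : ℤ} (hj : j ≠ P.n - Z.c) {y : K.H.obj Z.Y}
    (hy : y ∈ K.gr Z.Y j) : (K.H.map (S.v j ≫ S.u j)).hom y = y := by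
  rcases lt_or_gt_of_ne hj with hlt | hgt
  · obtain ⟨hv, huv, -⟩ := S.low j hlt
    have hwdeg : S.v j ≫ S.u j ∈ K.deg Z.Y Z.Y 0 :=
      K.comp_mem' (S.v_mem j) (S.u_mem j) (by ring)
    have hwy := sh_deg0 hwdeg hy
    have hkey : (S.v j ≫ S.u j) ≫ (Z.push ≫ e.p j) = Z.push ≫ e.p j := by
      rw [← hv, Category.assoc, S.vuv j]
    have h1 : (K.H.map Z.push).hom ((K.H.map (S.v j ≫ S.u j)).hom y)
        = (K.H.map Z.push).hom y := by
      have h2 := congrArg (fun t => (K.H.map t).hom y) hkey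
      simp only [K.map_comp_apply (S.v j ≫ S.u j), K.map_comp_apply Z.push] at h2
      rw [e.toCK.homology_self (sh_push hwy), e.toCK.homology_self (sh_push hy)] at h2
      exact h2
    have h3 := Z.inj j hlt ((K.H.map (S.v j ≫ S.u j)).hom y - y)
      (Submodule.sub_mem _ hwy hy) (by rw [map_sub, h1, sub_self])
    exact sub_eq_zero.1 h3
  · obtain ⟨hu, -, -⟩ := S.high j hgt
    obtain ⟨x, hx, hxy⟩ := Z.surj j hgt y hy
    have h1 : (K.H.map (S.u j)).hom x = y := by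
      rw [hu, K.map_comp_apply, e.toCK.homology_self hx, hxy]
    have h2 := congrArg (fun t => (K.H.map t).hom x) (S.uvu j)
    simp only [K.map_comp_apply (S.u j), h1] at h2
    exact h2

/-- Step 3, vanishing. -/
private theorem sh_q_ne (T : Split S) {i j : ℤ} (hj : j ≠ P.n - Z.c) (hij : i ≠ j)
    {y : K.H.obj Z.Y} (hy : y ∈ K.gr Z.Y i) : (K.H.map (T.q j)).hom y = 0 := by
  rw [← T.vuq j hj, K.map_comp_apply, sh_v_ne S hij hy, map_zero]

/-- Step 3, identity. -/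
private theorem sh_q_self (T : Split S) {j : ℤ} (hj : j ≠ P.n - Z.c)
    {y : K.H.obj Z.Y} (hy : y ∈ K.gr Z.Y j) : (K.H.map (T.q j)).hom y = y := by
  have hqy := sh_deg0 (T.q_mem j) hy
  have h1 : T.q j ≫ (S.v j ≫ S.u j) = S.v j ≫ S.u j := by
    rw [← Category.assoc, T.qv j]
  have h2 := congrArg (fun t => (K.H.map t).hom y) h1
  simp only [K.map_comp_apply (T.q j)] at h2
  rw [sh_w_self S hj hqy, sh_w_self S hj hy] at h2
  exact h2

theorem Split.homology (T : Split S) (i j : ℤ) (y : K.H.obj Z.Y) (hy : y ∈ K.gr Z.Y j) :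
    (K.H.map (T.q i)).hom y = if j = i then y else 0 := by
  refine CK.homology_of_pure T.s T.q T.q_zero T.sum ?_ i j y hy
  intro i j hji y hy
  by_cases hi : i = P.n - Z.c
  · have hj : j ≠ P.n - Z.c := fun h => hji (h.trans hi.symm)
    have h1 := congrArg (fun t => (K.H.map t).hom y) (T.orth j i hji)
    simp only [K.map_comp_apply (T.q j), K.map_zero_apply] at h1
    rw [sh_q_self T hj hy] at h1
    exact h1
  · exact sh_q_ne T hi hji hy

/-- The Chow-Kuenneth decomposition of `Y`. -/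
def Split.toCK (T : Split S) : CK K Z.Y :=
  CK.ofFinset T.s T.q T.q_zero T.q_mem T.idem T.orth T.sum T.homology

@[simp] theorem Split.toCK_p (T : Split S) (j : ℤ) : T.toCK.p j = T.q j := rfl

end Pool.Agent.LefCK
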