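import Mathlib
import Pool.Agent.LefCK.SplitH

/-!
# Triangularity for the decomposition of `Y` (module LCK-SplitN)

Notation `m = P.n - Z.c`, `c = Z.c`, `D = pull ≫ push`; (N) = `e.nonneg`; insert `1 = ∑ e.p k` or
`1 = ∑ T.q k` with `CK.comp_eq_zero` (for `e.toCK` or `T.toCK`).

PLAN.
`a`: case `j ≠ m`: `q j = ∑_{k ≥ j} r k ≫ u k` (`T.fac`), `u k = x k ≫ e.p (k+2c) ≫ pull`, and
  `e.p (k+2c) ≫ D ≫ e.p i = 0` for `i < k`. Case `j = m`: `i < m`, so `push ≫ e.p i = v i` (`S.low`) and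
  `q m ≫ v i = 0` (`qv_ne`).
`b`: case `i ≠ m`: `q i = v i ≫ u i ≫ q i` (`vuq`), `v i = push ≫ e.p i ≫ y i`, and
  `e.p j ≫ D ≫ e.p i = 0` for `i < j - 2c`. Case `i = m`: `j - 2c > m`, so `e.p j ≫ pull = u (j - 2c)`
  (`S.high`) and `u (j-2c) ≫ q m = 0` (`uq`).
`nonneg`: `g ∈ Z.pol.L d`: there is `L ∈ P.L d` with `push ≫ L = g ≫ push`, `pull ≫ g = L ≫ pull`.
  Case `j ≠ m`: `q j = ∑_{k ≥ j} r k ≫ x k ≫ e.p (k+2c) ≫ pull`, and `e.p (k+2c) ≫ pull ≫ g ≫ q i =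
  e.p (k+2c) ≫ L ≫ pull ≫ q i = 0` : insert `e.p k'`: `e.p (k+2c) ≫ L ≫ e.p k' = 0` for
  `k' < k+2c-2d`, and `e.p k' ≫ pull ≫ q i = 0` for `i < k' - 2c` by `b`; one of the two holds since
  `i < j - 2d ≤ k - 2d`.
  Case `j = m` (so `i < m`, as `d ≥ 0`): `q i = push ≫ e.p i ≫ (y i ≫ u i ≫ q i)`, and `q m ≫ g ≫ push ≫
  e.p i = q m ≫ push ≫ L ≫ e.p i = 0`: insert `e.p k`: `q m ≫ push ≫ e.p k = 0` for `k < m` by `a`, and
  `e.p k ≫ L ≫ e.p i = 0` for `i < k - 2d`.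
-/

open CategoryTheory MonoidalCategory

universe w v u

namespace Pool.Agent.LefCK

variable {C : Type u} [Category.{v} C] [Preadditive C] [Linear ℚ C]
  [MonoidalCategory C] {F : Type w} [Field F]
  {K : Correspondences C F} {P : Pol C} {e : LCK K P} {Z : ZeroLocus K P} {S : Sys e Z}

/-- (N) for the class of the zero locus. -/
private theorem splitN_D {i k : ℤ} (h : i < k) :
    e.p (k + 2 * (Z.c : ℤ)) ≫ Z.pull ≫ Z.push ≫ e.p i = 0 := by
  have h1 := e.nonneg Z.c (Z.pull ≫ Z.push) Z.cls i (k + 2 * (Z.c : ℤ)) (by omega)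
  rwa [Category.assoc] at h1

/-- `q j` factors through the pieces `e.p (k + 2c)` with `k ≥ j`. -/
private theorem splitN_fac (T : Split S) {j : ℤ} (hj : j ≠ P.n - Z.c) {W : C} (g : Z.Y ⟶ W)
    (h : ∀ k, j ≤ k → e.p (k + 2 * (Z.c : ℤ)) ≫ Z.pull ≫ g = 0) : T.q j ≫ g = 0 := by
  obtain ⟨I, r, hI, -, hq⟩ := T.fac j hj
  rw [hq, Preadditive.sum_comp]
  refine Finset.sum_eq_zero fun k hk => ?_
  rw [S.u_eq k]
  simp only [Category.assoc]
  rw [h k (hI k hk), Limits.comp_zero, Limits.comp_zero]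

theorem Split.a (T : Split S) {i j : ℤ} (h : i < j) : T.q j ≫ Z.push ≫ e.p i = 0 := by
  by_cases hj : j = P.n - Z.c
  · rw [← (S.low i (by omega)).1]
    exact T.qv_ne i j (by omega)
  · refine splitN_fac T hj _ fun k hk => ?_
    exact splitN_D (by omega)

theorem Split.b (T : Split S) {i j : ℤ} (h : i < j - 2 * (Z.c : ℤ)) :
    e.p j ≫ Z.pull ≫ T.q i = 0 := by
  by_cases hi : i = P.n - Z.c
  · have h1 := (S.high (j - 2 * (Z.c : ℤ)) (by omega)).1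
    rw [sub_add_cancel] at h1
    have h2 := T.uq (j - 2 * (Z.c : ℤ))
    rw [h1, ← hi, Category.assoc] at h2
    exact h2
  · rw [← T.vuq i hi, S.v_eq i]
    have h1 := splitN_D (e := e) (Z := Z) h
    rw [sub_add_cancel] at h1
    calc e.p j ≫ Z.pull ≫ (Z.push ≫ e.p i ≫ S.y i) ≫ S.u i ≫ T.q i
        = (e.p j ≫ Z.pull ≫ Z.push ≫ e.p i) ≫ S.y i ≫ S.u i ≫ T.q i := by
          simp only [Category.assoc]
      _ = 0 := by rw [h1, Limits.zero_comp]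

theorem Split.nonneg (T : Split S) (d : ℕ) (g : Z.Y ⟶ Z.Y) (hg : g ∈ Z.pol.L d) (i j : ℤ)
    (h : i < j - 2 * (d : ℤ)) : T.q j ≫ g ≫ T.q i = 0 := by
  obtain ⟨-, L, hL, hpush, hpull⟩ := hg
  by_cases hj : j = P.n - Z.c
  · have hi : i ≠ P.n - Z.c := by omega
    have key : T.q j ≫ Z.push ≫ L ≫ e.p i = 0 := by
      have h0 : (T.q j ≫ Z.push) ≫ (L ≫ e.p i) = 0 := by
        refine e.toCK.comp_eq_zero _ _ fun k => ?_
        by_cases hk : k < j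
        · have h1 := T.a hk
          rw [← Category.assoc (T.q j ≫ Z.push), Category.assoc (T.q j), h1, Limits.zero_comp]
        · rw [e.nonneg d L hL i k (by omega), Limits.comp_zero]
      rwa [Category.assoc] at h0
    rw [← T.vuq i hi, S.v_eq i]
    calc T.q j ≫ g ≫ (Z.push ≫ e.p i ≫ S.y i) ≫ S.u i ≫ T.q i
        = T.q j ≫ (g ≫ Z.push) ≫ e.p i ≫ S.y i ≫ S.u i ≫ T.q i := by
          simp only [Category.assoc]
      _ = (T.q j ≫ Z.push ≫ L ≫ e.p i) ≫ S.y i ≫ S.u i ≫ T.q i := by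
          rw [← hpush]
          simp only [Category.assoc]
      _ = 0 := by rw [key, Limits.zero_comp]
  · refine splitN_fac T hj _ fun k hk => ?_
    have h0 : (e.p (k + 2 * (Z.c : ℤ)) ≫ L) ≫ (Z.pull ≫ T.q i) = 0 := by
      refine e.toCK.comp_eq_zero _ _ fun k' => ?_
      by_cases hk' : k' < k + 2 * (Z.c : ℤ) - 2 * (d : ℤ)
      · have h1 := e.nonneg d L hL k' (k + 2 * (Z.c : ℤ)) hk'
        rw [← Category.assoc (e.p (k + 2 * (Z.c : ℤ)) ≫ L),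
          Category.assoc (e.p (k + 2 * (Z.c : ℤ))), h1, Limits.zero_comp]
      · rw [T.b (j := k') (i := i) (by omega), Limits.comp_zero]
    calc e.p (k + 2 * (Z.c : ℤ)) ≫ Z.pull ≫ g ≫ T.q i
        = e.p (k + 2 * (Z.c : ℤ)) ≫ (Z.pull ≫ g) ≫ T.q i := by
          simp only [Category.assoc]
      _ = (e.p (k + 2 * (Z.c : ℤ)) ≫ L) ≫ (Z.pull ≫ T.q i) := by
          rw [hpull]
          simp only [Category.assoc]
      _ = 0 := h0

end Pool.Agent.LefCK
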