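import Mathlib
import Pool.Agent.LefCK.SplitN

/-!
# Murre's (B) and (D) for the decomposition of `Y` (module LCK-SplitB)

Notation `m = P.n - Z.c`, `c = Z.c`; `CH K X l = K.deg (𝟙_ C) X (-l)`.

PLAN.
`murreB_of_weak`: `y ∈ CH_l(Y)`, `i < 2l`. If `i < m`: `q i = push ≫ e.p i ≫ (u i ≫ q i)`
  (`vuq`, `S.low`), and `y ≫ push ∈ CH_l(X)`, so `(y ≫ push) ≫ e.p i = 0`. If `m ≤ i`: `m < 2l`, so
  `y = x ≫ pull`, `x ∈ CH_{l+c}(X)`; `x ≫ (pull ≫ q i) = 0`: insert `e.p k` (`e.toCK.comp_eq_zero`): `x ≫ e.p k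
  = 0` for `k < 2l + 2c`, and `e.p k ≫ pull ≫ q i = 0` for `k > i + 2c` (`T.b`).
`weak_of_murreB`: `y ∈ CH_l(Y)`, `m < 2l`: `y = ∑_{i ∈ T.s} y ≫ q i`, where `y ≫ q i = 0` for `i < 2l`, and
  for `i ≥ 2l > m`: `q i = z i ≫ pull` with `z i : Y ⟶ X` of degree `-c`: by `T.fac`,
  `q i = ∑ r k ≫ u k = (∑ r k ≫ x k ≫ e.p (k+2c)) ≫ pull`, degrees `-δ k + (δ k - c) + 0 = -c`. So
  `y = (∑ y ≫ z i) ≫ pull`, `y ≫ z i ∈ CH_{l+c}(X)`.
`murreD_low`, `murreD_high`: `y ∈ CH_l(Y)` with `K.H.map y = 0`; `2l ≠ m`. If `2l < m`: `y ≫ q (2l) = (y ≫ push) ≫ e.p (2l)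
  ≫ ..` and `y ≫ push ∈ CH_l(X)`, homologically trivial (`K.H.map` is a functor, `zero_comp`). If `2l > m`:
  `q (2l) = v (2l) ≫ e.p (2l+2c) ≫ u (2l) ≫ q (2l)` (`vuq`, `vuv`, `S.high`: `u ≫ v = e.p (2l+2c)`), and
  `y ≫ v (2l) ∈ CH_{l+c}(X)` (degree `-l - c`), homologically trivial, so `(y ≫ v (2l)) ≫ e.p (2(l+c)) = 0`.
-/

open CategoryTheory MonoidalCategory

universe w v u

namespace Pool.Agent.LefCK

variable {C : Type u} [Category.{v} C] [Preadditive C] [Linear ℚ C]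
  [MonoidalCategory C] {F : Type w} [Field F]
  {K : Correspondences C F} {P : Pol C} {e : LCK K P} {Z : ZeroLocus K P} {S : Sys e Z}

private theorem push_mem_CH {l : ℤ} {y : 𝟙_ C ⟶ Z.Y} (hy : y ∈ CH K Z.Y l) :
    y ≫ Z.push ∈ CH K P.X l :=
  K.comp_mem' hy Z.push_mem (add_zero _)

theorem Split.weak_of_murreB (T : Split S) (l : ℤ) (HB : T.toCK.MurreB l) :
    Z.WeakLefschetz l := by
  classical
  intro hl y hy
  have key : ∀ i : ℤ, ∃ x ∈ CH K P.X (l + Z.c), x ≫ Z.pull = y ≫ T.q i := by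
    intro i
    rcases lt_or_ge i (2 * l) with hi | hi
    · refine ⟨0, Submodule.zero_mem _, ?_⟩
      have h1 := HB y hy i hi
      rw [T.toCK_p] at h1
      rw [h1, Limits.zero_comp]
    · obtain ⟨I, r, -, hr, hq⟩ := T.fac i (by omega)
      refine ⟨y ≫ ∑ k ∈ I, r k ≫ S.x k ≫ e.p (k + 2 * (Z.c : ℤ)), ?_, ?_⟩
      · have h1 : (∑ k ∈ I, r k ≫ S.x k ≫ e.p (k + 2 * (Z.c : ℤ))) ∈
            K.deg Z.Y P.X (-(Z.c : ℤ)) := by
          refine Submodule.sum_mem _ fun k _ => ?_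
          exact K.comp_mem' (hr k) (K.comp_mem (S.x_mem k) (e.mem _)) (by ring)
        exact K.comp_mem' hy h1 (by ring)
      · rw [Category.assoc]
        congr 1
        rw [hq, Preadditive.sum_comp]
        refine Finset.sum_congr rfl fun k _ => ?_
        rw [Category.assoc, Category.assoc, S.u_eq]
  choose x hx hxy using key
  refine ⟨∑ i ∈ T.s, x i, Submodule.sum_mem _ fun i _ => hx i, ?_⟩
  rw [Preadditive.sum_comp, Finset.sum_congr rfl fun i _ => hxy i, ← Preadditive.comp_sum,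
    T.sum, Category.comp_id]

theorem Split.murreB_of_weak (T : Split S) (l : ℤ) (h : e.toCK.MurreB l)
    (h' : e.toCK.MurreB (l + Z.c)) (HW : Z.WeakLefschetz l) : T.toCK.MurreB l := by
  intro y hy i hi
  rw [T.toCK_p]
  rcases lt_or_ge i (P.n - Z.c) with him | him
  · rw [← T.vuq i (by omega), (S.low i him).1]
    have h1 := h (y ≫ Z.push) (push_mem_CH hy) i hi
    rw [Category.assoc] at h1
    rw [Category.assoc, ← Category.assoc, ← Category.assoc, Category.assoc y, h1,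
      Limits.zero_comp]
  · obtain ⟨x, hx, rfl⟩ := HW (by omega) y hy
    rw [Category.assoc]
    refine e.toCK.comp_eq_zero x (Z.pull ≫ T.q i) fun k => ?_
    rcases lt_or_ge k (2 * (l + Z.c)) with hk | hk
    · rw [← Category.assoc, h' x hx k hk, Limits.zero_comp]
    · rw [T.b (by omega), Limits.comp_zero]

theorem Split.murreD_low (T : Split S) (l : ℤ) (hl : 2 * l < P.n - Z.c)
    (h : e.toCK.MurreD l) : T.toCK.MurreD l := by
  have := K.additive
  intro y hy h0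
  rw [T.toCK_p]
  have h1 := h (y ≫ Z.push) (push_mem_CH hy) (by rw [K.H.map_comp, h0, Limits.zero_comp])
  rw [Category.assoc] at h1
  rw [← T.vuq (2 * l) hl.ne, (S.low _ hl).1]
  rw [Category.assoc, ← Category.assoc, ← Category.assoc, Category.assoc y, h1,
    Limits.zero_comp]

theorem Split.murreD_high (T : Split S) (l : ℤ) (hl : P.n - Z.c < 2 * l)
    (h : e.toCK.MurreD (l + Z.c)) : T.toCK.MurreD l := by
  have := K.additive
  intro y hy h0
  rw [T.toCK_p]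
  obtain ⟨-, h2, h3⟩ := S.high (2 * l) hl
  have h4 : y ≫ S.v (2 * l) ∈ CH K P.X (l + Z.c) :=
    K.comp_mem' hy (S.v_mem (2 * l)) (by rw [h3]; ring)
  have h1 := h (y ≫ S.v (2 * l)) h4 (by rw [K.H.map_comp, h0, Limits.zero_comp])
  have h5 : 2 * (l + (Z.c : ℤ)) = 2 * l + 2 * (Z.c : ℤ) := by ring
  rw [h5, ← h2, Category.assoc, S.vuv] at h1
  rw [← T.vuq (2 * l) hl.ne', ← Category.assoc, h1, Limits.zero_comp]

end Pool.Agent.LefCK
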