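import Mathlib
import Pool.Agent.LefCK.SplitN

/-!
# Hard Lefschetz for the decomposition of `Y` (module LCK-SplitL)

Notation `m = P.n - Z.c`, `c = Z.c`, `D = pull ≫ push`. Leading components of `pull` and `push`:
`β w := e.p (w+2c) ≫ pull ≫ q w`, `α w := q w ≫ push ≫ e.p w`.

PLAN.
`beta_lead`: induction on the relation. Step: `β w ≫ g ≫ q (w-2d) = e.p (w+2c) ≫ L ≫ β (w-2d)` for
  `g` of degree `d` with `pull ≫ g = L ≫ pull`: both are equal to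
  `e.p (w+2c) ≫ pull ≫ g ≫ q (w-2d) = e.p (w+2c) ≫ L ≫ pull ≫ q (w-2d)`: on the left insert `q k`
  (`T.toCK.comp_eq`): `e.p (w+2c) ≫ pull ≫ q k = 0` for `k < w` (`T.b`), `q k ≫ g ≫ q (w-2d) = 0` for
  `k > w` (`T.nonneg`); on the right insert `e.p k`: `e.p (w+2c) ≫ L ≫ e.p k = 0` for
  `k < w+2c-2d` (`e.nonneg`), `e.p k ≫ pull ≫ q (w-2d) = 0` for `k > w+2c-2d` (`T.b`).
`beta_alpha`: `β w ≫ α w = e.p (w+2c) ≫ D ≫ e.p w`: insert `q k`: `T.b` for `k < w`, `T.a` for `k > w`.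
`hard`: for `l` on `Y` choose `l'` on `X` related to it (`List.Forall₂`, e.g. by induction on `l`); `l'' := l' ++ [(c, D)]`,
  `total l'' = i + c` with `i = total l > 0`; `w := m + i`, `w' := m - i`, `w + 2c = n + (i+c)`,
  `w' = n - (i+c)`. `Φ := lead e.p (w+2c) l'' = lead e.p (w+2c) l' ≫ (e.p (w'+2c) ≫ D ≫ e.p w')`, so
  (1) `β w ≫ lead q w l ≫ α w' = Φ` by `beta_lead`, `beta_alpha`. `e.hard l''` gives `G'` of degree `-(i+c)`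
  with `Φ ≫ G' = e.p (w+2c)`, `G' ≫ Φ = e.p w'`. Put `G := α w' ≫ G' ≫ β w`, degree `-i`.
  As `w > m`: `β w = u w ≫ q w` (`S.high`), `v w ≫ β w = q w` (`vuq`). As `w' < m`: `α w' = q w' ≫ v w' = v w'`
  (`S.low`, `qv`), `α w' ≫ (u w' ≫ q w') = q w'` (`vuq`).
  `lead q w l ≫ G = q w`: `β w ≫ (lead q w l ≫ G) = Φ ≫ G' ≫ β w = β w`; compose with `v w` on the left,
  and `q w ≫ lead q w l = lead q w l` (`p_lead`).
  `G ≫ lead q w l = q w'`: `(G ≫ lead q w l) ≫ α w' = α w' ≫ G' ≫ Φ = α w' ≫ e.p w' = α w'`; compose with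
  `u w' ≫ q w'` on the right, and `lead q w l ≫ q w' = lead q w l` (`lead_p`, `w' = w - 2 * total l`).
-/

open CategoryTheory MonoidalCategory

universe w v u

namespace Pool.Agent.LefCK

variable {C : Type u} [Category.{v} C] [Preadditive C] [Linear ℚ C]
  [MonoidalCategory C] {F : Type w} [Field F]
  {K : Correspondences C F} {P : Pol C} {e : LCK K P} {Z : ZeroLocus K P} {S : Sys e Z}

/-- `b.2` is a distinguished correspondence of `X` whose restriction to `Y` is `a.2`. -/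
def ZeroLocus.Restr (Z : ZeroLocus K P) (a : ℕ × (Z.Y ⟶ Z.Y)) (b : ℕ × (P.X ⟶ P.X)) : Prop :=
  a.1 = b.1 ∧ a.2 ∈ Z.pol.L a.1 ∧ b.2 ∈ P.L b.1 ∧ Z.pull ≫ a.2 = b.2 ≫ Z.pull

/-- One step of `beta_lead`. -/
private theorem sl_step (T : Split S) (w : ℤ) (d : ℕ) (g : Z.Y ⟶ Z.Y) (L : P.X ⟶ P.X)
    (hg : g ∈ Z.pol.L d) (hL : L ∈ P.L d) (h : Z.pull ≫ g = L ≫ Z.pull) :
    e.p (w + 2 * (Z.c : ℤ)) ≫ Z.pull ≫ T.q w ≫ g ≫ T.q (w - 2 * (d : ℤ)) =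
      e.p (w + 2 * (Z.c : ℤ)) ≫ L ≫ e.p (w - 2 * (d : ℤ) + 2 * (Z.c : ℤ)) ≫ Z.pull ≫
        T.q (w - 2 * (d : ℤ)) := by
  have h1 : (e.p (w + 2 * (Z.c : ℤ)) ≫ Z.pull) ≫ (g ≫ T.q (w - 2 * (d : ℤ))) =
      (e.p (w + 2 * (Z.c : ℤ)) ≫ Z.pull) ≫ T.q w ≫ (g ≫ T.q (w - 2 * (d : ℤ))) := by
    refine T.toCK.comp_eq _ _ w fun k hk => ?_
    rw [T.toCK_p]
    rcases lt_or_gt_of_ne hk with hk | hk
    · have h2 := T.b (i := k) (j := w + 2 * (Z.c : ℤ)) (by omega)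
      calc (e.p (w + 2 * (Z.c : ℤ)) ≫ Z.pull) ≫ T.q k ≫ g ≫ T.q (w - 2 * (d : ℤ))
          = (e.p (w + 2 * (Z.c : ℤ)) ≫ Z.pull ≫ T.q k) ≫ g ≫ T.q (w - 2 * (d : ℤ)) := by
            simp only [Category.assoc]
        _ = 0 := by rw [h2, Limits.zero_comp]
    · rw [T.nonneg d g hg (w - 2 * (d : ℤ)) k (by omega), Limits.comp_zero]
  have h2 : (e.p (w + 2 * (Z.c : ℤ)) ≫ L) ≫ (Z.pull ≫ T.q (w - 2 * (d : ℤ))) =
      (e.p (w + 2 * (Z.c : ℤ)) ≫ L) ≫ e.p (w - 2 * (d : ℤ) + 2 * (Z.c : ℤ)) ≫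
        (Z.pull ≫ T.q (w - 2 * (d : ℤ))) := by
    refine e.toCK.comp_eq _ _ (w - 2 * (d : ℤ) + 2 * (Z.c : ℤ)) fun k hk => ?_
    rcases lt_or_gt_of_ne hk with hk | hk
    · have h3 := e.nonneg d L hL k (w + 2 * (Z.c : ℤ)) (by omega)
      calc (e.p (w + 2 * (Z.c : ℤ)) ≫ L) ≫ e.p k ≫ Z.pull ≫ T.q (w - 2 * (d : ℤ))
          = (e.p (w + 2 * (Z.c : ℤ)) ≫ L ≫ e.p k) ≫ Z.pull ≫ T.q (w - 2 * (d : ℤ)) := by
            simp only [Category.assoc]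
        _ = 0 := by rw [h3, Limits.zero_comp]
    · rw [T.b (i := w - 2 * (d : ℤ)) (j := k) (by omega), Limits.comp_zero]
  calc e.p (w + 2 * (Z.c : ℤ)) ≫ Z.pull ≫ T.q w ≫ g ≫ T.q (w - 2 * (d : ℤ))
      = (e.p (w + 2 * (Z.c : ℤ)) ≫ Z.pull) ≫ T.q w ≫ (g ≫ T.q (w - 2 * (d : ℤ))) := by
        simp only [Category.assoc]
    _ = (e.p (w + 2 * (Z.c : ℤ)) ≫ Z.pull) ≫ (g ≫ T.q (w - 2 * (d : ℤ))) := h1.symm
    _ = e.p (w + 2 * (Z.c : ℤ)) ≫ (Z.pull ≫ g) ≫ T.q (w - 2 * (d : ℤ)) := by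
        simp only [Category.assoc]
    _ = (e.p (w + 2 * (Z.c : ℤ)) ≫ L) ≫ (Z.pull ≫ T.q (w - 2 * (d : ℤ))) := by
        rw [h]
        simp only [Category.assoc]
    _ = (e.p (w + 2 * (Z.c : ℤ)) ≫ L) ≫ e.p (w - 2 * (d : ℤ) + 2 * (Z.c : ℤ)) ≫
        (Z.pull ≫ T.q (w - 2 * (d : ℤ))) := h2
    _ = _ := by simp only [Category.assoc]

/-- Choice of a list on `X`. -/
private theorem sl_exists (Z : ZeroLocus K P) (l : List (ℕ × (Z.Y ⟶ Z.Y)))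
    (h : ∀ a ∈ l, 0 < a.1 ∧ a.2 ∈ Z.pol.L a.1) :
    ∃ l' : List (ℕ × (P.X ⟶ P.X)), List.Forall₂ Z.Restr l l' ∧
      (∀ b ∈ l', 0 < b.1 ∧ b.2 ∈ P.L b.1) ∧ total l' = total l := by
  induction l with
  | nil => exact ⟨[], List.Forall₂.nil, by simp, by simp⟩
  | cons a l ih =>
    obtain ⟨l', h1, h2, h3⟩ := ih fun b hb => h b (List.mem_cons_of_mem _ hb)
    obtain ⟨ha0, ha⟩ := h a List.mem_cons_self
    obtain ⟨-, L, hL, -, hpull⟩ := id ha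
    refine ⟨(a.1, L) :: l', List.Forall₂.cons ⟨rfl, ha, hL, hpull⟩ h1, ?_, ?_⟩
    · intro b hb
      rcases List.mem_cons.mp hb with rfl | hb
      · exact ⟨ha0, hL⟩
      · exact h2 b hb
    · rw [total_cons, total_cons, h3]

theorem Split.beta_lead (T : Split S) (w w' : ℤ) (l : List (ℕ × (Z.Y ⟶ Z.Y)))
    (l' : List (ℕ × (P.X ⟶ P.X))) (h : List.Forall₂ Z.Restr l l') (hw : w' = w - 2 * total l) :
    (e.p (w + 2 * (Z.c : ℤ)) ≫ Z.pull ≫ T.q w) ≫ lead T.q w l =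
      lead e.p (w + 2 * (Z.c : ℤ)) l' ≫ (e.p (w' + 2 * (Z.c : ℤ)) ≫ Z.pull ≫ T.q w') := by
  induction h generalizing w with
  | nil =>
    have h1 : w' = w := by simpa using hw
    rw [h1, lead_nil, lead_nil, Category.assoc, Category.assoc, T.idem, e.toCK.idem'_assoc]
  | @cons a b l l' hab hl ih =>
    obtain ⟨h1, h2, h3, h4⟩ := hab
    have h5 := ih (w - 2 * (a.1 : ℤ)) (by rw [hw, total_cons]; ring)
    have h6 := sl_step T w a.1 a.2 b.2 h2 (by rw [h1]; exact h3) h4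
    have h7 : w + 2 * (Z.c : ℤ) - 2 * (b.1 : ℤ) = w - 2 * (a.1 : ℤ) + 2 * (Z.c : ℤ) := by
      rw [h1]; ring
    rw [lead_cons, lead_cons, h7]
    calc (e.p (w + 2 * (Z.c : ℤ)) ≫ Z.pull ≫ T.q w) ≫ T.q w ≫ a.2 ≫
          lead T.q (w - 2 * (a.1 : ℤ)) l
        = e.p (w + 2 * (Z.c : ℤ)) ≫ Z.pull ≫ (T.q w ≫ T.q w) ≫ a.2 ≫
          lead T.q (w - 2 * (a.1 : ℤ)) l := by simp only [Category.assoc]
      _ = e.p (w + 2 * (Z.c : ℤ)) ≫ Z.pull ≫ T.q w ≫ a.2 ≫ T.q (w - 2 * (a.1 : ℤ)) ≫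
          lead T.q (w - 2 * (a.1 : ℤ)) l := by rw [T.idem, p_lead T.idem]
      _ = (e.p (w + 2 * (Z.c : ℤ)) ≫ Z.pull ≫ T.q w ≫ a.2 ≫ T.q (w - 2 * (a.1 : ℤ))) ≫
          lead T.q (w - 2 * (a.1 : ℤ)) l := by simp only [Category.assoc]
      _ = e.p (w + 2 * (Z.c : ℤ)) ≫ b.2 ≫ (e.p (w - 2 * (a.1 : ℤ) + 2 * (Z.c : ℤ)) ≫ Z.pull ≫
          T.q (w - 2 * (a.1 : ℤ))) ≫ lead T.q (w - 2 * (a.1 : ℤ)) l := by
        rw [h6]
        simp only [Category.assoc]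
      _ = e.p (w + 2 * (Z.c : ℤ)) ≫ b.2 ≫ lead e.p (w - 2 * (a.1 : ℤ) + 2 * (Z.c : ℤ)) l' ≫
          (e.p (w' + 2 * (Z.c : ℤ)) ≫ Z.pull ≫ T.q w') := by rw [h5]
      _ = _ := by simp only [Category.assoc]

theorem Split.beta_alpha (T : Split S) (w : ℤ) :
    (e.p (w + 2 * (Z.c : ℤ)) ≫ Z.pull ≫ T.q w) ≫ (T.q w ≫ Z.push ≫ e.p w) =
      e.p (w + 2 * (Z.c : ℤ)) ≫ (Z.pull ≫ Z.push) ≫ e.p w := by
  have h1 : (e.p (w + 2 * (Z.c : ℤ)) ≫ Z.pull) ≫ (Z.push ≫ e.p w) =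
      (e.p (w + 2 * (Z.c : ℤ)) ≫ Z.pull) ≫ T.q w ≫ (Z.push ≫ e.p w) := by
    refine T.toCK.comp_eq _ _ w fun k hk => ?_
    rw [T.toCK_p]
    rcases lt_or_gt_of_ne hk with hk | hk
    · have h2 := T.b (i := k) (j := w + 2 * (Z.c : ℤ)) (by omega)
      calc (e.p (w + 2 * (Z.c : ℤ)) ≫ Z.pull) ≫ T.q k ≫ Z.push ≫ e.p w
          = (e.p (w + 2 * (Z.c : ℤ)) ≫ Z.pull ≫ T.q k) ≫ Z.push ≫ e.p w := by
            simp only [Category.assoc]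
        _ = 0 := by rw [h2, Limits.zero_comp]
    · rw [T.a hk, Limits.comp_zero]
  calc (e.p (w + 2 * (Z.c : ℤ)) ≫ Z.pull ≫ T.q w) ≫ (T.q w ≫ Z.push ≫ e.p w)
      = (e.p (w + 2 * (Z.c : ℤ)) ≫ Z.pull) ≫ (T.q w ≫ T.q w) ≫ (Z.push ≫ e.p w) := by
        simp only [Category.assoc]
    _ = (e.p (w + 2 * (Z.c : ℤ)) ≫ Z.pull) ≫ T.q w ≫ (Z.push ≫ e.p w) := by rw [T.idem]
    _ = (e.p (w + 2 * (Z.c : ℤ)) ≫ Z.pull) ≫ (Z.push ≫ e.p w) := h1.symm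
    _ = _ := by simp only [Category.assoc]

theorem Split.hard (T : Split S) (l : List (ℕ × (Z.Y ⟶ Z.Y))) (hl : l ≠ [])
    (h : ∀ a ∈ l, 0 < a.1 ∧ a.2 ∈ Z.pol.L a.1) :
    ∃ G ∈ K.deg Z.Y Z.Y (-total l), lead T.q (P.n - Z.c + total l) l ≫ G =
      T.q (P.n - Z.c + total l) ∧
      G ≫ lead T.q (P.n - Z.c + total l) l = T.q (P.n - Z.c - total l) := by
  have hpos := total_pos hl fun a ha => (h a ha).1
  obtain ⟨l', hll, hl', htot⟩ := sl_exists Z l h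
  obtain ⟨w, hw⟩ : ∃ w : ℤ, w = P.n - Z.c + total l := ⟨_, rfl⟩
  obtain ⟨w', hw'⟩ : ∃ w' : ℤ, w' = P.n - Z.c - total l := ⟨_, rfl⟩
  rw [← hw, ← hw']
  have htot' : total (l' ++ [(Z.c, Z.pull ≫ Z.push)]) = total l + Z.c := by
    rw [total_append, htot, total_cons, total_nil, add_zero]
  obtain ⟨G', hG', hG1, hG2⟩ := e.hard (l' ++ [(Z.c, Z.pull ≫ Z.push)]) (by simp) (by
    intro a ha
    rcases List.mem_append.mp ha with ha | ha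
    · exact hl' a ha
    · rw [List.mem_singleton.mp ha]
      exact ⟨Z.pos, Z.cls⟩)
  rw [htot'] at hG' hG1 hG2
  have e1 : P.n + (total l + (Z.c : ℤ)) = w + 2 * (Z.c : ℤ) := by rw [hw]; ring
  have e2 : P.n - (total l + (Z.c : ℤ)) = w' := by rw [hw']; ring
  have e3 : w' = w - 2 * total l := by rw [hw, hw']; ring
  rw [e1] at hG1 hG2
  rw [e2] at hG2
  -- the leading component on `X`
  have hPhi : lead e.p (w + 2 * (Z.c : ℤ)) (l' ++ [(Z.c, Z.pull ≫ Z.push)]) =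
      (e.p (w + 2 * (Z.c : ℤ)) ≫ Z.pull ≫ T.q w) ≫ lead T.q w l ≫
        (T.q w' ≫ Z.push ≫ e.p w') := by
    rw [lead_append e.idem (w + 2 * (Z.c : ℤ)) (w' + 2 * (Z.c : ℤ)) l' _
      (by rw [htot, e3]; ring), lead_cons, lead_nil]
    have e4 : w' + 2 * (Z.c : ℤ) - 2 * ((Z.c, Z.pull ≫ Z.push) : ℕ × (P.X ⟶ P.X)).1 = w' := by
      show w' + 2 * (Z.c : ℤ) - 2 * (Z.c : ℤ) = w'
      ring
    rw [e4]
    show lead e.p (w + 2 * (Z.c : ℤ)) l' ≫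
      (e.p (w' + 2 * (Z.c : ℤ)) ≫ (Z.pull ≫ Z.push) ≫ e.p w') = _
    rw [← T.beta_alpha w', ← Category.assoc, ← T.beta_lead w w' l l' hll e3]
    simp only [Category.assoc]
  rw [hPhi] at hG1 hG2
  have hu := (S.high w (by omega)).1
  have hv := (S.low w' (by omega)).1
  have hvb : S.v w ≫ (e.p (w + 2 * (Z.c : ℤ)) ≫ Z.pull ≫ T.q w) = T.q w := by
    rw [← Category.assoc (e.p (w + 2 * (Z.c : ℤ))), ← hu]
    exact T.vuq w (by omega)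
  have hal : T.q w' ≫ Z.push ≫ e.p w' = S.v w' := by rw [← hv, T.qv]
  have hau : (T.q w' ≫ Z.push ≫ e.p w') ≫ (S.u w' ≫ T.q w') = T.q w' := by
    rw [hal]
    exact T.vuq w' (by omega)
  have hbe : e.p (w + 2 * (Z.c : ℤ)) ≫ (e.p (w + 2 * (Z.c : ℤ)) ≫ Z.pull ≫ T.q w) =
      e.p (w + 2 * (Z.c : ℤ)) ≫ Z.pull ≫ T.q w := e.toCK.idem'_assoc _ _
  have hae : (T.q w' ≫ Z.push ≫ e.p w') ≫ e.p w' = T.q w' ≫ Z.push ≫ e.p w' := by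
    simp only [Category.assoc]
    rw [e.idem]
  have hmb : e.p (w + 2 * (Z.c : ℤ)) ≫ Z.pull ≫ T.q w ∈ K.deg P.X Z.Y (Z.c : ℤ) :=
    K.comp_mem' (e.mem _) (K.comp_mem Z.pull_mem (T.q_mem w)) (by ring)
  have hma : T.q w' ≫ Z.push ≫ e.p w' ∈ K.deg Z.Y P.X 0 :=
    K.comp_mem' (T.q_mem w') (K.comp_mem Z.push_mem (e.mem _)) (by ring)
  have hpl : T.q w ≫ lead T.q w l = lead T.q w l := p_lead T.idem w l
  have hlp : lead T.q w l ≫ T.q w' = lead T.q w l := lead_p T.idem w w' l e3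
  generalize e.p (w + 2 * (Z.c : ℤ)) ≫ Z.pull ≫ T.q w = β at *
  generalize T.q w' ≫ Z.push ≫ e.p w' = α at *
  generalize lead T.q w l = Λ at *
  refine ⟨α ≫ G' ≫ β, K.comp_mem' hma (K.comp_mem hG' hmb) (by ring), ?_, ?_⟩
  · have k1 : β ≫ (Λ ≫ α ≫ G' ≫ β) = β := by
      calc β ≫ (Λ ≫ α ≫ G' ≫ β) = ((β ≫ Λ ≫ α) ≫ G') ≫ β := by simp only [Category.assoc]
        _ = β := by rw [hG1, hbe]
    calc Λ ≫ α ≫ G' ≫ β = (T.q w ≫ Λ) ≫ α ≫ G' ≫ β := by rw [hpl]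
      _ = (S.v w ≫ β) ≫ (Λ ≫ α ≫ G' ≫ β) := by rw [hvb]; simp only [Category.assoc]
      _ = S.v w ≫ β ≫ (Λ ≫ α ≫ G' ≫ β) := by simp only [Category.assoc]
      _ = T.q w := by rw [k1, hvb]
  · have k1 : ((α ≫ G' ≫ β) ≫ Λ) ≫ α = α := by
      calc ((α ≫ G' ≫ β) ≫ Λ) ≫ α = α ≫ (G' ≫ (β ≫ Λ ≫ α)) := by
            simp only [Category.assoc]
        _ = α := by rw [hG2, hae]
    calc (α ≫ G' ≫ β) ≫ Λ = (α ≫ G' ≫ β) ≫ (Λ ≫ T.q w') := by rw [hlp]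
      _ = (((α ≫ G' ≫ β) ≫ Λ) ≫ α) ≫ (S.u w' ≫ T.q w') := by
        conv_lhs => rw [← hau]
        simp only [Category.assoc]
      _ = T.q w' := by rw [k1, hau]

end Pool.Agent.LefCK
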