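import Mathlib
import Pool.Agent.LefCK.Basic

/-!
# One-sided inverses of the leading component of the class of a zero locus (module LCK-SysA)

`D := Z.pull ≫ Z.push ∈ P.L Z.c` is the intersection with the class of the zero locus `Y ⊂ X`,
`c := Z.c > 0`, `n := P.n`.

PLAN. Choose `L ∈ P.L 1` (`Z.divisor`).
* `exists_right`: `i := j + 2c - n ≥ c` (a natural number `i.toNat`), `l := (c, D) :: List.replicate
  (i - c) (1, L)`; `total l = i`, `l ≠ []`, all entries are `(d, L')` with `0 < d`, `L' ∈ P.L d`.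
  `n + total l = j + 2c`. `e.hard l` gives `G` of degree `-i` with `lead e.p (j+2c) l ≫ G =
  e.p (j+2c)`, and `lead e.p (j+2c) l = e.p (j+2c) ≫ D ≫ lead e.p j (replicate ..)
  = (e.p (j+2c) ≫ D ≫ e.p j) ≫ lead e.p j (replicate ..)` by `p_lead`. Take
  `s := lead e.p j (replicate ..) ≫ G`, degree `(i - c) - i = -c` by `lead_mem`, `total_replicate`.
* `exists_left`: `i := n - j ≥ c`, `l := List.replicate (i - c) (1, L) ++ [(c, D)]`, `total l = i`,
  `n - total l = j`, and by `lead_append` and `lead_p`, `lead e.p (n+i) l = lead e.p (n+i)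
  (replicate ..) ≫ (e.p (j+2c) ≫ D ≫ e.p j)` (as `n + i - 2 (i - c) = j + 2c`). Take
  `t := G ≫ lead e.p (n+i) (replicate ..)`.
-/

open CategoryTheory MonoidalCategory

universe w v u

namespace Pool.Agent.LefCK

variable {C : Type u} [Category.{v} C] [Preadditive C] [Linear ℚ C]
  [MonoidalCategory C] {F : Type w} [Field F]
  {K : Correspondences C F} {P : Pol C} (e : LCK K P) (Z : ZeroLocus K P)

theorem exists_right (j : ℤ) (hj : P.n - Z.c ≤ j) :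
    ∃ s ∈ K.deg P.X P.X (-(Z.c : ℤ)),
      (e.p (j + 2 * (Z.c : ℤ)) ≫ (Z.pull ≫ Z.push) ≫ e.p j) ≫ s = e.p (j + 2 * (Z.c : ℤ)) := by
  obtain ⟨L, hL⟩ := Z.divisor
  obtain ⟨m, hm⟩ : ∃ m : ℕ, (m : ℤ) = j + Z.c - P.n :=
    ⟨(j + Z.c - P.n).toNat, Int.toNat_of_nonneg (by omega)⟩
  have hc := Z.pos
  set r : List (ℕ × (P.X ⟶ P.X)) := List.replicate m (1, L) with hr
  have hrt : total r = m := by rw [hr, total_replicate]; push_cast; ring
  have hrm : ∀ a ∈ r, 0 < a.1 ∧ a.2 ∈ P.L a.1 := by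
    intro a ha
    rw [List.eq_of_mem_replicate ha]
    exact ⟨Nat.one_pos, hL⟩
  obtain ⟨G, hG, h1, -⟩ := e.hard ((Z.c, Z.pull ≫ Z.push) :: r) (List.cons_ne_nil _ _) (by
    intro a ha
    rcases List.mem_cons.1 ha with rfl | ha
    · exact ⟨hc, Z.cls⟩
    · exact hrm a ha)
  have ht : total ((Z.c, Z.pull ≫ Z.push) :: r) = j + 2 * (Z.c : ℤ) - P.n := by
    rw [total_cons, hrt]
    push_cast
    omega
  have hw : P.n + total ((Z.c, Z.pull ≫ Z.push) :: r) = j + 2 * (Z.c : ℤ) := by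
    rw [ht]; ring
  rw [hw, lead_cons] at h1
  have hw2 : j + 2 * (Z.c : ℤ) - 2 * (((Z.c, Z.pull ≫ Z.push) : ℕ × (P.X ⟶ P.X)).1 : ℤ) = j := by
    show j + 2 * (Z.c : ℤ) - 2 * (Z.c : ℤ) = j
    ring
  rw [hw2] at h1
  refine ⟨lead e.p j r ≫ G, ?_, ?_⟩
  · refine K.comp_mem' (lead_mem e.mem j r fun a ha => e.mem_L _ _ (hrm a ha).2) hG ?_
    rw [hrt, ht]
    omega
  · calc (e.p (j + 2 * (Z.c : ℤ)) ≫ (Z.pull ≫ Z.push) ≫ e.p j) ≫ lead e.p j r ≫ G
        = (e.p (j + 2 * (Z.c : ℤ)) ≫ (Z.pull ≫ Z.push) ≫ (e.p j ≫ lead e.p j r)) ≫ G := by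
          simp only [Category.assoc]
      _ = e.p (j + 2 * (Z.c : ℤ)) := by
          rw [p_lead e.idem]
          exact h1

theorem exists_left (j : ℤ) (hj : j ≤ P.n - Z.c) :
    ∃ t ∈ K.deg P.X P.X (-(Z.c : ℤ)),
      t ≫ (e.p (j + 2 * (Z.c : ℤ)) ≫ (Z.pull ≫ Z.push) ≫ e.p j) = e.p j := by
  obtain ⟨L, hL⟩ := Z.divisor
  obtain ⟨m, hm⟩ : ∃ m : ℕ, (m : ℤ) = P.n - Z.c - j :=
    ⟨(P.n - Z.c - j).toNat, Int.toNat_of_nonneg (by omega)⟩
  have hc := Z.pos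
  set r : List (ℕ × (P.X ⟶ P.X)) := List.replicate m (1, L) with hr
  have hrt : total r = m := by rw [hr, total_replicate]; push_cast; ring
  have hrm : ∀ a ∈ r, 0 < a.1 ∧ a.2 ∈ P.L a.1 := by
    intro a ha
    rw [List.eq_of_mem_replicate ha]
    exact ⟨Nat.one_pos, hL⟩
  obtain ⟨G, hG, -, h1⟩ := e.hard (r ++ [(Z.c, Z.pull ≫ Z.push)]) (by simp) (by
    intro a ha
    rcases List.mem_append.1 ha with ha | ha
    · exact hrm a ha
    · rw [List.mem_singleton.1 ha]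
      exact ⟨hc, Z.cls⟩)
  have ht : total (r ++ [(Z.c, Z.pull ≫ Z.push)]) = P.n - j := by
    rw [total_append, total_cons, total_nil, hrt]
    push_cast
    omega
  have hw : P.n - total (r ++ [(Z.c, Z.pull ≫ Z.push)]) = j := by
    rw [ht]; ring
  have hw3 : P.n + total (r ++ [(Z.c, Z.pull ≫ Z.push)]) = P.n + (P.n - j) := by rw [ht]
  rw [hw, hw3, lead_append e.idem (P.n + (P.n - j)) (j + 2 * (Z.c : ℤ)) r _
    (by rw [hrt, hm]; ring), lead_cons, lead_nil] at h1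
  have hw2 : j + 2 * (Z.c : ℤ) - 2 * (((Z.c, Z.pull ≫ Z.push) : ℕ × (P.X ⟶ P.X)).1 : ℤ) = j := by
    show j + 2 * (Z.c : ℤ) - 2 * (Z.c : ℤ) = j
    ring
  rw [hw2] at h1
  refine ⟨G ≫ lead e.p (P.n + (P.n - j)) r, ?_, ?_⟩
  · refine K.comp_mem' hG (lead_mem e.mem _ r fun a ha => e.mem_L _ _ (hrm a ha).2) ?_
    rw [hrt, ht]
    omega
  · rw [Category.assoc]
    exact h1

end Pool.Agent.LefCK
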