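import Mathlib
import Pool.Agent.LefCK.SysA
import Pool.Agent.LefCK.SysDefs

/-!
# Existence of the triangular system (module LCK-SysB)

PLAN. Notation `c, n, m = n - c, D = pull ≫ push`. By `exists_right`, `exists_left` choose (with
`Classical.choose` / `choose!`) `s j` for `m < j` and `t j` for `j < m`, of degree `-c`. Define
* `j > m`: `x j = e.p (j+2c)`, `y j = e.p j ≫ s j ≫ e.p (j+2c)`, `δ j = c`;
* `j < m`: `x j = e.p j ≫ t j ≫ e.p (j+2c)`, `y j = e.p j`, `δ j = 0`;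
* `j = m`: `x j = y j = 0`, `δ j = 0` (`m` itself: `x_mem` holds since 0 is in every `deg`);
* `u j := x j ≫ e.p (j+2c) ≫ pull`, `v j := push ≫ e.p j ≫ y j`.
`u j ≫ v j = x j ≫ (e.p (j+2c) ≫ D ≫ e.p j) ≫ y j` equals `e.p (j+2c)` (`j > m`, by `s`, idempotents),
`e.p j` (`j < m`, by `t`), `0` (`j = m`); then `uvu`, `vuv` (e.g. `e.p (j+2c) ≫ u j = u j`).
`tri`: `e.p (j+2c) ≫ D ≫ e.p i = 0` for `i < j = (j+2c) - 2c` by `e.nonneg c D Z.cls`.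
`zero`: clear from `u_eq`, `v_eq`. Degrees: `K.comp_mem'`, `e.mem`, `Z.push_mem`, `Z.pull_mem`.
-/

open CategoryTheory MonoidalCategory

universe w v u

namespace Pool.Agent.LefCK

variable {C : Type u} [Category.{v} C] [Preadditive C] [Linear ℚ C]
  [MonoidalCategory C] {F : Type w} [Field F]
  {K : Correspondences C F} {P : Pol C}

/-- the components of the system at `j` -/
private structure SysAt (e : LCK K P) (Z : ZeroLocus K P) (j : ℤ) (x y : P.X ⟶ P.X) (δ : ℤ)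
    (u : P.X ⟶ Z.Y) (v : Z.Y ⟶ P.X) : Prop where
  u_eq : u = x ≫ e.p (j + 2 * (Z.c : ℤ)) ≫ Z.pull
  v_eq : v = Z.push ≫ e.p j ≫ y
  x_mem : x ∈ K.deg P.X P.X (δ - Z.c)
  u_mem : u ∈ K.deg P.X Z.Y δ
  v_mem : v ∈ K.deg Z.Y P.X (-δ)
  uvu : u ≫ v ≫ u = u
  vuv : v ≫ u ≫ v = v
  high : P.n - Z.c < j → u = e.p (j + 2 * (Z.c : ℤ)) ≫ Z.pull ∧
    u ≫ v = e.p (j + 2 * (Z.c : ℤ)) ∧ δ = Z.c
  low : j < P.n - Z.c → v = Z.push ≫ e.p j ∧ u ≫ v = e.p j ∧ δ = 0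
  mid : j = P.n - Z.c → u = 0 ∧ v = 0

private theorem sysb_high (e : LCK K P) (Z : ZeroLocus K P) (j : ℤ) (h : P.n - Z.c < j) :
    ∃ x y δ u v, SysAt e Z j x y δ u v := by
  obtain ⟨s, hs, hs2⟩ := exists_right e Z j h.le
  have hq := e.idem (j + 2 * (Z.c : ℤ))
  have hp := e.idem j
  have hqm := e.mem (j + 2 * (Z.c : ℤ))
  have hpm := e.mem j
  have huv : (e.p (j + 2 * (Z.c : ℤ)) ≫ Z.pull) ≫ (Z.push ≫ e.p j ≫ e.p j ≫ s ≫
      e.p (j + 2 * (Z.c : ℤ))) = e.p (j + 2 * (Z.c : ℤ)) := by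
    have h1 : (e.p (j + 2 * (Z.c : ℤ)) ≫ Z.pull) ≫ (Z.push ≫ e.p j ≫ e.p j ≫ s ≫
        e.p (j + 2 * (Z.c : ℤ))) = ((e.p (j + 2 * (Z.c : ℤ)) ≫ (Z.pull ≫ Z.push) ≫
          (e.p j ≫ e.p j)) ≫ s) ≫ e.p (j + 2 * (Z.c : ℤ)) := by
      simp only [Category.assoc]
    rw [h1, hp, hs2, hq]
  refine ⟨e.p (j + 2 * (Z.c : ℤ)), e.p j ≫ s ≫ e.p (j + 2 * (Z.c : ℤ)), Z.c,
    e.p (j + 2 * (Z.c : ℤ)) ≫ Z.pull, Z.push ≫ e.p j ≫ e.p j ≫ s ≫ e.p (j + 2 * (Z.c : ℤ)),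
    ?_, rfl, ?_, ?_, ?_, ?_, ?_, ?_, ?_, ?_⟩
  · rw [← Category.assoc, hq]
  · exact K.mem_cast hqm (by ring)
  · exact K.comp_mem' hqm Z.pull_mem (by ring)
  · exact K.comp_mem' Z.push_mem (K.comp_mem hpm (K.comp_mem hpm (K.comp_mem hs hqm))) (by ring)
  · rw [← Category.assoc, huv, ← Category.assoc, hq]
  · rw [huv]
    simp only [Category.assoc, hq]
  · intro _
    exact ⟨rfl, huv, rfl⟩
  · intro h2
    omega
  · intro h2
    omega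

private theorem sysb_low (e : LCK K P) (Z : ZeroLocus K P) (j : ℤ) (h : j < P.n - Z.c) :
    ∃ x y δ u v, SysAt e Z j x y δ u v := by
  obtain ⟨t, ht, ht2⟩ := exists_left e Z j h.le
  have hq := e.idem (j + 2 * (Z.c : ℤ))
  have hp := e.idem j
  have hqm := e.mem (j + 2 * (Z.c : ℤ))
  have hpm := e.mem j
  have huv : ((e.p j ≫ t ≫ e.p (j + 2 * (Z.c : ℤ))) ≫ e.p (j + 2 * (Z.c : ℤ)) ≫ Z.pull) ≫
      (Z.push ≫ e.p j) = e.p j := by
    have h1 : ((e.p j ≫ t ≫ e.p (j + 2 * (Z.c : ℤ))) ≫ e.p (j + 2 * (Z.c : ℤ)) ≫ Z.pull) ≫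
        (Z.push ≫ e.p j) = e.p j ≫ (t ≫ ((e.p (j + 2 * (Z.c : ℤ)) ≫ e.p (j + 2 * (Z.c : ℤ))) ≫
          (Z.pull ≫ Z.push) ≫ e.p j)) := by
      simp only [Category.assoc]
    rw [h1, hq, ht2, hp]
  refine ⟨e.p j ≫ t ≫ e.p (j + 2 * (Z.c : ℤ)), e.p j, 0,
    (e.p j ≫ t ≫ e.p (j + 2 * (Z.c : ℤ))) ≫ e.p (j + 2 * (Z.c : ℤ)) ≫ Z.pull, Z.push ≫ e.p j,
    rfl, ?_, ?_, ?_, ?_, ?_, ?_, ?_, ?_, ?_⟩
  · rw [hp]
  · exact K.comp_mem' hpm (K.comp_mem ht hqm) (by ring)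
  · exact K.comp_mem' (K.comp_mem hpm (K.comp_mem ht hqm)) (K.comp_mem hqm Z.pull_mem) (by ring)
  · exact K.comp_mem' Z.push_mem hpm (by ring)
  · rw [← Category.assoc, huv]
    rw [← Category.assoc, ← Category.assoc (e.p j) (e.p j), hp]
  · rw [huv, Category.assoc, hp]
  · intro h2
    omega
  · intro _
    exact ⟨rfl, huv, rfl⟩
  · intro h2
    omega

private theorem sysb_mid (e : LCK K P) (Z : ZeroLocus K P) (j : ℤ) (h : j = P.n - Z.c) :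
    ∃ x y δ u v, SysAt e Z j x y δ u v := by
  refine ⟨0, 0, 0, 0, 0, ?_, ?_, Submodule.zero_mem _, Submodule.zero_mem _, Submodule.zero_mem _,
    ?_, ?_, ?_, ?_, ?_⟩
  · rw [Limits.zero_comp]
  · rw [Limits.comp_zero, Limits.comp_zero]
  · rw [Limits.zero_comp]
  · rw [Limits.zero_comp]
  · intro h2
    omega
  · intro h2
    omega
  · intro _
    exact ⟨rfl, rfl⟩

theorem exists_sys (e : LCK K P) (Z : ZeroLocus K P) : Nonempty (Sys e Z) := by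
  have hex : ∀ j : ℤ, ∃ x y δ u v, SysAt e Z j x y δ u v := by
    intro j
    rcases lt_trichotomy j (P.n - Z.c) with h | h | h
    · exact sysb_low e Z j h
    · exact sysb_mid e Z j h
    · exact sysb_high e Z j h
  choose x y δ u v H using hex
  refine ⟨⟨u, v, x, y, δ, fun j => (H j).u_eq, fun j => (H j).v_eq, fun j => (H j).x_mem,
    fun j => (H j).u_mem, fun j => (H j).v_mem, fun j => (H j).uvu, fun j => (H j).vuv, ?_,
    fun j => (H j).high, fun j => (H j).low, (H _).mid rfl, ?_⟩⟩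
  · intro i j hij
    have h0 := e.nonneg Z.c (Z.pull ≫ Z.push) Z.cls i (j + 2 * (Z.c : ℤ)) (by omega)
    have h1 : u j ≫ v i = x j ≫ (e.p (j + 2 * (Z.c : ℤ)) ≫ (Z.pull ≫ Z.push) ≫ e.p i) ≫ y i := by
      rw [(H j).u_eq, (H i).v_eq]
      simp only [Category.assoc]
    rw [h1, h0, Limits.zero_comp, Limits.comp_zero]
  · intro j h1 h2
    constructor
    · rw [(H j).u_eq, h2, Limits.zero_comp, Limits.comp_zero]
    · rw [(H j).v_eq, h1, Limits.zero_comp, Limits.comp_zero]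

end Pool.Agent.LefCK
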