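import Mathlib
import Pool.Agent.LefCK.SysB
import Pool.Agent.LefCK.SplitA
import Pool.Agent.LefCK.SplitL
import Pool.Agent.LefCK.SplitB
import Pool.Agent.LefCK.CovB
import Pool.Agent.LefCK.QuoB
import Pool.Agent.LefCK.GenA
import Pool.Agent.LefCK.ProdH
import Pool.Agent.LefCK.AlgB

/-!
# Lefschetz-Chow-Kuenneth decompositions: the main theorem (assembly)
-/

open CategoryTheory MonoidalCategory TensorProduct

universe w v u

namespace Pool.Agent.LefCK

variable {C : Type u} [Category.{v} C] [Preadditive C] [Linear ℚ C]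
  [MonoidalCategory C] {F : Type w} [Field F]
  {K : Correspondences C F} {P : Pol C}

/-- The LCK of a zero locus. -/
def Split.toLCK {e : LCK K P} {Z : ZeroLocus K P} {S : Sys e Z} (T : Split S) : LCK K Z.pol where
  toCK := T.toCK
  mem_L := fun _ _ hL => hL.1
  nonneg := fun c L hL i j h => T.nonneg c L hL i j h
  hard := fun l hl h => T.hard l hl h

theorem zeroLocus (e : LCK K P) (Z : ZeroLocus K P) : ∃ q : LCK K Z.pol, ∀ l : ℤ,
    (e.toCK.MurreB l → e.toCK.MurreB (l + Z.c) → (q.toCK.MurreB l ↔ Z.WeakLefschetz l)) ∧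
    (2 * l < P.n - Z.c → e.toCK.MurreD l → q.toCK.MurreD l) ∧
    (P.n - Z.c < 2 * l → e.toCK.MurreD (l + Z.c) → q.toCK.MurreD l) := by
  obtain ⟨S⟩ := exists_sys e Z
  obtain ⟨T⟩ := exists_split S
  exact ⟨T.toLCK, fun l => ⟨fun h h' => ⟨T.weak_of_murreB l, T.murreB_of_weak l h h'⟩,
    T.murreD_low l, T.murreD_high l⟩⟩

theorem iterated [MonoidalPreadditive C] (W : Pol C → Prop)
    (hW : ∀ P, W P → Nonempty (LCK K P)) (P : Pol C) (hP : Iterated K W P) :
    Nonempty (LCK K P) := by
  induction hP with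
  | base h => exact hW _ h
  | cycles A => exact cyclesOffMiddle A
  | gen L' _ h ih => exact ih.elim (fun e => gen e L' h)
  | zeroLocus Z _ ih => exact ih.elim (fun e => (zeroLocus e Z).elim (fun q _ => ⟨q⟩))
  | covering Z _ ih => exact ih.elim (fun e => (covering e Z).elim (fun q _ => ⟨q⟩))
  | quotient Z _ ih => exact ih.elim (fun e => (quotient e Z).elim (fun q _ => ⟨q⟩))
  | prod _ _ hL hL' ih ih' => exact ih.elim (fun e => ih'.elim (fun e' => product e e' hL hL'))

end Pool.Agent.LefCK
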