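import Mathlib
import Pool.Agent.LefCK.LowB
import Pool.Agent.LefCK.Main

/-!
# Murre's conjectures in low degrees: assembly
-/

open CategoryTheory MonoidalCategory TensorProduct

universe w v u

namespace Pool.Agent.LefCK

variable {C : Type u} [Category.{v} C] [Preadditive C] [Linear ℚ C]
  [MonoidalCategory C] {F : Type w} [Field F]
  {K : Correspondences C F} {D : Divisors K} {P : Pol C}

/-- if `x ≫ p (2l) = 0`, then `x ∈ CH_l(X)` is homologically trivial -/
theorem low_hom {X : C} (e : CK K X) {l : ℤ} {x : 𝟙_ C ⟶ X} (hx : x ∈ CH K X l)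
    (h : x ≫ e.p (2 * l) = 0) : K.H.map x = 0 := by
  ext y
  show (K.H.map x).hom y = 0
  have h1 := K.map_gr hx 0 y (K.unit_gr y)
  have h2 : (0 : ℤ) - 2 * -l = 2 * l := by ring
  rw [h2] at h1
  have h3 := e.homology_self h1
  rw [← K.map_comp_apply, h, K.map_zero_apply] at h3
  exact h3.symm

theorem low_bounded (e : LCK K P) (S : LinearSections K D P) (l i : ℤ) (hi : P.n + l < i)
    (x : 𝟙_ C ⟶ P.X) (hx : x ∈ CH K P.X l) : x ≫ e.p i = 0 := by
  rcases lt_or_ge l 0 with hl | hl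
  · rw [D.low _ l hl x hx, Limits.zero_comp]
  rcases lt_or_ge P.n l with hn | hn
  · rw [D.high _ l (by rw [S.dim_eq]; exact hn) x hx, Limits.zero_comp]
  have hx0 : K.H.map (x ≫ e.p i) = 0 := low_map_p e.toCK (by omega) hx
  obtain ⟨s, hs⟩ : ∃ s : ℕ, (s : ℤ) = i - P.n := ⟨(i - P.n).toNat, by omega⟩
  have h1 : i = P.n + s := by omega
  subst h1
  refine low_shift e S s (by omega) hx (fun z hz _ _ => ?_) hx0
  rw [D.low _ _ (by omega) z hz, Limits.zero_comp]

theorem low_murreB (e : LCK K P) (S : LinearSections K D P) {t : ℤ}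
    (hT : ∀ l, P.n - t ≤ l → ByDivisors D (𝟙 P.X) l) (l : ℤ) (hl : l ≤ t + 1 ∨ P.n - t ≤ l) :
    e.toCK.MurreB l := by
  intro x hx i hi
  have hx0 : K.H.map (x ≫ e.p i) = 0 := low_map_p e.toCK (by omega) hx
  rcases lt_or_ge l (P.n - t) with h | h
  · exact low_level e S hT (by omega) (by omega) (by omega) hx hx0
  · exact low_ctrl e.toCK (hT l h) (by omega) hx hx0

theorem low_top' (S : LinearSections K D P) (l : ℤ) (hl : P.n - 1 ≤ l) :
    ByDivisors D (𝟙 P.X) l :=
  low_top_div (by rw [S.dim_eq]; exact hl)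

theorem low_murreD (e : LCK K P) (S : LinearSections K D P) {t : ℤ}
    (hT : ∀ l, P.n - t ≤ l → ByDivisors D (𝟙 P.X) l) (l : ℤ) (hl : l ≤ t ∨ P.n - t ≤ l) :
    e.toCK.MurreD l := by
  intro x hx hx1
  have hx0 : K.H.map (x ≫ e.p (2 * l)) = 0 := low_map_zero hx1 _
  rcases lt_or_ge l (P.n - t) with h | h
  · exact low_level e S hT (by omega) (by omega) (by omega) hx hx0
  · exact low_ctrl e.toCK (hT l h) (by omega) hx hx0

theorem low_filOne (e : LCK K P) (S : LinearSections K D P) {t : ℤ}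
    (hT : ∀ l, P.n - t ≤ l → ByDivisors D (𝟙 P.X) l) (l : ℤ)
    (hl : l ≤ t ∨ P.n - t ≤ l) (x : 𝟙_ C ⟶ P.X) :
    e.toCK.Fil 1 l x ↔ x ∈ CH K P.X l ∧ K.H.map x = 0 := by
  constructor
  · rintro ⟨hx, h⟩
    exact ⟨hx, low_hom e.toCK hx (h _ (by omega))⟩
  · rintro ⟨hx, h⟩
    refine ⟨hx, fun i hi => ?_⟩
    rcases lt_or_ge i (2 * l) with h1 | h1
    · exact low_murreB e S hT l (by omega) x hx i h1
    · have h2 : i = 2 * l := by omega
      rw [h2]
      exact low_murreD e S hT l hl x hx h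

theorem low_filTwo (e : LCK K P) (S : LinearSections K D P) (x : 𝟙_ C ⟶ P.X) :
    e.toCK.Fil 2 0 x ↔ (x ∈ CH K P.X 0 ∧ K.H.map x = 0) ∧
      ∀ (Y : C) (f : P.X ⟶ Y), D.dim Y = 1 → f ∈ K.deg P.X Y 0 → x ≫ f = 0 := by
  constructor
  · rintro ⟨hx, h⟩
    have hx0 : K.H.map x = 0 := low_hom e.toCK hx (h _ (by omega))
    refine ⟨⟨hx, hx0⟩, fun Y f hY hf => ?_⟩
    refine e.toCK.comp_eq_zero x f fun k => ?_
    by_cases hk : k = 1
    · rw [hk, ← Category.assoc, h 1 (by omega), Limits.zero_comp]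
    · refine D.albanese P.X Y (e.p k ≫ f) hY (K.comp_mem' (e.mem k) hf (add_zero 0))
        (fun y hy => ?_) x hx hx0
      rw [K.map_comp_apply, e.toCK.homology_ne (Ne.symm hk) hy, map_zero]
  · rintro ⟨⟨hx, hx0⟩, h⟩
    refine ⟨hx, fun i hi => ?_⟩
    rcases lt_or_ge i 1 with h1 | h1
    · exact ((low_filOne e S (t := 1) (low_top' S) 0 (Or.inl (by omega)) x).2 ⟨hx, hx0⟩).2 i
        (by omega)
    · have h2 : i = 1 := by omega
      subst h2
      rcases lt_or_ge 1 P.n with h3 | h3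
      · obtain ⟨s, hs⟩ : ∃ s : ℕ, (s : ℤ) = P.n - 1 := ⟨(P.n - 1).toNat, by omega⟩
        have hs0 : 0 < s := by omega
        have hsn : (s : ℤ) ≤ P.n := by omega
        obtain ⟨a, ha, b, hb, hab, -⟩ := low_factor e S s hs0 hsn
        have h4 : P.n - (s : ℤ) = 1 := by omega
        rw [h4] at hab
        rw [← hab, ← Category.assoc, h (S.Z s) a (by rw [S.dim_Z s hs0 hsn, h4]) ha,
          Limits.zero_comp]
      · have h5 : x = 0 := by
          rcases eq_or_lt_of_le h3 with h4 | h4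
          · have h6 := h P.X (𝟙 P.X) (by rw [S.dim_eq, h4]) (K.id_mem _)
            rwa [Category.comp_id] at h6
          · rcases lt_or_ge P.n 0 with h6 | h6
            · exact D.high _ 0 (by rw [S.dim_eq]; exact h6) x hx
            · have h7 : P.n = 0 := by omega
              refine D.fund P.X x ?_ hx0
              rw [S.dim_eq, h7]
              exact hx
        rw [h5, Limits.zero_comp]

theorem low_filDivisors (e : LCK K P) (l : ℤ)
    (hl : ByDivisors D (𝟙 P.X) l) (x : 𝟙_ C ⟶ P.X) (hx : e.toCK.Fil 2 l x) : x = 0 := by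
  have hx0 : K.H.map x = 0 := low_hom e.toCK hx.1 (hx.2 _ (by omega))
  rw [← Category.comp_id x]
  refine e.toCK.comp_eq_zero x (𝟙 _) fun k => ?_
  rw [Category.comp_id]
  rcases lt_or_ge k (2 * l + 2) with h | h
  · exact hx.2 k h
  · exact low_ctrl e.toCK hl (by omega) hx.1 (low_map_zero hx0 _)

/-- the filtration on a group `CH_l(X)` controlled by divisors, for any decomposition -/
theorem low_fil_iff {X : C} (e : CK K X) {l : ℤ} (hl : ByDivisors D (𝟙 X) l) (ν : ℤ)
    (x : 𝟙_ C ⟶ X) : e.Fil ν l x ↔ x ∈ CH K X l ∧ (0 < ν → K.H.map x = 0) ∧ (1 < ν → x = 0) := by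
  constructor
  · rintro ⟨hx, h⟩
    refine ⟨hx, fun hν => low_hom e hx (h _ (by omega)), fun hν => ?_⟩
    have hx0 : K.H.map x = 0 := low_hom e hx (h _ (by omega))
    rw [← Category.comp_id x]
    refine e.comp_eq_zero x (𝟙 _) fun k => ?_
    rw [Category.comp_id]
    rcases lt_or_ge k (2 * l + 2) with h1 | h1
    · exact h k (by omega)
    · exact low_ctrl e hl (by omega) hx (low_map_zero hx0 _)
  · rintro ⟨hx, h0, h1⟩
    refine ⟨hx, fun i hi => ?_⟩
    rcases le_or_gt ν 0 with h2 | h2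
    · exact low_ctrl e hl (by omega) hx (low_map_p e (by omega) hx)
    rcases le_or_gt ν 1 with h3 | h3
    · exact low_ctrl e hl (by omega) hx (low_map_zero (h0 h2) _)
    · rw [h1 h3, Limits.zero_comp]

theorem low_murreC {X : C} (e e' : CK K X) (l : ℤ) (hl : ByDivisors D (𝟙 X) l) (ν : ℤ)
    (x : 𝟙_ C ⟶ X) : e'.Fil ν l x ↔ e.Fil ν l x := by
  rw [low_fil_iff e hl, low_fil_iff e' hl]

theorem low_filTop (e : LCK K P) (S : LinearSections K D P) (l : ℤ) (x : 𝟙_ C ⟶ P.X)
    (hx : e.toCK.Fil (P.n - l + 1) l x) : x = 0 := by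
  rw [← Category.comp_id x]
  refine e.toCK.comp_eq_zero x (𝟙 _) fun k => ?_
  rw [Category.comp_id]
  rcases lt_or_ge (P.n + l) k with h | h
  · exact low_bounded e S l k h x hx.1
  · exact hx.2 k (by omega)

theorem lowDegree (e : LCK K P) (S : LinearSections K D P) : LowDegree D e.toCK P.n where
  piece := fun _ _ hi hD _ hx hx0 => low_piece e.toCK hi hD hx hx0
  low := fun _ hT _ _ hi hin hil _ hx hx0 => low_level e S hT hin hil hi hx hx0
  bounded := low_bounded e S
  murreB := fun _ hT l hl => low_murreB e S hT l hl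
  murreD := fun _ hT l hl => low_murreD e S hT l hl
  murreC := low_murreC e.toCK
  top := low_top' S
  allB := fun _ hT hn l => low_murreB e S hT l (by omega)
  allBD := fun _ hT hn l => ⟨low_murreB e S hT l (by omega), low_murreD e S hT l (by omega)⟩
  filOne := fun _ hT l hl => low_filOne e S hT l hl
  filTwo := low_filTwo e S
  filDivisors := low_filDivisors e
  filTop := low_filTop e S

end Pool.Agent.LefCK
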