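import Mathlib
import Pool.Agent.LefCK.Main

open CategoryTheory MonoidalCategory
open Pool.Agent.LefCK

universe w v u

/-- Formal setting: the objects of `C` are the smooth projective varieties over a field, the
morphisms are the correspondences with rational coefficients; `K` gives their degrees and a Weil
homology theory. `LCK K P`: the variety `P.X` has a Chow-Kuenneth decomposition (Murre's (A)) for which
hard Lefschetz holds at the level of Chow motives. This property holds for varieties whose homology
outside the middle degree is spanned by algebraic cycles, and it is inherited by smooth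
zero loci (ample divisors, complete intersections), coverings, quotients and products; for zero
loci, (B) for `CH_l` becomes equivalent to the weak Lefschetz property for `CH_l`, and (D) is inherited
outside of the middle dimension. -/
theorem Pool.Agent.LefCK.lefschetzArchive
    {C : Type u} [Category.{v} C] [Preadditive C] [Linear ℚ C] [MonoidalCategory C]
    [MonoidalPreadditive C] {F : Type w} [Field F] (K : Correspondences C F) :
    (∀ W : Pol C → Prop, (∀ P, W P → Nonempty (LCK K P)) →
      ∀ P, Iterated K W P → Nonempty (LCK K P)) ∧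
    (∀ (P : Pol C) (e : LCK K P) (Z : ZeroLocus K P), ∃ q : LCK K Z.pol, ∀ l : ℤ,
      (e.MurreB l → e.MurreB (l + Z.c) → (q.MurreB l ↔ Z.WeakLefschetz l)) ∧
      (2 * l < P.n - Z.c → e.MurreD l → q.MurreD l) ∧
      (P.n - Z.c < 2 * l → e.MurreD (l + Z.c) → q.MurreD l)) ∧
    (∀ (P : Pol C) (e : LCK K P) (Z : Covering K P), ∃ q : LCK K Z.pol, ∀ l : ℤ,
      (e.MurreB l → (q.MurreB l ↔ Z.WeakLefschetz l)) ∧
      (2 * l ≠ P.n → e.MurreD l → q.MurreD l)) ∧
    (∀ (P : Pol C) (e : LCK K P) (Z : Quotient K P), ∃ q : LCK K Z.pol, ∀ l : ℤ,
      (e.MurreB l → q.MurreB l) ∧ (e.MurreD l → q.MurreD l)) :=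
  ⟨fun W hW P hP => iterated W hW P hP, fun _ e Z => zeroLocus e Z, fun _ e Z => covering e Z,
    fun _ e Z => quotient e Z⟩
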