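import Mathlib
import Pool.Agent.LefCK.LowC

open CategoryTheory MonoidalCategory
open Pool.Agent.LefCK

universe w v u

/-- Formal setting: the objects of `C` are the smooth projective varieties over a field, the
morphisms are the correspondences with rational coefficients; `K` gives their degrees and a Weil
homology theory; `D`: classical facts on `CH_l(X)` for `l ≥ dim X - 1` and on the Albanese map.
Let `X`, of dimension `n`, have a Chow-Kuenneth decomposition with hard Lefschetz for Chow motives
(`LCK`) and smooth linear sections of all dimensions. Suppose that the cycles of codimension `≤ t` on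
`X` are controlled by divisors: this always holds for `t = 1`; for `t = 2` if `CH_0(X_Ω)` is supported
on a curve (Bloch-Srinivas); for any `t` if this holds for `CH_0(X_Ω), …, CH_{t-2}(X_Ω)`. Then (B)
holds for `CH_l` if `l ≤ t + 1` or `l ≥ n - t`, and (D) holds for `CH_l`, and Murre's `F^1 CH_l` is the
expected one, if `l ≤ t` or `l ≥ n - t`. So (A), (B) hold if `n ≤ 2t + 2`, and (A), (B), (D) hold if
`n ≤ 2t + 1`: in dimension `≤ 3`, and in dimension `≤ 5` if `CH_0(X_Ω)` is supported on a curve. This
applies to all varieties in the class `Iterated`. -/
theorem Pool.Agent.LefCK.lowArchive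
    {C : Type u} [Category.{v} C] [Preadditive C] [Linear ℚ C] [MonoidalCategory C]
    [MonoidalPreadditive C] {F : Type w} [Field F] (K : Correspondences C F) (D : Divisors K) :
    (∀ (P : Pol C) (e : LCK K P), LinearSections K D P → LowDegree D e.toCK P.n) ∧
    (∀ W : Pol C → Prop, (∀ P, W P → Nonempty (LCK K P)) →
      ∀ P, Iterated K W P → LinearSections K D P → ∃ e : LCK K P, LowDegree D e.toCK P.n) :=
  ⟨fun _ e S => lowDegree e S, fun W hW P hP S =>
    (iterated W hW P hP).elim fun e => ⟨e, lowDegree e S⟩⟩
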